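import Pool.Agent.H948_Strat.Stmts

/-!
T9: a maximal Gabriel filter not containing a given ideal (paper, (5.1)).
-/

universe w

namespace H948

section

variable {M : Type w} [CommMonoid M] [SemilatticeSup M] [OrderBot M]

theorem T9_colon_idl (hm : ∀ a b c : M, a ≤ b → a * c ≤ b * c)
    (hd : ∀ a b c : M, (a ⊔ b) * c ≤ a * c ⊔ b * c) (hb : ∀ a : M, ⊥ * a ≤ ⊥) {K : Set M}
    (hK : IsIdl K) (r : M) : IsIdl (colon K r) where
  bot := hK.lower _ _ (hb r) hK.bot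
  lower a b hab h := hK.lower _ _ (hm a b r hab) h
  sup a b ha hb' := hK.lower _ _ (hd a b r) (hK.sup _ _ ha hb')

theorem T9_colon_colon (K : Set M) (r s : M) : colon (colon K r) s = colon K (s * r) := by
  ext x
  simp [colon, mul_assoc]

theorem T9_colon_mono {K K' : Set M} (h : K ⊆ K') (r : M) : colon K r ⊆ colon K' r :=
  fun _ hx => h hx

theorem T9_colon_one (K : Set M) : colon K 1 = K := by
  ext x
  simp [colon]

/-- principal ideals -/
theorem T9_iic (q : M) : IsIdl (Set.Iic q) where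
  bot := bot_le
  lower _ _ hab h := hab.trans h
  sup _ _ ha hb := sup_le ha hb

theorem T9_univ : IsIdl (Set.univ : Set M) where
  bot := trivial
  lower _ _ _ _ := trivial
  sup _ _ _ _ := trivial

/-- multiplicative, upward closed sets disjoint from `A` -/
structure T9_Ms (A B : Set M) : Prop where
  one : (1 : M) ∈ B
  mul : ∀ a b, a ∈ B → b ∈ B → a * b ∈ B
  up : ∀ a b, a ≤ b → a ∈ B → b ∈ B
  disj : ∀ a, a ∈ B → a ∉ A

theorem T9_exB (hl : ∀ a : M, a ≤ 1) (A : Set M) (h1 : (1 : M) ∉ A) :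
    ∃ B : Set M, T9_Ms A B ∧ ∀ B', T9_Ms A B' → B ⊆ B' → B' ⊆ B := by
  obtain ⟨m, -, hm⟩ := zorn_subset_nonempty {B : Set M | T9_Ms A B} (by
    rintro c hc hch ⟨b₀, hb₀⟩
    refine ⟨⋃₀ c, ⟨⟨b₀, hb₀, (hc hb₀).one⟩, ?_, ?_, ?_⟩, fun s hs => Set.subset_sUnion_of_mem hs⟩
    · rintro a b ⟨s, hs, ha⟩ ⟨t, ht, hb⟩
      rcases hch.total hs ht with h | h
      · exact ⟨t, ht, (hc ht).mul _ _ (h ha) hb⟩
      · exact ⟨s, hs, (hc hs).mul _ _ ha (h hb)⟩
    · rintro a b hab ⟨s, hs, ha⟩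
      exact ⟨s, hs, (hc hs).up _ _ hab ha⟩
    · rintro a ⟨s, hs, ha⟩
      exact (hc hs).disj a ha) {1} (by
    refine ⟨rfl, ?_, ?_, ?_⟩
    · rintro a b ha hb
      rw [Set.mem_singleton_iff] at ha hb ⊢
      rw [ha, hb, mul_one]
    · rintro a b hab ha
      rw [Set.mem_singleton_iff] at ha ⊢
      exact le_antisymm (hl b) (ha ▸ hab)
    · rintro a ha
      rw [Set.mem_singleton_iff] at ha
      rwa [ha])
  exact ⟨m, hm.1, fun B' hB' h => hm.2 hB' h⟩

/-- the multiplicative set generated by `B` and `q` -/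
theorem T9_adj (hm : ∀ a b c : M, a ≤ b → a * c ≤ b * c) {A B : Set M}
    (hA : IsIdl A) (hB : T9_Ms A B) (q : M) (h : ∀ n : ℕ, ∀ r ∈ B, q ^ n * r ∉ A) :
    T9_Ms A {x | ∃ n : ℕ, ∃ r ∈ B, q ^ n * r ≤ x} where
  one := ⟨0, 1, hB.one, by simp⟩
  mul := by
    rintro a b ⟨n, r, hr, h1⟩ ⟨m, r', hr', h2⟩
    refine ⟨n + m, r * r', hB.mul _ _ hr hr', ?_⟩
    have e : q ^ (n + m) * (r * r') = (q ^ n * r) * (q ^ m * r') := by
      rw [pow_add]; exact mul_mul_mul_comm _ _ _ _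
    rw [e]
    refine (hm _ _ _ h1).trans ?_
    rw [mul_comm a, mul_comm a]
    exact hm _ _ _ h2
  up := by
    rintro a b hab ⟨n, r, hr, h1⟩
    exact ⟨n, r, hr, h1.trans hab⟩
  disj := by
    rintro a ⟨n, r, hr, h1⟩ ha
    exact h n r hr (hA.lower _ _ h1 ha)

theorem agf : S_agf.{w} := by
  intro M _ _ _ hm hl hd hb A hA h1 H
  obtain ⟨B, hB, hmax⟩ := T9_exB hl A h1
  -- properties of `B`
  have hB1 : ∀ q, q ∉ B → ∃ n : ℕ, ∃ r ∈ B, q ^ n * r ∈ A := by
    intro q hq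
    by_contra hcon
    push Not at hcon
    have := hmax _ (T9_adj hm hA hB q hcon) (fun x hx => ⟨0, x, hx, by simp⟩)
    exact hq (this ⟨1, 1, hB.one, by simp⟩)
  have hB2 : ∀ t : M, (∀ b, t * b ∈ A → b ∈ A) → t ∈ B := by
    intro t ht
    by_contra hcon
    obtain ⟨n, r, hr, hn⟩ := hB1 t hcon
    have : ∀ n : ℕ, t ^ n * r ∈ A → r ∈ A := by
      intro n
      induction n with
      | zero => intro h; simpa using h
      | succ n ih =>
        intro h
        apply ih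
        apply ht
        rwa [← mul_assoc, ← pow_succ']
    exact hB.disj r hr (this n hn)
  -- the filter `G_B`
  set GB : Set (Set M) := {K | IsIdl K ∧ ∃ b ∈ B, b ∈ K} with hGB
  have hGBg : IsGab GB := by
    refine ⟨fun K hK => hK.1, ⟨T9_univ, 1, hB.one, trivial⟩, ?_, ?_⟩
    · rintro K ⟨_, b, hb, hbK⟩ K' hK' hKK'
      exact ⟨hK', b, hb, hKK' hbK⟩
    · rintro K ⟨_, b, hb, hbK⟩ K' hK' hr
      obtain ⟨_, s, hs, hsb⟩ := hr b hbK
      exact ⟨hK', s * b, hB.mul _ _ hs hb, hsb⟩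
  have hGBA : A ∉ GB := by
    rintro ⟨_, b, hb, hbA⟩
    exact hB.disj b hb hbA
  obtain ⟨G, hG1, hG2⟩ := zorn_subset_nonempty {G : Set (Set M) | IsGab G ∧ GB ⊆ G ∧ A ∉ G} (by
    rintro c hc hch ⟨g₀, hg₀⟩
    set E : Set (Set M) := ⋃₀ c with hE
    have hEup : ∀ K ∈ E, ∀ K', IsIdl K' → K ⊆ K' → K' ∈ E := by
      rintro K ⟨g, hg, hK⟩ K' hK' hKK'
      exact ⟨g, hg, (hc hg).1.up K hK K' hK' hKK'⟩
    set Gh : Set (Set M) := {K | IsIdl K ∧ ∀ K', IsIdl K' → K ⊆ K' → (1 : M) ∉ K' →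
      ∃ s, s ∉ K' ∧ colon K' s ∈ E} with hGh
    have hEGh : E ⊆ Gh := by
      rintro K ⟨g, hg, hK⟩
      refine ⟨(hc hg).1.idl K hK, fun K' hK' hKK' h1' => ⟨1, h1', ?_⟩⟩
      rw [T9_colon_one]
      exact hEup K ⟨g, hg, hK⟩ K' hK' hKK'
    have hGhup : ∀ K ∈ Gh, ∀ K', IsIdl K' → K ⊆ K' → K' ∈ Gh := by
      rintro K ⟨_, hK⟩ K' hK' hKK'
      exact ⟨hK', fun K'' hK'' h => hK K'' hK'' (hKK'.trans h)⟩
    refine ⟨Gh, ⟨⟨fun K hK => hK.1, ⟨T9_univ, fun K' _ h h' => absurd (h trivial) h'⟩, hGhup, ?_⟩,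
      ?_, ?_⟩, fun g hg => (Set.subset_sUnion_of_mem hg).trans hEGh⟩
    · -- (G3)
      intro K hK K' hK' hr
      refine ⟨hK', fun K'' hK'' hKK h1' => ?_⟩
      by_cases hsub : K ⊆ K''
      · exact hK.2 K'' hK'' hsub h1'
      · obtain ⟨r, hrK, hrK''⟩ := Set.not_subset.mp hsub
        obtain ⟨s, hs1, hs2⟩ := (hr r hrK).2 (colon K'' r) (T9_colon_idl hm hd hb hK'' r)
          (T9_colon_mono hKK r) (fun h => hrK'' (by simpa [colon] using h))
        refine ⟨s * r, hs1, ?_⟩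
        rwa [T9_colon_colon] at hs2
    · exact ((hc hg₀).2.1.trans (Set.subset_sUnion_of_mem hg₀)).trans hEGh
    · -- `A` is not in it
      rintro ⟨_, hAG⟩
      have hτ : IsIdl {s : M | ∃ r ∈ B, s * r ∈ A} := by
        refine ⟨⟨1, hB.one, hA.lower _ _ (hb 1) hA.bot⟩, ?_, ?_⟩
        · rintro a b hab ⟨r, hr, h⟩
          exact ⟨r, hr, hA.lower _ _ (hm _ _ _ hab) h⟩
        · rintro a b ⟨r, hr, h⟩ ⟨r', hr', h'⟩
          refine ⟨r * r', hB.mul _ _ hr hr', hA.lower _ _ (hd _ _ _) (hA.sup _ _ ?_ ?_)⟩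
          · rw [← mul_assoc]
            refine hA.lower _ _ ?_ h
            rw [mul_comm (a * r)]
            exact (hm _ _ _ (hl r')).trans (by rw [one_mul])
          · rw [mul_comm r r', ← mul_assoc]
            refine hA.lower _ _ ?_ h'
            rw [mul_comm (b * r')]
            exact (hm _ _ _ (hl r)).trans (by rw [one_mul])
      obtain ⟨s, hs1, g, hg, hs2⟩ := hAG {s : M | ∃ r ∈ B, s * r ∈ A} hτ
        (fun x hx => ⟨1, hB.one, by simpa using hx⟩)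
        (by
          rintro ⟨r, hr, h⟩
          rw [one_mul] at h
          exact hB.disj r hr h)
      obtain ⟨hgG, hgB, hgA⟩ := hc hg
      obtain ⟨q, hq1, hq2⟩ := H s
      have hcol : ∀ r ∈ colon {s : M | ∃ r ∈ B, s * r ∈ A} s, colon (Set.Iic q) r ∈ g := by
        rintro r ⟨r', hr', h⟩
        obtain ⟨t, ht1, ht2⟩ := hq2 (r * r') (by rwa [mul_assoc, mul_comm r' s, ← mul_assoc])
        apply hgB
        refine ⟨T9_colon_idl hm hd hb (T9_iic q) r, r' * t, hB.mul _ _ hr' (hB2 t ht1), ?_⟩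
        change r' * t * r ≤ q
        rwa [mul_comm, ← mul_assoc]
      have hq3 : Set.Iic q ∈ g := hgG.g3 _ hs2 _ (T9_iic q) hcol
      by_cases hqB : q ∈ B
      · exact hs1 ⟨q, hqB, hq1⟩
      · obtain ⟨n, r, hr, hn⟩ := hB1 q hqB
        have hpow : ∀ n : ℕ, Set.Iic (q ^ n) ∈ g := by
          intro n
          induction n with
          | zero =>
            rw [pow_zero]
            exact hgG.up _ hq3 _ (T9_iic 1) (fun x _ => hl x)
          | succ n ih =>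
            refine hgG.g3 _ ih _ (T9_iic _) (fun x hx => ?_)
            refine hgG.up _ hq3 _ (T9_colon_idl hm hd hb (T9_iic _) x) (fun y hy => ?_)
            change y * x ≤ q ^ (n + 1)
            rw [pow_succ']
            refine (hm _ _ _ hy).trans ?_
            rw [mul_comm q, mul_comm q]
            exact hm _ _ _ hx
        apply hgA
        refine hgG.g3 _ (hpow n) _ hA (fun x hx => ?_)
        apply hgB
        refine ⟨T9_colon_idl hm hd hb hA x, r, hr, ?_⟩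
        change r * x ∈ A
        refine hA.lower _ _ ?_ hn
        rw [mul_comm r]
        exact hm _ _ _ hx) GB ⟨hGBg, subset_rfl, hGBA⟩
  refine ⟨G, hG2.1.1, hG2.1.2.2, fun G' hG' hGG' hAG' => ?_⟩
  exact hG2.2 ⟨hG', hG1.trans hGG', hAG'⟩ hGG'

end

end H948
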