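import Pool.Agent.H948_Strat.Stmts

/-!
Compact objects form a thick subcategory; Bousfield localization; generation statements.
-/

open CategoryTheory Limits MonoidalCategory Pretriangulated ZeroObject

universe v u

set_option linter.unusedSectionVars false
set_option linter.style.haveILetI false

namespace H948

section CptBasic

variable {C : Type u} [Category.{v} C] [Preadditive C] [HasZeroObject C] [HasShift C ℤ]
  [∀ n : ℤ, (shiftFunctor C n).Additive] [Pretriangulated C] [HasCoproducts.{v} C]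

open Classical in
lemma T2_sum_pi {c : C} {ι : Type v} {X : ι → C} (s : Finset ι) (g : ∀ i, c ⟶ X i) (j : ι) :
    (∑ i ∈ s, g i ≫ Sigma.ι X i) ≫ Sigma.π X j = if j ∈ s then g j else 0 := by
  rw [Preadditive.sum_comp]
  split_ifs with h
  · rw [Finset.sum_eq_single j]
    · rw [Category.assoc, Sigma.ι_π_eq_id, Category.comp_id]
    · intro b _ hb
      rw [Category.assoc, Sigma.ι_π_of_ne X hb, comp_zero]
    · intro h'
      exact absurd h h'
  · apply Finset.sum_eq_zero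
    intro b hb
    have hb' : b ≠ j := by
      rintro rfl
      exact h hb
    rw [Category.assoc, Sigma.ι_π_of_ne X hb', comp_zero]

open Classical in
/-- Maps which are finite sums of maps to summands. -/
lemma T2_fin_iff {c : C} {ι : Type v} {X : ι → C} (f : c ⟶ ∐ X) :
    (∃ (s : Finset ι) (g : ∀ i, c ⟶ X i), f = ∑ i ∈ s, g i ≫ Sigma.ι X i) ↔
    ∃ s : Finset ι, f = ∑ i ∈ s, (f ≫ Sigma.π X i) ≫ Sigma.ι X i := by
  constructor
  · rintro ⟨s, g, h⟩
    refine ⟨s, ?_⟩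
    conv_lhs => rw [h]
    apply Finset.sum_congr rfl
    intro i hi
    conv_rhs => rw [h, T2_sum_pi, if_pos hi]
  · rintro ⟨s, h⟩
    exact ⟨s, fun i => f ≫ Sigma.π X i, h⟩

open Classical in
/-- The sum of two finite sums is a finite sum. -/
lemma T2_fin_add {c : C} {ι : Type v} {X : ι → C} (s t : Finset ι) (g h : ∀ i, c ⟶ X i) :
    ∃ (r : Finset ι) (k : ∀ i, c ⟶ X i),
      ∑ i ∈ s, g i ≫ Sigma.ι X i + ∑ i ∈ t, h i ≫ Sigma.ι X i = ∑ i ∈ r, k i ≫ Sigma.ι X i := by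
  refine ⟨s ∪ t, fun i => (if i ∈ s then g i else 0) + (if i ∈ t then h i else 0), ?_⟩
  simp only [Preadditive.add_comp, Finset.sum_add_distrib]
  congr 1
  · rw [← Finset.sum_subset (Finset.subset_union_left (s₁ := s) (s₂ := t))]
    · apply Finset.sum_congr rfl
      intro i hi
      rw [if_pos hi]
    · intro i _ hi
      rw [if_neg hi, zero_comp]
  · rw [← Finset.sum_subset (Finset.subset_union_right (s₁ := s) (s₂ := t))]
    · apply Finset.sum_congr rfl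
      intro i hi
      rw [if_pos hi]
    · intro i _ hi
      rw [if_neg hi, zero_comp]

lemma T2_cpt_retract {c c' : C} (r : Retract c' c) (hc : IsCpt c) : IsCpt c' := by
  intro ι X f
  obtain ⟨s, g, h⟩ := hc ι X (r.r ≫ f)
  refine ⟨s, fun i => r.i ≫ g i, ?_⟩
  calc f = r.i ≫ (r.r ≫ f) := by rw [r.retract_assoc]
    _ = ∑ i ∈ s, (r.i ≫ g i) ≫ Sigma.ι X i := by
      rw [h, Preadditive.comp_sum]
      simp only [Category.assoc]

lemma T2_cpt_iso {c c' : C} (e : c ≅ c') (hc : IsCpt c) : IsCpt c' :=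
  T2_cpt_retract ⟨e.inv, e.hom, e.inv_hom_id⟩ hc

lemma T2_cpt_zero {c : C} (hc : IsZero c) : IsCpt c := by
  intro ι X f
  exact ⟨∅, fun i => 0, hc.eq_of_src _ _⟩

/-- Compact objects are stable under shifts. -/
lemma T2_cpt_shift {c : C} (hc : IsCpt c) (n : ℤ) : IsCpt (c⟦n⟧) := by
  intro ι X f
  let E := shiftEquiv C (-n)
  -- the counit/unit isomorphisms
  let e : ∀ Y : C, (Y⟦-n⟧)⟦n⟧ ≅ Y := fun Y => (shiftFunctorCompIsoId C (-n) n (by omega)).app Y
  have nat : ∀ {Y Z : C} (a : Y ⟶ Z), (a⟦-n⟧')⟦n⟧' ≫ (e Z).hom = (e Y).hom ≫ a := by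
    intro Y Z a
    exact (shiftFunctorCompIsoId C (-n) n (by omega)).hom.naturality a
  let ρ : ∐ X ⟶ (∐ fun i => (X i)⟦-n⟧)⟦n⟧ :=
    Sigma.desc fun i => (e (X i)).inv ≫ (Sigma.ι (fun i => (X i)⟦-n⟧) i)⟦n⟧'
  let σ₀ : (∐ fun i => (X i)⟦-n⟧) ⟶ (∐ X)⟦-n⟧ := Sigma.desc fun i => (Sigma.ι X i)⟦-n⟧'
  let σ : (∐ fun i => (X i)⟦-n⟧)⟦n⟧ ⟶ ∐ X := σ₀⟦n⟧' ≫ (e (∐ X)).hom
  have h1 : ∀ i, (Sigma.ι (fun i => (X i)⟦-n⟧) i)⟦n⟧' ≫ σ = (e (X i)).hom ≫ Sigma.ι X i := by
    intro i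
    simp only [σ]
    rw [← Category.assoc, ← Functor.map_comp]
    simp only [σ₀, Sigma.ι_desc]
    exact nat _
  have h2 : ρ ≫ σ = 𝟙 _ := by
    apply Sigma.hom_ext
    intro i
    simp only [ρ]
    rw [← Category.assoc, Sigma.ι_desc, Category.assoc, h1, Iso.inv_hom_id_assoc]
    exact (Category.comp_id _).symm
  obtain ⟨h, hh⟩ := (shiftFunctor C n).map_surjective (f ≫ ρ)
  obtain ⟨s, g, hg⟩ := hc ι _ h
  refine ⟨s, fun i => (g i)⟦n⟧' ≫ (e (X i)).hom, ?_⟩
  calc f = (f ≫ ρ) ≫ σ := by rw [Category.assoc, h2, Category.comp_id]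
    _ = (∑ i ∈ s, g i ≫ Sigma.ι (fun i => (X i)⟦-n⟧) i)⟦n⟧' ≫ σ := by rw [← hh, hg]
    _ = _ := by
      rw [Functor.map_sum, Preadditive.sum_comp]
      apply Finset.sum_congr rfl
      intro i _
      rw [Functor.map_comp, Category.assoc, h1, Category.assoc]

open Classical in
lemma T2_cpt_ext (T : Triangle C) (hT : T ∈ distTriang C) (h₁ : IsCpt T.obj₁)
    (h₃ : IsCpt T.obj₃) : IsCpt T.obj₂ := by
  intro ι X f
  obtain ⟨s, g, hg⟩ := h₁ ι X (T.mor₁ ≫ f)
  let p : T.obj₂ ⟶ ∐ X := ∑ i ∈ s, (f ≫ Sigma.π X i) ≫ Sigma.ι X i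
  have hp : T.mor₁ ≫ (f - p) = 0 := by
    rw [Preadditive.comp_sub, sub_eq_zero]
    simp only [p]
    rw [Preadditive.comp_sum]
    conv_lhs => rw [hg]
    apply Finset.sum_congr rfl
    intro i hi
    have : T.mor₁ ≫ f ≫ Sigma.π X i = g i := by
      rw [← Category.assoc, hg, T2_sum_pi, if_pos hi]
    rw [← Category.assoc, this]
  obtain ⟨h, hh⟩ := Triangle.yoneda_exact₂ T hT _ hp
  obtain ⟨t, k, hk⟩ := h₃ ι X h
  obtain ⟨r, l, hl⟩ := T2_fin_add s t (fun i => f ≫ Sigma.π X i) (fun i => T.mor₂ ≫ k i)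
  refine ⟨r, l, ?_⟩
  rw [← hl]
  have h4 : f = p + (f - p) := by abel
  conv_lhs => rw [h4, hh, hk, Preadditive.comp_sum]
  simp only [p, Category.assoc]

lemma T2_cpt_closed : ObjectProperty.IsClosedUnderIsomorphisms (C := C) IsCpt where
  of_iso e h := T2_cpt_iso e h

lemma T2_cpt_triang : ObjectProperty.IsTriangulated (C := C) IsCpt := by
  haveI := T2_cpt_closed (C := C)
  haveI : ObjectProperty.ContainsZero (C := C) IsCpt :=
    ⟨⟨0, isZero_zero C, T2_cpt_zero (isZero_zero C)⟩⟩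
  haveI : ObjectProperty.IsStableUnderShift (C := C) IsCpt ℤ :=
    { isStableUnderShiftBy := fun n => { le_shift := fun X hX => T2_cpt_shift hX n } }
  haveI : ObjectProperty.IsTriangulatedClosed₂ (C := C) IsCpt :=
    .mk' (fun T hT h₁ h₃ => T2_cpt_ext T hT h₁ h₃)
  exact {}

lemma T2_cpt_retr : ObjectProperty.IsStableUnderRetracts (C := C) IsCpt where
  of_retract r h := T2_cpt_retract r h

theorem cptTri : S_cptTri C := ⟨T2_cpt_closed, T2_cpt_triang, T2_cpt_retr⟩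

end CptBasic

section LocGenSec

variable {C : Type u} [Category.{v} C] [Preadditive C] [HasZeroObject C] [HasShift C ℤ]
  [∀ n : ℤ, (shiftFunctor C n).Additive] [Pretriangulated C] [HasCoproducts.{v} C]

lemma T2_locGen_mem {S : ObjectProperty C} {x : C} (h : S x) : LocGen S x :=
  fun _ _ hL => hL x h

lemma T2_locGen_isLoc (S : ObjectProperty C) : IsLoc (LocGen S) where
  iso := { of_iso := fun e h L hL hS => hL.iso.of_iso e (h L hL hS) }
  tri := by
    haveI : (LocGen S).IsClosedUnderIsomorphisms :=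
      { of_iso := fun e h L hL hS => hL.iso.of_iso e (h L hL hS) }
    have h0 : ∀ L : ObjectProperty C, IsLoc L → L 0 := by
      intro L hL
      haveI := hL.iso
      haveI := hL.tri
      exact L.prop_zero
    have h1 : ∀ L : ObjectProperty C, IsLoc L → ∀ (n : ℤ) (X : C), L X → L (X⟦n⟧) := by
      intro L hL n X hX
      haveI := hL.iso
      haveI := hL.tri
      exact L.le_shift n _ hX
    have h2 : ∀ L : ObjectProperty C, IsLoc L → ∀ (T : Triangle C), T ∈ distTriang C →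
        L T.obj₁ → L T.obj₃ → L T.obj₂ := by
      intro L hL T hT h₁ h₃
      haveI := hL.iso
      haveI := hL.tri
      exact L.ext_of_isTriangulatedClosed₂ T hT h₁ h₃
    haveI : (LocGen S).ContainsZero := ⟨⟨0, isZero_zero C, fun L hL hS => h0 L hL⟩⟩
    haveI : (LocGen S).IsStableUnderShift ℤ :=
      { isStableUnderShiftBy := fun n =>
          { le_shift := fun X hX L hL hS => h1 L hL n X (hX L hL hS) } }
    haveI : (LocGen S).IsTriangulatedClosed₂ := .mk' (fun T hT h₁ h₃ L hL hS =>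
      h2 L hL T hT (h₁ L hL hS) (h₃ L hL hS))
    exact {}
  coprod := fun ι X h L hL hS => hL.coprod ι X (fun i => h i L hL hS)

lemma T2_loc_isZero {L : ObjectProperty C} (hL : IsLoc L) {x : C} (hx : IsZero x) : L x := by
  haveI := hL.iso
  haveI := hL.tri
  exact L.prop_of_isZero hx

end LocGenSec

section Bousf

variable {C : Type u} [Category.{v} C] [Preadditive C] [HasZeroObject C] [HasShift C ℤ]
  [∀ n : ℤ, (shiftFunctor C n).Additive] [Pretriangulated C] [IsTriangulated C]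
  [HasCoproducts.{v} C]

/-- Coproducts of maps whose cone is in a localizing subcategory. -/
lemma T2_trW_coprod (hc : S_coprodTri C) {L : ObjectProperty C} (hL : IsLoc L) (ι : Type v)
    {X Y : ι → C} (f : ∀ i, X i ⟶ Y i) (hf : ∀ i, L.trW (f i)) :
    L.trW (Limits.Sigma.map f) := by
  choose Z g h mem hZ using hf
  obtain ⟨δ, hδ⟩ := hc ι (fun i => Triangle.mk (f i) (g i) (h i)) mem
  exact ⟨_, _, _, hδ, hL.coprod ι Z hZ⟩

/-- For the constant sequence the structure maps of a homotopy colimit are isomorphisms. -/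
lemma T2_const_iso (ho : HoAPI C) (X H : C) (i : ∀ _ : ℕ, X ⟶ H)
    (hH : IsHocolim (fun _ => X) (fun _ => 𝟙 X) H i) : IsIso (i 0) := by
  obtain ⟨h, hh⟩ := ho.desc _ _ H i hH X (fun _ => 𝟙 X) (fun _ => by simp)
  have hcomm : ∀ n, i (n + 1) = i n := fun n => by
    have := ho.comm _ _ H i hH n
    simpa using this
  have hall : ∀ n, i n = i 0 := by
    intro n
    induction n with
    | zero => rfl
    | succ n ih => rw [hcomm, ih]
  obtain ⟨δ, hδ⟩ := hH
  -- the retraction of the telescope map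
  let X' : ULift.{v} ℕ → C := fun _ => X
  let ρ : (∐ X') ⟶ (∐ X') :=
    Sigma.desc fun n => - ∑ j ∈ Finset.range n.down, Sigma.ι X' ⟨j⟩
  have hρ : telMap (fun _ => X) (fun _ => 𝟙 X) ≫ ρ = 𝟙 _ := by
    apply Sigma.hom_ext
    intro n
    rw [telMap, ← Category.assoc, Sigma.ι_desc, Preadditive.sub_comp, Category.id_comp]
    have e1 : ∀ m : ULift.{v} ℕ, Sigma.ι X' m ≫ ρ =
        - ∑ j ∈ Finset.range m.down, Sigma.ι X' ⟨j⟩ := fun m => Sigma.ι_desc _ _
    change Sigma.ι X' n ≫ ρ - Sigma.ι X' ⟨n.down + 1⟩ ≫ ρ = Sigma.ι X' n ≫ 𝟙 _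
    rw [e1, e1, Category.comp_id, Finset.sum_range_succ]
    abel
  have hδ0 : δ = 0 := by
    have h1 : δ ≫ (telMap (fun _ => X) (fun _ => 𝟙 X))⟦(1 : ℤ)⟧' = 0 :=
      comp_distTriang_mor_zero₃₁ _ hδ
    have h2 : (telMap (fun _ => X) (fun _ => 𝟙 X))⟦(1 : ℤ)⟧' ≫ ρ⟦(1 : ℤ)⟧' = 𝟙 _ := by
      rw [← Functor.map_comp, hρ, CategoryTheory.Functor.map_id]
    calc δ = δ ≫ (telMap (fun _ => X) (fun _ => 𝟙 X))⟦(1 : ℤ)⟧' ≫ ρ⟦(1 : ℤ)⟧' := by
          rw [h2]
          exact (Category.comp_id _).symm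
      _ = 0 := by rw [← Category.assoc, h1, zero_comp]
  have hk : h ≫ i 0 = 𝟙 H := by
    rw [← sub_eq_zero]
    have h3 : (Sigma.desc fun n : ULift.{v} ℕ => i n.down) ≫ (h ≫ i 0 - 𝟙 H) = 0 := by
      apply Sigma.hom_ext
      intro n
      rw [← Category.assoc, Sigma.ι_desc, Preadditive.comp_sub, ← Category.assoc, hh,
        Category.id_comp, Category.comp_id, hall n.down, sub_self, comp_zero]
    obtain ⟨k, hk⟩ := Triangle.yoneda_exact₃ _ hδ _ h3
    have h4 : ∀ k : (∐ fun n : ULift.{v} ℕ => X)⟦(1 : ℤ)⟧ ⟶ H, δ ≫ k = 0 := by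
      intro k
      rw [hδ0, zero_comp]
    rw [hk]
    exact h4 k
  exact ⟨h, hh 0, hk⟩

/-- If all maps of the sequence have their cone in `L` then there is such a map `X 0 ⟶ H`. -/
lemma T2_hocolim_trW (hc : S_coprodTri C) (ho : HoAPI C) {L : ObjectProperty C} (hL : IsLoc L)
    (X : ℕ → C) (f : ∀ n, X n ⟶ X (n + 1)) (hf : ∀ n, L.trW (f n)) (H : C) (i : ∀ n, X n ⟶ H)
    (hH : IsHocolim X f H i) : L.trW (i 0) := by
  haveI := hL.iso
  haveI := hL.tri
  obtain ⟨K, j, hj⟩ := ho.ex (fun _ => X 0) (fun _ => 𝟙 (X 0))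
  haveI hiso := T2_const_iso ho (X 0) K j hj
  -- the comparison maps
  let c : ∀ n, X 0 ⟶ X n := fun n => Nat.rec (𝟙 (X 0)) (fun m a => a ≫ f m) n
  have hc0 : c 0 = 𝟙 (X 0) := rfl
  have hcs : ∀ n, c (n + 1) = c n ≫ f n := fun n => rfl
  have hcW : ∀ n, L.trW (c n) := by
    intro n
    induction n with
    | zero => exact L.trW.id_mem _
    | succ n ih => exact L.trW.comp_mem _ _ ih (hf n)
  obtain ⟨δ, hδ⟩ := hj
  obtain ⟨δ', hδ'⟩ := hH
  let m : (∐ fun n : ULift.{v} ℕ => X 0) ⟶ (∐ fun n : ULift.{v} ℕ => X n.down) :=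
    Limits.Sigma.map fun n => c n.down
  have W : L.trW m := T2_trW_coprod hc hL (ULift.{v} ℕ) (fun n => c n.down) (fun n => hcW n.down)
  have hι : ∀ n, Sigma.ι (fun n : ULift.{v} ℕ => X 0) n ≫ m =
      c n.down ≫ Sigma.ι (fun n : ULift.{v} ℕ => X n.down) n := fun n => Sigma.ι_map _ _
  have comm : telMap (fun _ => X 0) (fun _ => 𝟙 (X 0)) ≫ m = m ≫ telMap X f := by
    apply Sigma.hom_ext
    intro n
    rw [telMap, telMap, ← Category.assoc, Sigma.ι_desc, ← Category.assoc, hι,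
      Category.assoc, Sigma.ι_desc, Preadditive.sub_comp, Preadditive.comp_sub,
      Category.id_comp, hι, hι, hcs, Category.assoc]
  obtain ⟨d, hd, h2⟩ : ∃ (d : K ⟶ H), L.trW d ∧ (Sigma.desc fun n : ULift.{v} ℕ => j n.down) ≫ d =
      m ≫ (Sigma.desc fun n : ULift.{v} ℕ => i n.down) := by
    obtain ⟨d, hd, hd2, hd3⟩ := MorphismProperty.compatible_with_triangulation (W := L.trW)
      _ _ hδ hδ' m m W W comm
    exact ⟨d, hd, hd2⟩
  have h1 : j 0 ≫ d = i 0 := by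
    have h3 : Sigma.ι (fun n : ULift.{v} ℕ => X 0) ⟨0⟩ ≫ (Sigma.desc fun n : ULift.{v} ℕ => j n.down) ≫ d
      = Sigma.ι (fun n : ULift.{v} ℕ => X 0) ⟨0⟩ ≫ m ≫ (Sigma.desc fun n : ULift.{v} ℕ => i n.down) := by
      rw [h2]
    rw [← Category.assoc, Sigma.ι_desc, ← Category.assoc, hι, Category.assoc, Sigma.ι_desc,
      hc0, Category.id_comp] at h3
    exact h3
  rw [← h1]
  exact L.trW.comp_mem _ _ (L.trW_of_isIso _) hd

lemma T2_step {ι : Type v} (D : ι → C) (X : C) :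
    ∃ (Y : C) (f : X ⟶ Y), (LocGen (fun x => ∃ i, Nonempty (x ≅ D i))).trW f ∧
      ∀ (i : ι) (g : D i ⟶ X), g ≫ f = 0 := by
  let J : Type v := Σ i : ι, (D i ⟶ X)
  let p : (∐ fun j : J => D j.1) ⟶ X := Sigma.desc fun j => j.2
  obtain ⟨Y, f, δ, h⟩ := distinguished_cocone_triangle p
  have hL := T2_locGen_isLoc (C := C) (fun x => ∃ i, Nonempty (x ≅ D i))
  haveI := hL.iso
  haveI := hL.tri
  refine ⟨Y, f, ?_, ?_⟩
  · rw [ObjectProperty.trW_iff']
    exact ⟨_, p, δ, h, hL.coprod J _ (fun j => T2_locGen_mem ⟨j.1, ⟨Iso.refl _⟩⟩)⟩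
  · intro i g
    have h1 : p ≫ f = 0 := comp_distTriang_mor_zero₁₂ _ h
    have h2 : Sigma.ι (fun j : J => D j.1) ⟨i, g⟩ ≫ p = g := Sigma.ι_desc _ _
    rw [← h2, Category.assoc, h1, comp_zero]

/-- Bousfield localization. -/
theorem bous (hc : S_coprodTri C) (ho : HoAPI C) : S_bous C := by
  intro ι D hD hsh X
  have hL := T2_locGen_isLoc (C := C) (fun x => ∃ i, Nonempty (x ≅ D i))
  haveI := hL.iso
  haveI := hL.tri
  choose nx nf hW hz using fun X : C => T2_step D X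
  let Y : ℕ → C := fun n => Nat.rec X (fun _ Z => nx Z) n
  let f : ∀ n, Y n ⟶ Y (n + 1) := fun n => nf (Y n)
  obtain ⟨R, i, hR⟩ := ho.ex Y f
  have h1 := T2_hocolim_trW hc ho hL Y f (fun n => hW (Y n)) R i hR
  rw [ObjectProperty.trW_iff'] at h1
  obtain ⟨L, a, δ, h, hLL⟩ := h1
  refine ⟨L, R, a, i 0, δ, h, hLL, ?_⟩
  intro j g
  obtain ⟨n, b, hb⟩ := ho.cpt Y f R i hR (D j) g (hD j)
  rw [hb, ← ho.comm Y f R i hR n, ← Category.assoc]
  have : b ≫ f n = 0 := hz (Y n) j b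
  rw [this, zero_comp]

theorem all_of (hb : S_bous C) (h : CptGen C) : S_all C := by
  intro L hL hcpt x
  haveI := hL.iso
  haveI := hL.tri
  obtain ⟨ι, G, hG, hgen⟩ := h
  let D : ι × ℤ → C := fun j => (G j.1)⟦j.2⟧
  have hD : ∀ j, IsCpt (D j) := fun j => T2_cpt_shift (hG j.1) j.2
  obtain ⟨K, R, a, b, δ, hT, hK, hR⟩ := hb (ι × ℤ) D hD (fun j n =>
    ⟨(j.1, j.2 + n), ⟨(shiftFunctorAdd C j.2 n).symm.app (G j.1)⟩⟩) x
  have hR0 : IsZero R := hgen R (fun i n f => hR (i, n) f)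
  have hKL : L K := hK L hL (by
    rintro s ⟨j, ⟨e⟩⟩
    exact L.prop_of_iso e.symm (hcpt _ (hD j)))
  exact L.ext_of_isTriangulatedClosed₂ _ hT hKL (T2_loc_isZero hL hR0)

theorem gen_of (h : CptGen C) :
    ∀ X : C, (∀ (c : C) (f : c ⟶ X), IsCpt c → f = 0) → IsZero X := by
  intro X hX
  obtain ⟨ι, G, hG, hgen⟩ := h
  exact hgen X (fun i n f => hX _ f (T2_cpt_shift (hG i) n))

end Bousf

end H948
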