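import Pool.Agent.H948_Strat.Base
import Pool.Agent.H948_Strat.Bous

/-!
The Balmer spectrum: existence of primes, Thomason subsets.
-/

open CategoryTheory Limits MonoidalCategory Pretriangulated ZeroObject

universe v u

set_option linter.unusedSectionVars false
set_option linter.style.haveILetI false

namespace H948

section Thick

variable {C : Type u} [Category.{v} C] [Preadditive C] [HasZeroObject C] [HasShift C ℤ]
  [∀ n : ℤ, (shiftFunctor C n).Additive] [Pretriangulated C] [MonoidalCategory C]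
  [HasCoproducts.{v} C]

lemma T13_of_iso {J : ObjectProperty C} (hJ : IsThickIdeal J) {x y : C} (e : x ≅ y) (h : J x) :
    J y := hJ.iso.of_iso e h

lemma T13_zero {J : ObjectProperty C} (hJ : IsThickIdeal J) {x : C} (h : IsZero x) : J x := by
  have := hJ.tri
  have := hJ.iso
  exact J.prop_of_isZero h

lemma T13_shift {J : ObjectProperty C} (hJ : IsThickIdeal J) {x : C} (n : ℤ) (h : J x) :
    J (x⟦n⟧) := by
  have := hJ.tri
  exact J.le_shift n x h

lemma T13_ext₂ {J : ObjectProperty C} (hJ : IsThickIdeal J) (T : Triangle C) (hT : T ∈ distTriang C)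
    (h₁ : J T.obj₁) (h₃ : J T.obj₃) : J T.obj₂ := by
  have := hJ.tri
  have := hJ.iso
  exact J.ext_of_isTriangulatedClosed₂ T hT h₁ h₃

lemma T13_retract {J : ObjectProperty C} (hJ : IsThickIdeal J) {x y : C} (r : Retract x y)
    (h : J y) : J x := hJ.retract.of_retract r h

/-- Constructor for thick ideals. -/
lemma T13_mk {J : ObjectProperty C} (hcpt : ∀ c, J c → IsCpt c)
    (hzero : ∀ x : C, IsZero x → J x) (hshift : ∀ (x : C) (n : ℤ), J x → J (x⟦n⟧))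
    (hext : ∀ T : Triangle C, T ∈ distTriang C → J T.obj₁ → J T.obj₃ → J T.obj₂)
    (hret : ∀ (x y : C), Retract x y → J y → J x)
    (hten : ∀ a b : C, IsCpt a → J b → J (a ⊗ b)) : IsThickIdeal J := by
  have i1 : J.IsClosedUnderIsomorphisms :=
    ⟨fun {x y} e h => hret y x ⟨e.inv, e.hom, e.inv_hom_id⟩ h⟩
  have i2 : J.ContainsZero := ⟨⟨(0 : C), isZero_zero C, hzero _ (isZero_zero C)⟩⟩
  have i3 : J.IsStableUnderShift ℤ := ⟨fun n => ⟨fun x hx => hshift x n hx⟩⟩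
  have i4 : J.IsTriangulatedClosed₂ := ObjectProperty.IsTriangulatedClosed₂.mk' hext
  have i5 : J.IsStableUnderRetracts := ⟨fun {x y} r h => hret x y r h⟩
  exact ⟨hcpt, i1, {}, i5, hten⟩

/-- Intersections of thick ideals. -/
lemma T13_inter {ι : Type*} (J : ι → ObjectProperty C) (hJ : ∀ i, IsThickIdeal (J i))
    (htc : ∀ a b : C, IsCpt a → IsCpt b → IsCpt (a ⊗ b)) :
    IsThickIdeal (fun x : C => IsCpt x ∧ ∀ i, J i x) := by
  refine T13_mk ?_ ?_ ?_ ?_ ?_ ?_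
  · intro c h
    exact h.1
  · intro x hx
    exact ⟨T2_cpt_zero hx, fun i => T13_zero (hJ i) hx⟩
  · intro x n hx
    exact ⟨T2_cpt_shift hx.1 n, fun i => T13_shift (hJ i) n (hx.2 i)⟩
  · intro T hT h₁ h₃
    exact ⟨T2_cpt_ext T hT h₁.1 h₃.1, fun i => T13_ext₂ (hJ i) T hT (h₁.2 i) (h₃.2 i)⟩
  · intro x y r hy
    exact ⟨T2_cpt_retract r hy.1, fun i => T13_retract (hJ i) r (hy.2 i)⟩
  · intro a b ha hb
    exact ⟨htc a b ha hb.1, fun i => (hJ i).tensor a b ha (hb.2 i)⟩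

end Thick

section Main

variable {C : Type u} [Category.{v} C] [Preadditive C] [HasZeroObject C] [HasShift C ℤ]
  [∀ n : ℤ, (shiftFunctor C n).Additive] [Pretriangulated C]
  [HasCoproducts.{v} C] [MonoidalCategory C] [SymmetricCategory C] [TensorExact C]

/-- The ideal quotient by an object. -/
lemma T13_colon (hR : RPkg C) {J : ObjectProperty C} (hJ : IsThickIdeal J) (b : C) :
    IsThickIdeal (fun y : C => IsCpt y ∧ J (y ⊗ b)) := by
  refine T13_mk ?_ ?_ ?_ ?_ ?_ ?_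
  · intro c h
    exact h.1
  · intro x hx
    exact ⟨T2_cpt_zero hx, T13_zero hJ (isZero_tensorR b hx)⟩
  · intro x n hx
    obtain ⟨e⟩ := tensorShiftR x b n
    exact ⟨T2_cpt_shift hx.1 n, T13_of_iso hJ e.symm (T13_shift hJ n hx.2)⟩
  · intro T hT h₁ h₃
    obtain ⟨δ, hδ⟩ := tensorTriR b T hT
    exact ⟨T2_cpt_ext T hT h₁.1 h₃.1, T13_ext₂ hJ _ hδ h₁.2 h₃.2⟩
  · intro x y r hy
    refine ⟨T2_cpt_retract r hy.1, T13_retract hJ (y := y ⊗ b) ⟨r.i ▷ b, r.r ▷ b, ?_⟩ hy.2⟩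
    rw [← comp_whiskerRight, r.retract, id_whiskerRight]
  · intro a c ha hc
    exact ⟨hR.cpt_tensor ha hc.1, T13_of_iso hJ (α_ a c b).symm (hJ.tensor a _ ha hc.2)⟩

/-- Thick ideals are radical. -/
lemma T13_radical (hR : RPkg C) {J : ObjectProperty C} (hJ : IsThickIdeal J) {x : C} (hx : IsCpt x)
    (h : J (x ⊗ x)) : J x := by
  obtain ⟨d, ⟨hd⟩⟩ := (hR.rigid x).1 hx
  have hdc : IsCpt d := (hR.rigid d).2 ⟨x, ⟨BraidedCategory.exactPairing_swap x d⟩⟩
  have h1 : J (x ⊗ (d ⊗ x)) := by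
    refine T13_of_iso hJ ?_ (hJ.tensor d _ hdc h)
    exact (α_ d x x).symm ≪≫ whiskerRightIso (β_ d x) x ≪≫ α_ x d x
  refine T13_retract hJ (y := x ⊗ (d ⊗ x)) ⟨(λ_ x).inv ≫ η_ x d ▷ x ≫ (α_ _ _ _).hom,
    x ◁ ε_ x d ≫ (ρ_ x).hom, ?_⟩ h1
  simp only [Category.assoc]
  rw [ExactPairing.evaluation_coevaluation_assoc]
  simp

/-- Thick ideals: if it contains the unit it contains everything compact. -/
lemma T13_one {J : ObjectProperty C} (hJ : IsThickIdeal J) (h : J (𝟙_ C)) {x : C} (hx : IsCpt x) :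
    J x := T13_of_iso hJ (ρ_ x) (hJ.tensor x _ hx h)

theorem prime (hR : RPkg C) : S_prime C := by
  intro J hJ x hx hxJ
  obtain ⟨P, hJP, hP⟩ := zorn_le_nonempty₀ {I : ObjectProperty C | IsThickIdeal I ∧ ¬ I x} (by
    intro c hc hchain I₀ hI₀
    refine ⟨fun y => ∃ I ∈ c, I y, ⟨?_, ?_⟩, ?_⟩
    · refine T13_mk ?_ ?_ ?_ ?_ ?_ ?_
      · rintro y ⟨I, hI, hy⟩
        exact (hc hI).1.cpt y hy
      · intro y hy
        exact ⟨I₀, hI₀, T13_zero (hc hI₀).1 hy⟩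
      · rintro y n ⟨I, hI, hy⟩
        exact ⟨I, hI, T13_shift (hc hI).1 n hy⟩
      · rintro T hT ⟨I, hI, h₁⟩ ⟨I', hI', h₃⟩
        rcases hchain.total hI hI' with h | h
        · exact ⟨I', hI', T13_ext₂ (hc hI').1 T hT (h _ h₁) h₃⟩
        · exact ⟨I, hI, T13_ext₂ (hc hI).1 T hT h₁ (h _ h₃)⟩
      · rintro y z r ⟨I, hI, hz⟩
        exact ⟨I, hI, T13_retract (hc hI).1 r hz⟩
      · rintro a b ha ⟨I, hI, hb⟩
        exact ⟨I, hI, (hc hI).1.tensor a b ha hb⟩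
    · rintro ⟨I, hI, h⟩
      exact (hc hI).2 h
    · intro I hI y hy
      exact ⟨I, hI, hy⟩) J ⟨hJ, hxJ⟩
  have hPt : IsThickIdeal P := hP.prop.1
  have hPx : ¬ P x := hP.prop.2
  refine ⟨⟨P, hPt, fun h => hPx (T13_one hPt h hx), ?_⟩, fun a ha => hJP a ha, hPx⟩
  intro a b ha hb hab
  by_contra hcon
  obtain ⟨haP, hbP⟩ := not_or.1 hcon
  -- first step
  have h1 : P (x ⊗ b) := by
    by_contra hxb
    have hle : P ≤ fun y : C => IsCpt y ∧ P (y ⊗ b) := by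
      intro y hy
      exact ⟨hPt.cpt y hy, T13_of_iso hPt (β_ b y) (hPt.tensor b y hb hy)⟩
    have := hP.2 ⟨T13_colon hR hPt b, fun h => hxb h.2⟩ hle
    exact haP (this a ⟨ha, hab⟩)
  have h2 : P (x ⊗ x) := by
    by_contra hxx
    have hle : P ≤ fun y : C => IsCpt y ∧ P (y ⊗ x) := by
      intro y hy
      exact ⟨hPt.cpt y hy, T13_of_iso hPt (β_ x y) (hPt.tensor x y hx hy)⟩
    have := hP.2 ⟨T13_colon hR hPt x, fun h => hxx h.2⟩ hle
    exact hbP (this b ⟨hb, T13_of_iso hPt (β_ x b) h1⟩)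
  exact hPx (T13_radical hR hPt hx h2)

/-- The compact objects supported in a subset form a thick ideal. -/
theorem cptIn_thick (hR : RPkg C) : S_cptIn C := by
  intro Y
  have h := T13_inter (C := C) (fun P : {P : Spc C // P ∉ Y} => P.1.1) (fun P => P.1.2.1)
    (fun a b ha hb => hR.cpt_tensor ha hb)
  have : cptIn Y = fun x : C => IsCpt x ∧ ∀ i : {P : Spc C // P ∉ Y}, i.1.1 x := by
    funext a
    refine propext ⟨fun ⟨h1, h2⟩ => ⟨h1, fun i => ?_⟩, fun ⟨h1, h2⟩ => ⟨h1, fun P hP => ?_⟩⟩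
    · by_contra hcon
      exact i.2 (h2 hcon)
    · by_contra hcon
      exact hP (h2 ⟨P, hcon⟩)
  rw [this]
  exact h

/-- Membership in a prime of a tensor product. -/
lemma T13_mem_tensor (P : Spc C) {a b : C} (ha : IsCpt a) (hb : IsCpt b) :
    P.1 (a ⊗ b) ↔ P.1 a ∨ P.1 b := by
  constructor
  · exact P.2.2.2 a b ha hb
  · rintro (h | h)
    · exact T13_of_iso P.2.1 (β_ b a) (P.2.1.tensor b a hb h)
    · exact P.2.1.tensor a b ha h

/-- Membership in a prime of a direct sum. -/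
lemma T13_mem_biprod (P : Spc C) (a b : C) : P.1 (a ⊞ b) ↔ P.1 a ∧ P.1 b := by
  constructor
  · intro h
    exact ⟨T13_retract P.2.1 ⟨biprod.inl, biprod.fst, by simp⟩ h,
      T13_retract P.2.1 ⟨biprod.inr, biprod.snd, by simp⟩ h⟩
  · rintro ⟨h1, h2⟩
    exact T13_ext₂ P.2.1 _ (binaryBiproductTriangle_distinguished a b) h1 h2

/-- The sets `{P | a ∈ P}` form a basis of the topology. -/
lemma T13_basis (U : Set (Spc C)) (hU : IsOpen U) (Q : Spc C) (hQ : Q ∈ U) :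
    ∃ a : C, IsCpt a ∧ Q ∈ (supp a)ᶜ ∧ (supp a)ᶜ ⊆ U := by
  have key : ∀ U : Set (Spc C),
      TopologicalSpace.GenerateOpen {U | ∃ a : C, IsCpt a ∧ U = (supp a)ᶜ} U → ∀ Q ∈ U,
      ∃ a : C, IsCpt a ∧ Q ∈ (supp a)ᶜ ∧ (supp a)ᶜ ⊆ U := by
    intro U hU
    induction hU with
    | basic U h =>
      intro Q hQ
      obtain ⟨a, ha, rfl⟩ := h
      exact ⟨a, ha, hQ, subset_rfl⟩
    | univ =>
      intro Q _
      refine ⟨(0 : C), T2_cpt_zero (isZero_zero C), ?_, Set.subset_univ _⟩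
      intro h
      exact h (T13_zero Q.2.1 (isZero_zero C))
    | inter U V _ _ hU hV =>
      intro Q hQ
      obtain ⟨a, ha, h1, h2⟩ := hU Q hQ.1
      obtain ⟨b, hb, h3, h4⟩ := hV Q hQ.2
      have e : (supp (a ⊞ b) : Set (Spc C))ᶜ = (supp a)ᶜ ∩ (supp b)ᶜ := by
        ext P
        simp only [supp, Set.mem_compl_iff, Set.mem_ofPred_eq, not_not, Set.mem_inter_iff]
        exact T13_mem_biprod P a b
      refine ⟨a ⊞ b, T2_cpt_ext _ (binaryBiproductTriangle_distinguished a b) ha hb, ?_, ?_⟩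
      · rw [e]
        exact ⟨h1, h3⟩
      · rw [e]
        exact Set.inter_subset_inter h2 h4
    | sUnion S _ hS =>
      rintro Q ⟨U, hU, hQ⟩
      obtain ⟨a, ha, h1, h2⟩ := hS U hU Q hQ
      exact ⟨a, ha, h1, h2.trans (Set.subset_sUnion_of_mem hU)⟩
  exact key U hU Q hQ

/-- Closed sets with quasi-compact complement are supports. -/
lemma T13_closed (hR : RPkg C) (V : Set (Spc C)) (hV : IsClosed V) (hc : IsCompact Vᶜ) :
    ∃ b : C, IsCpt b ∧ supp b = V := by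
  obtain ⟨b, hb, h1, h2⟩ := hc.induction_on
    (p := fun t => ∃ b : C, IsCpt b ∧ t ⊆ (supp b)ᶜ ∧ (supp b)ᶜ ⊆ Vᶜ)
    ⟨𝟙_ C, hR.unit, Set.empty_subset _, fun P hP => absurd P.2.2.1 hP⟩
    (fun s t hst ⟨b, hb, h1, h2⟩ => ⟨b, hb, hst.trans h1, h2⟩)
    (by
      rintro s t ⟨b, hb, h1, h2⟩ ⟨b', hb', h1', h2'⟩
      have e : (supp (b ⊗ b') : Set (Spc C))ᶜ = (supp b)ᶜ ∪ (supp b')ᶜ := by
        ext P
        simp only [supp, Set.mem_compl_iff, Set.mem_ofPred_eq, not_not, Set.mem_union]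
        exact T13_mem_tensor P hb hb'
      refine ⟨b ⊗ b', hR.cpt_tensor hb hb', ?_, ?_⟩
      · rw [e]
        exact Set.union_subset_union h1 h1'
      · rw [e]
        exact Set.union_subset h2 h2')
    (by
      intro Q hQ
      obtain ⟨a, ha, h1, h2⟩ := T13_basis Vᶜ hV.isOpen_compl Q hQ
      refine ⟨(supp a)ᶜ, ?_, a, ha, subset_rfl, h2⟩
      exact mem_nhdsWithin_of_mem_nhds (IsOpen.mem_nhds
        (TopologicalSpace.isOpen_generateFrom_of_mem ⟨a, ha, rfl⟩) h1))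
  exact ⟨b, hb, compl_injective (subset_antisymm h2 h1)⟩

theorem cover (hR : RPkg C) : S_cover C := by
  rintro Y ⟨S, hS, rfl⟩ P ⟨V, hV, hP⟩
  obtain ⟨b, hb, rfl⟩ := T13_closed hR V (hS V hV).1 (hS V hV).2
  exact ⟨b, hb, hP, Set.subset_sUnion_of_mem hV⟩

end Main

end H948
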