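import Pool.Agent.H948_Strat.Stmts

/-!
Toolkit for tensor triangulated categories.
-/

set_option linter.unusedSectionVars false
set_option linter.style.haveILetI false
set_option linter.unusedSimpArgs false

open CategoryTheory Limits MonoidalCategory Pretriangulated ZeroObject

universe v u w

namespace H948

section Tri

variable {C : Type u} [Category.{v} C] [Preadditive C] [HasZeroObject C] [HasShift C ℤ]
  [∀ n : ℤ, (shiftFunctor C n).Additive] [Pretriangulated C]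

/-- An object `X` with `Hom(A, X) = 0` for all `A` is zero. -/
lemma isZero_of_id {X : C} (h : 𝟙 X = 0) : IsZero X := (IsZero.iff_id_eq_zero X).2 h

lemma eq_zero_of_isZero_src {X Y : C} (h : IsZero X) (f : X ⟶ Y) : f = 0 := h.eq_of_src _ _

lemma eq_zero_of_isZero_tgt {X Y : C} (h : IsZero Y) (f : X ⟶ Y) : f = 0 := h.eq_of_tgt _ _

variable [HasCoproducts.{v} C]

lemma IsLoc.of_iso {L : ObjectProperty C} (hL : IsLoc L) {x y : C} (e : x ≅ y) (h : L x) : L y :=
  hL.iso.of_iso e h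

lemma IsLoc.zero {L : ObjectProperty C} (hL : IsLoc L) {x : C} (h : IsZero x) : L x := by
  obtain ⟨z, hz, hz'⟩ := hL.tri.toContainsZero.exists_zero
  exact hL.of_iso (hz.iso h) hz'

lemma IsLoc.shift {L : ObjectProperty C} (hL : IsLoc L) {x : C} (n : ℤ) (h : L x) : L (x⟦n⟧) := by
  have := hL.tri
  exact L.le_shift n x h

lemma IsLoc.ext₂ {L : ObjectProperty C} (hL : IsLoc L) (T : Triangle C) (hT : T ∈ distTriang C)
    (h₁ : L T.obj₁) (h₃ : L T.obj₃) : L T.obj₂ := by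
  have := hL.tri
  have := hL.iso
  exact L.ext_of_isTriangulatedClosed₂ T hT h₁ h₃

lemma IsLoc.ext₃ {L : ObjectProperty C} (hL : IsLoc L) (T : Triangle C) (hT : T ∈ distTriang C)
    (h₁ : L T.obj₁) (h₂ : L T.obj₂) : L T.obj₃ := by
  have := hL.tri
  have := hL.iso
  exact L.ext_of_isTriangulatedClosed₃ T hT h₁ h₂

lemma IsLoc.ext₁ {L : ObjectProperty C} (hL : IsLoc L) (T : Triangle C) (hT : T ∈ distTriang C)
    (h₂ : L T.obj₂) (h₃ : L T.obj₃) : L T.obj₁ := by
  have := hL.tri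
  have := hL.iso
  exact L.ext_of_isTriangulatedClosed₁ T hT h₂ h₃

/-- Constructor for localizing subcategories. -/
lemma IsLoc.mk' {L : ObjectProperty C} (hiso : ∀ (x y : C), (x ≅ y) → L x → L y)
    (hzero : ∀ x : C, IsZero x → L x) (hshift : ∀ (x : C) (n : ℤ), L x → L (x⟦n⟧))
    (hext : ∀ T : Triangle C, T ∈ distTriang C → L T.obj₁ → L T.obj₃ → L T.obj₂)
    (hcop : ∀ (ι : Type v) (X : ι → C), (∀ i, L (X i)) → L (∐ X)) : IsLoc L := by
  have i1 : L.IsClosedUnderIsomorphisms := ⟨fun {x y} e h => hiso x y e h⟩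
  have i2 : L.ContainsZero := ⟨⟨(0 : C), isZero_zero C, hzero _ (isZero_zero C)⟩⟩
  have i3 : L.IsStableUnderShift ℤ := ⟨fun n => ⟨fun x hx => hshift x n hx⟩⟩
  have i4 : L.IsTriangulatedClosed₂ := ObjectProperty.IsTriangulatedClosed₂.mk' hext
  exact ⟨i1, {}, hcop⟩

/-- The objects without nonzero maps to the objects of a class closed under shifts. -/
lemma isLoc_leftPerp (K : ObjectProperty C) (hK : ∀ (c : C) (n : ℤ), K c → K (c⟦n⟧)) :
    IsLoc (fun x : C => ∀ (c : C) (g : x ⟶ c), K c → g = 0) := by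
  refine IsLoc.mk' ?_ ?_ ?_ ?_ ?_
  · intro x y e hx c g hc
    have := hx c (e.hom ≫ g) hc
    rwa [Preadditive.IsIso.comp_left_eq_zero] at this
  · intro x hx c g _
    exact hx.eq_of_src _ _
  · intro x n hx c g hc
    replace hx : ∀ (c : C) (g : x ⟶ c), K c → g = 0 := hx
    have h1 := hx (c⟦-n⟧) ((shiftFunctorCompIsoId C n (-n) (by simp)).inv.app x ≫ g⟦-n⟧') (hK c (-n) hc)
    have h2 : g⟦-n⟧' = 0 := (cancel_epi _).1 (h1.trans comp_zero.symm)
    exact (shiftFunctor C (-n)).map_injective (by rw [h2, Functor.map_zero])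
  · intro T hT h₁ h₃ c g hc
    obtain ⟨g', rfl⟩ := Triangle.yoneda_exact₂ T hT g (h₁ c _ hc)
    rw [h₃ c g' hc, comp_zero]
  · intro ι X hX c g hc
    refine Sigma.hom_ext _ _ fun i => ?_
    rw [comp_zero]
    exact hX i c _ hc

/-- Compact objects: maps to a coproduct of objects without maps from `c` vanish. -/
lemma IsCpt.hom_coprod_zero {c : C} (hc : IsCpt c) {ι : Type v} (X : ι → C)
    (h : ∀ (i : ι) (g : c ⟶ X i), g = 0) (f : c ⟶ ∐ X) : f = 0 := by
  obtain ⟨s, g, rfl⟩ := hc ι X f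
  exact Finset.sum_eq_zero fun i _ => by rw [h i (g i), zero_comp]

/-- The objects `x` without nonzero maps from the objects of a class of compact objects closed under shifts. -/
lemma isLoc_rightPerp (D : ObjectProperty C) (hcpt : ∀ c, D c → IsCpt c)
    (hD : ∀ (c : C) (n : ℤ), D c → D (c⟦n⟧)) :
    IsLoc (fun x : C => ∀ (d : C) (g : d ⟶ x), D d → g = 0) := by
  refine IsLoc.mk' ?_ ?_ ?_ ?_ ?_
  · intro x y e hx d g hd
    have := hx d (g ≫ e.inv) hd
    rwa [Preadditive.IsIso.comp_right_eq_zero] at this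
  · intro x hx c g _
    exact hx.eq_of_tgt _ _
  · intro x n hx d g hd
    replace hx : ∀ (d : C) (g : d ⟶ x), D d → g = 0 := hx
    have h1 := hx (d⟦-n⟧) (g⟦-n⟧' ≫ (shiftFunctorCompIsoId C n (-n) (by simp)).hom.app x) (hD d (-n) hd)
    have h2 : g⟦-n⟧' = 0 := (cancel_mono _).1 (h1.trans zero_comp.symm)
    exact (shiftFunctor C (-n)).map_injective (by rw [h2, Functor.map_zero])
  · intro T hT h₁ h₃ d g hd
    obtain ⟨g', rfl⟩ := Triangle.coyoneda_exact₂ T hT g (h₃ d _ hd)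
    rw [h₁ d g' hd, zero_comp]
  · intro ι X hX d g hd
    exact (hcpt d hd).hom_coprod_zero X (fun i g => hX i d g hd) g

end Tri

section Tensor

variable {C : Type u} [Category.{v} C] [Preadditive C] [HasZeroObject C] [HasShift C ℤ]
  [∀ n : ℤ, (shiftFunctor C n).Additive] [Pretriangulated C] [MonoidalCategory C] [TensorExact C]

/-- A chosen compatibility of `X ⊗ -` with shifts. -/
@[instance_reducible]
noncomputable def tCS (X : C) : (tensorLeft X).CommShift ℤ := (TensorExact.exact X).choose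

lemma tIT (X : C) : letI := tCS X; (tensorLeft X).IsTriangulated := (TensorExact.exact X).choose_spec

lemma tensorLeft_additive (X : C) : (tensorLeft X).Additive := by
  letI := tCS X
  haveI := tIT X
  infer_instance

/-- Tensoring a distinguished triangle. -/
lemma tensorTri (X : C) (T : Triangle C) (hT : T ∈ distTriang C) :
    ∃ δ : X ⊗ T.obj₃ ⟶ (X ⊗ T.obj₁)⟦(1 : ℤ)⟧,
      Triangle.mk (X ◁ T.mor₁) (X ◁ T.mor₂) δ ∈ distTriang C := by
  letI := tCS X
  haveI := tIT X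
  exact ⟨_, (tensorLeft X).map_distinguished T hT⟩

/-- `X ⊗ Y⟦n⟧ ≅ (X ⊗ Y)⟦n⟧`. -/
lemma tensorShift (X Y : C) (n : ℤ) : Nonempty (X ⊗ Y⟦n⟧ ≅ (X ⊗ Y)⟦n⟧) := by
  letI := tCS X
  exact ⟨((tensorLeft X).commShiftIso n).app Y⟩

section Symm

variable [SymmetricCategory C]

instance monoidalPreadditive : MonoidalPreadditive C where
  whiskerLeft_zero {X Y Z} := by
    haveI := tensorLeft_additive X
    exact (tensorLeft X).map_zero Y Z
  zero_whiskerRight {X Y Z} := by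
    haveI := tensorLeft_additive X
    have h : X ◁ (0 : Y ⟶ Z) = 0 := (tensorLeft X).map_zero Y Z
    rw [← cancel_epi (β_ X Y).hom, ← BraidedCategory.braiding_naturality_right, h, comp_zero, zero_comp]
  whiskerLeft_add {X Y Z} f g := by
    haveI := tensorLeft_additive X
    exact (tensorLeft X).map_add
  add_whiskerRight {X Y Z} f g := by
    haveI := tensorLeft_additive X
    have h : X ◁ (f + g) = X ◁ f + X ◁ g := (tensorLeft X).map_add
    rw [← cancel_epi (β_ X Y).hom, ← BraidedCategory.braiding_naturality_right, h,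
      Preadditive.comp_add, ← BraidedCategory.braiding_naturality_right,
      ← BraidedCategory.braiding_naturality_right, Preadditive.add_comp]

/-- Tensoring a distinguished triangle on the right. -/
lemma tensorTriR (X : C) (T : Triangle C) (hT : T ∈ distTriang C) :
    ∃ δ : T.obj₃ ⊗ X ⟶ (T.obj₁ ⊗ X)⟦(1 : ℤ)⟧,
      Triangle.mk (T.mor₁ ▷ X) (T.mor₂ ▷ X) δ ∈ distTriang C := by
  obtain ⟨δ, hδ⟩ := tensorTri X T hT
  refine ⟨(β_ T.obj₃ X).hom ≫ δ ≫ (β_ X T.obj₁).hom⟦(1 : ℤ)⟧', ?_⟩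
  refine isomorphic_distinguished _ hδ _ ?_
  refine Triangle.isoMk _ _ (β_ T.obj₁ X) (β_ T.obj₂ X) (β_ T.obj₃ X) ?_ ?_ ?_
  · exact BraidedCategory.braiding_naturality_left _ _
  · exact BraidedCategory.braiding_naturality_left _ _
  · change ((β_ T.obj₃ X).hom ≫ δ ≫ (β_ X T.obj₁).hom⟦(1 : ℤ)⟧') ≫ (β_ T.obj₁ X).hom⟦(1 : ℤ)⟧' =
      (β_ T.obj₃ X).hom ≫ δ
    rw [Category.assoc, Category.assoc, ← Functor.map_comp, SymmetricCategory.symmetry,
      CategoryTheory.Functor.map_id, Category.comp_id]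

/-- `X⟦n⟧ ⊗ Y ≅ (X ⊗ Y)⟦n⟧`. -/
lemma tensorShiftR (X Y : C) (n : ℤ) : Nonempty (X⟦n⟧ ⊗ Y ≅ (X ⊗ Y)⟦n⟧) := by
  obtain ⟨e⟩ := tensorShift Y X n
  exact ⟨β_ _ _ ≪≫ e ≪≫ (shiftFunctor C n).mapIso (β_ _ _)⟩

end Symm

lemma isZero_tensor (X : C) {Y : C} (h : IsZero Y) : IsZero (X ⊗ Y) := by
  haveI := tensorLeft_additive X
  exact (tensorLeft X).map_isZero h

lemma isZero_tensorR [SymmetricCategory C] (X : C) {Y : C} (h : IsZero Y) : IsZero (Y ⊗ X) :=
  (isZero_tensor X h).of_iso (β_ Y X)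

section Closed

variable [MonoidalClosed C] [HasCoproducts.{v} C]

/-- Tensoring commutes with coproducts. -/
lemma tensorCoprod (s : C) {ι : Type v} (X : ι → C) : Nonempty ((s ⊗ ∐ X) ≅ ∐ fun i => s ⊗ X i) :=
  ⟨(PreservesCoproduct.iso (tensorLeft s) X)⟩

lemma tensorCoprodR [SymmetricCategory C] (s : C) {ι : Type v} (X : ι → C) :
    Nonempty (((∐ X) ⊗ s) ≅ ∐ fun i => X i ⊗ s) := by
  obtain ⟨e⟩ := tensorCoprod s X
  exact ⟨β_ _ _ ≪≫ e ≪≫ Sigma.mapIso fun i => β_ _ _⟩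

/-- The inverse image of a localizing subcategory under `s ⊗ -` is localizing. -/
lemma isLoc_tensor {L : ObjectProperty C} (hL : IsLoc L) (s : C) : IsLoc (fun x : C => L (s ⊗ x)) := by
  refine IsLoc.mk' ?_ ?_ ?_ ?_ ?_
  · intro x y e hx
    exact hL.of_iso (whiskerLeftIso s e) hx
  · intro x hx
    exact hL.zero (isZero_tensor s hx)
  · intro x n hx
    obtain ⟨e⟩ := tensorShift s x n
    exact hL.of_iso e.symm (hL.shift n hx)
  · intro T hT h₁ h₃
    obtain ⟨δ, hδ⟩ := tensorTri s T hT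
    exact hL.ext₂ _ hδ h₁ h₃
  · intro ι X hX
    obtain ⟨e⟩ := tensorCoprod s X
    exact hL.of_iso e.symm (hL.coprod ι _ hX)

lemma isLoc_tensorR [SymmetricCategory C] {L : ObjectProperty C} (hL : IsLoc L) (s : C) :
    IsLoc (fun x : C => L (x ⊗ s)) := by
  refine IsLoc.mk' ?_ ?_ ?_ ?_ ?_
  · intro x y e hx
    exact hL.of_iso (whiskerRightIso e s) hx
  · intro x hx
    exact hL.zero (isZero_tensorR s hx)
  · intro x n hx
    obtain ⟨e⟩ := tensorShiftR x s n
    exact hL.of_iso e.symm (hL.shift n hx)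
  · intro T hT h₁ h₃
    obtain ⟨δ, hδ⟩ := tensorTriR s T hT
    exact hL.ext₂ _ hδ h₁ h₃
  · intro ι X hX
    obtain ⟨e⟩ := tensorCoprodR s X
    exact hL.of_iso e.symm (hL.coprod ι _ hX)

lemma isLoc_isZero : IsLoc (fun x : C => IsZero x) := by
  refine IsLoc.mk' ?_ ?_ ?_ ?_ ?_
  · intro x y e hx
    exact hx.of_iso e.symm
  · intro x hx
    exact hx
  · intro x n hx
    exact (shiftFunctor C n).map_isZero hx
  · intro T hT h₁ h₃
    exact Triangle.isZero₂_of_isZero₁₃ T hT h₁ h₃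
  · intro ι X hX
    rw [IsZero.iff_id_eq_zero]
    exact Sigma.hom_ext _ _ fun i => (hX i).eq_of_src _ _

end Closed

end Tensor

section R

variable {C : Type u} [Category.{v} C] [Preadditive C] [HasZeroObject C] [HasShift C ℤ]
  [∀ n : ℤ, (shiftFunctor C n).Additive] [Pretriangulated C] [MonoidalCategory C]
  [SymmetricCategory C] [HasCoproducts.{v} C]

/-- Duals of compact objects. -/
lemma RPkg.dual (hR : RPkg C) {k : C} (hk : IsCpt k) :
    ∃ kd : C, IsCpt kd ∧ Nonempty (ExactPairing kd k) ∧ Nonempty (ExactPairing k kd) := by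
  obtain ⟨d, ⟨h⟩⟩ := (hR.rigid k).1 hk
  have h' : ExactPairing d k := BraidedCategory.exactPairing_swap k d
  exact ⟨d, (hR.rigid d).2 ⟨k, ⟨h'⟩⟩, ⟨h'⟩, ⟨h⟩⟩

lemma RPkg.cpt_tensor (hR : RPkg C) {a b : C} (ha : IsCpt a) (hb : IsCpt b) : IsCpt (a ⊗ b) := by
  obtain ⟨a', ⟨h⟩⟩ := (hR.rigid a).1 ha
  obtain ⟨b', ⟨h'⟩⟩ := (hR.rigid b).1 hb
  exact (hR.rigid _).2 ⟨b' ⊗ a', ⟨ExactPairing.tensor⟩⟩

end R

end H948
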