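import Pool.Agent.H948_Strat.Local

/-!
The core theorem (RT) from the phantom tree, the tower, the sequence and the nilpotence theorems.
-/

set_option linter.unusedSectionVars false
set_option linter.style.haveILetI false
set_option linter.unusedSimpArgs false

open CategoryTheory Limits MonoidalCategory Pretriangulated ZeroObject

universe v u w

namespace H948

variable {C : Type u} [Category.{v} C] [Preadditive C] [HasZeroObject C] [HasShift C ℤ]
  [∀ n : ℤ, (shiftFunctor C n).Additive] [Pretriangulated C]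
  [MonoidalCategory C] [SymmetricCategory C] [MonoidalClosed C] [TensorExact C] [HasCoproducts.{v} C]

section

omit [HasZeroObject C] [HasShift C ℤ] [∀ n : ℤ, (shiftFunctor C n).Additive] [Pretriangulated C]
  [SymmetricCategory C] [MonoidalClosed C] [TensorExact C] [HasCoproducts.{v} C]
  [MonoidalCategory C]

lemma IsPh.comp_left {K : ObjectProperty C} {w x z : C} (ψ : w ⟶ x) {φ : x ⟶ z} (h : IsPh K φ) :
    IsPh K (ψ ≫ φ) := fun c g hc => by rw [Category.assoc, h c g hc, comp_zero]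

lemma IsPh.comp_right {K : ObjectProperty C} {x y z : C} {φ : x ⟶ y} (h : IsPh K φ) (ψ : y ⟶ z) :
    IsPh K (φ ≫ ψ) := fun c g hc => by rw [Category.assoc, h c _ hc]

end

lemma T16_curry_eq_zero {s x c : C} (g : s ⊗ x ⟶ c) (h : MonoidalClosed.curry g = 0) : g = 0 := by
  have h2 := congrArg MonoidalClosed.uncurry h
  rw [MonoidalClosed.uncurry_curry, MonoidalClosed.uncurry_eq, MonoidalPreadditive.whiskerLeft_zero,
    zero_comp] at h2
  exact h2

lemma IsPh.whiskerLeft {K : ObjectProperty C} (hK : IsColocCoideal K) {x z : C} {φ : x ⟶ z}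
    (h : IsPh K φ) (s : C) : IsPh K (s ◁ φ) := by
  intro c g hc
  apply T16_curry_eq_zero
  rw [MonoidalClosed.curry_natural_left]
  exact h _ _ (hK.hom s c hc)

lemma IsPh.whiskerRight {K : ObjectProperty C} (hK : IsColocCoideal K) {x z : C} {φ : x ⟶ z}
    (h : IsPh K φ) (s : C) : IsPh K (φ ▷ s) := by
  have h1 : φ ▷ s = (β_ x s).hom ≫ (s ◁ φ) ≫ (β_ s z).hom := by
    rw [← BraidedCategory.braiding_naturality_left_assoc, SymmetricCategory.symmetry,
      Category.comp_id]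
  rw [h1]
  exact ((h.whiskerLeft hK s).comp_right _).comp_left _

/-- The objects without maps to a coideal form a localizing ideal. -/
lemma T16_perp {K : ObjectProperty C} (hK : IsColocCoideal K) :
    IsLocIdeal (fun x : C => ∀ (c : C) (g : x ⟶ c), K c → g = 0) := by
  refine ⟨isLoc_leftPerp K (fun c n h => ?_), ?_⟩
  · have := hK.tri
    exact K.le_shift n c h
  · intro s x hx c g hc
    apply T16_curry_eq_zero
    exact hx _ _ (hK.hom s c hc)

/-- The class of objects killed by a map to the unit. -/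
lemma T16_act_iso {w : C} (q : w ⟶ 𝟙_ C) {A B : C} (r : Retract A B) (h : act q B = 0) :
    act q A = 0 := by
  have h1 : act q A = (w ◁ r.i) ≫ act q B ≫ r.r := by
    unfold act
    rw [Category.assoc, whisker_exchange_assoc, leftUnitor_naturality_assoc, r.retract,
      Category.comp_id]
  rw [h1, h, zero_comp, comp_zero]

lemma T16_act_tensor {w : C} (q : w ⟶ 𝟙_ C) {A : C} (B : C) (h : act q A = 0) :
    act q (A ⊗ B) = 0 := by
  have h1 : act q (A ⊗ B) = (α_ w A B).inv ≫ (act q A) ▷ B := by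
    unfold act
    monoidal
  rw [h1, h, MonoidalPreadditive.zero_whiskerRight, comp_zero]

lemma T16_act_tensorL {w : C} (q : w ⟶ 𝟙_ C) {A : C} (B : C) (h : act q A = 0) :
    act q (B ⊗ A) = 0 :=
  T16_act_iso q (Retract.ofIso (β_ B A)) (T16_act_tensor q B h)

/-- `kd ⊗ x` is a retract of `((kd ⊗ k) ⊗ x) ⊗ kd`. -/
noncomputable def T16_ret {k kd : C} (p : ExactPairing kd k) (x : C) :
    Retract (kd ⊗ x) (((kd ⊗ k) ⊗ x) ⊗ kd) :=
  ((T14_retract p).map (tensorRight x)).trans (Retract.ofIso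
    (α_ (kd ⊗ k) kd x ≪≫ whiskerLeftIso (kd ⊗ k) (β_ kd x) ≪≫ (α_ (kd ⊗ k) x kd).symm))

theorem core (hR : RPkg C) (htree : S_tree C) (htower : S_tower C) (hseq : S_seq C)
    (hnil : S_nil C) (hloc : S_local C) : S_core C := by
  rintro D e f ε η hF k hk hmin K hK KT ⟨c₀, hc₀, hne⟩ z hz
  have la := hloc D e f ε η hF
  have ps : PhSetting (IsLocal D) K :=
    { Tloc := la.locIdeal.toIsLoc
      Tprod := la.prod
      Kiso := hK.iso
      Ktri := hK.tri
      Kprod := hK.prod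
      KT := KT
      refl := fun x => ⟨f ⊗ x, (λ_ x).inv ≫ η ▷ x, la.loc x, fun t g ht => by
        obtain ⟨g', hg'⟩ := la.fac x t g ht
        exact ⟨g', by rw [hg', Category.assoc]⟩⟩ }
  -- local objects are absorbed by `f`
  have habs : ∀ y : C, IsLocal D y → Nonempty ((f ⊗ k) ⊗ y ≅ k ⊗ y) := by
    intro y hy
    have := la.iso y hy
    exact ⟨whiskerRightIso (β_ f k) y ≪≫ α_ k f y ≪≫
      whiskerLeftIso k (asIso ((λ_ y).inv ≫ η ▷ y)).symm⟩
  -- (3.1)
  have hP : ∀ y : C, IsLocal D y → (∀ (c' : C) (g : y ⟶ c'), K c' → g = 0) → IsZero (k ⊗ y) := by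
    intro y hy hyK
    by_contra hn
    have hL := T16_perp hK
    obtain ⟨i⟩ := habs y hy
    have h1 := hmin _ hL y hyK (fun h => hn (h.of_iso i.symm))
    refine hne ?_
    rw [IsZero.iff_id_eq_zero]
    have h2 : ∀ (a : C) (g : k ⊗ a ⟶ c₀), g = 0 := by
      intro a g
      obtain ⟨g', hg'⟩ := la.fac (k ⊗ a) c₀ g (KT c₀ hc₀)
      have h3 : ∀ (c : C) (g : f ⊗ (k ⊗ a) ⟶ c), K c → g = 0 := by
        have := hL.tensor a (f ⊗ k) h1
        exact hL.toIsLoc.of_iso (β_ a (f ⊗ k) ≪≫ α_ f k a) this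
      rw [hg', h3 c₀ g' hc₀, comp_zero, comp_zero]
    apply MonoidalClosed.uncurry_injective
    exact (h2 _ _).trans (h2 _ _).symm
  have hκ : ¬ IsZero (f ⊗ k) := by
    intro h
    refine hne ?_
    rw [IsZero.iff_id_eq_zero]
    apply MonoidalClosed.uncurry_injective
    have h2 : ∀ (a : C) (g : k ⊗ a ⟶ c₀), g = 0 := by
      intro a g
      obtain ⟨g', hg'⟩ := la.fac (k ⊗ a) c₀ g (KT c₀ hc₀)
      have h3 : IsZero (f ⊗ (k ⊗ a)) := (isZero_tensorR a h).of_iso (α_ f k a).symm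
      rw [hg', h3.eq_of_src g' 0, comp_zero, comp_zero]
    exact (h2 _ _).trans (h2 _ _).symm
  by_cases hph : ∀ (z : C) (φ : k ⟶ z), IsLocal D z → IsPh K φ → φ = 0
  · refine htower (IsLocal D) K ps k hk (fun x hx => hK.hom k x hx) ?_ z hz
    intro c z φ hc hz hφ
    obtain ⟨cd, hcd, ⟨p⟩, ⟨p'⟩⟩ := hR.dual hc
    have h1 : (tensorRightHomEquiv k c cd z) φ = 0 := by
      refine hph _ _ (la.locIdeal.toIsLoc.of_iso (β_ cd z) (la.locIdeal.tensor cd z hz)) ?_
      have h2 : (tensorRightHomEquiv k c cd z) φ =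
        (ρ_ k).inv ≫ k ◁ (ExactPairing.coevaluation c cd) ≫ (α_ k c cd).inv ≫ φ ▷ cd := rfl
      rw [h2]
      exact (((hφ.whiskerRight hK cd).comp_left _).comp_left _).comp_left _
    have h3 : (tensorRightHomEquiv k c cd z) 0 = 0 := by
      have h2 : (tensorRightHomEquiv k c cd z) 0 =
        (ρ_ k).inv ≫ k ◁ (ExactPairing.coevaluation c cd) ≫ (α_ k c cd).inv ≫
          (0 : k ⊗ c ⟶ z) ▷ cd := rfl
      rw [h2, MonoidalPreadditive.zero_whiskerRight, comp_zero, comp_zero, comp_zero]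
    exact (tensorRightHomEquiv k c cd z).injective (h1.trans h3.symm)
  · exfalso
    push Not at hph
    obtain ⟨z₁, φ, hz₁, hφ, hφ0⟩ := hph
    obtain ⟨x, a, hx, ha, hdom⟩ := htree (IsLocal D) K ps k z₁ φ hk hz₁ hφ hφ0
    obtain ⟨kd, hkd, ⟨p⟩, ⟨p'⟩⟩ := hR.dual hk
    have hX : IsLocal D (kd ⊗ x) := la.locIdeal.tensor kd x hx
    have hXne : ¬ IsZero (kd ⊗ x) := by
      intro h
      apply ha
      have := T14_adj_zero' (X := 𝟙_ C) (Z := x) p (fun g' => h.eq_of_tgt _ _) ((ρ_ k).hom ≫ a)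
      rw [← cancel_epi (ρ_ k).hom, this, comp_zero]
    obtain ⟨c, φ', hc, hneg⟩ := hseq D e f ε η hF k hk hκ (kd ⊗ x) (by
      intro w q hw hq
      obtain ⟨i⟩ := habs x hx
      have h1 : act q (k ⊗ x) = 0 :=
        T16_act_iso q (Retract.ofIso i.symm) (T16_act_tensor q x hq)
      have h2 : act q ((kd ⊗ k) ⊗ x) = 0 :=
        T16_act_iso q (Retract.ofIso (α_ kd k x)) (T16_act_tensorL q kd h1)
      exact T16_act_iso q (T16_ret p x) (T16_act_tensor q kd h2)) (by
      intro L hL hLX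
      refine hmin L hL (kd ⊗ x) hLX ?_
      intro h
      obtain ⟨i⟩ := habs (kd ⊗ x) hX
      have h1 : IsZero (k ⊗ (kd ⊗ x)) := h.of_iso i.symm
      apply hXne
      have h2 : IsZero (((kd ⊗ k) ⊗ x) ⊗ kd) := by
        refine (isZero_tensor kd h1).of_iso ?_
        exact α_ (kd ⊗ k) x kd ≪≫ α_ kd k (x ⊗ kd) ≪≫
          whiskerLeftIso kd (whiskerLeftIso k (β_ x kd))
      rw [IsZero.iff_id_eq_zero, ← (T16_ret p x).retract, h2.eq_of_tgt (T16_ret p x).i 0, zero_comp])
    obtain ⟨n, hn⟩ := hnil D e f ε η hF k kd hk ⟨p⟩ K hK KT hP x hx hdom c φ' hc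
    exact hneg n hn

end H948
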