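import Mathlib.CategoryTheory.Triangulated.Adjunction
import Mathlib.CategoryTheory.Triangulated.Orthogonal
import Mathlib.CategoryTheory.Triangulated.Yoneda
import Mathlib.CategoryTheory.Triangulated.Opposite.Functor
import Mathlib.CategoryTheory.Triangulated.Opposite.Triangulated
import Mathlib.CategoryTheory.Triangulated.LocalizingSubcategory
import Mathlib.CategoryTheory.Monoidal.Closed.Braided
import Mathlib.CategoryTheory.Monoidal.Rigid.Braided
import Mathlib.CategoryTheory.Monoidal.Preadditive
import Mathlib.CategoryTheory.Retract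
import Mathlib.Topology.Bases
import Mathlib.Topology.Compactness.Compact
import Mathlib.Order.Zorn
import Mathlib.Tactic

/-!
Definitions for the theorem that a stratified rigidly-compactly generated tensor triangulated category
with weakly noetherian spectrum is costratified.
-/

open CategoryTheory Limits MonoidalCategory Pretriangulated

universe v u

namespace H948

section Cat

variable (C : Type u) [Category.{v} C] [Preadditive C] [HasZeroObject C] [HasShift C ℤ]
  [∀ n : ℤ, (shiftFunctor C n).Additive] [Pretriangulated C]

/-- Minimal compatibility of a tensor product with a triangulation: each functor `X ⊗ -` is exact, i.e. it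
can be given natural isomorphisms with the shifts for which it preserves distinguished triangles. -/
class TensorExact [MonoidalCategory C] : Prop where
  exact : ∀ X : C, ∃ _h : (tensorLeft X).CommShift ℤ, (tensorLeft X).IsTriangulated

end Cat

section Compact

variable {C : Type u} [Category.{v} C] [Preadditive C] [HasCoproducts.{v} C]

/-- Compact objects: every map from `c` to a (small) coproduct is a finite sum of maps to summands. -/
def IsCpt (c : C) : Prop :=
  ∀ (ι : Type v) (X : ι → C) (f : c ⟶ ∐ X), ∃ (s : Finset ι) (g : ∀ i, c ⟶ X i),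
    f = ∑ i ∈ s, g i ≫ Sigma.ι X i

end Compact

/-- Rigid (dualizable) objects. -/
def IsRigid {C : Type u} [Category.{v} C] [MonoidalCategory C] (c : C) : Prop :=
  ∃ d : C, Nonempty (ExactPairing c d)

section Main

variable (C : Type u) [Category.{v} C] [Preadditive C] [HasZeroObject C] [HasShift C ℤ]
  [∀ n : ℤ, (shiftFunctor C n).Additive] [Pretriangulated C] [IsTriangulated C]
  [MonoidalCategory C] [SymmetricCategory C] [MonoidalClosed C] [HasCoproducts.{v} C]

/-- Rigidly-compactly generated: there is a set of compact objects generating `C`, the unit is compact, and the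
compact objects are exactly the rigid ones. -/
structure RigCptGen : Prop where
  gen : ∃ (ι : Type v) (G : ι → C), (∀ i, IsCpt (G i)) ∧
    ∀ X : C, (∀ (i : ι) (n : ℤ) (f : (G i)⟦n⟧ ⟶ X), f = 0) → IsZero X
  unit : IsCpt (𝟙_ C)
  rigid : ∀ c : C, IsCpt c ↔ IsRigid c

variable {C}

/-- Localizing subcategories: (replete) triangulated subcategories closed under small coproducts. -/
structure IsLoc (L : ObjectProperty C) : Prop where
  iso : L.IsClosedUnderIsomorphisms
  tri : L.IsTriangulated
  coprod : ∀ (ι : Type v) (X : ι → C), (∀ i, L (X i)) → L (∐ X)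

/-- Localizing ideals. -/
structure IsLocIdeal (L : ObjectProperty C) : Prop extends IsLoc L where
  tensor : ∀ s x : C, L x → L (s ⊗ x)

/-- Colocalizing coideals: (replete) triangulated subcategories closed under small products and
under all functors `[s, -]`. -/
structure IsColocCoideal (K : ObjectProperty C) : Prop where
  iso : K.IsClosedUnderIsomorphisms
  tri : K.IsTriangulated
  prod : ∀ (ι : Type v) (X : ι → C) (F : Fan X), Nonempty (IsLimit F) → (∀ i, K (X i)) → K F.pt
  hom : ∀ s x : C, K x → K ((ihom s).obj x)

/-- The localizing subcategory generated by a class of objects. -/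
def LocGen (S : ObjectProperty C) : ObjectProperty C :=
  fun x => ∀ L : ObjectProperty C, IsLoc L → (∀ s, S s → L s) → L x

/-- Thick tensor ideals of the category of compact objects. -/
structure IsThickIdeal (J : ObjectProperty C) : Prop where
  cpt : ∀ c, J c → IsCpt c
  iso : J.IsClosedUnderIsomorphisms
  tri : J.IsTriangulated
  retract : J.IsStableUnderRetracts
  tensor : ∀ a b : C, IsCpt a → J b → J (a ⊗ b)

variable (C)

/-- The Balmer spectrum: prime thick tensor ideals of the category of compact objects. -/
def Spc : Type u :=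
  {P : ObjectProperty C // IsThickIdeal P ∧ ¬ P (𝟙_ C) ∧
    ∀ a b : C, IsCpt a → IsCpt b → P (a ⊗ b) → P a ∨ P b}

variable {C}

/-- The support of an object: the primes not containing it (used for compact objects). -/
def supp (a : C) : Set (Spc C) := {P | ¬ P.1 a}

/-- The Zariski topology: the sets `{P | a ∈ P}`, `a` compact, form a basis of open sets. -/
instance : TopologicalSpace (Spc C) :=
  TopologicalSpace.generateFrom {U | ∃ a : C, IsCpt a ∧ U = (supp a)ᶜ}

/-- Thomason subsets: unions of closed sets with quasi-compact complement. -/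
def IsThomason (Y : Set (Spc C)) : Prop :=
  ∃ S : Set (Set (Spc C)), (∀ V ∈ S, IsClosed V ∧ IsCompact Vᶜ) ∧ Y = ⋃₀ S

/-- The compact objects supported in `Y`. -/
def cptIn (Y : Set (Spc C)) : ObjectProperty C := fun a => IsCpt a ∧ supp a ⊆ Y

/-- `e → 𝟙 → f → e⟦1⟧` is an idempotent triangle of `Y`: it is distinguished, `e ⊗ f = 0`, and the essential
image of `e ⊗ -` is the localizing subcategory generated by the compact objects supported in `Y`. -/
def IsIdemTriangle (Y : Set (Spc C)) (e f : C) : Prop :=
  ∃ (α : e ⟶ 𝟙_ C) (β : 𝟙_ C ⟶ f) (δ : f ⟶ e⟦(1 : ℤ)⟧), Triangle.mk α β δ ∈ distTriang C ∧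
    IsZero (e ⊗ f) ∧ ∀ x : C, LocGen (cptIn Y) x ↔ ∃ y : C, Nonempty (x ≅ e ⊗ y)

variable (C)

/-- Weakly noetherian spectrum: every point is `Y ∩ Zᶜ` with `Y`, `Z` Thomason. -/
def WeaklyNoetherian : Prop :=
  ∀ P : Spc C, ∃ Y Z : Set (Spc C), IsThomason Y ∧ IsThomason Z ∧ {P} = Y ∩ Zᶜ

variable {C}

/-- `g` is a model of the object `g_P = e_Y ⊗ f_Z`, `{P} = Y ∩ Zᶜ`. -/
def IsG (P : Spc C) (g : C) : Prop :=
  ∃ (Y Z : Set (Spc C)) (e e' f f' : C), IsThomason Y ∧ IsThomason Z ∧ {P} = Y ∩ Zᶜ ∧
    IsIdemTriangle Y e f' ∧ IsIdemTriangle Z e' f ∧ g = e ⊗ f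

open Classical in
/-- The object `g_P` (a choice of `e_Y ⊗ f_Z`; it is `𝟙` in case there is none, which never happens when the
spectrum is weakly noetherian). -/
noncomputable def gObj (P : Spc C) : C :=
  if h : ∃ g : C, IsG P g then h.choose else 𝟙_ C

/-- The support of an arbitrary object. -/
def Supp (t : C) : Set (Spc C) := {P | ¬ IsZero (gObj P ⊗ t)}

/-- The cosupport of an arbitrary object. -/
def Cosupp (t : C) : Set (Spc C) := {P | ¬ IsZero ((ihom (gObj P)).obj t)}

variable (C)

/-- Stratified: localizing ideals correspond bijectively to the subsets of the spectrum. -/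
def Stratified : Prop :=
  Function.Bijective (fun L : {L : ObjectProperty C // IsLocIdeal L} =>
    ({P | ∃ t : C, L.1 t ∧ P ∈ Supp t} : Set (Spc C)))

/-- Costratified: colocalizing coideals correspond bijectively to the subsets of the spectrum. -/
def Costratified : Prop :=
  Function.Bijective (fun K : {K : ObjectProperty C // IsColocCoideal K} =>
    ({P | ∃ t : C, K.1 t ∧ P ∈ Cosupp t} : Set (Spc C)))

end Main

end H948
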