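import Pool.Agent.H948_Strat.T3Base

/-!
Task T3: for an exact coproduct preserving functor `F`, maps from compact objects to `F a` come from
compact objects over `a`.
-/

open CategoryTheory Limits MonoidalCategory Pretriangulated
open scoped ZeroObject

universe v u

set_option linter.unusedSectionVars false

namespace H948

section Tri

variable {C : Type u} [Category.{v} C] [Preadditive C] [HasZeroObject C] [HasShift C ℤ]
  [∀ n : ℤ, (shiftFunctor C n).Additive] [Pretriangulated C] [HasCoproducts.{v} C]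

/-- The map `χ` comes from a compact object over `a`. -/
def T3_Com (F : C ⥤ C) {w a : C} (χ : w ⟶ F.obj a) : Prop :=
  ∃ (a₀ : C) (h : a₀ ⟶ a) (χ₀ : w ⟶ F.obj a₀), IsCpt a₀ ∧ χ = χ₀ ≫ F.map h

theorem T3_cpt_biprod {a b : C} (ha : IsCpt a) (hb : IsCpt b) : IsCpt (a ⊞ b) :=
  T3_cpt_ext _ (binaryBiproductTriangle_distinguished a b) ha hb

theorem T3_cpt_zero' : IsCpt (0 : C) := fun _ _ _ => ⟨∅, fun _ => 0, by
  rw [Finset.sum_empty]; exact (isZero_zero C).eq_of_src _ _⟩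

theorem T3_Com_zero (F : C ⥤ C) (w a : C) [F.Additive] : T3_Com F (0 : w ⟶ F.obj a) :=
  ⟨0, 0, 0, T3_cpt_zero', by simp⟩

theorem T3_Com_add (F : C ⥤ C) {w a : C} {χ χ' : w ⟶ F.obj a} (h : T3_Com F χ)
    (h' : T3_Com F χ') : T3_Com F (χ + χ') := by
  obtain ⟨a₀, f, χ₀, hc, rfl⟩ := h
  obtain ⟨a₁, f', χ₁, hc', rfl⟩ := h'
  refine ⟨a₀ ⊞ a₁, biprod.desc f f', χ₀ ≫ F.map biprod.inl + χ₁ ≫ F.map biprod.inr,
    T3_cpt_biprod hc hc', ?_⟩
  rw [Preadditive.add_comp, Category.assoc, Category.assoc, ← F.map_comp, ← F.map_comp]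
  simp

theorem T3_Com_sum (F : C ⥤ C) [F.Additive] {w a : C} {ι : Type*} (s : Finset ι)
    (χ : ι → (w ⟶ F.obj a)) (h : ∀ i ∈ s, T3_Com F (χ i)) : T3_Com F (∑ i ∈ s, χ i) := by
  classical
  induction s using Finset.induction_on with
  | empty => rw [Finset.sum_empty]; exact T3_Com_zero F w a
  | insert i s hi ih =>
    rw [Finset.sum_insert hi]
    exact T3_Com_add F (h i (Finset.mem_insert_self i s))
      (ih fun j hj => h j (Finset.mem_insert_of_mem hj))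

theorem T3_Com_map (F : C ⥤ C) {w a b : C} {χ : w ⟶ F.obj a} (h : T3_Com F χ) (f : a ⟶ b) :
    T3_Com F (χ ≫ F.map f) := by
  obtain ⟨a₀, g, χ₀, hc, rfl⟩ := h
  exact ⟨a₀, g ≫ f, χ₀, hc, by rw [F.map_comp, Category.assoc]⟩

/-- All maps from compact objects to `F a` come from compact objects over `a`. -/
def T3_S (F : C ⥤ C) : ObjectProperty C :=
  fun a => ∀ (w : C) (χ : w ⟶ F.obj a), IsCpt w → T3_Com F χ

/-- The auxiliary class. -/
def T3_QF (F : C ⥤ C) : ObjectProperty C :=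
  fun a => ∀ (a₀ N : C) (f : a₀ ⟶ a) (g : a ⟶ N) (δ : N ⟶ a₀⟦(1 : ℤ)⟧),
    Triangle.mk f g δ ∈ distTriang C → IsCpt a₀ → T3_S F N

theorem T3_S_cpt (F : C ⥤ C) {a : C} (ha : IsCpt a) : T3_S F a :=
  fun _ χ _ => ⟨a, 𝟙 a, χ, ha, by simp⟩

theorem T3_S_retract (F : C ⥤ C) {a b : C} (i : a ⟶ b) (r : b ⟶ a) (h : i ≫ r = 𝟙 a)
    (hb : T3_S F b) : T3_S F a := by
  intro w χ hw
  have := T3_Com_map F (hb w (χ ≫ F.map i) hw) r
  rwa [Category.assoc, ← F.map_comp, h, F.map_id, Category.comp_id] at this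

theorem T3_S_iso (F : C ⥤ C) {a b : C} (e : a ≅ b) (ha : T3_S F a) : T3_S F b :=
  T3_S_retract F e.inv e.hom e.inv_hom_id ha

theorem T3_S_coprod (F : C ⥤ C) [F.Additive] (ι : Type v) [PreservesColimitsOfShape (Discrete ι) F]
    (X : ι → C) (h : ∀ i, T3_S F (X i)) : T3_S F (∐ X) := by
  intro w χ hw
  obtain ⟨s, g, hg⟩ := hw ι (fun i => F.obj (X i)) (χ ≫ (PreservesCoproduct.iso F X).hom)
  have : χ = ∑ i ∈ s, g i ≫ F.map (Sigma.ι X i) := by
    rw [← cancel_mono (PreservesCoproduct.iso F X).hom, hg, Preadditive.sum_comp]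
    refine Finset.sum_congr rfl fun i _ => ?_
    have h1 : F.map (Sigma.ι X i) = Sigma.ι (fun i => F.obj (X i)) i ≫
        (PreservesCoproduct.iso F X).inv := by
      rw [PreservesCoproduct.inv_hom]
      exact (ι_comp_sigmaComparison F X i).symm
    rw [h1, Category.assoc, Category.assoc, Iso.inv_hom_id, Category.comp_id]
  rw [this]
  exact T3_Com_sum F s _ fun i _ => T3_Com_map F (h i w (g i) hw) _

theorem T3_S_unshift (F : C ⥤ C) [F.CommShift ℤ] {a : C} {n : ℤ} (h : T3_S F (a⟦n⟧)) : T3_S F a := by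
  intro w χ hw
  obtain ⟨b, f, χ₀, hb, h'⟩ := h (w⟦n⟧) ((shiftFunctor C n).map χ ≫ (F.commShiftIso n).inv.app a)
    (T3_cpt_shift w hw n)
  let e : b⟦-n⟧⟦n⟧ ≅ b := shiftNegShift b n
  obtain ⟨f', hf'⟩ := (shiftFunctor C n).map_surjective (e.hom ≫ f)
  obtain ⟨χ₁, hχ₁⟩ := (shiftFunctor C n).map_surjective
    (χ₀ ≫ F.map e.inv ≫ (F.commShiftIso n).hom.app (b⟦-n⟧))
  refine ⟨b⟦-n⟧, f', χ₁, T3_cpt_shift b hb (-n), (shiftFunctor C n).map_injective ?_⟩
  rw [Functor.map_comp, hχ₁, ← cancel_mono ((F.commShiftIso n).inv.app a), h']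
  have := (F.commShiftIso n).inv.naturality f'
  simp only [Functor.comp_map] at this
  rw [Category.assoc, this, hf', F.map_comp]
  simp

theorem T3_F_co₂ (F : C ⥤ C) [F.CommShift ℤ] [F.IsTriangulated] {a b c : C} {u : a ⟶ b}
    {v : b ⟶ c} {t : c ⟶ a⟦(1 : ℤ)⟧} (hT : Triangle.mk u v t ∈ distTriang C) {w : C}
    (k : w ⟶ F.obj b) (hk : k ≫ F.map v = 0) : ∃ l : w ⟶ F.obj a, k = l ≫ F.map u :=
  Triangle.coyoneda_exact₂ _ (F.map_distinguished _ hT) k hk

theorem T3_F_co₃ (F : C ⥤ C) [F.CommShift ℤ] [F.IsTriangulated] {a b c : C} {u : a ⟶ b}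
    {v : b ⟶ c} {t : c ⟶ a⟦(1 : ℤ)⟧} (hT : Triangle.mk u v t ∈ distTriang C) {w : C}
    (k : w ⟶ F.obj c) (hk : k ≫ F.map t = 0) : ∃ l : w ⟶ F.obj b, k = l ≫ F.map v :=
  Triangle.coyoneda_exact₃ _ (F.map_distinguished _ hT) k (by
    change k ≫ F.map t ≫ (F.commShiftIso (1 : ℤ)).hom.app a = 0
    rw [← Category.assoc, hk, zero_comp])

theorem T3_QF_S (F : C ⥤ C) {a : C} (h : T3_QF F a) : T3_S F a :=
  h 0 a 0 (𝟙 a) 0 (contractible_distinguished₁ a) T3_cpt_zero'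

theorem T3_QF_cpt (F : C ⥤ C) {a : C} (ha : IsCpt a) : T3_QF F a := by
  intro a₀ N f g δ hT ha₀
  have hcT := T3_cptTri (C := C)
  have hcI := T3_cpt_iso (C := C)
  exact T3_S_cpt F (ObjectProperty.ext_of_isTriangulatedClosed₃ (P := IsCpt) _ hT ha₀ ha)

theorem T3_QF_iso (F : C ⥤ C) {a b : C} (e : a ≅ b) (h : T3_QF F a) : T3_QF F b := by
  intro a₀ N f g δ hT ha₀
  exact h a₀ N (f ≫ e.inv) (e.hom ≫ g) δ (T3_isoTri hT (Iso.refl _) e (Iso.refl _) (by simp)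
    (by simp) (by simp)) ha₀

theorem T3_S_ext (F : C ⥤ C) [F.CommShift ℤ] [F.IsTriangulated] {a b c : C} {u : a ⟶ b}
    {v : b ⟶ c} {t : c ⟶ a⟦(1 : ℤ)⟧} (hT : Triangle.mk u v t ∈ distTriang C)
    (ha : T3_QF F a) (hc : T3_S F c) : T3_S F b := by
  intro w χ hw
  obtain ⟨c₀, h, x, hc₀, hx⟩ := hc w (χ ≫ F.map v) hw
  obtain ⟨M, p, m, hM⟩ := distinguished_cocone_triangle₂ (h ≫ t)
  obtain ⟨π, -, hπ⟩ := T3_complete₂ hM hT (𝟙 a) h (by rw [CategoryTheory.Functor.map_id, Category.comp_id])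
  have hSM : T3_S F M := ha _ _ _ _ _ (inv_rot_of_distTriang _ hM) (T3_cpt_shift c₀ hc₀ (-1))
  obtain ⟨y, hy⟩ := T3_F_co₃ F hM x (by
    rw [F.map_comp, ← Category.assoc, ← hx, Category.assoc, ← F.map_comp, T3_z₂₃ hT, F.map_zero,
      comp_zero])
  have h1 : T3_Com F (y ≫ F.map π) := T3_Com_map F (hSM w y hw) π
  obtain ⟨z, hz⟩ := T3_F_co₂ F hT (χ - y ≫ F.map π) (by
    rw [Preadditive.sub_comp, Category.assoc, ← F.map_comp, ← hπ, F.map_comp, ← Category.assoc,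
      ← hy, hx, sub_self])
  have h2 : T3_Com F (z ≫ F.map u) := T3_Com_map F (T3_QF_S F ha w z hw) u
  have h3 : χ = y ≫ F.map π + z ≫ F.map u := by rw [← hz]; abel
  rw [h3]
  exact T3_Com_add F h1 h2

theorem T3_QF_shift (F : C ⥤ C) [F.CommShift ℤ] {a : C} (h : T3_QF F a) (n : ℤ) :
    T3_QF F (a⟦n⟧) := by
  intro a₀ N f g δ hT ha₀
  have h1 : T3_QF F (a⟦n⟧⟦-n⟧) := T3_QF_iso F (shiftShiftNeg a n).symm h
  have h2 := Triangle.shift_distinguished _ hT (-n)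
  exact T3_S_unshift F (n := -n) (h1 _ _ _ _ _ h2 (T3_cpt_shift a₀ ha₀ (-n)))

end Tri

section Tri2

variable {C : Type u} [Category.{v} C] [Preadditive C] [HasZeroObject C] [HasShift C ℤ]
  [∀ n : ℤ, (shiftFunctor C n).Additive] [Pretriangulated C] [IsTriangulated C]
  [HasCoproducts.{v} C]

theorem T3_QF_ext (F : C ⥤ C) [F.CommShift ℤ] [F.IsTriangulated] {a b c : C} {u : a ⟶ b}
    {v : b ⟶ c} {t : c ⟶ a⟦(1 : ℤ)⟧} (hT : Triangle.mk u v t ∈ distTriang C)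
    (ha : T3_QF F a) (hc : T3_QF F c) : T3_QF F b := by
  intro b₀ N f g δ hN hb₀
  obtain ⟨Nc, g', δ', hNc⟩ := distinguished_cocone_triangle (f ≫ v)
  obtain H := Triangulated.someOctahedron rfl hN (T3_rot hT) hNc
  have h1 : Triangle.mk (u ≫ g) H.m₁ H.m₃ ∈ distTriang C := by
    refine T3_unrot ?_
    have := H.mem
    rwa [Preadditive.neg_comp, ← Functor.map_comp] at this
  exact T3_S_ext F h1 ha (hc _ _ _ _ _ hNc hb₀)

/-- Finite parts of coproducts. -/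
theorem T3_split (F : C ⥤ C) [F.CommShift ℤ] [F.IsTriangulated] {ι : Type v} (X : ι → C)
    (h : ∀ i, T3_QF F (X i)) (s : Finset ι) :
    ∃ (A : C) (i : A ⟶ ∐ X) (r : (∐ X) ⟶ A), i ≫ r = 𝟙 A ∧ r ≫ i = T3_psum X s ∧ T3_QF F A := by
  classical
  induction s using Finset.induction_on with
  | empty =>
    refine ⟨0, 0, 0, (isZero_zero C).eq_of_src _ _, ?_, T3_QF_cpt F T3_cpt_zero'⟩
    simp [T3_psum]
  | insert j s hj ih =>
    obtain ⟨A, i, r, hir, hri, hA⟩ := ih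
    have h1 : Sigma.ι X j ≫ r = 0 := by
      have : r = T3_psum X s ≫ r := by rw [← hri, Category.assoc, hir, Category.comp_id]
      rw [this, ← Category.assoc, T3_ι_psum_notMem X hj, zero_comp]
    have h2 : i ≫ T3_proj X j = 0 := by
      have : i = i ≫ T3_psum X s := by rw [← hri, ← Category.assoc, hir, Category.id_comp]
      rw [this, Category.assoc]
      have h3 : T3_psum X s ≫ T3_proj X j = 0 := by
        unfold T3_psum
        rw [Preadditive.sum_comp]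
        refine Finset.sum_eq_zero fun l hl => ?_
        have hne : l ≠ j := fun h' => hj (by rw [← h']; exact hl)
        rw [Category.assoc, T3_ι_proj_ne X hne, comp_zero]
      rw [h3, comp_zero]
    refine ⟨A ⊞ X j, biprod.desc i (Sigma.ι X j), biprod.lift r (T3_proj X j), ?_, ?_, ?_⟩
    · apply biprod.hom_ext
      · apply biprod.hom_ext'
        · simp [hir]
        · simp [h1]
      · apply biprod.hom_ext'
        · simp [h2]
        · simp [T3_ι_proj_self]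
    · rw [biprod.lift_desc, hri]
      unfold T3_psum
      rw [Finset.sum_insert hj, add_comm]
    · exact T3_QF_ext F (binaryBiproductTriangle_distinguished A (X j)) hA (h j)

theorem T3_S_split (F : C ⥤ C) [F.CommShift ℤ] [F.IsTriangulated] {a b c : C} {u : a ⟶ b}
    {v : b ⟶ c} (hT : Triangle.mk u v 0 ∈ distTriang C)
    (ha : T3_S F a) (hc : T3_S F c) : T3_S F b := by
  intro w χ hw
  obtain ⟨c₀, h, x, hc₀, hx⟩ := hc w (χ ≫ F.map v) hw
  obtain ⟨h', hh'⟩ := T3_co₃ hT h (comp_zero)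
  obtain ⟨z, hz⟩ := T3_F_co₂ F hT (χ - x ≫ F.map h') (by
    rw [Preadditive.sub_comp, Category.assoc, ← F.map_comp, ← hh', hx, sub_self])
  have h1 : T3_Com F (x ≫ F.map h') := ⟨c₀, h', x, hc₀, rfl⟩
  have h2 : T3_Com F (z ≫ F.map u) := T3_Com_map F (ha w z hw) u
  have h3 : χ = x ≫ F.map h' + z ≫ F.map u := by rw [← hz]; abel
  rw [h3]
  exact T3_Com_add F h1 h2

theorem T3_QF_coprod (F : C ⥤ C) [F.CommShift ℤ] [F.IsTriangulated] (ι : Type v)
    [PreservesColimitsOfShape (Discrete ι) F] (X : ι → C)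
    (h : ∀ i, T3_QF F (X i)) : T3_QF F (∐ X) := by
  intro a₀ N f g δ hN ha₀
  obtain ⟨s, hs⟩ := (T3_isCpt_iff a₀).1 ha₀ ι X f
  obtain ⟨A, i, r, hir, hri, hA⟩ := T3_split F X h s
  have hf : (f ≫ r) ≫ i = f := by
    rw [Preadditive.comp_sub, Category.comp_id, sub_eq_zero] at hs
    rw [Category.assoc, hri, ← hs]
  obtain ⟨Z, z, ζ, hZ⟩ := distinguished_cocone_triangle (f ≫ r)
  obtain ⟨R, q, ρ, hR⟩ := distinguished_cocone_triangle i
  have hmono : Mono i := ⟨fun a b hab => by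
    rw [← Category.comp_id a, ← hir, ← Category.assoc, hab, Category.assoc, hir,
      Category.comp_id]⟩
  have hρ : ρ = 0 := Triangle.mor₃_eq_zero_of_mono₁ _ hR hmono
  subst hρ
  have hSR : T3_S F R := by
    obtain ⟨q', hq'⟩ := T3_co₃ hR (𝟙 R) comp_zero
    exact T3_S_retract F q' q hq'.symm (T3_S_coprod F ι X fun j => T3_QF_S F (h j))
  obtain H := Triangulated.someOctahedron hf hZ hR hN
  have h1 : Triangle.mk H.m₁ H.m₃ 0 ∈ distTriang C := by
    have := H.mem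
    rwa [zero_comp] at this
  exact T3_S_split F h1 (hA _ _ _ _ _ hZ ha₀) hSR

theorem T3_QF_loc (F : C ⥤ C) [F.CommShift ℤ] [F.IsTriangulated]
    [∀ ι : Type v, PreservesColimitsOfShape (Discrete ι) F] : IsLoc (T3_QF F) where
  iso := ⟨fun e h => T3_QF_iso F e h⟩
  tri := by
    have : (T3_QF F).IsClosedUnderIsomorphisms := ⟨fun e h => T3_QF_iso F e h⟩
    exact
      { toContainsZero := ⟨0, isZero_zero C, T3_QF_cpt F T3_cpt_zero'⟩
        toIsStableUnderShift := ⟨fun n => ⟨fun y hy => T3_QF_shift F hy n⟩⟩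
        toIsTriangulatedClosed₂ := .mk' fun T hT ha hb => T3_QF_ext F hT ha hb }
  coprod := fun ι X h => T3_QF_coprod F ι X h

theorem fl (ha : S_all C) : S_fl C := by
  intro F _ _ _ w a χ hw
  exact T3_QF_S F (ha (T3_QF F) (T3_QF_loc F) (fun c hc => T3_QF_cpt F hc) a) w χ hw

end Tri2

end H948
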