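import Pool.Agent.H948_Strat.T3Base

/-!
Task T3: statement (0.5).
-/

open CategoryTheory Limits MonoidalCategory Pretriangulated

universe v u

set_option linter.unusedSectionVars false

namespace H948

section Tensor

variable {C : Type u} [Category.{v} C] [Preadditive C] [HasZeroObject C] [HasShift C ℤ]
  [∀ n : ℤ, (shiftFunctor C n).Additive] [Pretriangulated C] [IsTriangulated C]
  [HasCoproducts.{v} C] [MonoidalCategory C] [SymmetricCategory C] [MonoidalClosed C]
  [TensorExact C]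

theorem T3_tensor_preserves (Z : C) (ι : Type v) :
    PreservesColimitsOfShape (Discrete ι) (tensorLeft Z) :=
  have : PreservesColimits (tensorLeft Z) := (ihom.adjunction Z).leftAdjoint_preservesColimits
  inferInstance

theorem fl05 (hR : RPkg C) (hf : S_fl C) : S_fl05 C := by
  intro W Z w γ χ hw hχ
  obtain ⟨J, j, δ, hJ⟩ := distinguished_cocone_triangle₁ γ
  obtain ⟨hcs, htri⟩ := TensorExact.exact Z
  have hpres := fun ι : Type v => T3_tensor_preserves Z ι
  -- `χ` as a map to `Z ⊗ 𝟙`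
  have h0 : (χ ≫ (ρ_ Z).inv) ≫ (tensorLeft Z).map γ = 0 := by
    change (χ ≫ (ρ_ Z).inv) ≫ Z ◁ γ = 0
    rw [← leftUnitor_inv_braiding, Category.assoc, Category.assoc,
      ← BraidedCategory.braiding_naturality_left, ← Category.assoc (λ_ Z).inv, ← Category.assoc χ,
      hχ, zero_comp]
  obtain ⟨l, hl⟩ := Triangle.coyoneda_exact₂ _ ((tensorLeft Z).map_distinguished _ hJ)
    (χ ≫ (ρ_ Z).inv) h0
  obtain ⟨d, h, χ₀, hd, hχ₀⟩ := hf (tensorLeft Z) w J l hw
  refine ⟨d, h ≫ j, χ₀ ≫ (β_ Z d).hom, hd, ?_, ?_⟩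
  · rw [Category.assoc, T3_z₁₂ hJ, comp_zero]
  · have h1 : χ = (χ₀ ≫ Z ◁ h) ≫ Z ◁ j ≫ (ρ_ Z).hom := by
      have h2 : χ ≫ (ρ_ Z).inv = (χ₀ ≫ Z ◁ h) ≫ Z ◁ j := by
        rw [hχ₀] at hl
        exact hl
      rw [← Category.assoc, ← h2, Category.assoc, Iso.inv_hom_id, Category.comp_id]
    have h3 : (β_ Z d).hom ≫ (h ≫ j) ▷ Z = Z ◁ (h ≫ j) ≫ (β_ Z (𝟙_ C)).hom :=
      (BraidedCategory.braiding_naturality_right Z (h ≫ j)).symm
    rw [h1, act, Category.assoc, Category.assoc, ← Category.assoc (β_ Z d).hom, h3,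
      Category.assoc, braiding_leftUnitor, MonoidalCategory.whiskerLeft_comp, Category.assoc]

end Tensor

end H948
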