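import Pool.Agent.H948_Strat.T3Base

/-!
Task T3: maps from compact objects to the localizing subcategory generated by a triangulated
subcategory of compact objects factor through that subcategory.
-/

open CategoryTheory Limits MonoidalCategory Pretriangulated
open scoped ZeroObject

universe v u

set_option linter.unusedSectionVars false

namespace H948

section Tri

variable {C : Type u} [Category.{v} C] [Preadditive C] [HasZeroObject C] [HasShift C ℤ]
  [∀ n : ℤ, (shiftFunctor C n).Additive] [Pretriangulated C] [HasCoproducts.{v} C]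

/-- Maps which factor through an object of `D`. -/
def T3_Fac (D : ObjectProperty C) {w y : C} (g : w ⟶ y) : Prop :=
  ∃ (d : C) (a : w ⟶ d) (b : d ⟶ y), D d ∧ g = a ≫ b

theorem T3_D_biprod (D : ObjectProperty C) (h1 : D.IsClosedUnderIsomorphisms) (h2 : D.IsTriangulated)
    {a b : C} (ha : D a) (hb : D b) : D (a ⊞ b) :=
  D.ext_of_isTriangulatedClosed₂ _ (binaryBiproductTriangle_distinguished a b) ha hb

theorem T3_Fac_add (D : ObjectProperty C) (h1 : D.IsClosedUnderIsomorphisms) (h2 : D.IsTriangulated)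
    {w y : C} {g g' : w ⟶ y} (hg : T3_Fac D g) (hg' : T3_Fac D g') : T3_Fac D (g + g') := by
  obtain ⟨d, a, b, hd, rfl⟩ := hg
  obtain ⟨d', a', b', hd', rfl⟩ := hg'
  exact ⟨d ⊞ d', biprod.lift a a', biprod.desc b b', T3_D_biprod D h1 h2 hd hd', by simp⟩

theorem T3_Fac_zero (D : ObjectProperty C) (h1 : D.IsClosedUnderIsomorphisms) (h2 : D.IsTriangulated)
    (w y : C) : T3_Fac D (0 : w ⟶ y) :=
  ⟨0, 0, 0, D.prop_zero, by simp⟩

theorem T3_Fac_sum (D : ObjectProperty C) (h1 : D.IsClosedUnderIsomorphisms) (h2 : D.IsTriangulated)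
    {ι : Type*} (s : Finset ι) {w y : C} (g : ι → (w ⟶ y)) (hg : ∀ i ∈ s, T3_Fac D (g i)) :
    T3_Fac D (∑ i ∈ s, g i) := by
  classical
  induction s using Finset.induction_on with
  | empty => rw [Finset.sum_empty]; exact T3_Fac_zero D h1 h2 w y
  | insert i s hi ih =>
    rw [Finset.sum_insert hi]
    exact T3_Fac_add D h1 h2 (hg i (Finset.mem_insert_self i s))
      (ih fun j hj => hg j (Finset.mem_insert_of_mem hj))

/-- The class of objects all of whose maps from compact objects factor through `D`. -/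
def T3_Q (D : ObjectProperty C) : ObjectProperty C :=
  fun y => ∀ (w : C) (g : w ⟶ y), IsCpt w → T3_Fac D g

theorem T3_Q_iso (D : ObjectProperty C) : (T3_Q D).IsClosedUnderIsomorphisms where
  of_iso := by
    intro X Y e hX w g hw
    obtain ⟨d, a, b, hd, h⟩ := hX w (g ≫ e.inv) hw
    exact ⟨d, a, b ≫ e.hom, hd, by rw [← Category.assoc, ← h]; simp⟩

theorem T3_Q_coprod (D : ObjectProperty C) (h1 : D.IsClosedUnderIsomorphisms)
    (h2 : D.IsTriangulated) (ι : Type v) (X : ι → C) (h : ∀ i, T3_Q D (X i)) :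
    T3_Q D (∐ X) := by
  intro w g hw
  obtain ⟨s, f, rfl⟩ := hw ι X g
  refine T3_Fac_sum D h1 h2 s _ fun i _ => ?_
  obtain ⟨d, a, b, hd, h'⟩ := h i w (f i) hw
  exact ⟨d, a, b ≫ Sigma.ι X i, hd, by rw [h', Category.assoc]⟩

theorem T3_Q_shift (D : ObjectProperty C) (h2 : D.IsTriangulated) (y : C) (hy : T3_Q D y) (n : ℤ) :
    T3_Q D (y⟦n⟧) := by
  intro w g hw
  let G := shiftFunctor C (-n)
  let e : G.obj (y⟦n⟧) ≅ y := shiftShiftNeg y n
  obtain ⟨d, a, b, hd, h⟩ := hy (G.obj w) (G.map g ≫ e.hom) (T3_cpt_shift w hw (-n))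
  let ed : G.obj (d⟦n⟧) ≅ d := shiftShiftNeg d n
  obtain ⟨a', ha'⟩ := G.map_surjective (a ≫ ed.inv)
  obtain ⟨b', hb'⟩ := G.map_surjective (ed.hom ≫ b ≫ e.inv)
  refine ⟨d⟦n⟧, a', b', D.le_shift n _ hd, G.map_injective ?_⟩
  rw [Functor.map_comp, ha', hb']
  simp only [Category.assoc, Iso.inv_hom_id_assoc]
  rw [← Category.assoc, ← h]
  simp

theorem T3_Q_ext (D : ObjectProperty C) (hc : ∀ c, D c → IsCpt c)
    (h1 : D.IsClosedUnderIsomorphisms) (h2 : D.IsTriangulated) {x y z : C} {u : x ⟶ y}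
    {v : y ⟶ z} {t : z ⟶ x⟦(1 : ℤ)⟧} (hT : Triangle.mk u v t ∈ distTriang C)
    (ha : T3_Q D x) (hb : T3_Q D z) : T3_Q D y := by
  intro w g hw
  have hcT := T3_cptTri (C := C)
  have hcI := T3_cpt_iso (C := C)
  obtain ⟨d, p, q, hd, hpq⟩ := hb w (g ≫ v) hw
  obtain ⟨w', i, δ, hw'⟩ := distinguished_cocone_triangle₁ p
  have cw' : IsCpt w' := ObjectProperty.ext_of_isTriangulatedClosed₁ (P := IsCpt) _ hw' hw (hc d hd)
  have hip : i ≫ p = 0 := T3_z₁₂ hw'
  obtain ⟨h, hh⟩ := T3_co₂ hT (i ≫ g) (by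
    rw [Category.assoc, hpq, ← Category.assoc, hip, zero_comp])
  obtain ⟨d', p', q', hd', hpq'⟩ := ha w' h cw'
  obtain ⟨Q', j, k, hQ'⟩ := distinguished_cocone_triangle₂ (δ ≫ p'⟦(1 : ℤ)⟧')
  have dQ' : D Q' := D.ext_of_isTriangulatedClosed₂ _ hQ' hd' hd
  obtain ⟨φ, hφ1, hφ2⟩ := T3_complete₂ hw' hQ' p' (𝟙 d) (Category.id_comp _).symm
  obtain ⟨ρ, hρ⟩ := T3_yo₁ hQ' (q' ≫ u) (by
    have h0 : δ ≫ (i⟦(1 : ℤ)⟧') = 0 := T3_z₃₁ hw'
    have h3 : p' ≫ q' ≫ u = i ≫ g := by rw [hh, hpq', Category.assoc]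
    rw [Category.assoc, ← Functor.map_comp, h3, Functor.map_comp, ← Category.assoc, h0,
      zero_comp])
  obtain ⟨r, hr⟩ := T3_yo₂ hw' (g - φ ≫ ρ) (by
    rw [Preadditive.comp_sub, ← Category.assoc, hφ1, Category.assoc, ← hρ, hh, hpq',
      Category.assoc, sub_self])
  refine ⟨Q', φ, ρ + k ≫ r, dQ', ?_⟩
  rw [Category.comp_id] at hφ2
  rw [Preadditive.comp_add, ← Category.assoc φ k r, ← hφ2, ← hr]
  simp

theorem T3_Q_loc (D : ObjectProperty C) (hc : ∀ c, D c → IsCpt c)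
    (h1 : D.IsClosedUnderIsomorphisms) (h2 : D.IsTriangulated) : IsLoc (T3_Q D) where
  iso := T3_Q_iso D
  tri := by
    have := T3_Q_iso D
    exact
      { toContainsZero := ⟨0, isZero_zero C, fun w g _ => by
          rw [(isZero_zero C).eq_of_tgt g 0]; exact T3_Fac_zero D h1 h2 _ _⟩
        toIsStableUnderShift := ⟨fun n => ⟨fun y hy => T3_Q_shift D h2 y hy n⟩⟩
        toIsTriangulatedClosed₂ := .mk' fun T hT ha hb => T3_Q_ext D hc h1 h2 hT ha hb }
  coprod := T3_Q_coprod D h1 h2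


theorem flz : S_flz C := by
  intro D hc h1 h2 y hy w g hw
  exact hy (T3_Q D) (T3_Q_loc D hc h1 h2) (fun s hs w g _ => ⟨s, g, 𝟙 s, hs, by simp⟩) w g hw

end Tri

end H948
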