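import Pool.Agent.H948_Strat.Base

/-!
Property (H).
-/

set_option linter.unusedSectionVars false

open CategoryTheory Limits MonoidalCategory Pretriangulated ZeroObject

universe v u w

namespace H948

section T10mon

variable {C : Type u} [Category.{v} C] [MonoidalCategory C]

/-- naturality of the action -/
lemma T10_act_nat {w : C} (r : w ⟶ 𝟙_ C) {X Y : C} (χ : X ⟶ Y) :
    act r X ≫ χ = w ◁ χ ≫ act r Y := by
  unfold act
  rw [Category.assoc, ← leftUnitor_naturality, ← whisker_exchange_assoc]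

lemma T10_act_mul {v w : C} (s : v ⟶ 𝟙_ C) (r : w ⟶ 𝟙_ C) (X : C) :
    act (mulU s r) X = (α_ v w X).hom ≫ act s (w ⊗ X) ≫ act r X := by
  unfold act mulU act
  simp

lemma T10_mulU_eq {v w : C} (s : v ⟶ 𝟙_ C) (r : w ⟶ 𝟙_ C) :
    mulU s r = v ◁ r ≫ (ρ_ v).hom ≫ s := by
  unfold mulU act
  rw [Category.assoc, ← leftUnitor_naturality, ← whisker_exchange_assoc, unitors_equal,
    rightUnitor_naturality]

lemma T10_act_comp {w w' : C} (g : w ⟶ w') (r : w' ⟶ 𝟙_ C) (X : C) :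
    act (g ≫ r) X = g ▷ X ≫ act r X := by
  unfold act
  simp

variable [SymmetricCategory C]

/-- the action and the braiding -/
lemma T10_act_braid {w : C} (r : w ⟶ 𝟙_ C) (X : C) :
    act r X = (β_ w X).hom ≫ X ◁ r ≫ (ρ_ X).hom := by
  unfold act
  rw [← BraidedCategory.braiding_naturality_left_assoc, braiding_rightUnitor]

lemma T10_mulU_comm {v w : C} (s : v ⟶ 𝟙_ C) (r : w ⟶ 𝟙_ C) :
    mulU s r = (β_ v w).hom ≫ mulU r s := by
  rw [T10_mulU_eq r s]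
  unfold mulU
  rw [T10_act_braid, Category.assoc, Category.assoc]

/-- the exchange of the first two factors -/
noncomputable def T10_ex (w f X : C) : w ⊗ (f ⊗ X) ≅ f ⊗ (w ⊗ X) :=
  (α_ w f X).symm ≪≫ whiskerRightIso (β_ w f) X ≪≫ α_ f w X

lemma T10_ex_nat {w w' : C} (r : w ⟶ w') (f X : C) :
    r ▷ (f ⊗ X) ≫ (T10_ex w' f X).hom = (T10_ex w f X).hom ≫ f ◁ (r ▷ X) := by
  simp [T10_ex, ← comp_whiskerRight_assoc]

lemma T10_ex_unit (f X : C) :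
    (T10_ex (𝟙_ C) f X).hom ≫ f ◁ (λ_ X).hom = (λ_ (f ⊗ X)).hom := by
  simp [T10_ex]

/-- the action on a tensor product -/
lemma T10_act_tensor {w : C} (r : w ⟶ 𝟙_ C) (f X : C) :
    act r (f ⊗ X) = (T10_ex w f X).hom ≫ f ◁ act r X := by
  unfold act
  rw [MonoidalCategory.whiskerLeft_comp, ← T10_ex_unit, ← Category.assoc, T10_ex_nat, Category.assoc]

/-- the unit map on a tensor product -/
lemma T10_unit_tensor {f : C} (η : 𝟙_ C ⟶ f) (X Y : C) :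
    ((λ_ (X ⊗ Y)).inv ≫ η ▷ (X ⊗ Y)) ≫ (T10_ex f X Y).hom = X ◁ ((λ_ Y).inv ≫ η ▷ Y) := by
  rw [Category.assoc, T10_ex_nat, MonoidalCategory.whiskerLeft_comp, ← Category.assoc]
  congr 1
  rw [Iso.inv_comp_eq, ← T10_ex_unit, Category.assoc, ← MonoidalCategory.whiskerLeft_comp,
    Iso.hom_inv_id, MonoidalCategory.whiskerLeft_id, Category.comp_id]

/-- the fibre of the unit of a dual pair acts as zero -/
lemma T10_act_dual [Preadditive C] [MonoidalPreadditive C] {v d d' : C} [ExactPairing d d']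
    (t : v ⟶ 𝟙_ C) (h : t ≫ η_ d d' = 0) : act t d = 0 := by
  have h1 : act t d = t ▷ d ≫ (η_ d d' ▷ d ≫ (α_ d d' d).hom ≫ d ◁ ε_ d d') ≫ (ρ_ d).hom := by
    rw [ExactPairing.evaluation_coevaluation]
    simp [act]
  rw [h1]
  simp only [Category.assoc]
  rw [← comp_whiskerRight_assoc, h, MonoidalPreadditive.zero_whiskerRight, zero_comp]

end T10mon

section T10

variable {C : Type u} [Category.{v} C] [Preadditive C] [HasZeroObject C] [HasShift C ℤ]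
  [∀ n : ℤ, (shiftFunctor C n).Additive] [Pretriangulated C] [MonoidalCategory C]
  [SymmetricCategory C] [HasCoproducts.{v} C]

lemma T10_locGen (S : ObjectProperty C) : IsLoc (LocGen S) := by
  refine IsLoc.mk' ?_ ?_ ?_ ?_ ?_
  · exact fun x y e hx L hL hS => hL.of_iso e (hx L hL hS)
  · exact fun x hx L hL hS => hL.zero hx
  · exact fun x n hx L hL hS => hL.shift n (hx L hL hS)
  · exact fun T hT h1 h3 L hL hS => hL.ext₂ T hT (h1 L hL hS) (h3 L hL hS)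
  · exact fun ι X hX L hL hS => hL.coprod ι X fun i => hX i L hL hS

variable [TensorExact C]

/-- tensoring with the fibre of a coevaluation is invertible on objects killed by the dual pair -/
lemma T10_iso {v d d' : C} (g : 𝟙_ C ⟶ d ⊗ d') (t : v ⟶ 𝟙_ C) (δ : d ⊗ d' ⟶ v⟦(1 : ℤ)⟧)
    (hT : Triangle.mk t g δ ∈ distTriang C) (Z : C) (hZ : IsZero ((d ⊗ d') ⊗ Z)) :
    IsIso (act t Z) := by
  obtain ⟨δ', hδ'⟩ := tensorTriR Z _ hT
  have h1 : IsIso (t ▷ Z) := (Triangle.isZero₃_iff_isIso₁ _ hδ').1 hZ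
  unfold act
  infer_instance

variable [MonoidalClosed C]

theorem propH (hR : RPkg C) (hf : S_flz C) (_hl : S_local C) (hct : S_cptTri C) : S_H C := by
  intro D e f ε η hD k hk v s hv
  have hcpt_fib : ∀ (T : Triangle C), T ∈ distTriang C → IsCpt T.obj₂ → IsCpt T.obj₃ →
      IsCpt T.obj₁ := by
    intro T hT h2 h3
    have i1 := hct.1
    have i2 := hct.2.1
    exact ObjectProperty.ext_of_isTriangulatedClosed₁ (P := (IsCpt : ObjectProperty C)) T hT h2 h3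
  -- the dual of `v ⊗ k`
  obtain ⟨dk, hdk, ⟨P1⟩, -⟩ := hR.dual (hR.cpt_tensor hv hk)
  have hQc : IsCpt (dk ⊗ k) := hR.cpt_tensor hdk hk
  obtain ⟨θ, hθ⟩ : ∃ θ : 𝟙_ C ⟶ dk ⊗ k, θ = tensorLeftHomEquiv (𝟙_ C) dk (v ⊗ k) k
    ((ρ_ (v ⊗ k)).hom ≫ act s k) := ⟨_, rfl⟩
  -- the adjoint of `r ≫ θ ≫ (dk ◁ g)`
  have hadj : ∀ (w' : C) (r : w' ⟶ 𝟙_ C) (Y : C) (g : k ⟶ Y),
      r ≫ θ ≫ dk ◁ g = tensorLeftHomEquiv w' dk (v ⊗ k) Y
        ((β_ w' (v ⊗ k)).inv ≫ (α_ w' v k).inv ≫ act (mulU r s) k ≫ g) := by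
    intro w' r Y g
    apply (tensorLeftHomEquiv w' dk (v ⊗ k) Y).symm.injective
    rw [Equiv.symm_apply_apply, tensorLeftHomEquiv_symm_naturality, hθ,
      ← tensorLeftHomEquiv_naturality, Equiv.symm_apply_apply, T10_act_mul, T10_act_braid r]
    simp
  have hker : ∀ (w' : C) (r : w' ⟶ 𝟙_ C) (Y : C) (g : k ⟶ Y),
      r ≫ θ ≫ dk ◁ g = 0 ↔ act (mulU r s) k ≫ g = 0 := by
    intro w' r Y g
    rw [hadj]
    constructor
    · intro h
      have h1 := congrArg (tensorLeftHomEquiv w' dk (v ⊗ k) Y).symm h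
      rw [Equiv.symm_apply_apply] at h1
      have h2 : (tensorLeftHomEquiv w' dk (v ⊗ k) Y).symm 0 = 0 := by
        simp [tensorLeftHomEquiv]
      rw [h2] at h1
      rw [← cancel_epi ((β_ w' (v ⊗ k)).inv ≫ (α_ w' v k).inv), comp_zero, Category.assoc]
      exact h1
    · intro h
      rw [h, comp_zero, comp_zero]
      simp [tensorLeftHomEquiv]
  have hker0 : ∀ (w' : C) (r : w' ⟶ 𝟙_ C), r ≫ θ = 0 ↔ act (mulU r s) k = 0 := by
    intro w' r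
    have h := hker w' r k (𝟙 k)
    rwa [MonoidalCategory.whiskerLeft_id, Category.comp_id, Category.comp_id] at h
  obtain ⟨v₀, q, δ₀, hT₀⟩ := distinguished_cocone_triangle₁ θ
  have hqθ : q ≫ θ = 0 := comp_distTriang_mor_zero₁₂ _ hT₀
  refine ⟨v₀, q, hcpt_fib _ hT₀ hR.unit hQc, ?_, ?_⟩
  · rw [T10_act_tensor, T10_mulU_comm, T10_act_comp, (hker0 _ _).1 hqθ]
    simp
  intro w x hw hx
  -- `x ≫ θ` dies in `f ⊗ Q`
  have h1 : x ≫ θ ≫ (λ_ (dk ⊗ k)).inv ≫ η ▷ (dk ⊗ k) = 0 := by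
    have h2 : x ≫ θ ≫ dk ◁ ((λ_ k).inv ≫ η ▷ k) = 0 := by
      rw [hker, T10_act_nat]
      have h3 : act (mulU x s) (f ⊗ k) = 0 := hx
      have h4 : (w ⊗ v) ◁ ((λ_ k).inv ≫ η ▷ k) ≫ act (mulU x s) (f ⊗ k) = 0 := by
        rw [h3, comp_zero]
      exact h4
    rw [← T10_unit_tensor] at h2
    rw [← cancel_mono (T10_ex f dk k).hom, zero_comp]
    simpa only [Category.assoc] using h2
  obtain ⟨δe, hTe⟩ := hD.tri
  obtain ⟨δ₂, hT₂⟩ := tensorTriR (dk ⊗ k) _ hTe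
  obtain ⟨ζ, hζ⟩ : ∃ ζ : w ⟶ e ⊗ (dk ⊗ k), x ≫ θ ≫ (λ_ (dk ⊗ k)).inv = ζ ≫ ε ▷ (dk ⊗ k) := by
    refine Triangle.coyoneda_exact₂ _ hT₂ (x ≫ θ ≫ (λ_ (dk ⊗ k)).inv) ?_
    change (x ≫ θ ≫ (λ_ (dk ⊗ k)).inv) ≫ η ▷ (dk ⊗ k) = 0
    simpa only [Category.assoc] using h1
  have hloc : LocGen D (e ⊗ (dk ⊗ k)) := by
    refine hD.eloc _ (isLoc_tensorR (T10_locGen D) (dk ⊗ k)) fun d hd L hL hS => ?_
    have i1 := hD.ideal.iso
    exact hS _ (hD.ideal.iso.of_iso (β_ (dk ⊗ k) d) (hD.ideal.tensor _ _ hQc hd))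
  obtain ⟨d, a, b, hd, hab⟩ := hf D hD.ideal.cpt hD.ideal.iso hD.ideal.tri _ hloc w ζ hw
  have hxθ : x ≫ θ = a ≫ b ≫ ε ▷ (dk ⊗ k) ≫ (λ_ (dk ⊗ k)).hom := by
    rw [← cancel_mono (λ_ (dk ⊗ k)).inv]
    simp only [Category.assoc, Iso.hom_inv_id, Category.comp_id]
    rw [hζ, hab, Category.assoc]
  -- the dual of `d`
  obtain ⟨d', hd', -, ⟨P2⟩⟩ := hR.dual (hD.ideal.cpt d hd)
  obtain ⟨v₁, t, δ₁, hT₁⟩ := distinguished_cocone_triangle₁ (η_ d d')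
  have htη : t ≫ η_ d d' = 0 := comp_distTriang_mor_zero₁₂ _ hT₁
  have htd : act t d = 0 := T10_act_dual t htη
  refine ⟨v₁, t, hcpt_fib _ hT₁ hR.unit (hR.cpt_tensor (hD.ideal.cpt d hd) hd'), ?_, ?_⟩
  · intro w' b' hw' hb'
    have hz : IsZero ((d ⊗ d') ⊗ (w' ⊗ (f ⊗ k))) := by
      have e1 : (d ⊗ d') ⊗ (w' ⊗ (f ⊗ k)) ≅ (d ⊗ f) ⊗ (d' ⊗ (w' ⊗ k)) :=
        whiskerLeftIso (d ⊗ d') (T10_ex w' f k) ≪≫
          ⟨tensorμ d d' f (w' ⊗ k), tensorδ d d' f (w' ⊗ k), by simp, by simp⟩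
      exact (isZero_tensorR _ (hD.kill d hd)).of_iso e1
    have h2 := T10_iso _ t δ₁ hT₁ _ hz
    rw [T10_act_mul] at hb'
    rw [← cancel_epi (act t (w' ⊗ (f ⊗ k))), comp_zero, ← cancel_epi (α_ v₁ w' (f ⊗ k)).hom,
      comp_zero]
    exact hb'
  · refine Triangle.coyoneda_exact₂ _ hT₀ (mulU x t) ?_
    change mulU x t ≫ θ = 0
    rw [T10_mulU_eq]
    simp only [Category.assoc]
    rw [hxθ, ← rightUnitor_naturality_assoc, whisker_exchange_assoc]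
    have h3 : d ◁ t ≫ (ρ_ d).hom = 0 := by
      have h4 := T10_act_braid t d
      rw [htd] at h4
      rw [← cancel_epi (β_ v₁ d).hom, comp_zero]
      exact h4.symm
    rw [reassoc_of% h3]
    simp

end T10

end H948
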