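import Pool.Agent.H948_Strat.Stmts

/-!
Coproducts of distinguished triangles and homotopy colimits.
-/

set_option linter.unusedSectionVars false

open CategoryTheory Category Limits MonoidalCategory Pretriangulated Preadditive

universe v u

namespace H948

section HoBase

variable {C : Type u} [Category.{v} C] [Preadditive C] [HasZeroObject C] [HasShift C ℤ]
  [∀ n : ℤ, (shiftFunctor C n).Additive] [Pretriangulated C]

lemma Ho_yoneda_exact₁ (T : Triangle C) (hT : T ∈ distTriang C) {X : C}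
    (f : T.obj₁⟦(1 : ℤ)⟧ ⟶ X) (hf : T.mor₃ ≫ f = 0) :
    ∃ g : T.obj₂⟦(1 : ℤ)⟧ ⟶ X, f = T.mor₁⟦1⟧' ≫ g := by
  obtain ⟨g, hg⟩ := Triangle.yoneda_exact₃ _ (rot_of_distTriang _ hT) f hf
  refine ⟨-g, ?_⟩
  rw [hg]
  exact (neg_comp _ _).trans (comp_neg _ _).symm

variable {X Y Z : C} {f : X ⟶ Y} {g : Y ⟶ Z} {h : Z ⟶ X⟦(1 : ℤ)⟧}

lemma Ho_y2 (hT : Triangle.mk f g h ∈ distTriang C) {A : C} (a : Y ⟶ A) (ha : f ≫ a = 0) :
    ∃ b : Z ⟶ A, a = g ≫ b :=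
  Triangle.yoneda_exact₂ _ hT a ha

lemma Ho_y3 (hT : Triangle.mk f g h ∈ distTriang C) {A : C} (a : Z ⟶ A) (ha : g ≫ a = 0) :
    ∃ b : X⟦(1 : ℤ)⟧ ⟶ A, a = h ≫ b :=
  Triangle.yoneda_exact₃ _ hT a ha

lemma Ho_y1 (hT : Triangle.mk f g h ∈ distTriang C) {A : C} (a : X⟦(1 : ℤ)⟧ ⟶ A)
    (ha : h ≫ a = 0) : ∃ b : Y⟦(1 : ℤ)⟧ ⟶ A, a = f⟦(1 : ℤ)⟧' ≫ b :=
  Ho_yoneda_exact₁ _ hT a ha

lemma Ho_c2 (hT : Triangle.mk f g h ∈ distTriang C) {A : C} (a : A ⟶ Y) (ha : a ≫ g = 0) :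
    ∃ b : A ⟶ X, a = b ≫ f :=
  Triangle.coyoneda_exact₂ _ hT a ha

lemma Ho_c3 (hT : Triangle.mk f g h ∈ distTriang C) {A : C} (a : A ⟶ Z) (ha : a ≫ h = 0) :
    ∃ b : A ⟶ Y, a = b ≫ g :=
  Triangle.coyoneda_exact₃ _ hT a ha

lemma Ho_z12 (hT : Triangle.mk f g h ∈ distTriang C) : f ≫ g = 0 :=
  comp_distTriang_mor_zero₁₂ _ hT

lemma Ho_z23 (hT : Triangle.mk f g h ∈ distTriang C) : g ≫ h = 0 :=
  comp_distTriang_mor_zero₂₃ _ hT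

lemma Ho_z31 (hT : Triangle.mk f g h ∈ distTriang C) : h ≫ f⟦(1 : ℤ)⟧' = 0 :=
  comp_distTriang_mor_zero₃₁ _ hT

lemma Ho_cm (T : Triangle C) (hT : T ∈ distTriang C) (hT' : Triangle.mk f g h ∈ distTriang C)
    (a : T.obj₁ ⟶ X) (b : T.obj₂ ⟶ Y) (comm : T.mor₁ ≫ b = a ≫ f) :
    ∃ c : T.obj₃ ⟶ Z, T.mor₂ ≫ c = b ≫ g ∧ T.mor₃ ≫ a⟦1⟧' = c ≫ h :=
  complete_distinguished_triangle_morphism _ _ hT hT' a b comm

lemma Ho_iso {X' Y' Z' : C} {f' : X' ⟶ Y'} {g' : Y' ⟶ Z'} {h' : Z' ⟶ X'⟦(1 : ℤ)⟧}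
    (hT : Triangle.mk f g h ∈ distTriang C) (a : X' ≅ X) (b : Y' ≅ Y) (c : Z' ≅ Z)
    (h1 : f' ≫ b.hom = a.hom ≫ f) (h2 : g' ≫ c.hom = b.hom ≫ g)
    (h3 : h' ≫ a.hom⟦(1 : ℤ)⟧' = c.hom ≫ h) : Triangle.mk f' g' h' ∈ distTriang C :=
  isomorphic_distinguished _ hT _ (Triangle.isoMk (Triangle.mk f' g' h') (Triangle.mk f g h)
    a b c h1 h2 h3)

end HoBase

section Ho

variable {C : Type u} [Category.{v} C] [Preadditive C] [HasZeroObject C] [HasShift C ℤ]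
  [∀ n : ℤ, (shiftFunctor C n).Additive] [Pretriangulated C] [HasCoproducts.{v} C]

/-- The shift of a coproduct is a coproduct. -/
noncomputable def Ho_isColimit {ι : Type v} (X : ι → C) (n : ℤ) :
    IsColimit (Cofan.mk ((∐ X)⟦n⟧) fun i => (Sigma.ι X i)⟦n⟧') :=
  isColimitCofanMkObjOfIsColimit (shiftFunctor C n) _ _ (coproductIsCoproduct X)

lemma Ho_ext {ι : Type v} {X : ι → C} {n : ℤ} {Y : C} {f g : (∐ X)⟦n⟧ ⟶ Y}
    (h : ∀ i, (Sigma.ι X i)⟦n⟧' ≫ f = (Sigma.ι X i)⟦n⟧' ≫ g) : f = g :=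
  Cofan.IsColimit.hom_ext (Ho_isColimit X n) _ _ h

lemma Ho_desc {ι : Type v} {X : ι → C} {n : ℤ} {Y : C} (g : ∀ i, (X i)⟦n⟧ ⟶ Y) :
    ∃ f : (∐ X)⟦n⟧ ⟶ Y, ∀ i, (Sigma.ι X i)⟦n⟧' ≫ f = g i :=
  ⟨Cofan.IsColimit.desc (Ho_isColimit X n) g, fun i => Cofan.IsColimit.fac (Ho_isColimit X n) _ i⟩

theorem coprodTri : S_coprodTri C := by
  intro ι T hT
  set f₁ : (∐ fun i => (T i).obj₁) ⟶ (∐ fun i => (T i).obj₂) :=
    Limits.Sigma.map fun i => (T i).mor₁ with hf₁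
  set m₂ : (∐ fun i => (T i).obj₂) ⟶ (∐ fun i => (T i).obj₃) :=
    Limits.Sigma.map fun i => (T i).mor₂ with hm₂
  obtain ⟨Z, f₂, f₃, hT'⟩ := distinguished_cocone_triangle f₁
  have key : ∀ i, ∃ c : (T i).obj₃ ⟶ Z, (T i).mor₂ ≫ c = Sigma.ι (fun i => (T i).obj₂) i ≫ f₂ ∧
      (T i).mor₃ ≫ (Sigma.ι (fun i => (T i).obj₁) i)⟦(1 : ℤ)⟧' = c ≫ f₃ := fun i =>
    Ho_cm (T i) (hT i) hT' (Sigma.ι (fun i => (T i).obj₁) i) (Sigma.ι (fun i => (T i).obj₂) i)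
      (by simp [hf₁])
  choose c hc1 hc2 using key
  let u : (∐ fun i => (T i).obj₃) ⟶ Z := Sigma.desc c
  have hu : ∀ i, Sigma.ι (fun i => (T i).obj₃) i ≫ u = c i := fun i => by simp [u]
  have hmu : m₂ ≫ u = f₂ := by
    refine Limits.Sigma.hom_ext _ _ fun i => ?_
    simp [hm₂, u, hc1]
  have hfm : f₁ ≫ m₂ = 0 := by
    refine Limits.Sigma.hom_ext _ _ fun i => ?_
    have := comp_distTriang_mor_zero₁₂ _ (hT i)
    simp [hf₁, hm₂, reassoc_of% this]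
  have hiso : IsIso u := by
    refine isIso_of_coyoneda_map_bijective _ (fun A => ⟨?_, ?_⟩)
    · suffices Epi u by
        intro a₁ a₂ ha
        simpa only [cancel_epi] using ha
      rw [epi_iff_cancel_zero]
      intro A h hh
      obtain ⟨g, hg⟩ := Ho_y3 hT' h (by rw [← hmu, assoc, hh, comp_zero])
      have h1 : ∀ i, ∃ y : (T i).obj₂⟦(1 : ℤ)⟧ ⟶ A,
          (Sigma.ι (fun i => (T i).obj₁) i)⟦(1 : ℤ)⟧' ≫ g = (T i).mor₁⟦1⟧' ≫ y := by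
        intro i
        refine Ho_yoneda_exact₁ (T i) (hT i) _ ?_
        rw [← assoc, hc2, assoc, ← hg, ← hu, assoc, hh, comp_zero]
      choose y hy using h1
      obtain ⟨Y, hY⟩ := Ho_desc y
      have hgY : g = f₁⟦(1 : ℤ)⟧' ≫ Y := by
        refine Ho_ext fun i => ?_
        rw [hy, ← assoc, ← Functor.map_comp, ← hY, ← assoc, ← Functor.map_comp]
        simp [hf₁]
      rw [hg, hgY, ← assoc, Ho_z31 hT', zero_comp]
    · intro a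
      obtain ⟨h', hh'⟩ := Ho_y2 hT' (m₂ ≫ a) (by rw [← assoc, hfm, zero_comp])
      have h1 : ∀ i, ∃ b : (T i).obj₁⟦(1 : ℤ)⟧ ⟶ A,
          Sigma.ι (fun i => (T i).obj₃) i ≫ (a - u ≫ h') = (T i).mor₃ ≫ b := by
        intro i
        refine Triangle.yoneda_exact₃ (T i) (hT i) _ ?_
        have h2 : Sigma.ι (fun i => (T i).obj₂) i ≫ m₂ ≫ (a - u ≫ h') = 0 := by
          rw [comp_sub, hh', ← assoc m₂, hmu, sub_self, comp_zero]
        rw [← assoc] at h2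
        simpa [hm₂] using h2
      choose b hb using h1
      obtain ⟨B, hB⟩ := Ho_desc b
      refine ⟨h' + f₃ ≫ B, ?_⟩
      change u ≫ (h' + f₃ ≫ B) = a
      rw [comp_add, ← eq_sub_iff_add_eq']
      refine Limits.Sigma.hom_ext _ _ fun i => ?_
      rw [hb, ← assoc, hu, ← assoc, ← hc2, assoc, hB]
  exact ⟨u ≫ f₃, Ho_iso hT' (Iso.refl _) (Iso.refl _) (asIso u) (by simp) (by simpa using hmu)
    (by simp)⟩

/-! ### telescopes -/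

open Classical in
/-- Projections from a telescope. -/
noncomputable def Ho_pr {ι : Type v} (X : ι → C) (n : ι) : (∐ X) ⟶ X n :=
  Sigma.desc fun m => if h : m = n then eqToHom (congrArg X h) else 0

lemma Ho_pr_self {ι : Type v} (X : ι → C) (n : ι) : Sigma.ι X n ≫ Ho_pr X n = 𝟙 _ := by
  simp [Ho_pr]

lemma Ho_pr_ne {ι : Type v} (X : ι → C) {m n : ι} (h : m ≠ n) : Sigma.ι X m ≫ Ho_pr X n = 0 := by
  simp [Ho_pr, h]

lemma Ho_cpt {c : C} (hc : IsCpt c) {ι : Type v} (X : ι → C) (x : c ⟶ ∐ X) :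
    ∃ s : Finset ι, x = ∑ i ∈ s, (x ≫ Ho_pr X i) ≫ Sigma.ι X i := by
  classical
  obtain ⟨s, g, hg⟩ := hc ι X x
  refine ⟨s, ?_⟩
  conv_lhs => rw [hg]
  refine Finset.sum_congr rfl fun i hi => ?_
  congr 1
  rw [hg, sum_comp, Finset.sum_eq_single i]
  · rw [assoc, Ho_pr_self, comp_id]
  · intro j _ hj
    rw [assoc, Ho_pr_ne X hj, comp_zero]
  · exact fun h => absurd hi h

lemma Ho_cptn {c : C} (hc : IsCpt c) {ι : Type v} (X : ι → C) (n : ℤ) (x : c ⟶ (∐ X)⟦n⟧) :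
    ∃ s : Finset ι, x = ∑ i ∈ s, (x ≫ (Ho_pr X i)⟦n⟧') ≫ (Sigma.ι X i)⟦n⟧' := by
  classical
  obtain ⟨e, he⟩ := Ho_desc (n := n) (X := X) (Y := ∐ fun i => (X i)⟦n⟧)
    (fun i => Sigma.ι (fun i => (X i)⟦n⟧) i)
  let e' : (∐ fun i => (X i)⟦n⟧) ⟶ (∐ X)⟦n⟧ := Sigma.desc fun i => (Sigma.ι X i)⟦n⟧'
  have he' : e ≫ e' = 𝟙 _ := by
    refine Ho_ext fun i => ?_
    rw [← assoc, he]
    simp [e']
  obtain ⟨s, g, hg⟩ := hc ι _ (x ≫ e)
  have hx : x = ∑ i ∈ s, g i ≫ (Sigma.ι X i)⟦n⟧' := by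
    have h1 : x = (x ≫ e) ≫ e' := by rw [assoc, he', comp_id]
    rw [h1, hg, sum_comp]
    refine Finset.sum_congr rfl fun i _ => ?_
    simp [e']
  refine ⟨s, ?_⟩
  conv_lhs => rw [hx]
  refine Finset.sum_congr rfl fun i hi => ?_
  congr 1
  rw [hx, sum_comp, Finset.sum_eq_single i]
  · rw [assoc, ← Functor.map_comp, Ho_pr_self, CategoryTheory.Functor.map_id, comp_id]
  · intro j _ hj
    rw [assoc, ← Functor.map_comp, Ho_pr_ne X hj, Functor.map_zero, comp_zero]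
  · exact fun h => absurd hi h

variable (X : ℕ → C) (f : ∀ n, X n ⟶ X (n + 1))

lemma Ho_tel_ι (m : ℕ) : Sigma.ι (fun n : ULift.{v} ℕ => X n.down) ⟨m⟩ ≫ telMap X f =
    Sigma.ι (fun n : ULift.{v} ℕ => X n.down) ⟨m⟩ -
      f m ≫ Sigma.ι (fun n : ULift.{v} ℕ => X n.down) ⟨m + 1⟩ := by
  simp [telMap]

lemma Ho_tel_pr_zero : telMap X f ≫ Ho_pr (fun n : ULift.{v} ℕ => X n.down) ⟨0⟩ =
    Ho_pr (fun n : ULift.{v} ℕ => X n.down) ⟨0⟩ := by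
  refine Limits.Sigma.hom_ext _ _ fun ⟨m⟩ => ?_
  have h : (⟨m + 1⟩ : ULift.{v} ℕ) ≠ ⟨0⟩ := by simp
  rw [← assoc, Ho_tel_ι, sub_comp, assoc, Ho_pr_ne _ h, comp_zero, sub_zero]

lemma Ho_tel_pr_succ (k : ℕ) : telMap X f ≫ Ho_pr (fun n : ULift.{v} ℕ => X n.down) ⟨k + 1⟩ =
    Ho_pr (fun n : ULift.{v} ℕ => X n.down) ⟨k + 1⟩ -
      Ho_pr (fun n : ULift.{v} ℕ => X n.down) ⟨k⟩ ≫ f k := by
  refine Limits.Sigma.hom_ext _ _ fun ⟨m⟩ => ?_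
  rw [← assoc, Ho_tel_ι, sub_comp, comp_sub, assoc]
  congr 1
  by_cases h : m = k
  · subst h
    rw [Ho_pr_self, comp_id, ← assoc, Ho_pr_self, id_comp]
  · have h1 : (⟨m + 1⟩ : ULift.{v} ℕ) ≠ ⟨k + 1⟩ := by
      intro h2
      have := congrArg ULift.down h2
      simp only at this
      omega
    have h3 : (⟨m⟩ : ULift.{v} ℕ) ≠ ⟨k⟩ := by
      intro h2
      exact h (congrArg ULift.down h2)
    rw [Ho_pr_ne _ h1, comp_zero, ← assoc, Ho_pr_ne _ h3, zero_comp]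

lemma Ho_tel_inj {c : C} (hc : IsCpt c) (n : ℤ)
    (x : c ⟶ (∐ fun n : ULift.{v} ℕ => X n.down)⟦n⟧) (hx : x ≫ (telMap X f)⟦n⟧' = 0) : x = 0 := by
  have h : ∀ k : ℕ, x ≫ (Ho_pr (fun n : ULift.{v} ℕ => X n.down) ⟨k⟩)⟦n⟧' = 0 := by
    intro k
    induction k with
    | zero => rw [← Ho_tel_pr_zero X f, Functor.map_comp, ← assoc, hx, zero_comp]
    | succ k ih =>
      have h1 : x ≫ (telMap X f ≫ Ho_pr (fun n : ULift.{v} ℕ => X n.down) ⟨k + 1⟩)⟦n⟧' = 0 := by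
        rw [Functor.map_comp, ← assoc, hx, zero_comp]
      rw [Ho_tel_pr_succ, Functor.map_sub, comp_sub, Functor.map_comp, ← assoc x, ih, zero_comp,
        sub_zero] at h1
      exact h1
  obtain ⟨s, hs⟩ := Ho_cptn hc _ n x
  rw [hs]
  refine Finset.sum_eq_zero fun ⟨k⟩ _ => ?_
  rw [h k, zero_comp]

variable {X f} {H : C} {i : ∀ n, X n ⟶ H}

lemma Ho_comm (hH : IsHocolim X f H i) (n : ℕ) : f n ≫ i (n + 1) = i n := by
  obtain ⟨δ, hδ⟩ := hH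
  have h1 : Sigma.ι (fun n : ULift.{v} ℕ => X n.down) ⟨n⟩ ≫ telMap X f ≫
      Sigma.desc (fun n : ULift.{v} ℕ => i n.down) = 0 := by
    rw [Ho_z12 hδ, comp_zero]
  rw [← assoc, Ho_tel_ι, sub_comp, sub_eq_zero] at h1
  simpa using h1.symm

lemma Ho_raise (hH : IsHocolim X f H i) {c : C} {n : ℕ} (b : c ⟶ X n) {k : ℕ} (hk : n ≤ k) :
    ∃ b' : c ⟶ X k, b ≫ i n = b' ≫ i k := by
  induction k, hk using Nat.le_induction with
  | base => exact ⟨b, rfl⟩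
  | succ k _ ih =>
    obtain ⟨b', hb'⟩ := ih
    exact ⟨b' ≫ f k, by rw [hb', assoc, Ho_comm hH]⟩

lemma Ho_sum (hH : IsHocolim X f H i) {c : C} (s : Finset (ULift.{v} ℕ))
    (g : ∀ n : ULift.{v} ℕ, c ⟶ X n.down) :
    ∃ (n : ℕ) (b : c ⟶ X n), ∑ k ∈ s, g k ≫ i k.down = b ≫ i n := by
  classical
  induction s using Finset.induction_on with
  | empty => exact ⟨0, 0, by simp⟩
  | insert a s ha ih =>
    obtain ⟨n, b, hb⟩ := ih
    obtain ⟨b1, hb1⟩ := Ho_raise hH b (le_max_left n a.down)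
    obtain ⟨b2, hb2⟩ := Ho_raise hH (g a) (le_max_right n a.down)
    refine ⟨max n a.down, b2 + b1, ?_⟩
    rw [Finset.sum_insert ha, hb, hb1, hb2, add_comp]

lemma Ho_cpt_hocolim (hH : IsHocolim X f H i) {c : C} (a : c ⟶ H) (hc : IsCpt c) :
    ∃ (n : ℕ) (b : c ⟶ X n), a = b ≫ i n := by
  obtain ⟨δ, hδ⟩ := id hH
  have h1 : a ≫ δ = 0 := by
    refine Ho_tel_inj X f hc 1 _ ?_
    rw [assoc, Ho_z31 hδ, comp_zero]
  obtain ⟨a', ha'⟩ := Ho_c3 hδ a h1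
  obtain ⟨s, hs⟩ := Ho_cpt hc _ a'
  obtain ⟨n, b, hb⟩ := Ho_sum hH s (fun k => a' ≫ Ho_pr (fun n : ULift.{v} ℕ => X n.down) k)
  refine ⟨n, b, ?_⟩
  rw [ha', hs, sum_comp, ← hb]
  refine Finset.sum_congr rfl fun k _ => ?_
  rw [assoc, Sigma.ι_desc]

lemma Ho_cpt0 (hH : IsHocolim X f H i) {c : C} {n : ℕ} (b : c ⟶ X n) (hc : IsCpt c)
    (hb : b ≫ i n = 0) : ∃ m : ℕ, b ≫ seqMap X f n m = 0 := by
  obtain ⟨δ, hδ⟩ := id hH
  set J := Sigma.ι (fun n : ULift.{v} ℕ => X n.down) with hJ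
  set P := Ho_pr (fun n : ULift.{v} ℕ => X n.down) with hP
  obtain ⟨y, hy⟩ := Ho_c2 hδ (b ≫ J ⟨n⟩) (by
    rw [assoc, hJ, Sigma.ι_desc]
    exact hb)
  have h0 : y ≫ P ⟨0⟩ = b ≫ J ⟨n⟩ ≫ P ⟨0⟩ := by
    rw [← assoc b, hy, assoc, Ho_tel_pr_zero]
  have h1 : ∀ k, y ≫ P ⟨k + 1⟩ = b ≫ J ⟨n⟩ ≫ P ⟨k + 1⟩ + (y ≫ P ⟨k⟩) ≫ f k := by
    intro k
    rw [← assoc b, hy, assoc, Ho_tel_pr_succ, comp_sub, assoc, sub_add_cancel]
  have hne : ∀ k, n ≠ k → J ⟨n⟩ ≫ P ⟨k⟩ = 0 := fun k hk =>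
    Ho_pr_ne _ (fun h => hk (congrArg ULift.down h))
  have hlt : ∀ k, k < n → y ≫ P ⟨k⟩ = 0 := by
    intro k
    induction k with
    | zero => intro hk; rw [h0, hne 0 (by omega), comp_zero]
    | succ k ih => intro hk; rw [h1, hne (k + 1) (by omega), comp_zero, ih (by omega), zero_comp,
        add_zero]
  have heq : y ≫ P ⟨n⟩ = b := by
    have h2 : J ⟨n⟩ ≫ P ⟨n⟩ = 𝟙 _ := Ho_pr_self _ _
    cases n with
    | zero => rw [h0, h2]; exact comp_id b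
    | succ k =>
      rw [h1, h2, hlt k (by omega), zero_comp, add_zero]
      exact comp_id b
  have hgt : ∀ m, y ≫ P ⟨n + m⟩ = b ≫ seqMap X f n m := by
    intro m
    induction m with
    | zero => exact heq.trans (comp_id b).symm
    | succ m ih =>
      have h3 := h1 (n + m)
      rw [hne (n + m + 1) (by omega), comp_zero, zero_add, ih, assoc] at h3
      exact h3
  obtain ⟨s, hs⟩ := Ho_cpt hc _ y
  refine ⟨s.sup ULift.down + 1, ?_⟩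
  rw [← hgt, hs, sum_comp]
  refine Finset.sum_eq_zero fun k hk => ?_
  have hk' : k.down ≤ s.sup ULift.down := Finset.le_sup hk
  have h4 : k ≠ ⟨n + (s.sup ULift.down + 1)⟩ := by
    intro h
    have := congrArg ULift.down h
    simp only at this
    omega
  rw [assoc, Ho_pr_ne _ h4, comp_zero]

lemma Ho_vanish (hH : IsHocolim X f H i) (Y : C) (h1 : ∀ (n : ℕ) (g : X (n + 1) ⟶ Y), f n ≫ g = 0)
    (h2 : ∀ (n : ℕ) (g : X (n + 1) ⟶ Y⟦(-1 : ℤ)⟧), f n ≫ g = 0) (g : H ⟶ Y) : g = 0 := by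
  obtain ⟨δ, hδ⟩ := id hH
  obtain ⟨g', hg'⟩ := Ho_y3 hδ g (by
    refine Limits.Sigma.hom_ext _ _ fun n => ?_
    rw [← assoc, Sigma.ι_desc, comp_zero, ← Ho_comm hH, assoc, h1])
  have h3 : (telMap X f)⟦(1 : ℤ)⟧' ≫ g' = g' := by
    refine Ho_ext fun n => ?_
    rw [← assoc, ← Functor.map_comp]
    obtain ⟨n⟩ := n
    rw [Ho_tel_ι, Functor.map_sub, sub_comp, Functor.map_comp, assoc]
    have h4 : ∀ g'' : (X (n + 1))⟦(1 : ℤ)⟧ ⟶ Y, (f n)⟦(1 : ℤ)⟧' ≫ g'' = 0 := by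
      intro g''
      apply ((shiftEquiv C (1 : ℤ)).toAdjunction.homEquiv _ _).injective
      have h5 := (shiftEquiv C (1 : ℤ)).toAdjunction.homEquiv_naturality_left (f n) g''
      have h6 : ((shiftEquiv C (1 : ℤ)).toAdjunction.homEquiv (X n) Y) 0 = 0 := by
        rw [Adjunction.homEquiv_unit, Functor.map_zero, comp_zero]
      exact h5.trans ((h2 n _).trans h6.symm)
    rw [h4, sub_zero]
  rw [hg', ← h3, ← assoc, Ho_z31 hδ, zero_comp]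

variable (C) in
theorem hoAPI : HoAPI C where
  ex X f := by
    obtain ⟨Z, f₂, f₃, hT'⟩ := distinguished_cocone_triangle (telMap X f)
    refine ⟨Z, fun n => Sigma.ι (fun n : ULift.{v} ℕ => X n.down) ⟨n⟩ ≫ f₂, f₃, ?_⟩
    refine Ho_iso hT' (Iso.refl _) (Iso.refl _) (Iso.refl _) (by simp) ?_ (by simp)
    refine Limits.Sigma.hom_ext _ _ fun n => ?_
    simp
  comm X f H i hH := Ho_comm hH
  desc X f H i hH Y g hg := by
    obtain ⟨δ, hδ⟩ := id hH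
    obtain ⟨h, hh⟩ := Ho_y2 hδ (Sigma.desc fun n : ULift.{v} ℕ => g n.down) (by
      refine Limits.Sigma.hom_ext _ _ fun n => ?_
      obtain ⟨n⟩ := n
      rw [← assoc, Ho_tel_ι, sub_comp, assoc, Sigma.ι_desc, Sigma.ι_desc, comp_zero, hg, sub_self])
    refine ⟨h, fun n => ?_⟩
    have h1 := congrArg (fun x => Sigma.ι (fun n : ULift.{v} ℕ => X n.down) ⟨n⟩ ≫ x) hh
    simpa using h1.symm
  cpt X f H i hH c a hc := Ho_cpt_hocolim hH a hc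
  cpt0 X f H i hH c n b hc hb := Ho_cpt0 hH b hc hb
  vanish X f H i hH Y h1 h2 g := Ho_vanish hH Y h1 h2 g
  loc X f H i hH L hL hX := by
    obtain ⟨δ, hδ⟩ := id hH
    have h1 := hL.coprod _ (fun n : ULift.{v} ℕ => X n.down) (fun n => hX n.down)
    have := hL.iso
    have := hL.tri
    exact L.ext_of_isTriangulatedClosed₃ _ hδ h1 h1

end Ho

end H948
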