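import Pool.Agent.H948_Strat.Ho

/-!
Tensoring preserves homotopy colimits.
-/

set_option linter.unusedSectionVars false

open CategoryTheory Category Limits MonoidalCategory Pretriangulated Preadditive

universe v u

namespace H948

section HoTensor

variable {C : Type u} [Category.{v} C] [Preadditive C] [HasZeroObject C] [HasShift C ℤ]
  [∀ n : ℤ, (shiftFunctor C n).Additive] [Pretriangulated C] [MonoidalCategory C]
  [HasCoproducts.{v} C]

lemma HoTensor_map (F : C ⥤ C) [F.CommShift ℤ] [F.IsTriangulated] {X Y Z : C} {f : X ⟶ Y}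
    {g : Y ⟶ Z} {h : Z ⟶ X⟦(1 : ℤ)⟧} (hT : Triangle.mk f g h ∈ distTriang C) :
    Triangle.mk (F.map f) (F.map g) (F.map h ≫ (F.commShiftIso (1 : ℤ)).hom.app X) ∈
      distTriang C :=
  F.map_distinguished _ hT

/-- Tensoring preserves coproducts. -/
noncomputable def HoTensor_isColimit [MonoidalClosed C] (Z : C) {ι : Type v} (X : ι → C) :
    IsColimit (Cofan.mk (Z ⊗ ∐ X) fun i => Z ◁ Sigma.ι X i) :=
  haveI : PreservesColimitsOfSize.{v, v} (tensorLeft Z) :=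
    (ihom.adjunction Z).leftAdjoint_preservesColimits
  isColimitCofanMkObjOfIsColimit (tensorLeft Z) _ _ (coproductIsCoproduct X)

theorem hoTensor [MonoidalClosed C] [TensorExact C] : S_hoTensor C := by
  intro Z X f H i hH
  obtain ⟨δ, hδ⟩ := hH
  obtain ⟨_h, hF⟩ := TensorExact.exact Z
  have h1 := HoTensor_map (tensorLeft Z) hδ
  set X' : ULift.{v} ℕ → C := fun n => X n.down with hX'
  let e : (∐ fun n : ULift.{v} ℕ => Z ⊗ X n.down) ≅ Z ⊗ ∐ X' :=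
    (coproductIsCoproduct (fun n : ULift.{v} ℕ => Z ⊗ X n.down)).coconePointUniqueUpToIso
      (HoTensor_isColimit Z X')
  have he : ∀ n : ULift.{v} ℕ, Sigma.ι (fun n : ULift.{v} ℕ => Z ⊗ X n.down) n ≫ e.hom =
      Z ◁ Sigma.ι X' n := fun n =>
    (coproductIsCoproduct (fun n : ULift.{v} ℕ => Z ⊗ X n.down)).comp_coconePointUniqueUpToIso_hom
      (HoTensor_isColimit Z X') ⟨n⟩
  refine ⟨((tensorLeft Z).map δ ≫ ((tensorLeft Z).commShiftIso (1 : ℤ)).hom.app _) ≫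
    e.inv⟦(1 : ℤ)⟧', ?_⟩
  have hsub : ∀ {A B : C} (a b : A ⟶ B), Z ◁ (a - b) = Z ◁ a - Z ◁ b :=
    fun a b => (tensorLeft Z).map_sub
  refine Ho_iso h1 e e (Iso.refl _) ?_ ?_ ?_
  · refine Limits.Sigma.hom_ext _ _ fun n => ?_
    obtain ⟨n⟩ := n
    have t1 : Sigma.ι (fun n : ULift.{v} ℕ => Z ⊗ X n.down) ⟨n⟩ ≫
        telMap (fun n => Z ⊗ X n) (fun n => Z ◁ f n) =
        Sigma.ι (fun n : ULift.{v} ℕ => Z ⊗ X n.down) ⟨n⟩ -
          (Z ◁ f n) ≫ Sigma.ι (fun n : ULift.{v} ℕ => Z ⊗ X n.down) ⟨n + 1⟩ :=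
      Ho_tel_ι (fun n => Z ⊗ X n) (fun n => Z ◁ f n) n
    change Sigma.ι (fun n : ULift.{v} ℕ => Z ⊗ X n.down) ⟨n⟩ ≫
      telMap (fun n => Z ⊗ X n) (fun n => Z ◁ f n) ≫ e.hom =
      Sigma.ι (fun n : ULift.{v} ℕ => Z ⊗ X n.down) ⟨n⟩ ≫ e.hom ≫ Z ◁ telMap X f
    rw [← assoc, t1, sub_comp, assoc, he, he, ← assoc, he, ← MonoidalCategory.whiskerLeft_comp,
      ← MonoidalCategory.whiskerLeft_comp, Ho_tel_ι, hsub]
  · refine Limits.Sigma.hom_ext _ _ fun n => ?_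
    change Sigma.ι (fun n : ULift.{v} ℕ => Z ⊗ X n.down) n ≫
      (Sigma.desc fun n : ULift.{v} ℕ => Z ◁ i n.down) ≫ 𝟙 _ =
      Sigma.ι (fun n : ULift.{v} ℕ => Z ⊗ X n.down) n ≫ e.hom ≫
        Z ◁ (Sigma.desc fun n : ULift.{v} ℕ => i n.down)
    rw [comp_id, Sigma.ι_desc, ← assoc, he, ← MonoidalCategory.whiskerLeft_comp, Sigma.ι_desc]
  · rw [assoc, ← Functor.map_comp, e.inv_hom_id]
    have h7 : (shiftFunctor C (1 : ℤ)).map (𝟙 (Z ⊗ ∐ X')) = 𝟙 _ :=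
      CategoryTheory.Functor.map_id _ _
    exact (congrArg (fun y => ((tensorLeft Z).map δ ≫
      ((tensorLeft Z).commShiftIso (1 : ℤ)).hom.app (∐ X')) ≫ y) h7).trans
      ((comp_id _).trans (id_comp _).symm)

end HoTensor

end H948
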