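import Pool.Agent.H948_Strat.Local

/-!
Idempotent triangles and orthogonality of the objects `g_P`.
-/

set_option linter.unusedSectionVars false
set_option linter.style.haveILetI false
set_option linter.unusedSimpArgs false

open CategoryTheory Limits MonoidalCategory Pretriangulated ZeroObject

universe v u w

namespace H948

variable {C : Type u} [Category.{v} C] [Preadditive C] [HasZeroObject C] [HasShift C ℤ]
  [∀ n : ℤ, (shiftFunctor C n).Additive] [Pretriangulated C]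
  [MonoidalCategory C] [SymmetricCategory C] [MonoidalClosed C] [TensorExact C] [HasCoproducts.{v} C]

lemma T15_isLoc_locGen (D : ObjectProperty C) : IsLoc (LocGen D) := by
  refine IsLoc.mk' ?_ ?_ ?_ ?_ ?_
  · intro x y e hx L hL h
    exact hL.of_iso e (hx L hL h)
  · intro x hx L hL _
    exact hL.zero hx
  · intro x n hx L hL h
    exact hL.shift n (hx L hL h)
  · intro T hT h₁ h₃ L hL h
    exact hL.ext₂ T hT (h₁ L hL h) (h₃ L hL h)
  · intro ι X hX L hL h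
    exact hL.coprod ι X (fun i => hX i L hL h)

lemma T15_locGen_of {D : ObjectProperty C} {x : C} (h : D x) : LocGen D x := fun _ _ h' => h' x h

lemma T15_eq_zero {D : ObjectProperty C} {e f : C} {ε : e ⟶ 𝟙_ C} {η : 𝟙_ C ⟶ f}
    (hF : FinLoc D ε η) : IsZero (e ⊗ f) :=
  hF.eloc _ (isLoc_tensorR isLoc_isZero f) (fun d hd => hF.kill d hd)

/-- `LocGen D` is an ideal. -/
lemma T15_locGen_tensor (hR : RPkg C) {D : ObjectProperty C} (hD : IsThickIdeal D) {x : C}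
    (hx : LocGen D x) (y : C) : LocGen D (x ⊗ y) := by
  refine hx _ (isLoc_tensorR (T15_isLoc_locGen D) y) (fun d hd => ?_)
  exact hR.all _ (isLoc_tensor (T15_isLoc_locGen D) d) (fun c hc => T15_locGen_of (hD.tensorR hc hd)) y

theorem idem (hR : RPkg C) (hI : S_cptIn C) : S_idem C := by
  intro Y e f
  constructor
  · rintro ⟨α, β', δ, hT, hz, hL⟩
    refine ⟨α, β', hI Y, ⟨δ, hT⟩, (hL e).2 ⟨𝟙_ C, ⟨(ρ_ e).symm⟩⟩, ?_⟩
    intro d hd
    obtain ⟨y, ⟨i⟩⟩ := (hL d).1 (T15_locGen_of hd)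
    have i' : d ⊗ f ≅ y ⊗ (e ⊗ f) := whiskerRightIso (i ≪≫ β_ e y) f ≪≫ α_ y e f
    exact (isZero_tensor y hz).of_iso i'
  · rintro ⟨ε, η, hF⟩
    obtain ⟨δ, hδ⟩ := hF.tri
    refine ⟨ε, η, δ, hδ, T15_eq_zero hF, ?_⟩
    intro x
    constructor
    · intro hx
      obtain ⟨δ', hδ'⟩ := tensorTriR x _ hδ
      have h0 : IsZero (x ⊗ f) := hx _ (isLoc_tensorR isLoc_isZero f) (fun d hd => hF.kill d hd)
      have h0' : IsZero (f ⊗ x) := h0.of_iso (β_ f x)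
      have h1 : IsIso (ε ▷ x) := (Triangle.isZero₃_iff_isIso₁ _ hδ').1 h0'
      exact ⟨x, ⟨(asIso (ε ▷ x) ≪≫ λ_ x).symm⟩⟩
    · rintro ⟨y, ⟨i⟩⟩
      exact (T15_isLoc_locGen _).of_iso i.symm (T15_locGen_tensor hR hF.ideal hF.eloc y)

/-- A thick ideal containing the compact objects supported in `Z` and in `Z'` contains those supported in
`Z ∪ Z'`. -/
lemma T15_union (hp : S_prime C) (hc : S_cover C) {Z Z' : Set (Spc C)}
    (hZ : IsThomason Z) (hZ' : IsThomason Z') {J : ObjectProperty C} (hJ : IsThickIdeal J)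
    (h : ∀ a, cptIn Z a → J a) (h' : ∀ a, cptIn Z' a → J a) {a : C} (ha : IsCpt a)
    (hs : supp a ⊆ Z ∪ Z') : J a := by
  by_contra hn
  obtain ⟨P, hP, hPa⟩ := hp J hJ a ha hn
  rcases hs hPa with hPZ | hPZ
  · obtain ⟨b, hb, hPb, hbZ⟩ := hc Z hZ P hPZ
    exact hPb (hP b (h b ⟨hb, hbZ⟩))
  · obtain ⟨b, hb, hPb, hbZ⟩ := hc Z' hZ' P hPZ
    exact hPb (hP b (h' b ⟨hb, hbZ⟩))

/-- The compact objects killed by an object form a thick ideal. -/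
lemma T15_thick_kill (hR : RPkg C) (h0 : S_cptTri C) (y : C) :
    IsThickIdeal (fun a : C => IsCpt a ∧ IsZero (a ⊗ y)) := by
  have hL : IsLoc (fun a : C => IsZero (a ⊗ y)) := isLoc_tensorR isLoc_isZero y
  obtain ⟨i1, i2, i3⟩ := h0
  refine ⟨fun c h => h.1, ⟨?_⟩, ?_, ⟨?_⟩, ?_⟩
  · intro a b e h
    exact ⟨i1.of_iso e h.1, hL.of_iso e h.2⟩
  · have j1 : ObjectProperty.IsTriangulated (C := C) (fun a : C => IsZero (a ⊗ y)) := hL.tri
    have j2 : ObjectProperty.IsClosedUnderIsomorphisms (C := C) (fun a : C => IsZero (a ⊗ y)) := hL.iso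
    have : ObjectProperty.IsTriangulated (C := C) ((IsCpt : ObjectProperty C) ⊓ fun a : C => IsZero (a ⊗ y)) :=
      inferInstance
    exact this
  · intro a b r h
    refine ⟨i3.of_retract r h.1, ?_⟩
    rw [IsZero.iff_id_eq_zero]
    have h1 : r.i ▷ y ≫ r.r ▷ y = 𝟙 (a ⊗ y) := by
      rw [← comp_whiskerRight, r.retract, id_whiskerRight]
    rw [← h1, h.2.eq_of_tgt (r.i ▷ y) 0, zero_comp]
  · intro a b ha hb
    exact ⟨hR.cpt_tensor ha hb.1, (isZero_tensor a hb.2).of_iso (α_ a b y)⟩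

theorem gorth (hR : RPkg C) (h0 : S_cptTri C) (hi : S_idem C) (hp : S_prime C) (hc : S_cover C) :
    S_gorth C := by
  rintro P Q g g' ⟨Y, Z, e, e', f, f', hY, hZ, hP, hI, hJ, rfl⟩
    ⟨Y₁, Z₁, e₁, e₁', f₁, f₁', hY₁, hZ₁, hQ, hI₁, hJ₁, rfl⟩ hne
  obtain ⟨ε, η, hF⟩ := (hi Y e f').1 hI
  obtain ⟨ε', η', hF'⟩ := (hi Z e' f).1 hJ
  obtain ⟨ε₁, η₁, hF₁⟩ := (hi Y₁ e₁ f₁').1 hI₁
  obtain ⟨ε₁', η₁', hF₁'⟩ := (hi Z₁ e₁' f₁).1 hJ₁
  have hsub : Y ∩ Y₁ ⊆ Z ∪ Z₁ := by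
    rintro R ⟨h1, h2⟩
    by_contra hn
    rw [Set.mem_union, not_or] at hn
    have hR1 : R ∈ ({P} : Set (Spc C)) := by rw [hP]; exact ⟨h1, hn.1⟩
    have hR2 : R ∈ ({Q} : Set (Spc C)) := by rw [hQ]; exact ⟨h2, hn.2⟩
    rw [Set.mem_singleton_iff] at hR1 hR2
    exact hne (hR1.symm.trans hR2)
  -- `f ⊗ f₁` kills `a ⊗ b`, `a` supported in `Y`, `b` in `Y₁`
  have hk : ∀ a b : C, cptIn Y a → cptIn Y₁ b → IsZero ((a ⊗ b) ⊗ (f ⊗ f₁)) := by
    intro a b ha hb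
    have hJ := T15_thick_kill hR h0 (f ⊗ f₁)
    refine (T15_union hp hc hZ hZ₁ hJ ?_ ?_ (a := a ⊗ b) (hR.cpt_tensor ha.1 hb.1) ?_).2
    · intro c hc'
      exact ⟨hc'.1, (isZero_tensorR f₁ (hF'.kill c hc')).of_iso (α_ c f f₁).symm⟩
    · intro c hc'
      refine ⟨hc'.1, ?_⟩
      refine (isZero_tensor f (hF₁'.kill c hc')).of_iso ?_
      exact (α_ c f f₁).symm ≪≫ whiskerRightIso (β_ c f) f₁ ≪≫ α_ f c f₁
    · intro R hR'
      refine hsub ⟨?_, ?_⟩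
      · by_contra hn
        have : ¬ ¬ R.1 a := fun h => hn (ha.2 h)
        exact hR' ((R.2.1.of_iso (β_ b a)) (R.2.1.tensor b a hb.1 (not_not.1 this)))
      · by_contra hn
        have : ¬ ¬ R.1 b := fun h => hn (hb.2 h)
        exact hR' (R.2.1.tensor a b ha.1 (not_not.1 this))
  have h1 : ∀ b : C, cptIn Y₁ b → IsZero ((e ⊗ b) ⊗ (f ⊗ f₁)) := by
    intro b hb
    exact hF.eloc _ (isLoc_tensorR (isLoc_tensorR isLoc_isZero (f ⊗ f₁)) b) (fun a ha => hk a b ha hb)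
  have h2 : IsZero ((e ⊗ e₁) ⊗ (f ⊗ f₁)) :=
    hF₁.eloc _ (isLoc_tensor (isLoc_tensorR isLoc_isZero (f ⊗ f₁)) e) (fun b hb => h1 b hb)
  refine h2.of_iso ?_
  exact ⟨tensorμ e f e₁ f₁, tensorδ e f e₁ f₁, tensorμ_tensorδ _ _ _ _, tensorδ_tensorμ _ _ _ _⟩

end H948
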