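import Pool.Agent.H948_Strat.Stmts
import Mathlib.CategoryTheory.Adjunction.Unique
import Mathlib.CategoryTheory.Limits.Shapes.Opposites.Products

/-!
(0.6): for a colocalizing coideal `K` and an object `t`, the objects `x` with `[x, t] ∈ K` form a
localizing ideal.
-/

open CategoryTheory Limits MonoidalCategory Pretriangulated

universe v u

namespace H948

section T8

variable {C : Type u} [Category.{v} C] [Preadditive C] [HasZeroObject C] [HasShift C ℤ]
  [∀ n : ℤ, (shiftFunctor C n).Additive] [Pretriangulated C]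

/-- A replete triangulated subcategory closed under products is closed under retracts. -/
theorem T8_retract (hp : HasProducts.{v} C) (K : ObjectProperty C)
    [K.IsClosedUnderIsomorphisms] [K.IsTriangulated]
    (hK : ∀ (ι : Type v) (X : ι → C) (F : Fan X), Nonempty (IsLimit F) → (∀ i, K (X i)) → K F.pt)
    {A Y : C} (i : A ⟶ Y) (r : Y ⟶ A) (h : i ≫ r = 𝟙 A) (hY : K Y) : K A := by
  obtain ⟨P, p, hKP, hext, hlift⟩ : ∃ (P : C) (p : ℕ → (P ⟶ Y)), K P ∧
      (∀ (Z : C) (f g : Z ⟶ P), (∀ n, f ≫ p n = g ≫ p n) → f = g) ∧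
      (∀ (Z : C) (f : ℕ → (Z ⟶ Y)), ∃ g : Z ⟶ P, ∀ n, g ≫ p n = f n) := by
    have := hp
    refine ⟨∏ᶜ (fun _ : ULift.{v} ℕ => Y), fun n => Pi.π (fun _ : ULift.{v} ℕ => Y) ⟨n⟩,
      hK _ _ (limit.cone _) ⟨limit.isLimit _⟩ (fun _ => hY), ?_, ?_⟩
    · intro Z f g hfg
      apply Pi.hom_ext
      rintro ⟨n⟩
      exact hfg n
    · intro Z f
      refine ⟨Pi.lift fun n => f n.down, fun n => ?_⟩
      rw [Pi.lift_π]
  obtain ⟨a, ha⟩ : ∃ a : Y ⟶ Y, a = r ≫ i := ⟨_, rfl⟩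
  obtain ⟨b, hb⟩ : ∃ b : Y ⟶ Y, b = 𝟙 Y - a := ⟨_, rfl⟩
  have haa : a ≫ a = a := by rw [ha, Category.assoc, reassoc_of% h]
  have hab : a ≫ b = 0 := by rw [hb, Preadditive.comp_sub, haa, Category.comp_id, sub_self]
  have hba : b ≫ a = 0 := by rw [hb, Preadditive.sub_comp, haa, Category.id_comp, sub_self]
  have hbb : b ≫ b = b := by rw [hb, Preadditive.comp_sub, ← hb, hba, Category.comp_id, sub_zero]
  have hia : i ≫ a = i := by rw [ha, reassoc_of% h]
  have hib : i ≫ b = 0 := by rw [hb, Preadditive.comp_sub, hia, Category.comp_id, sub_self]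
  have har : a ≫ r = r := by rw [ha, Category.assoc, h, Category.comp_id]
  have hbr : b ≫ r = 0 := by rw [hb, Preadditive.sub_comp, har, Category.id_comp, sub_self]
  have hab1 : a + b = 𝟙 Y := by rw [hb]; abel
  have hs1 : ∀ (f : P ⟶ Y), f ≫ a + f ≫ b = f := fun f => by
    rw [← Preadditive.comp_add, hab1, Category.comp_id]
  have hs2 : ∀ (f : P ⟶ Y), f ≫ b + f ≫ a = f := fun f => by rw [add_comm, hs1]
  obtain ⟨S, hS⟩ := hlift P fun n => p n ≫ b + p (n + 1) ≫ a
  obtain ⟨T, hT⟩ := hlift P fun n => p n ≫ b + Nat.casesOn n 0 fun m => p m ≫ a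
  obtain ⟨inc, hinc⟩ := hlift A fun n => Nat.casesOn n i (fun _ => 0)
  have hT0 : T ≫ p 0 = p 0 ≫ b := by rw [hT 0]; exact add_zero _
  have hTs : ∀ n, T ≫ p (n + 1) = p (n + 1) ≫ b + p n ≫ a := fun n => hT (n + 1)
  have hi0 : inc ≫ p 0 = i := hinc 0
  have his : ∀ n, inc ≫ p (n + 1) = 0 := fun n => hinc (n + 1)
  clear hT hinc hb
  have h1 : inc ≫ S = 0 := by
    apply hext
    intro n
    cases n with
    | zero => simp [hS, reassoc_of% hi0, reassoc_of% (his 0), hib]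
    | succ n => simp [hS, reassoc_of% (his n), reassoc_of% (his (n + 1))]
  have h2 : T ≫ S = 𝟙 _ := by
    apply hext
    intro n
    cases n with
    | zero =>
      simp [hS, reassoc_of% hT0, reassoc_of% (hTs 0), hbb, hba, haa, hs2]
    | succ n =>
      simp [hS, reassoc_of% (hTs n), reassoc_of% (hTs (n + 1)), hbb, hba, haa, hab, hs2]
  have h3 : inc ≫ p 0 ≫ r = 𝟙 _ := by
    rw [reassoc_of% hi0, h]
  have h4 : T ≫ p 0 ≫ r = 0 := by
    rw [reassoc_of% hT0, hbr, comp_zero]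
  have h5 : (p 0 ≫ r) ≫ inc + S ≫ T = 𝟙 _ := by
    apply hext
    intro n
    cases n with
    | zero =>
      simp [hi0, hT0, reassoc_of% (hS 0), hbb, hab, ← ha, hs1]
    | succ n =>
      simp [his, hTs, reassoc_of% (hS n), reassoc_of% (hS (n + 1)), hbb, hab, hba, haa, hs2]
  let e : A ⊞ P ≅ P :=
    { hom := biprod.desc inc T
      inv := biprod.lift (p 0 ≫ r) S
      hom_inv_id := by
        apply biprod.hom_ext' <;> apply biprod.hom_ext <;> simp [h1, h2, h3, h4]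
      inv_hom_id := by
        rw [biprod.lift_desc, h5] }
  have hd : Triangle.mk inc S (0 : P ⟶ A⟦(1 : ℤ)⟧) ∈ distTriang C := by
    refine isomorphic_distinguished _ (binaryBiproductTriangle_distinguished A P) _
      (Iso.symm (Triangle.isoMk _ _ (Iso.refl A) e (Iso.refl P) ?_ ?_ ?_))
    · change biprod.inl ≫ biprod.desc inc T = 𝟙 A ≫ inc
      simp
    · change biprod.snd ≫ 𝟙 P = biprod.desc inc T ≫ S
      apply biprod.hom_ext' <;> simp [h1, h2]
    · exact (zero_comp (C := C)).trans (comp_zero (C := C)).symm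
  exact K.ext_of_isTriangulatedClosed₁ _ hd hKP hKP

variable [MonoidalCategory C] [SymmetricCategory C] [MonoidalClosed C] [TensorExact C]

omit [SymmetricCategory C] [MonoidalClosed C] in
theorem T8_whisker_zero (a : C) {x y : C} : a ◁ (0 : x ⟶ y) = 0 := by
  obtain ⟨_, _⟩ := TensorExact.exact a
  exact (tensorLeft a).map_zero x y

omit [MonoidalClosed C] in
theorem T8_zero_whisker (a : C) {x y : C} : (0 : x ⟶ y) ▷ a = 0 := by
  rw [← cancel_mono (β_ y a).hom, BraidedCategory.braiding_naturality_left, T8_whisker_zero,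
    comp_zero, zero_comp]

theorem T8_pre_zero (t : C) {x y : C} : (MonoidalClosed.pre (0 : x ⟶ y)).app t = 0 := by
  apply MonoidalClosed.uncurry_injective
  rw [MonoidalClosed.uncurry_pre, T8_zero_whisker, MonoidalClosed.uncurry_eq, T8_whisker_zero,
    zero_comp, zero_comp]

theorem T8_ihom_isZero {z : C} (hz : IsZero z) (t : C) : IsZero ((ihom z).obj t) := by
  rw [IsZero.iff_id_eq_zero] at hz ⊢
  have h := T8_pre_zero t (x := z) (y := z)
  rw [← hz, MonoidalClosed.pre_id] at h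
  exact h

theorem T8_weakKernel (X : Triangle C) (hX : X ∈ distTriang C) (t a : C)
    (u : a ⟶ (ihom X.obj₂).obj t)
    (hu : u ≫ (MonoidalClosed.pre X.mor₁).app t = 0) :
    ∃ v : a ⟶ (ihom X.obj₃).obj t, u = v ≫ (MonoidalClosed.pre X.mor₂).app t := by
  obtain ⟨_, _⟩ := TensorExact.exact a
  have hd := (tensorLeft a).map_distinguished X hX
  have hw : ((tensorLeft a).map X.mor₁) ≫ ((β_ a X.obj₂).hom ≫ MonoidalClosed.uncurry u) = 0 := by
    have h0 : MonoidalClosed.uncurry (u ≫ (MonoidalClosed.pre X.mor₁).app t) = 0 := by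
      rw [hu, MonoidalClosed.uncurry_eq, T8_whisker_zero, zero_comp]
    rw [MonoidalClosed.uncurry_pre_app] at h0
    change a ◁ X.mor₁ ≫ (β_ a X.obj₂).hom ≫ MonoidalClosed.uncurry u = 0
    rw [BraidedCategory.braiding_naturality_right_assoc, h0, comp_zero]
  obtain ⟨g, hg'⟩ : ∃ g : a ⊗ X.obj₃ ⟶ t,
      (β_ a X.obj₂).hom ≫ MonoidalClosed.uncurry u = a ◁ X.mor₂ ≫ g :=
    Triangle.yoneda_exact₂ _ hd ((β_ a X.obj₂).hom ≫ MonoidalClosed.uncurry u) hw
  refine ⟨MonoidalClosed.curry ((β_ a X.obj₃).inv ≫ g), ?_⟩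
  rw [MonoidalClosed.curry_pre_app, BraidedCategory.braiding_inv_naturality_left_assoc, ← hg',
    Iso.inv_hom_id_assoc, MonoidalClosed.curry_uncurry]

/-- `[x, t] ≅ [y, t]` for `x ≅ y`. -/
noncomputable def T8_ihomIso {x y : C} (e : x ≅ y) (t : C) : (ihom x).obj t ≅ (ihom y).obj t :=
  ((MonoidalClosed.internalHom.flip.obj t).mapIso e.op).symm

/-- `[x ⊗ s, t] ≅ [s, [x, t]]`. -/
noncomputable def T8_ihomTensor (x s t : C) :
    (ihom (x ⊗ s)).obj t ≅ (ihom s).obj ((ihom x).obj t) :=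
  ((ihom.adjunction (x ⊗ s)).rightAdjointUniq
    (tensorClosed (MonoidalClosed.closed x) (MonoidalClosed.closed s)).adj).app t

omit [SymmetricCategory C] [MonoidalClosed C] in
/-- `x⟦n⟧ ≅ x ⊗ 𝟙⟦n⟧`. -/
theorem T8_shiftIso (x : C) (n : ℤ) : Nonempty (x⟦n⟧ ≅ x ⊗ (𝟙_ C)⟦n⟧) := by
  obtain ⟨_, _⟩ := TensorExact.exact x
  exact ⟨((shiftFunctor C n).mapIso (ρ_ x)).symm ≪≫
    (((tensorLeft x).commShiftIso n).app (𝟙_ C)).symm⟩

variable [HasCoproducts.{v} C] [IsTriangulated C]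

theorem ihomLoc (hR : RPkg C) : S_ihomLoc C := by
  intro K hK t
  have hp := hR.prods
  have := hK.iso
  have := hK.tri
  -- tensors
  have tens : ∀ s x : C, K ((ihom x).obj t) → K ((ihom (s ⊗ x)).obj t) := by
    intro s x hx
    exact K.prop_of_iso ((T8_ihomIso (β_ s x) t).symm) (K.prop_of_iso (T8_ihomTensor x s t).symm (hK.hom s _ hx))
  have isoC : ObjectProperty.IsClosedUnderIsomorphisms (fun x => K ((ihom x).obj t)) :=
    ⟨fun e h => K.prop_of_iso (T8_ihomIso e t) h⟩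
  have shiftC : ∀ (x : C) (n : ℤ), K ((ihom x).obj t) → K ((ihom (x⟦n⟧)).obj t) := by
    intro x n hx
    obtain ⟨e⟩ := T8_shiftIso x n
    exact K.prop_of_iso ((T8_ihomIso (e ≪≫ β_ _ _) t).symm) (tens _ _ hx)
  have cone : ∀ X ∈ distTriang C, K ((ihom X.obj₁).obj t) → K ((ihom X.obj₂).obj t) →
      K ((ihom X.obj₃).obj t) := by
    intro X hX h1 h2
    obtain ⟨D, hD, i, δ, hd⟩ := K.distinguished_cocone_triangle₁
      ((MonoidalClosed.pre X.mor₁).app t) h2 h1
    have hi : i ≫ (MonoidalClosed.pre X.mor₁).app t = 0 := comp_distTriang_mor_zero₁₂ _ hd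
    obtain ⟨i', hi'⟩ := T8_weakKernel X hX t D i hi
    have h12 : (MonoidalClosed.pre X.mor₂).app t ≫ (MonoidalClosed.pre X.mor₁).app t = 0 := by
      rw [← NatTrans.comp_app, ← MonoidalClosed.pre_map, comp_distTriang_mor_zero₁₂ _ hX,
        T8_pre_zero]
    obtain ⟨j, hj⟩ : ∃ j : (ihom X.obj₃).obj t ⟶ D, (MonoidalClosed.pre X.mor₂).app t = j ≫ i :=
      Triangle.coyoneda_exact₂ _ hd _ h12
    have hz : (𝟙 _ - j ≫ i') ≫ (MonoidalClosed.pre X.mor₂).app t = 0 := by
      rw [Preadditive.sub_comp, Category.assoc, ← hi', ← hj, Category.id_comp, sub_self]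
    obtain ⟨v, hv⟩ : ∃ v : (ihom X.obj₃).obj t ⟶ (ihom (X.obj₁⟦(1 : ℤ)⟧)).obj t,
        𝟙 _ - j ≫ i' = v ≫ (MonoidalClosed.pre X.mor₃).app t :=
      T8_weakKernel X.rotate (rot_of_distTriang _ hX) t _ _ hz
    refine T8_retract hp K hK.prod (Y := D ⊞ (ihom (X.obj₁⟦(1 : ℤ)⟧)).obj t)
      (biprod.lift j v) (biprod.desc i' ((MonoidalClosed.pre X.mor₃).app t)) ?_ ?_
    · rw [biprod.lift_desc, ← hv]
      abel
    · exact K.ext_of_isTriangulatedClosed₂ _ (binaryBiproductTriangle_distinguished _ _) hD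
        (shiftC _ _ h1)
  refine { iso := isoC, tri := ?_, coprod := ?_, tensor := tens }
  · refine { exists_zero := ?_, isStableUnderShiftBy := ?_, ext₂' := ?_ }
    · obtain ⟨z, hz⟩ := HasZeroObject.zero (C := C)
      exact ⟨z, hz, K.prop_of_isZero (T8_ihom_isZero hz t)⟩
    · intro n
      exact ⟨fun x hx => shiftC x n hx⟩
    · intro X hX h1 h3
      exact ObjectProperty.le_isoClosure _ _
        (cone _ (inv_rot_of_distTriang _ hX) (shiftC _ _ h3) h1)
  · intro ι X hX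
    have hc : IsColimit (Cofan.mk (∐ X) (Sigma.ι X)) := coproductIsCoproduct X
    have hl := isLimitFanMkObjOfIsLimit (MonoidalClosed.internalHom.flip.obj t)
      (fun i => Opposite.op (X i)) (fun i => (Sigma.ι X i).op) (Cofan.IsColimit.op hc)
    exact hK.prod ι (fun i => (ihom (X i)).obj t) _ ⟨hl⟩ hX

end T8

end H948
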