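import Pool.Agent.H948_Strat.Base

/-!
Local objects and existence of idempotent triangles.
-/

set_option linter.unusedSectionVars false
set_option linter.style.haveILetI false
set_option linter.unusedSimpArgs false

open CategoryTheory Limits MonoidalCategory Pretriangulated ZeroObject

universe v u w

namespace H948

variable {C : Type u} [Category.{v} C] [Preadditive C] [HasZeroObject C] [HasShift C ℤ]
  [∀ n : ℤ, (shiftFunctor C n).Additive] [Pretriangulated C]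
  [MonoidalCategory C] [SymmetricCategory C] [MonoidalClosed C] [TensorExact C] [HasCoproducts.{v} C]

omit [HasZeroObject C] [HasShift C ℤ] [∀ n : ℤ, (shiftFunctor C n).Additive] [Pretriangulated C]
  [SymmetricCategory C] [MonoidalClosed C] [TensorExact C] [HasCoproducts.{v} C] in
lemma T14_adj_zero {X Y Y' Z : C} (p : ExactPairing Y Y') (h : ∀ g' : Y' ⊗ X ⟶ Z, g' = 0)
    (g : X ⟶ Y ⊗ Z) : g = 0 :=
  (tensorLeftHomEquiv X Y Y' Z).symm.injective ((h _).trans (h _).symm)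

omit [HasZeroObject C] [HasShift C ℤ] [∀ n : ℤ, (shiftFunctor C n).Additive] [Pretriangulated C]
  [SymmetricCategory C] [MonoidalClosed C] [TensorExact C] [HasCoproducts.{v} C] in
lemma T14_adj_zero' {X Y Y' Z : C} (p : ExactPairing Y Y') (h : ∀ g' : X ⟶ Y ⊗ Z, g' = 0)
    (g : Y' ⊗ X ⟶ Z) : g = 0 :=
  (tensorLeftHomEquiv X Y Y' Z).injective ((h _).trans (h _).symm)

/-- `X` is a retract of `(X ⊗ Y) ⊗ X`. -/
noncomputable def T14_retract {X Y : C} (p : ExactPairing X Y) : Retract X ((X ⊗ Y) ⊗ X) where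
  i := (λ_ X).inv ≫ ExactPairing.coevaluation X Y ▷ X
  r := (α_ X Y X).hom ≫ X ◁ ExactPairing.evaluation X Y ≫ (ρ_ X).hom
  retract := by
    have := ExactPairing.evaluation_coevaluation X Y
    rw [Category.assoc]
    have h2 : ExactPairing.coevaluation X Y ▷ X ≫ (α_ X Y X).hom ≫ X ◁ ExactPairing.evaluation X Y ≫
        (ρ_ X).hom = (λ_ X).hom := by
      rw [reassoc_of% this, Iso.inv_hom_id, Category.comp_id]
    rw [h2, Iso.inv_hom_id]

lemma IsThickIdeal.shift {D : ObjectProperty C} (hD : IsThickIdeal D) {c : C} (n : ℤ) (h : D c) :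
    D (c⟦n⟧) := by
  have := hD.tri
  exact D.le_shift n c h

lemma IsThickIdeal.of_iso {D : ObjectProperty C} (hD : IsThickIdeal D) {c d : C} (e : c ≅ d) (h : D c) :
    D d := hD.iso.of_iso e h

lemma IsThickIdeal.tensorR {D : ObjectProperty C} (hD : IsThickIdeal D) {a b : C} (hb : IsCpt b)
    (h : D a) : D (a ⊗ b) := hD.of_iso (β_ b a) (hD.tensor b a hb h)

/-- Thick ideals are closed under duals. -/
lemma IsThickIdeal.dual (hR : RPkg C) {D : ObjectProperty C} (hD : IsThickIdeal D) {d : C} (h : D d) :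
    ∃ dd : C, D dd ∧ Nonempty (ExactPairing dd d) ∧ Nonempty (ExactPairing d dd) := by
  obtain ⟨dd, hc, ⟨p⟩, ⟨p'⟩⟩ := hR.dual (hD.cpt d h)
  refine ⟨dd, ?_, ⟨p⟩, ⟨p'⟩⟩
  have := hD.retract
  exact D.prop_of_retract (T14_retract p) (hD.tensorR hc (hD.tensor dd d hc h))

lemma T14_locGen_le {S L : ObjectProperty C} (hL : IsLoc L) (h : ∀ s, S s → L s) {x : C}
    (hx : LocGen S x) : L x := hx L hL h

lemma T14_isLoc_isLocal {D : ObjectProperty C} (hD : IsThickIdeal D) : IsLoc (IsLocal D) :=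
  isLoc_rightPerp D hD.cpt (fun _ n h => hD.shift n h)

/-- Maps from `s ⊗ d` to a local object vanish. -/
lemma T14_tensor_local (hR : RPkg C) {D : ObjectProperty C} (hD : IsThickIdeal D) {d : C} (hd : D d)
    (s c : C) (g : s ⊗ d ⟶ c) (hc : IsLocal D c) : g = 0 := by
  have h1 : IsLoc (fun x : C => ∀ (c : C) (g : x ⟶ c), IsLocal D c → g = 0) :=
    isLoc_leftPerp (IsLocal D) (fun c n h => (T14_isLoc_isLocal hD).shift n h)
  have h2 := hR.all _ (isLoc_tensorR h1 d) (fun s hs c g hc => hc _ g (hD.tensor s d hs hd)) s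
  exact h2 c g hc

/-- Maps from `e ⊗ x`, `e` in the localizing subcategory generated by `D`, to a local object vanish. -/
lemma T14_loc_local (hR : RPkg C) {D : ObjectProperty C} (hD : IsThickIdeal D) {e : C}
    (he : LocGen D e) (x c : C) (g : e ⊗ x ⟶ c) (hc : IsLocal D c) : g = 0 := by
  have h1 : IsLoc (fun x : C => ∀ (c : C) (g : x ⟶ c), IsLocal D c → g = 0) :=
    isLoc_leftPerp (IsLocal D) (fun c n h => (T14_isLoc_isLocal hD).shift n h)
  refine he _ (isLoc_tensorR h1 x) (fun d hd c g hc => ?_) c g hc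
  have := T14_tensor_local hR hD hd x c ((β_ x d).hom ≫ g) hc
  rw [← cancel_epi (β_ x d).hom, this, comp_zero]

theorem localAPI (hR : RPkg C) : S_local C := by
  intro D e f ε η hF
  have hD := hF.ideal
  have hloc := T14_isLoc_isLocal hD
  obtain ⟨δ, hδ⟩ := hF.tri
  have hD0 : ∀ (d z : C), D d → IsLocal D z → IsZero (d ⊗ z) := by
    intro d z hd hz
    refine hR.gen _ fun c g hc => ?_
    obtain ⟨dd, hdd, ⟨p⟩, ⟨p'⟩⟩ := hD.dual hR hd
    exact T14_adj_zero p' (fun g' => hz _ g' (hD.tensorR hc hdd)) g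
  refine ⟨⟨hloc, ?_⟩, ?_, ?_, ?_, ?_, ?_⟩
  · intro s x hx
    refine hR.all _ (isLoc_tensorR hloc x) (fun c hc d g hd => ?_) s
    obtain ⟨cd, hcd, ⟨p⟩, ⟨p'⟩⟩ := hR.dual hc
    exact T14_adj_zero p' (fun g' => hx _ g' (hD.tensor _ _ hcd hd)) g
  · intro ι X F hF' hX d g hd
    obtain ⟨hl⟩ := hF'
    refine hl.hom_ext fun j => ?_
    rw [zero_comp]
    exact hX j.as d _ hd
  · intro s x hx d g hd
    have := T14_tensor_local hR hD hd s x (MonoidalClosed.uncurry g) hx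
    apply MonoidalClosed.uncurry_injective
    rw [this]
    exact (T14_tensor_local hR hD hd s x _ hx).symm
  · intro x d g hd
    obtain ⟨dd, hdd, ⟨p⟩, ⟨p'⟩⟩ := hD.dual hR hd
    have hz : IsZero (dd ⊗ (f ⊗ x)) :=
      (isZero_tensorR x (hF.kill dd hdd)).of_iso (α_ dd f x).symm
    have := T14_adj_zero' (X := 𝟙_ C) (Z := f ⊗ x) p (fun g' => hz.eq_of_tgt _ _) ((ρ_ d).hom ≫ g)
    rw [← cancel_epi (ρ_ d).hom, this, comp_zero]
  · intro z hz
    obtain ⟨δ', hδ'⟩ := tensorTriR z _ hδ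
    have h0 : IsZero (e ⊗ z) := hF.eloc _ (isLoc_tensorR isLoc_isZero z) (fun d hd => hD0 d z hd hz)
    have h1 : IsIso (η ▷ z) := (Triangle.isZero₁_iff_isIso₂ _ hδ').1 h0
    infer_instance
  · intro x t g ht
    obtain ⟨δ', hδ'⟩ := tensorTriR x _ hδ
    obtain ⟨g', hg'⟩ := Triangle.yoneda_exact₂ _ hδ' ((λ_ x).hom ≫ g)
      (T14_loc_local hR hD hF.eloc x t _ ht)
    refine ⟨g', ?_⟩
    have hg'' : (λ_ x).hom ≫ g = η ▷ x ≫ g' := hg'
    rw [← hg'', Iso.inv_hom_id_assoc]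

theorem finLocEx (hR : RPkg C) (hb : S_bous C) : S_finLocEx C := by
  intro D hD
  obtain ⟨ι, G, hG, hG'⟩ := hR.small
  obtain ⟨L, R, a, b, δ, hT, hL, hR'⟩ := hb {i : ι // D (G i)} (fun i => G i.1) (fun i => hG i.1)
    (fun i n => by
      obtain ⟨j, ⟨e⟩⟩ := hG' ((G i.1)⟦n⟧) (hD.cpt _ (hD.shift n i.2))
      exact ⟨⟨j, hD.of_iso e (hD.shift n i.2)⟩, ⟨e⟩⟩) (𝟙_ C)
  refine ⟨L, R, a, b, hD, ⟨δ, hT⟩, ?_, ?_⟩
  · intro M hM hDM
    refine hL M hM ?_
    rintro s ⟨i, ⟨e⟩⟩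
    exact hDM _ (hD.of_iso e.symm i.2)
  · intro d hd
    refine hR.gen _ fun c g hc => ?_
    obtain ⟨dd, hdd, ⟨p⟩, ⟨p'⟩⟩ := hD.dual hR hd
    refine T14_adj_zero p' (fun g' => ?_) g
    have h1 : D (dd ⊗ c) := hD.tensorR hc hdd
    obtain ⟨j, ⟨e'⟩⟩ := hG' _ (hD.cpt _ h1)
    have := hR' ⟨j, hD.of_iso e' h1⟩ (e'.inv ≫ g')
    rw [← cancel_epi e'.inv, this, comp_zero]

end H948
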