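import Pool.Agent.H948_Strat.Core
import Pool.Agent.H948_Strat.Idem
import Mathlib.CategoryTheory.Adjunction.Unique

/-!
Costratification from the core theorem.
-/

set_option linter.unusedSectionVars false
set_option linter.style.haveILetI false
set_option linter.unusedSimpArgs false

open CategoryTheory Limits MonoidalCategory Pretriangulated ZeroObject

universe v u w

namespace H948

variable {C : Type u} [Category.{v} C] [Preadditive C] [HasZeroObject C] [HasShift C ℤ]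
  [∀ n : ℤ, (shiftFunctor C n).Additive] [Pretriangulated C]
  [MonoidalCategory C] [SymmetricCategory C] [MonoidalClosed C] [TensorExact C] [HasCoproducts.{v} C]

lemma M_isZero_ihom_iff (g t : C) :
    IsZero ((ihom g).obj t) ↔ ∀ (a : C) (h : g ⊗ a ⟶ t), h = 0 := by
  constructor
  · intro hz a h
    exact T16_curry_eq_zero _ (hz.eq_of_tgt _ _)
  · intro h
    rw [IsZero.iff_id_eq_zero]
    apply MonoidalClosed.uncurry_injective
    exact (h _ _).trans (h _ _).symm

/-- `[g ⊗ g', t] ≅ [g', [g, t]]`. -/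
noncomputable def M_ihomTensor (g g' : C) : ihom (g ⊗ g') ≅ ihom g ⋙ ihom g' :=
  (ihom.adjunction (g ⊗ g')).rightAdjointUniq
    (((ihom.adjunction g').comp (ihom.adjunction g)).ofNatIsoLeft (tensorLeftTensor g g').symm)

/-- `[𝟙, t] ≅ t`. -/
noncomputable def M_ihomUnit : ihom (𝟙_ C) ≅ 𝟭 C :=
  (ihom.adjunction (𝟙_ C)).rightAdjointUniq (Adjunction.id.ofNatIsoLeft (leftUnitorNatIso C).symm)

lemma IsColocCoideal.of_iso {K : ObjectProperty C} (hK : IsColocCoideal K) {x y : C} (e : x ≅ y)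
    (h : K x) : K y := hK.iso.of_iso e h

lemma IsColocCoideal.zero {K : ObjectProperty C} (hK : IsColocCoideal K) {x : C} (h : IsZero x) :
    K x := by
  obtain ⟨z, hz, hz'⟩ := hK.tri.toContainsZero.exists_zero
  exact hK.of_iso (hz.iso h) hz'

/-- Constructor for colocalizing coideals. -/
lemma IsColocCoideal.mk' {L : ObjectProperty C} (hiso : ∀ (x y : C), (x ≅ y) → L x → L y)
    (hzero : ∀ x : C, IsZero x → L x) (hshift : ∀ (x : C) (n : ℤ), L x → L (x⟦n⟧))
    (hext : ∀ T : Triangle C, T ∈ distTriang C → L T.obj₁ → L T.obj₃ → L T.obj₂)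
    (hprod : ∀ (ι : Type v) (X : ι → C) (F : Fan X), Nonempty (IsLimit F) → (∀ i, L (X i)) → L F.pt)
    (hhom : ∀ s x : C, L x → L ((ihom s).obj x)) :
    IsColocCoideal L := by
  have i1 : L.IsClosedUnderIsomorphisms := ⟨fun {x y} e h => hiso x y e h⟩
  have i2 : L.ContainsZero := ⟨⟨(0 : C), isZero_zero C, hzero _ (isZero_zero C)⟩⟩
  have i3 : L.IsStableUnderShift ℤ := ⟨fun n => ⟨fun x hx => hshift x n hx⟩⟩
  have i4 : L.IsTriangulatedClosed₂ := ObjectProperty.IsTriangulatedClosed₂.mk' hext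
  exact ⟨i1, {}, hprod, hhom⟩

/-- The objects `t` with `[g, t] = 0` form a colocalizing coideal. -/
lemma M_cokill (g : C) : IsColocCoideal (fun t : C => IsZero ((ihom g).obj t)) := by
  have key : (fun t : C => IsZero ((ihom g).obj t)) =
      (fun t : C => ∀ (a : C) (h : g ⊗ a ⟶ t), h = 0) := by
    funext t
    exact propext (M_isZero_ihom_iff g t)
  rw [key]
  refine IsColocCoideal.mk' ?_ ?_ ?_ ?_ ?_ ?_
  · intro x y e hx a h
    have := hx a (h ≫ e.inv)
    exact (cancel_mono e.inv).1 (this.trans zero_comp.symm)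
  · intro x hx a h
    exact hx.eq_of_tgt _ _
  · intro x n hx a h
    obtain ⟨i⟩ := tensorShift g a (-n)
    replace hx : ∀ (a : C) (h : g ⊗ a ⟶ x), h = 0 := hx
    have h1 := hx (a⟦-n⟧) (i.hom ≫ h⟦-n⟧' ≫ (shiftFunctorCompIsoId C n (-n) (by simp)).hom.app x)
    have h2 : h⟦-n⟧' = 0 := by
      rw [← cancel_mono ((shiftFunctorCompIsoId C n (-n) (by simp)).hom.app x), zero_comp]
      exact (cancel_epi i.hom).1 (h1.trans comp_zero.symm)
    exact (shiftFunctor C (-n)).map_injective (by rw [h2, Functor.map_zero])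
  · intro T hT h₁ h₃ a h
    obtain ⟨h', rfl⟩ := Triangle.coyoneda_exact₂ T hT h (h₃ a _)
    rw [h₁ a h', zero_comp]
  · intro ι X F hF hX a h
    obtain ⟨hl⟩ := hF
    refine hl.hom_ext fun j => ?_
    rw [zero_comp]
    exact hX j.as a _
  · intro s x hx a h
    apply MonoidalClosed.uncurry_injective
    have h1 : ∀ h' : s ⊗ (g ⊗ a) ⟶ x, h' = 0 := by
      intro h'
      have e : s ⊗ (g ⊗ a) ≅ g ⊗ (s ⊗ a) :=
        (α_ s g a).symm ≪≫ whiskerRightIso (β_ s g) a ≪≫ α_ g s a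
      have := hx (s ⊗ a) (e.inv ≫ h')
      exact (cancel_epi e.inv).1 (this.trans comp_zero.symm)
    exact (h1 _).trans (h1 _).symm

/-- The zero coideal. -/
lemma M_zeroCoideal : IsColocCoideal (fun t : C => IsZero t) := by
  refine IsColocCoideal.mk' ?_ ?_ ?_ ?_ ?_ ?_
  · intro x y e hx
    exact hx.of_iso e.symm
  · intro x hx
    exact hx
  · intro x n hx
    exact (shiftFunctor C n).map_isZero hx
  · intro T hT h₁ h₃
    exact Triangle.isZero₂_of_isZero₁₃ T hT h₁ h₃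
  · intro ι X F hF hX
    obtain ⟨hl⟩ := hF
    rw [IsZero.iff_id_eq_zero]
    refine hl.hom_ext fun j => ?_
    exact (hX j.as).eq_of_tgt _ _
  · intro s x hx
    rw [M_isZero_ihom_iff]
    intro a h
    exact hx.eq_of_tgt _ _

/-- The objects killed by `g` form a localizing ideal. -/
lemma M_kill (g : C) : IsLocIdeal (fun t : C => IsZero (g ⊗ t)) := by
  refine ⟨isLoc_tensor isLoc_isZero g, ?_⟩
  intro s x hx
  refine (isZero_tensor s hx).of_iso ?_
  exact (α_ g s x).symm ≪≫ whiskerRightIso (β_ g s) x ≪≫ α_ s g x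

/-- Intersections of localizing ideals. -/
lemma M_inter {ι : Sort*} (L : ι → ObjectProperty C) (h : ∀ i, IsLocIdeal (L i)) :
    IsLocIdeal (fun t : C => ∀ i, L i t) := by
  refine ⟨IsLoc.mk' ?_ ?_ ?_ ?_ ?_, ?_⟩
  · intro x y e hx i
    exact (h i).toIsLoc.of_iso e (hx i)
  · intro x hx i
    exact (h i).toIsLoc.zero hx
  · intro x n hx i
    exact (h i).toIsLoc.shift n (hx i)
  · intro T hT h₁ h₃ i
    exact (h i).toIsLoc.ext₂ T hT (h₁ i) (h₃ i)
  · intro κ X hX i
    exact (h i).coprod κ X (fun j => hX j i)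
  · intro s x hx i
    exact (h i).tensor s x (hx i)

lemma IsColocCoideal.shift {K : ObjectProperty C} (hK : IsColocCoideal K) {x : C} (n : ℤ) (h : K x) :
    K (x⟦n⟧) := by
  have := hK.tri
  exact K.le_shift n x h

lemma IsColocCoideal.ext₂ {L : ObjectProperty C} (hL : IsColocCoideal L) (T : Triangle C)
    (hT : T ∈ distTriang C) (h₁ : L T.obj₁) (h₃ : L T.obj₃) : L T.obj₂ := by
  have := hL.tri
  have := hL.iso
  exact L.ext_of_isTriangulatedClosed₂ T hT h₁ h₃

/-- Intersections of colocalizing coideals. -/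
lemma M_cointer {ι : Sort*} (L : ι → ObjectProperty C) (h : ∀ i, IsColocCoideal (L i)) :
    IsColocCoideal (fun t : C => ∀ i, L i t) := by
  refine IsColocCoideal.mk' ?_ ?_ ?_ ?_ ?_ ?_
  · intro x y e hx i
    exact (h i).of_iso e (hx i)
  · intro x hx i
    exact (h i).zero hx
  · intro x n hx i
    exact (h i).shift n (hx i)
  · intro T hT h₁ h₃ i
    exact (h i).ext₂ T hT (h₁ i) (h₃ i)
  · intro κ X F hF hX i
    exact (h i).prod κ X F hF (fun j => hX j i)
  · intro s x hx i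
    exact (h i).hom s x (hx i)

/-- Existence of the objects `g_P`. -/
lemma M_gspec (hidem : S_idem C) (hfin : S_finLocEx C) (hcpt : S_cptIn C) (hw : WeaklyNoetherian C)
    (P : Spc C) : IsG P (gObj P) := by
  have h : ∃ g : C, IsG P g := by
    obtain ⟨Y, Z, hY, hZ, hP⟩ := hw P
    obtain ⟨e, f', ε, η, hF⟩ := hfin (cptIn Y) (hcpt Y)
    obtain ⟨e', f, ε', η', hF'⟩ := hfin (cptIn Z) (hcpt Z)
    exact ⟨e ⊗ f, Y, Z, e, e', f, f', hY, hZ, hP, (hidem Y e f').2 ⟨ε, η, hF⟩,
      (hidem Z e' f).2 ⟨ε', η', hF'⟩, rfl⟩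
  unfold gObj
  rw [dif_pos h]
  exact h.choose_spec

theorem main (hcore : S_core C) (hloc : S_local C) (hidem : S_idem C)
    (hgorth : S_gorth C) (hfin : S_finLocEx C) (hihom : S_ihomLoc C) (hcpt : S_cptIn C) :
    S_main C := by
  intro hw hs
  have hg : ∀ P : Spc C, IsG P (gObj P) := M_gspec hidem hfin hcpt hw
  have horth : ∀ P Q : Spc C, P ≠ Q → IsZero (gObj P ⊗ gObj Q) :=
    fun P Q h => hgorth P Q _ _ (hg P) (hg Q) h
  -- (B) every localizing ideal is determined by supports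
  have hB : ∀ L : ObjectProperty C, IsLocIdeal L → ∀ t : C,
      (∀ P ∈ Supp t, ∃ s : C, L s ∧ P ∈ Supp s) → L t := by
    intro L hL t ht
    have hM : IsLocIdeal (fun t : C => ∀ P : {P : Spc C // ¬ ∃ s : C, L s ∧ P ∈ Supp s},
        IsZero (gObj P.1 ⊗ t)) := M_inter _ (fun P => M_kill (gObj P.1))
    have hLM : (⟨L, hL⟩ : {L : ObjectProperty C // IsLocIdeal L}) = ⟨_, hM⟩ := by
      apply hs.1
      ext P
      constructor
      · rintro ⟨s, hs1, hs2⟩
        refine ⟨s, ?_, hs2⟩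
        rintro ⟨Q, hQ⟩
        by_contra hn
        exact hQ ⟨s, hs1, hn⟩
      · rintro ⟨s, hs1, hs2⟩
        by_contra hn
        exact hs2 (hs1 ⟨P, hn⟩)
    have h2 : L = _ := congrArg Subtype.val hLM
    rw [h2]
    rintro ⟨Q, hQ⟩
    by_contra hn
    exact hQ (ht Q hn)
  -- (C)
  have hne : ∀ P : Spc C, ¬ IsZero (gObj P) := by
    intro P hz
    obtain ⟨L, hL⟩ := hs.2 {P}
    have : P ∈ ({P} : Set (Spc C)) := rfl
    rw [← hL] at this
    obtain ⟨t, _, ht⟩ := this
    exact ht (isZero_tensorR t hz)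
  -- detection
  have hdet : ∀ t : C, (∀ P : Spc C, P ∉ Supp t) → IsZero t := by
    intro t ht
    exact hB (fun t => IsZero t) ⟨isLoc_isZero, fun s x hx => isZero_tensor s hx⟩ t
      (fun P hP => absurd hP (ht P))
  -- an object whose support is contained in `{P}`
  have hsing : ∀ (P : Spc C) (t : C), Supp t ⊆ {P} → ¬ IsZero t → P ∈ Supp t := by
    intro P t ht hn
    by_contra hP
    refine hn (hdet t fun Q hQ => ?_)
    have := ht hQ
    rw [Set.mem_singleton_iff] at this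
    exact hP (this ▸ hQ)
  have hsuppg : ∀ P : Spc C, Supp (gObj P) ⊆ {P} := by
    intro P Q hQ
    by_contra hn
    exact hQ (horth Q P hn)
  have hPP : ∀ P : Spc C, P ∈ Supp (gObj P) := fun P => hsing P _ (hsuppg P) (hne P)
  -- (E)
  have hE : ∀ (L : ObjectProperty C), IsLocIdeal L → ∀ (P : Spc C) (t : C), L t → P ∈ Supp t →
      L (gObj P) := by
    intro L hL P t ht hP
    refine hB L hL _ fun Q hQ => ?_
    have := hsuppg P hQ
    rw [Set.mem_singleton_iff] at this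
    exact ⟨t, ht, this ▸ hP⟩
  -- (F)
  have hall : ∀ (L : ObjectProperty C), IsLocIdeal L → (∀ P, L (gObj P)) → ∀ t, L t :=
    fun L hL h t => hB L hL t fun P _ => ⟨gObj P, h P, hPP P⟩
  -- (COMIN)
  have hcomin : ∀ (K : ObjectProperty C), IsColocCoideal K → ∀ (P : Spc C) (c₁ : C), K c₁ →
      P ∈ Cosupp c₁ → ∀ s : C, K ((ihom (gObj P)).obj s) := by
    intro K hK P c₁ hc₁ hP s
    obtain ⟨Y, Z, e, e', f, f', hY, hZ, hPYZ, hI, hJ, hgP⟩ := hg P
    obtain ⟨ε, η, hF⟩ := (hidem Y e f').1 hI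
    obtain ⟨ε', η', hF'⟩ := (hidem Z e' f).1 hJ
    have hk : ∃ k : C, cptIn Y k ∧ ¬ IsZero (f ⊗ k) := by
      by_contra hn
      push Not at hn
      have h1 : IsZero (f ⊗ e) := hF.eloc _ (isLoc_tensor isLoc_isZero f) (fun k hk => hn k hk)
      apply hne P
      rw [hgP]
      exact h1.of_iso (β_ e f)
    obtain ⟨k, hkY, hk0⟩ := hk
    have hkc : IsCpt k := hkY.1
    -- `κ = f ⊗ k` is a multiple of `g_P`
    have hκ : ∃ y : C, Nonempty (f ⊗ k ≅ gObj P ⊗ y) := by
      obtain ⟨α, β', δ, hT, hz, hL⟩ := hI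
      obtain ⟨y, ⟨i⟩⟩ := (hL k).1 (T15_locGen_of hkY)
      refine ⟨y, ⟨?_⟩⟩
      rw [hgP]
      exact whiskerLeftIso f i ≪≫ (α_ f e y).symm ≪≫ whiskerRightIso (β_ f e) y
    obtain ⟨y₀, ⟨i₀⟩⟩ := hκ
    have hsκ : ∀ y : C, Supp ((f ⊗ k) ⊗ y) ⊆ {P} := by
      intro y Q hQ
      by_contra hn
      apply hQ
      have h1 : IsZero ((gObj Q ⊗ gObj P) ⊗ (y₀ ⊗ y)) := isZero_tensorR _ (horth Q P hn)
      refine h1.of_iso ?_
      exact whiskerLeftIso (gObj Q) (whiskerRightIso i₀ y ≪≫ α_ (gObj P) y₀ y) ≪≫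
        (α_ (gObj Q) (gObj P) (y₀ ⊗ y)).symm
    have hsκ' : Supp (f ⊗ k) ⊆ {P} := by
      intro Q hQ
      refine hsκ (𝟙_ C) ?_
      intro hz
      exact hQ (hz.of_iso (whiskerLeftIso (gObj Q) (ρ_ (f ⊗ k)).symm))
    have hPκ : P ∈ Supp (f ⊗ k) := hsing P _ hsκ' hk0
    have hmin : ∀ L : ObjectProperty C, IsLocIdeal L → ∀ y : C, L y → ¬ IsZero ((f ⊗ k) ⊗ y) →
        L (f ⊗ k) := by
      intro L hL y hy hn
      refine hB L hL _ fun Q hQ => ?_
      have hQP := hsκ' hQ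
      rw [Set.mem_singleton_iff] at hQP
      subst hQP
      exact ⟨(f ⊗ k) ⊗ y, hL.tensor _ _ hy, hsing _ _ (hsκ y) hn⟩
    have la := hloc (cptIn Z) e' f ε' η' hF'
    have hloc' := la.locIdeal.toIsLoc
    have hK' : IsColocCoideal (fun x : C => K x ∧ IsLocal (cptIn Z) x) := by
      refine IsColocCoideal.mk' ?_ ?_ ?_ ?_ ?_ ?_
      · intro x y e hx
        exact ⟨hK.of_iso e hx.1, hloc'.of_iso e hx.2⟩
      · intro x hx
        exact ⟨hK.zero hx, hloc'.zero hx⟩
      · intro x n hx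
        exact ⟨hK.shift n hx.1, hloc'.shift n hx.2⟩
      · intro T hT h₁ h₃
        exact ⟨hK.ext₂ T hT h₁.1 h₃.1, hloc'.ext₂ T hT h₁.2 h₃.2⟩
      · intro ι X F hF hX
        exact ⟨hK.prod ι X F hF (fun i => (hX i).1), la.prod ι X F hF (fun i => (hX i).2)⟩
      · intro s x hx
        exact ⟨hK.hom s x hx.1, la.hom s x hx.2⟩
    have hc₀ : IsLocal (cptIn Z) ((ihom f).obj c₁) := by
      intro d g hd
      apply MonoidalClosed.uncurry_injective
      have hz : IsZero (f ⊗ d) := (hF'.kill d hd).of_iso (β_ f d)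
      exact hz.eq_of_src _ _
    have hc₀' : ¬ IsZero ((ihom k).obj ((ihom f).obj c₁)) := by
      intro hz
      apply hP
      have h1 : IsZero ((ihom (f ⊗ k)).obj c₁) := hz.of_iso ((M_ihomTensor f k).app c₁)
      exact hE _ (hihom _ M_zeroCoideal c₁) P (f ⊗ k) h1 hPκ
    have hRT := hcore (cptIn Z) e' f ε' η' hF' k hkc hmin _ hK' (fun x hx => hx.2)
      ⟨(ihom f).obj c₁, ⟨hK.hom f c₁ hc₁, hc₀⟩, hc₀'⟩
    have h1 : IsLocal (cptIn Z) ((ihom f).obj s) := by
      intro d g hd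
      apply MonoidalClosed.uncurry_injective
      have hz : IsZero (f ⊗ d) := (hF'.kill d hd).of_iso (β_ f d)
      exact hz.eq_of_src _ _
    have h2 : K ((ihom (f ⊗ k)).obj s) :=
      hK.of_iso ((M_ihomTensor f k).app s).symm (hRT _ h1).1
    exact hE _ (hihom K hK s) P (f ⊗ k) h2 hPκ
  have hKt : ∀ (K : ObjectProperty C), IsColocCoideal K → ∀ t : C,
      (∀ P ∈ Cosupp t, ∃ s : C, K s ∧ P ∈ Cosupp s) → K t := by
    intro K hK t ht
    have h1 := hall _ (hihom K hK t) (fun P => by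
      by_cases hP : P ∈ Cosupp t
      · obtain ⟨c₁, hc₁, hPc⟩ := ht P hP
        exact hcomin K hK P c₁ hc₁ hPc t
      · exact hK.zero (not_not.1 hP)) (𝟙_ C)
    exact hK.of_iso (M_ihomUnit.app t) h1
  constructor
  · rintro ⟨K, hK⟩ ⟨K', hK'⟩ h
    replace h : ({P | ∃ t : C, K t ∧ P ∈ Cosupp t} : Set (Spc C)) =
      {P | ∃ t : C, K' t ∧ P ∈ Cosupp t} := h
    apply Subtype.ext
    funext t
    apply propext
    constructor
    · intro ht
      refine hKt K' hK' t fun P hP => ?_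
      have : P ∈ {P : Spc C | ∃ t : C, K t ∧ P ∈ Cosupp t} := ⟨t, ht, hP⟩
      rw [h] at this
      exact this
    · intro ht
      refine hKt K hK t fun P hP => ?_
      have : P ∈ {P : Spc C | ∃ t : C, K' t ∧ P ∈ Cosupp t} := ⟨t, ht, hP⟩
      rw [← h] at this
      exact this
  · intro S
    have hM : IsColocCoideal (fun t : C => ∀ P : {P : Spc C // P ∉ S},
        IsZero ((ihom (gObj P.1)).obj t)) := M_cointer _ (fun P => M_cokill (gObj P.1))
    refine ⟨⟨_, hM⟩, ?_⟩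
    ext P
    constructor
    · rintro ⟨t, ht, hP⟩
      by_contra hn
      exact hP (ht ⟨P, hn⟩)
    · intro hP
      refine ⟨(ihom (gObj P)).obj (gObj P), ?_, ?_⟩
      · rintro ⟨Q, hQ⟩
        have hne' : P ≠ Q := fun h => hQ (h ▸ hP)
        rw [M_isZero_ihom_iff]
        intro a h
        apply MonoidalClosed.uncurry_injective
        have hz : IsZero (gObj P ⊗ (gObj Q ⊗ a)) :=
          (isZero_tensorR a (horth P Q hne')).of_iso (α_ _ _ _).symm
        exact hz.eq_of_src _ _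
      · intro hz
        have h1 : IsZero ((ihom (gObj P ⊗ gObj P)).obj (gObj P)) :=
          hz.of_iso ((M_ihomTensor (gObj P) (gObj P)).app (gObj P))
        have h2 : P ∈ Supp (gObj P ⊗ gObj P) := by
          refine hsing P _ ?_ (hPP P)
          intro Q hQ
          by_contra hn
          apply hQ
          exact (isZero_tensorR (gObj P) (horth Q P hn)).of_iso (α_ _ _ _).symm
        have h3 : IsZero ((ihom (gObj P)).obj (gObj P)) :=
          hE _ (hihom _ M_zeroCoideal (gObj P)) P _ h1 h2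
        rw [M_isZero_ihom_iff] at h3
        have h4 := h3 (𝟙_ C) (ρ_ (gObj P)).hom
        apply hne P
        rw [IsZero.iff_id_eq_zero, ← (ρ_ (gObj P)).inv_hom_id, h4, comp_zero]

end H948
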