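import Pool.Agent.H948_Strat.Base
import Pool.Agent.H948_Strat.Bous

/-!
T12: T-nilpotence, paper (4.3), (5.5).
-/

set_option linter.unusedSectionVars false
set_option linter.style.haveILetI false

open CategoryTheory Limits MonoidalCategory Pretriangulated

universe v u

namespace H948

section Act

variable {C : Type u} [Category.{v} C] [MonoidalCategory C]

lemma T12_act_nat {w X Y : C} (r : w ⟶ 𝟙_ C) (g : X ⟶ Y) : act r X ≫ g = w ◁ g ≫ act r Y := by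
  unfold act
  rw [Category.assoc, ← leftUnitor_naturality, ← whisker_exchange_assoc]

lemma T12_act_tensor {w : C} (r : w ⟶ 𝟙_ C) (X Y : C) :
    act r (X ⊗ Y) = (α_ w X Y).inv ≫ act r X ▷ Y := by
  unfold act
  monoidal

section Symm

variable [SymmetricCategory C]

/-- interchange of two factors -/
def T12_sw (c d Y : C) : c ⊗ (d ⊗ Y) ≅ d ⊗ (c ⊗ Y) :=
  (α_ c d Y).symm ≪≫ whiskerRightIso (β_ c d) Y ≪≫ α_ d c Y

lemma T12_act_br {w : C} (r : w ⟶ 𝟙_ C) (c : C) :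
    act r c = (β_ w c).hom ≫ c ◁ r ≫ (ρ_ c).hom := by
  unfold act
  rw [← BraidedCategory.braiding_naturality_left_assoc, braiding_rightUnitor]

lemma T12_whisker_act {d : C} (r : d ⟶ 𝟙_ C) (c Y : C) :
    c ◁ act r Y = (T12_sw c d Y).hom ≫ act r (c ⊗ Y) := by
  have h : (β_ c d).hom ≫ act r c = c ◁ r ≫ (ρ_ c).hom := by
    rw [T12_act_br, ← Category.assoc, SymmetricCategory.symmetry, Category.id_comp]
  have h2 : (β_ c d).hom ▷ Y ≫ act r c ▷ Y = (c ◁ r ≫ (ρ_ c).hom) ▷ Y := by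
    rw [← comp_whiskerRight, h]
  simp only [T12_sw, Iso.trans_hom, Iso.symm_hom, whiskerRightIso_hom, Category.assoc]
  rw [T12_act_tensor, Iso.hom_inv_id_assoc, h2]
  unfold act
  monoidal

lemma T12_adj {a b w d Y : C} [ExactPairing a b] (k : d ⟶ 𝟙_ C) (ψ : w ⟶ d ⊗ (a ⊗ Y)) :
    ∃ ψ' : b ⊗ w ⟶ d ⊗ Y,
      (tensorLeftHomEquiv w a b Y).symm (ψ ≫ act k (a ⊗ Y)) = ψ' ≫ act k Y := by
  refine ⟨b ◁ ψ ≫ (T12_sw b d (a ⊗ Y)).hom ≫
    d ◁ ((α_ _ _ _).inv ≫ ε_ a b ▷ Y ≫ (λ_ _).hom), ?_⟩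
  have e : (tensorLeftHomEquiv w a b Y).symm (ψ ≫ act k (a ⊗ Y)) =
      b ◁ (ψ ≫ act k (a ⊗ Y)) ≫ ((α_ _ _ _).inv ≫ ε_ a b ▷ Y ≫ (λ_ _).hom) := rfl
  rw [e, MonoidalCategory.whiskerLeft_comp, T12_whisker_act]
  simp only [Category.assoc]
  rw [← T12_act_nat]

end Symm

end Act

section Phantom

variable {C : Type u} [Category.{v} C] [Preadditive C] [HasZeroObject C] [HasShift C ℤ]
  [∀ n : ℤ, (shiftFunctor C n).Additive] [Pretriangulated C] [MonoidalCategory C]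
  [SymmetricCategory C] [MonoidalClosed C] [TensorExact C] [HasCoproducts.{v} C]

lemma T12_ph_whisker {K : ObjectProperty C} (hK : IsColocCoideal K) (s : C) {x z : C} (φ : x ⟶ z)
    (h : IsPh K φ) : IsPh K (s ◁ φ) := by
  intro c g hc
  have e := h ((ihom s).obj c) (MonoidalClosed.curry g) (hK.hom s c hc)
  rw [← MonoidalClosed.curry_natural_left] at e
  have : (s ◁ φ ≫ g) = MonoidalClosed.uncurry (0 : x ⟶ (ihom s).obj c) := by
    rw [← e, MonoidalClosed.uncurry_curry]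
  rw [this]
  have h0 : s ◁ (0 : x ⟶ (ihom s).obj c) = 0 := MonoidalPreadditive.whiskerLeft_zero
  rw [MonoidalClosed.uncurry_eq, h0, zero_comp]

lemma T12_ph_pre {K : ObjectProperty C} {w x z : C} (a : w ⟶ x) (φ : x ⟶ z) (h : IsPh K φ) :
    IsPh K (a ≫ φ) := by
  intro c g hc
  rw [Category.assoc, h c g hc, comp_zero]

lemma T12_ph_adj {K : ObjectProperty C} (hK : IsColocCoideal K) {a b X Z : C} [ExactPairing a b]
    (φ : b ⊗ X ⟶ Z) (h : IsPh K φ) : IsPh K (tensorLeftHomEquiv X a b Z φ) := by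
  have e : tensorLeftHomEquiv X a b Z φ =
      ((λ_ _).inv ≫ η_ _ _ ▷ _ ≫ (α_ _ _ _).hom) ≫ a ◁ φ := by
    simp [tensorLeftHomEquiv]
  rw [e]
  exact T12_ph_pre _ _ (T12_ph_whisker hK a φ h)

lemma T12_symm_zero {a b X Z : C} [ExactPairing a b] :
    (tensorLeftHomEquiv X a b Z).symm 0 = 0 := by
  have e : (tensorLeftHomEquiv X a b Z).symm 0 =
    b ◁ (0 : X ⟶ a ⊗ Z) ≫ ((α_ _ _ _).inv ≫ ε_ a b ▷ Z ≫ (λ_ _).hom) := rfl
  rw [e, MonoidalPreadditive.whiskerLeft_zero, zero_comp]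

lemma T12_symm_eq_zero {a b X Z : C} [ExactPairing a b] (g : X ⟶ a ⊗ Z) :
    (tensorLeftHomEquiv X a b Z).symm g = 0 ↔ g = 0 := by
  constructor
  · intro h
    rw [← T12_symm_zero (a := a) (b := b)] at h
    exact (tensorLeftHomEquiv X a b Z).symm.injective h
  · rintro rfl
    exact T12_symm_zero

/-- (0.7) -/
lemma T12_rigid_zero {k kd : C} [ExactPairing kd k] {A V : C} (γ : A ⟶ kd ⊗ V)
    (h : k ◁ γ = 0) : γ = 0 := by
  rw [← T12_symm_eq_zero (a := kd) (b := k)]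
  have e : (tensorLeftHomEquiv A kd k V).symm γ =
    k ◁ γ ≫ ((α_ _ _ _).inv ≫ ε_ kd k ▷ V ≫ (λ_ _).hom) := rfl
  rw [e, h, zero_comp]

lemma T12_rigid_zero' {k kd : C} [ExactPairing kd k] {A V c z : C}
    (γ : A ⟶ V ⊗ (c ⊗ (kd ⊗ z))) (h : k ◁ γ = 0) : γ = 0 := by
  have e := T12_rigid_zero (k := k) (kd := kd)
    (γ ≫ (whiskerLeftIso V (T12_sw c kd z)).hom ≫ (T12_sw V kd (c ⊗ z)).hom) (by
      rw [MonoidalCategory.whiskerLeft_comp, h, zero_comp])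
  rw [← Category.assoc] at e
  have e2 := (cancel_mono (T12_sw V kd (c ⊗ z)).hom).1 (e.trans zero_comp.symm)
  exact (cancel_mono (whiskerLeftIso V (T12_sw c kd z)).hom).1 (e2.trans zero_comp.symm)

/-- the criterion for `θ ∈ (k₁) · Y` -/
lemma T12_crit (hR : RPkg C) {d : C} (hd : IsCpt d) (k₁ : d ⟶ 𝟙_ C) :
    ∃ (N : C) (ν : N ⟶ 𝟙_ C), IsCpt N ∧ ∀ (v Y : C) (θ : v ⟶ Y),
      (∃ ψ : v ⟶ d ⊗ Y, θ = ψ ≫ act k₁ Y) ↔ act ν v ≫ θ = 0 := by
  obtain ⟨N, ν, δ, hT⟩ := distinguished_cocone_triangle k₁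
  have hN : IsCpt N := by
    have h1 := T2_cpt_triang (C := C)
    have h2 := T2_cpt_closed (C := C)
    exact ObjectProperty.ext_of_isTriangulatedClosed₃ (P := IsCpt (C := C)) _ hT hd hR.unit
  obtain ⟨Nd, hNd, -, ⟨hpair⟩⟩ := hR.dual hN
  refine ⟨Nd, (ρ_ Nd).inv ≫ Nd ◁ ν ≫ ε_ N Nd, hNd, fun v Y θ => ?_⟩
  obtain ⟨δ', hT'⟩ := tensorTriR Y _ hT
  have e1 : act ((ρ_ Nd).inv ≫ Nd ◁ ν ≫ ε_ N Nd) v ≫ θ =
      (tensorLeftHomEquiv v N Nd Y).symm (θ ≫ (λ_ Y).inv ≫ ν ▷ Y) := by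
    have e2 : (tensorLeftHomEquiv v N Nd Y).symm (θ ≫ (λ_ Y).inv ≫ ν ▷ Y) =
      Nd ◁ (θ ≫ (λ_ Y).inv ≫ ν ▷ Y) ≫ ((α_ _ _ _).inv ≫ ε_ N Nd ▷ Y ≫ (λ_ _).hom) := rfl
    rw [e2, T12_act_nat]
    unfold act
    monoidal
  rw [e1, T12_symm_eq_zero]
  constructor
  · rintro ⟨ψ, rfl⟩
    have h0 : k₁ ▷ Y ≫ ν ▷ Y = 0 := comp_distTriang_mor_zero₁₂ _ hT'
    unfold act
    rw [Category.assoc, Category.assoc, Iso.hom_inv_id_assoc, h0, comp_zero]
  · intro h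
    obtain ⟨ψ, hψ⟩ : ∃ ψ : v ⟶ d ⊗ Y, θ ≫ (λ_ Y).inv = ψ ≫ k₁ ▷ Y :=
      Triangle.coyoneda_exact₂ _ hT' (θ ≫ (λ_ Y).inv) (by
        rw [← Category.assoc] at h; exact h)
    refine ⟨ψ, ?_⟩
    unfold act
    rw [← reassoc_of% hψ, Iso.inv_hom_id, Category.comp_id]

end Phantom

section Seq

variable {C : Type u} [Category.{v} C] [MonoidalCategory C]

/-- the products -/
def T12_W (Z : ℕ → C) : ℕ → C
  | 0 => 𝟙_ C
  | n + 1 => T12_W Z n ⊗ Z n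

/-- the transition maps -/
def T12_t (Z : ℕ → C) (g : ∀ n, 𝟙_ C ⟶ Z n) (n : ℕ) : T12_W Z n ⟶ T12_W Z (n + 1) :=
  (ρ_ (T12_W Z n)).inv ≫ T12_W Z n ◁ g n

/-- the maps from the unit -/
def T12_γ (Z : ℕ → C) (g : ∀ n, 𝟙_ C ⟶ Z n) : ∀ n, 𝟙_ C ⟶ T12_W Z n
  | 0 => 𝟙 (𝟙_ C)
  | n + 1 => T12_γ Z g n ≫ T12_t Z g n

lemma T12_interchange {W Z : C} (γ : 𝟙_ C ⟶ W) (g : 𝟙_ C ⟶ Z) :
    g ≫ (λ_ Z).inv ≫ γ ▷ Z = γ ≫ (ρ_ W).inv ≫ W ◁ g := by
  have h1 : g ≫ (λ_ Z).inv = (λ_ (𝟙_ C)).inv ≫ 𝟙_ C ◁ g := by monoidal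
  have h2 : γ ≫ (ρ_ W).inv = (λ_ (𝟙_ C)).inv ≫ γ ▷ 𝟙_ C := by monoidal
  rw [reassoc_of% h1, reassoc_of% h2, whisker_exchange]

lemma T12_seq {X : ℕ → C} {f : ∀ n, X n ⟶ X (n + 1)} {A : C} (γ : ∀ n, A ⟶ X n)
    (h : ∀ n, γ n ≫ f n = γ (n + 1)) (n m : ℕ) : γ n ≫ seqMap X f n m = γ (n + m) := by
  induction m with
  | zero => exact Category.comp_id _
  | succ m ih =>
    change γ n ≫ seqMap X f n m ≫ f (n + m) = _
    rw [← Category.assoc, ih, h]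
    rfl

lemma T12_seq_whisker (k : C) (X : ℕ → C) (f : ∀ n, X n ⟶ X (n + 1)) (n m : ℕ) :
    seqMap (fun n => k ⊗ X n) (fun n => k ◁ f n) n m = k ◁ seqMap X f n m := by
  induction m with
  | zero => exact (MonoidalCategory.whiskerLeft_id _ _).symm
  | succ m ih =>
    change seqMap (fun n => k ⊗ X n) (fun n => k ◁ f n) n m ≫ k ◁ f (n + m) =
      k ◁ (seqMap X f n m ≫ f (n + m))
    rw [ih, MonoidalCategory.whiskerLeft_comp]

end Seq

section Main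

variable {C : Type u} [Category.{v} C] [Preadditive C] [HasZeroObject C] [HasShift C ℤ]
  [∀ n : ℤ, (shiftFunctor C n).Additive] [Pretriangulated C] [IsTriangulated C]
  [MonoidalCategory C] [SymmetricCategory C] [MonoidalClosed C] [TensorExact C]
  [HasCoproducts.{v} C]

/-- one step: the domination for maps to `kd ⊗ x` -/
lemma T12_dom (hR : RPkg C) {T K : ObjectProperty C} (hK : IsColocCoideal K) {k kd : C}
    (hk : IsCpt k) [ExactPairing kd k] {x : C}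
    (hdom : ∀ (c : C) (ψ : c ⟶ x), IsCpt c → Dom T K ψ) {c : C} (hc : IsCpt c)
    (φ : c ⟶ kd ⊗ x) :
    ∃ (z : C) (φ' : c ⟶ kd ⊗ z), T z ∧ IsPh K φ' ∧
      ∀ (d : C) (r : d ⟶ c), IsCpt d → r ≫ φ' = 0 → r ≫ φ = 0 := by
  obtain ⟨z, ψ', hz, hph, hann⟩ := hdom (k ⊗ c) ((tensorLeftHomEquiv c kd k x).symm φ)
    (hR.cpt_tensor hk hc)
  refine ⟨z, tensorLeftHomEquiv c kd k z ψ', hz, T12_ph_adj hK _ hph, fun d r hd h => ?_⟩
  rw [← T12_symm_eq_zero (a := kd) (b := k), tensorLeftHomEquiv_symm_naturality,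
    Equiv.symm_apply_apply] at h
  rw [← T12_symm_eq_zero (a := kd) (b := k), tensorLeftHomEquiv_symm_naturality]
  exact hann _ _ (hR.cpt_tensor hk hd) h

theorem nil (hR : RPkg C) (ho : HoAPI C) (ht : S_hoTensor C) (h5 : S_fl05 C) (hl : S_local C) :
    S_nil C := by
  intro D e f ε η hFL k kd hk hpair K hK hKloc hperp x hx hdom c φ hc
  obtain ⟨hpair⟩ := hpair
  have hloc := hl D e f ε η hFL
  -- the dominating phantoms
  have hch := fun n => T12_dom hR hK hk hdom (hc n) (φ n)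
  choose z φ' hz hph hann using hch
  -- duals of the `c n`
  have hdual := fun n => hR.dual (hc n)
  choose cd hcd hp _ using hdual
  have hp' : ∀ n, ExactPairing (cd n) (c n) := fun n => (hp n).some
  let Y : ℕ → C := fun n => kd ⊗ z n
  let Z : ℕ → C := fun n => cd n ⊗ Y n
  let g : ∀ n, 𝟙_ C ⟶ Z n := fun n =>
    tensorLeftHomEquiv (𝟙_ C) (cd n) (c n) (Y n) ((ρ_ (c n)).hom ≫ φ' n)
  have hgph : ∀ n, IsPh K (g n) := fun n => T12_ph_adj hK _ (T12_ph_pre _ _ (hph n))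
  have htph : ∀ n, IsPh K (T12_t Z g n) := fun n =>
    T12_ph_pre _ _ (T12_ph_whisker hK _ _ (hgph n))
  -- the claim
  have claim : ∀ (n : ℕ) (w : C) (r : w ⟶ 𝟙_ C), IsCpt w → r ≫ T12_γ Z g n = 0 →
      Kseq (annCls (f ⊗ k)) φ n w r := by
    intro n
    induction n with
    | zero =>
      intro w r hw h
      have h0 : r = 0 := (Category.comp_id r).symm.trans h
      subst h0
      change act (0 : w ⟶ 𝟙_ C) (f ⊗ k) = 0
      unfold act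
      rw [MonoidalPreadditive.zero_whiskerRight, zero_comp]
    | succ n ih =>
      intro w r hw h
      have h1 : (r ≫ g n) ≫ (λ_ (Z n)).inv ≫ T12_γ Z g n ▷ Z n = 0 := by
        rw [Category.assoc, T12_interchange]
        exact h
      obtain ⟨d, k₁, ψ, hd, hk₁, hψ⟩ := h5 _ _ _ (T12_γ Z g n) (r ≫ g n) hw h1
      obtain ⟨ψ', hψ'⟩ := T12_adj (a := cd n) (b := c n) k₁ ψ
      rw [← hψ, tensorLeftHomEquiv_symm_naturality, Equiv.symm_apply_apply] at hψ'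
      obtain ⟨N, ν, hN, hcrit⟩ := T12_crit hR hd k₁
      have h2 : act ν (w ⊗ c n) ≫ act r (c n) ≫ φ' n = 0 := by
        rw [← hcrit]
        refine ⟨(β_ w (c n)).hom ≫ ψ', ?_⟩
        rw [T12_act_br, Category.assoc, Category.assoc, Category.assoc]
        rw [hψ']
      have h3 := hann n _ (act ν (w ⊗ c n) ≫ act r (c n))
        (hR.cpt_tensor hN (hR.cpt_tensor hw (hc n))) (by rw [Category.assoc]; exact h2)
      rw [Category.assoc, ← hcrit] at h3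
      obtain ⟨ψ₂, hψ₂⟩ := h3
      exact ⟨d, k₁, ψ₂, hd, ih d k₁ hd hk₁, hψ₂⟩
  -- some `γ n` vanishes
  suffices h : ∃ n, T12_γ Z g n = 0 by
    obtain ⟨n, hn⟩ := h
    exact ⟨n, claim n _ _ hR.unit (by rw [hn, comp_zero])⟩
  have hZloc : ∀ n, IsLocal D (Z n) := fun n =>
    hloc.locIdeal.tensor _ _ (hloc.locIdeal.tensor _ _ (hz n))
  have hWloc : ∀ n, IsLocal D (T12_W Z (n + 1)) := fun n =>
    hloc.locIdeal.tensor _ _ (hZloc n)
  obtain ⟨H, i, hi⟩ := ho.ex (fun n => T12_W Z (n + 1)) (fun n => T12_t Z g (n + 1))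
  have hHloc : IsLocal D H := ho.loc _ _ H i hi _ hloc.locIdeal.toIsLoc hWloc
  have hHz : IsZero (k ⊗ H) := by
    apply hperp H hHloc
    intro c' g' hc'
    refine ho.vanish _ _ H i hi c' (fun n g'' => htph (n + 1) _ g'' hc') (fun n g'' => ?_) g'
    refine htph (n + 1) _ g'' ?_
    have := hK.tri
    exact K.le_shift _ _ hc'
  have hk' := ht k _ _ H i hi
  obtain ⟨m, hm⟩ := ho.cpt0 _ _ _ _ hk' (k ⊗ 𝟙_ C) 0 (k ◁ T12_γ Z g 1)
    (hR.cpt_tensor hk hR.unit) (hHz.eq_of_tgt _ _)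
  rw [T12_seq_whisker k (fun n => T12_W Z (n + 1)) (fun n => T12_t Z g (n + 1)),
    ← MonoidalCategory.whiskerLeft_comp] at hm
  have e := T12_seq (X := fun n => T12_W Z (n + 1)) (f := fun n => T12_t Z g (n + 1))
    (fun n => T12_γ Z g (n + 1)) (fun n => rfl) 0 m
  refine ⟨0 + m + 1, ?_⟩
  have e2 : k ◁ T12_γ Z g (0 + m + 1) = 0 := by
    rw [← hm]
    exact congrArg (fun x => k ◁ x) e.symm
  exact T12_rigid_zero' (k := k) (kd := kd) _ e2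

end Main

end H948
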