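import Pool.Agent.H948_Strat.Stmts

/-!
Existence of products (Brown representability).
-/

open CategoryTheory Limits MonoidalCategory Pretriangulated

universe v u w

set_option linter.unusedSectionVars false

namespace H948

section Tri

variable {C : Type u} [Category.{v} C] [Preadditive C] [HasZeroObject C] [HasShift C ℤ]
  [∀ n : ℤ, (shiftFunctor C n).Additive] [Pretriangulated C] [HasCoproducts.{v} C]

/-- A candidate: an object with maps to the family. -/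
structure T5_Stage {J : Type v} (Y : J → C) where
  X : C
  u : ∀ j, X ⟶ Y j

/-- injectivity at `B` -/
def T5_Inj {J : Type v} {Y : J → C} (S : T5_Stage Y) (B : C) : Prop :=
  ∀ a : B ⟶ S.X, (∀ j, a ≫ S.u j = 0) → a = 0

/-- surjectivity at `B` -/
def T5_Sur {J : Type v} {Y : J → C} (S : T5_Stage Y) (B : C) : Prop :=
  ∀ y : ∀ j, B ⟶ Y j, ∃ a : B ⟶ S.X, ∀ j, a ≫ S.u j = y j

theorem T5_inj_iso {J : Type v} {Y : J → C} (S : T5_Stage Y) {A B : C} (e : A ≅ B)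
    (h : T5_Inj S A) : T5_Inj S B := by
  intro a ha
  have h1 : e.hom ≫ a = 0 := h _ fun j => by rw [Category.assoc, ha j, comp_zero]
  rw [← Category.id_comp a, ← e.inv_hom_id, Category.assoc, h1, comp_zero]

theorem T5_sur_iso {J : Type v} {Y : J → C} (S : T5_Stage Y) {A B : C} (e : A ≅ B)
    (h : T5_Sur S A) : T5_Sur S B := by
  intro y
  obtain ⟨a, ha⟩ := h fun j => e.hom ≫ y j
  exact ⟨e.inv ≫ a, fun j => by rw [Category.assoc, ha j, e.inv_hom_id_assoc]⟩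

theorem T5_inj_mid {J : Type v} {Y : J → C} (S : T5_Stage Y) (T : Triangle C)
    (hT : T ∈ distTriang C) (h1 : T5_Inj S T.obj₁) (h3 : T5_Inj S T.obj₃)
    (h1s : T5_Sur S (T.obj₁⟦(1 : ℤ)⟧)) : T5_Inj S T.obj₂ := by
  intro a ha
  have e1 : T.mor₁ ≫ a = 0 := h1 _ fun j => by rw [Category.assoc, ha j, comp_zero]
  obtain ⟨c, hc⟩ := Triangle.yoneda_exact₂ T hT a e1
  have e2 : ∀ j, ∃ d : T.obj₁⟦(1 : ℤ)⟧ ⟶ Y j, c ≫ S.u j = T.mor₃ ≫ d := by
    intro j
    apply Triangle.yoneda_exact₃ T hT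
    rw [← Category.assoc, ← hc, ha j]
  choose d hd using e2
  obtain ⟨D, hD⟩ := h1s d
  have e3 : c - T.mor₃ ≫ D = 0 := h3 _ fun j => by
    rw [Preadditive.sub_comp, hd j, Category.assoc, hD j, sub_self]
  rw [sub_eq_zero] at e3
  rw [hc, e3, ← Category.assoc, comp_distTriang_mor_zero₂₃ T hT, zero_comp]

omit [HasCoproducts.{v} C] in
theorem T5_inv (T : Triangle C) (hT : T ∈ distTriang C) :
    ∃ k : T.obj₃⟦(-1 : ℤ)⟧ ⟶ T.obj₁, k ≫ T.mor₁ = 0 ∧
      ∀ (X : C) (a : T.obj₁ ⟶ X), k ≫ a = 0 → ∃ b : T.obj₂ ⟶ X, a = T.mor₁ ≫ b :=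
  ⟨T.invRotate.mor₁, comp_distTriang_mor_zero₁₂ _ (inv_rot_of_distTriang _ hT),
    fun _ a ha => Triangle.yoneda_exact₂ T.invRotate (inv_rot_of_distTriang _ hT) a ha⟩

theorem T5_sur_mid {J : Type v} {Y : J → C} (S : T5_Stage Y) (T : Triangle C)
    (hT : T ∈ distTriang C) (h1 : T5_Sur S T.obj₁) (h3 : T5_Sur S T.obj₃)
    (h3s : T5_Inj S (T.obj₃⟦(-1 : ℤ)⟧)) : T5_Sur S T.obj₂ := by
  intro y
  obtain ⟨a, ha⟩ := h1 fun j => T.mor₁ ≫ y j
  obtain ⟨k, hk, hk2⟩ := T5_inv T hT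
  have e1 : k ≫ a = 0 := by
    apply h3s
    intro j
    rw [Category.assoc, ha j, ← Category.assoc, hk, zero_comp]
  obtain ⟨b, hb⟩ := hk2 _ a e1
  have e2 : ∀ j, ∃ c : T.obj₃ ⟶ Y j, y j - b ≫ S.u j = T.mor₂ ≫ c := by
    intro j
    apply Triangle.yoneda_exact₂ T hT
    rw [Preadditive.comp_sub, ← Category.assoc, ← hb, ha j, sub_self]
  choose c hc using e2
  obtain ⟨D, hD⟩ := h3 c
  refine ⟨b + T.mor₂ ≫ D, fun j => ?_⟩
  rw [Preadditive.add_comp, Category.assoc, hD j, ← hc j, add_sub_cancel]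

theorem T5_inj_sigma {J : Type v} {Y : J → C} (S : T5_Stage Y) (I : Type v) (A : I → C)
    (h : ∀ i, T5_Inj S (A i)) : T5_Inj S (∐ A) := by
  intro a ha
  apply Sigma.hom_ext
  intro i
  rw [comp_zero]
  exact h i _ fun j => by rw [Category.assoc, ha j, comp_zero]

theorem T5_sur_sigma {J : Type v} {Y : J → C} (S : T5_Stage Y) (I : Type v) (A : I → C)
    (h : ∀ i, T5_Sur S (A i)) : T5_Sur S (∐ A) := by
  intro y
  have e : ∀ i, ∃ a : A i ⟶ S.X, ∀ j, a ≫ S.u j = Sigma.ι A i ≫ y j := fun i =>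
    h i fun j => Sigma.ι A i ≫ y j
  choose a ha using e
  refine ⟨Sigma.desc a, fun j => ?_⟩
  apply Sigma.hom_ext
  intro i
  rw [Sigma.ι_desc_assoc, ha i j]

/-- the class of the objects for which all shifts are represented -/
def T5_Q {J : Type v} {Y : J → C} (S : T5_Stage Y) : ObjectProperty C := fun A =>
  ∀ m : ℤ, T5_Inj S (A⟦m⟧) ∧ T5_Sur S (A⟦m⟧)

theorem T5_Q_iso {J : Type v} {Y : J → C} (S : T5_Stage Y) :
    (T5_Q S).IsClosedUnderIsomorphisms where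
  of_iso e h m :=
    ⟨T5_inj_iso S ((shiftFunctor C m).mapIso e) (h m).1,
      T5_sur_iso S ((shiftFunctor C m).mapIso e) (h m).2⟩

theorem T5_Q_shift {J : Type v} {Y : J → C} (S : T5_Stage Y) (A : C) (n : ℤ) (h : T5_Q S A) :
    T5_Q S (A⟦n⟧) := fun m =>
  ⟨T5_inj_iso S ((shiftFunctorAdd C n m).app A) (h (n + m)).1,
    T5_sur_iso S ((shiftFunctorAdd C n m).app A) (h (n + m)).2⟩

theorem T5_Q_loc {J : Type v} {Y : J → C} (S : T5_Stage Y) : IsLoc (T5_Q S) where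
  iso := T5_Q_iso S
  tri := by
    have := T5_Q_iso S
    exact
      { exists_zero := by
          refine ⟨_, isZero_zero C, fun m => ?_⟩
          have hz := (shiftFunctor C m).map_isZero (isZero_zero C)
          exact ⟨fun a _ => hz.eq_of_src _ _, fun y => ⟨0, fun j => hz.eq_of_src _ _⟩⟩
        isStableUnderShiftBy := fun n => ⟨fun A h => T5_Q_shift S A n h⟩
        ext₂' := by
          intro T hT h1 h3
          apply ObjectProperty.le_isoClosure
          intro m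
          have hT' := Triangle.shift_distinguished T hT m
          have e1 : T5_Inj S ((T.obj₃⟦m⟧)⟦(-1 : ℤ)⟧) := (T5_Q_shift S _ m h3 (-1)).1
          have e2 : T5_Sur S ((T.obj₁⟦m⟧)⟦(1 : ℤ)⟧) := (T5_Q_shift S _ m h1 1).2
          exact ⟨T5_inj_mid S _ hT' (h1 m).1 (h3 m).1 e2, T5_sur_mid S _ hT' (h1 m).2 (h3 m).2 e1⟩ }
  coprod := by
    intro I A h m
    have e := (PreservesCoproduct.iso (shiftFunctor C m) A).symm
    exact ⟨T5_inj_iso S e (T5_inj_sigma S I _ fun i => (h i m).1),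
      T5_sur_iso S e (T5_sur_sigma S I _ fun i => (h i m).2)⟩

/-- one step of the construction -/
theorem T5_step {J : Type v} {Y : J → C} {I : Type v} (G : I → C) (S : T5_Stage Y) :
    ∃ (S' : T5_Stage Y) (f : S.X ⟶ S'.X), (∀ j, f ≫ S'.u j = S.u j) ∧
      ∀ (g : I) (a : G g ⟶ S.X), (∀ j, a ≫ S.u j = 0) → a ≫ f = 0 := by
  let K := Σ g : I, {a : G g ⟶ S.X // ∀ j, a ≫ S.u j = 0}
  let φ : (∐ fun k : K => G k.1) ⟶ S.X := Sigma.desc fun k => k.2.1
  obtain ⟨Z, f, δ, hT⟩ := distinguished_cocone_triangle φ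
  have h0 : ∀ j, φ ≫ S.u j = 0 := by
    intro j
    apply Sigma.hom_ext
    intro k
    rw [Sigma.ι_desc_assoc, comp_zero]
    exact k.2.2 j
  have h1 : ∀ j, ∃ u' : Z ⟶ Y j, S.u j = f ≫ u' := fun j =>
    Triangle.yoneda_exact₂ _ hT (S.u j) (h0 j)
  choose u' hu' using h1
  refine ⟨⟨Z, u'⟩, f, fun j => (hu' j).symm, fun g a ha => ?_⟩
  have h2 : φ ≫ f = 0 := comp_distTriang_mor_zero₁₂ _ hT
  have h3 : a = Sigma.ι (fun k : K => G k.1) ⟨g, a, ha⟩ ≫ φ := by
    rw [Sigma.ι_desc]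
  rw [h3, Category.assoc, h2, comp_zero]

/-- the universal object for a set of compact objects -/
theorem T5_universal (ho : HoAPI C) {J : Type v} (Y : J → C) {I : Type v} (G : I → C)
    (hG : ∀ g, IsCpt (G g)) :
    ∃ S : T5_Stage Y, ∀ g, T5_Inj S (G g) ∧ T5_Sur S (G g) := by
  classical
  -- the first stage
  let K := Σ g : I, (∀ j, G g ⟶ Y j)
  let S₀ : T5_Stage Y := ⟨∐ fun k : K => G k.1, fun j => Sigma.desc fun k => k.2 j⟩
  let st : ℕ → T5_Stage Y := fun n => Nat.rec S₀ (fun _ S => (T5_step G S).choose) n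
  let f : ∀ n, (st n).X ⟶ (st (n + 1)).X := fun n => (T5_step G (st n)).choose_spec.choose
  have hf1 : ∀ n j, f n ≫ (st (n + 1)).u j = (st n).u j := fun n =>
    (T5_step G (st n)).choose_spec.choose_spec.1
  have hf2 : ∀ n (g : I) (a : G g ⟶ (st n).X), (∀ j, a ≫ (st n).u j = 0) → a ≫ f n = 0 :=
    fun n => (T5_step G (st n)).choose_spec.choose_spec.2
  obtain ⟨H, i, hH⟩ := ho.ex (fun n => (st n).X) f
  have hcomm := ho.comm _ _ _ _ hH
  have hdesc : ∀ j, ∃ h : H ⟶ Y j, ∀ n, i n ≫ h = (st n).u j := fun j =>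
    ho.desc _ _ _ _ hH (Y j) (fun n => (st n).u j) fun n => hf1 n j
  choose u hu using hdesc
  refine ⟨⟨H, u⟩, fun g => ⟨?_, ?_⟩⟩
  · intro a ha
    obtain ⟨n, b, hb⟩ := ho.cpt _ _ _ _ hH (G g) a (hG g)
    have h1 : ∀ j, b ≫ (st n).u j = 0 := by
      intro j
      rw [← hu j n, ← Category.assoc, ← hb]
      exact ha j
    have h2 : b ≫ f n = 0 := hf2 n g b h1
    rw [hb, ← hcomm n, ← Category.assoc, h2, zero_comp]
  · intro y
    refine ⟨Sigma.ι (fun k : K => G k.1) ⟨g, y⟩ ≫ i 0, fun j => ?_⟩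
    change (Sigma.ι (fun k : K => G k.1) ⟨g, y⟩ ≫ i 0) ≫ u j = y j
    rw [Category.assoc, hu j 0]
    exact Sigma.ι_desc _ _

omit [HasZeroObject C] [Pretriangulated C] in
/-- shifts of compact objects are compact -/
theorem T5_cpt_shift (c : C) (hc : IsCpt c) (n : ℤ) : IsCpt (c⟦n⟧) := by
  intro K X f
  let F := shiftFunctor C (-n)
  let e : (c⟦n⟧)⟦-n⟧ ≅ c := shiftShiftNeg c n
  obtain ⟨s, g, hg⟩ := hc K (fun k => F.obj (X k)) (e.inv ≫ F.map f ≫ (PreservesCoproduct.iso F X).hom)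
  have hfull : ∀ k, ∃ g' : c⟦n⟧ ⟶ X k, F.map g' = e.hom ≫ g k := fun k => F.map_surjective _
  choose g' hg' using hfull
  refine ⟨s, g', ?_⟩
  apply F.map_injective
  rw [F.map_sum]
  have h1 : F.map f = e.hom ≫ (e.inv ≫ F.map f ≫ (PreservesCoproduct.iso F X).hom) ≫
      (PreservesCoproduct.iso F X).inv := by
    rw [Category.assoc, Category.assoc, Iso.hom_inv_id, Category.comp_id, Iso.hom_inv_id_assoc]
  rw [h1, hg, Preadditive.sum_comp, Preadditive.comp_sum]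
  refine Finset.sum_congr rfl fun k _ => ?_
  rw [F.map_comp, hg' k, PreservesCoproduct.inv_hom, Category.assoc, Category.assoc,
    ι_comp_sigmaComparison]

/-- T5: products exist. -/
theorem prods (h : CptGen C) (_hc : S_coprodTri C) (ho : HoAPI C) (hb : S_bous C) :
    HasProducts.{v} C := by
  obtain ⟨ι, G, hG, hgen⟩ := h
  -- all shifts
  let D : ι × ULift.{v} ℤ → C := fun p => (G p.1)⟦p.2.down⟧
  have hD : ∀ p, IsCpt (D p) := fun p => T5_cpt_shift _ (hG p.1) _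
  have hDs : ∀ (p : ι × ULift.{v} ℤ) (n : ℤ), Nonempty ((D p)⟦n⟧ ≅ D (p.1, ⟨p.2.down + n⟩)) :=
    fun p n => ⟨((shiftFunctorAdd C p.2.down n).app (G p.1)).symm⟩
  have key : ∀ {J : Type v} (Y : J → C), ∃ S : T5_Stage Y, ∀ A : C, T5_Inj S A ∧ T5_Sur S A := by
    intro J Y
    obtain ⟨S, hS⟩ := T5_universal ho Y D hD
    refine ⟨S, fun A => ?_⟩
    have hQ : T5_Q S A := by
      obtain ⟨L, R, a, b, δ, hT, hL, hR⟩ := hb _ D hD (fun p n => ⟨_, hDs p n⟩) A
      have hR0 : IsZero R := hgen R fun i n f => hR (i, ⟨n⟩) f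
      have hiso : IsIso a := (Triangle.isZero₃_iff_isIso₁ _ hT).mp hR0
      have hLQ : T5_Q S L := hL (T5_Q S) (T5_Q_loc S) (by
        rintro x ⟨p, ⟨e⟩⟩
        have := T5_Q_iso S
        refine (T5_Q S).prop_of_iso e.symm fun m => ?_
        obtain ⟨e'⟩ := hDs p m
        exact ⟨T5_inj_iso S e'.symm (hS _).1, T5_sur_iso S e'.symm (hS _).2⟩)
      have := T5_Q_iso S
      exact (T5_Q S).prop_of_iso (asIso a) hLQ
    have e0 := (shiftFunctorZero C ℤ).app A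
    exact ⟨T5_inj_iso S e0 (hQ 0).1, T5_sur_iso S e0 (hQ 0).2⟩
  choose S hS using @key
  refine hasProducts_of_limit_fans (fun {J} f => Fan.mk (S f).X (S f).u) fun {J} f => ?_
  refine Fan.IsLimit.mk _ (fun s => ((hS f s.pt).2 s.proj).choose) ?_ ?_
  · intro s j
    exact ((hS f s.pt).2 s.proj).choose_spec j
  · intro s m hm
    rw [← sub_eq_zero]
    apply (hS f s.pt).1
    intro j
    rw [Preadditive.sub_comp, ((hS f s.pt).2 s.proj).choose_spec j, sub_eq_zero]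
    exact hm j

end Tri

end H948
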