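import Pool.Agent.H948_Strat.Base

/-!
(5.1)-(5.4): the ideals `K_n` stay proper.
-/

set_option linter.unusedSectionVars false
set_option linter.style.haveILetI false
set_option linter.unusedSimpArgs false

open CategoryTheory Limits MonoidalCategory Pretriangulated ZeroObject

universe v u w

namespace H948

section Act

variable {C : Type u} [Category.{v} C] [MonoidalCategory C]

/-- (I4) -/
lemma T11_act_comp {w w' : C} (g : w ⟶ w') (r : w' ⟶ 𝟙_ C) (X : C) :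
    act (g ≫ r) X = g ▷ X ≫ act r X := by
  simp [act]

/-- (I2) -/
lemma T11_act_nat {w : C} (r : w ⟶ 𝟙_ C) {X Y : C} (g : X ⟶ Y) :
    w ◁ g ≫ act r Y = act r X ≫ g := by
  simp [act, whisker_exchange_assoc]

/-- (I1) -/
lemma T11_act_mul {v w : C} (s : v ⟶ 𝟙_ C) (r : w ⟶ 𝟙_ C) (c : C) :
    act (mulU s r) c = (α_ v w c).hom ≫ act s (w ⊗ c) ≫ act r c := by
  simp [act, mulU]

lemma T11_act_one (c : C) : act (𝟙 (𝟙_ C)) c = (λ_ c).hom := by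
  simp [act]

lemma T11_mulU_eq {v w : C} (s : v ⟶ 𝟙_ C) (r : w ⟶ 𝟙_ C) :
    mulU s r = (s ⊗ₘ r) ≫ (λ_ (𝟙_ C)).hom := by
  simp [act, mulU, tensorHom_def]

/-- (I3) -/
lemma T11_act_tensor [SymmetricCategory C] {w : C} (r : w ⟶ 𝟙_ C) (d B : C) :
    act r (d ⊗ B) = ((α_ w d B).inv ≫ (β_ w d).hom ▷ B ≫ (α_ d w B).hom) ≫ d ◁ act r B := by
  have h : (r ▷ d) ▷ B ≫ (β_ (𝟙_ C) d).hom ▷ B = (β_ w d).hom ▷ B ≫ (d ◁ r) ▷ B := by
    rw [← comp_whiskerRight, ← comp_whiskerRight, BraidedCategory.braiding_naturality_left]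
  have h2 : (β_ (𝟙_ C) d).hom ▷ B ≫ (α_ _ _ _).hom ≫ d ◁ (λ_ B).hom = (λ_ d).hom ▷ B := by
    rw [triangle, braiding_tensorUnit_left]
    simp
  simp only [act, MonoidalCategory.whiskerLeft_comp, Category.assoc]
  rw [← associator_naturality_middle_assoc, ← reassoc_of% h, h2]
  simp

end Act

section Mon

variable {C : Type u} [Category.{v} C] [Preadditive C] [HasZeroObject C] [HasShift C ℤ]
  [∀ n : ℤ, (shiftFunctor C n).Additive] [Pretriangulated C] [HasCoproducts.{v} C]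

lemma T11_cpt_zero : IsCpt (0 : C) := fun ι X f =>
  ⟨∅, fun _ => 0, by simpa using (isZero_zero C).eq_of_src f 0⟩

lemma T11_cpt_biprod {a b : C} (ha : IsCpt a) (hb : IsCpt b) : IsCpt (a ⊞ b) := by
  classical
  intro ι X f
  obtain ⟨s₁, g₁, h₁⟩ := ha ι X (biprod.inl ≫ f)
  obtain ⟨s₂, g₂, h₂⟩ := hb ι X (biprod.inr ≫ f)
  refine ⟨s₁ ∪ s₂, fun i => (if i ∈ s₁ then biprod.fst ≫ g₁ i else 0) +
    (if i ∈ s₂ then biprod.snd ≫ g₂ i else 0), ?_⟩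
  simp only [Preadditive.add_comp, Finset.sum_add_distrib]
  have e₁ : ∑ i ∈ s₁ ∪ s₂, (if i ∈ s₁ then (biprod.fst : a ⊞ b ⟶ a) ≫ g₁ i else 0) ≫ Sigma.ι X i =
      biprod.fst ≫ ∑ i ∈ s₁, g₁ i ≫ Sigma.ι X i := by
    rw [Preadditive.comp_sum, ← Finset.sum_subset (Finset.subset_union_left (s₂ := s₂))]
    · exact Finset.sum_congr rfl fun i hi => by rw [if_pos hi, Category.assoc]
    · intro i _ hi
      rw [if_neg hi, zero_comp]
  have e₂ : ∑ i ∈ s₁ ∪ s₂, (if i ∈ s₂ then (biprod.snd : a ⊞ b ⟶ b) ≫ g₂ i else 0) ≫ Sigma.ι X i =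
      biprod.snd ≫ ∑ i ∈ s₂, g₂ i ≫ Sigma.ι X i := by
    rw [Preadditive.comp_sum, ← Finset.sum_subset (Finset.subset_union_right (s₁ := s₁))]
    · exact Finset.sum_congr rfl fun i hi => by rw [if_pos hi, Category.assoc]
    · intro i _ hi
      rw [if_neg hi, zero_comp]
  rw [e₁, e₂, ← h₁, ← h₂, ← Category.assoc, ← Category.assoc, ← Preadditive.add_comp, biprod.total,
    Category.id_comp]

/-- shifts of compact objects are compact -/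
theorem T11_cpt_shift (c : C) (hc : IsCpt c) (n : ℤ) : IsCpt (c⟦n⟧) := by
  intro K X f
  let F := shiftFunctor C (-n)
  let e : (c⟦n⟧)⟦-n⟧ ≅ c := shiftShiftNeg c n
  obtain ⟨s, g, hg⟩ := hc K (fun k => F.obj (X k)) (e.inv ≫ F.map f ≫ (PreservesCoproduct.iso F X).hom)
  have hfull : ∀ k, ∃ g' : c⟦n⟧ ⟶ X k, F.map g' = e.hom ≫ g k := fun k => F.map_surjective _
  choose g' hg' using hfull
  refine ⟨s, g', ?_⟩
  apply F.map_injective
  rw [F.map_sum]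
  have h1 : F.map f = e.hom ≫ (e.inv ≫ F.map f ≫ (PreservesCoproduct.iso F X).hom) ≫
      (PreservesCoproduct.iso F X).inv := by
    rw [Category.assoc, Category.assoc, Iso.hom_inv_id, Category.comp_id, Iso.hom_inv_id_assoc]
  rw [h1, hg, Preadditive.sum_comp, Preadditive.comp_sum]
  refine Finset.sum_congr rfl fun k _ => ?_
  rw [F.map_comp, hg' k, PreservesCoproduct.inv_hom, Category.assoc, Category.assoc,
    ι_comp_sigmaComparison]

variable [MonoidalCategory C] [SymmetricCategory C] [TensorExact C]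

/-- maps from compact objects to the unit -/
structure T11_U (hR : RPkg C) where
  w : C
  cpt : IsCpt w
  r : w ⟶ 𝟙_ C

instance T11_U.pre (hR : RPkg C) : Preorder (T11_U hR) where
  le x y := ∃ g : x.w ⟶ y.w, x.r = g ≫ y.r
  le_refl x := ⟨𝟙 _, by simp⟩
  le_trans x y z := by
    rintro ⟨g, hg⟩ ⟨g', hg'⟩
    exact ⟨g ≫ g', by rw [hg, hg', Category.assoc]⟩

lemma T11_le_iff {hR : RPkg C} (x y : T11_U hR) : x ≤ y ↔ ∃ g : x.w ⟶ y.w, x.r = g ≫ y.r := Iff.rfl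

/-- product -/
def T11_U.mul {hR : RPkg C} (x y : T11_U hR) : T11_U hR :=
  ⟨x.w ⊗ y.w, hR.cpt_tensor x.cpt y.cpt, mulU x.r y.r⟩

/-- sum -/
noncomputable def T11_U.sup {hR : RPkg C} (x y : T11_U hR) : T11_U hR :=
  ⟨x.w ⊞ y.w, T11_cpt_biprod x.cpt y.cpt, biprod.desc x.r y.r⟩

lemma T11_mul_mono {hR : RPkg C} {x x' y y' : T11_U hR} (h : x ≤ x') (h' : y ≤ y') :
    x.mul y ≤ x'.mul y' := by
  obtain ⟨g, hg⟩ := h
  obtain ⟨g', hg'⟩ := h'
  refine ⟨g ⊗ₘ g', ?_⟩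
  change mulU x.r y.r = (g ⊗ₘ g') ≫ mulU x'.r y'.r
  rw [hg, hg', T11_mulU_eq, T11_mulU_eq, MonoidalCategory.tensorHom_comp_tensorHom_assoc]

lemma T11_sup_le {hR : RPkg C} {x y z : T11_U hR} (h : x ≤ z) (h' : y ≤ z) : x.sup y ≤ z := by
  obtain ⟨g, hg⟩ := h
  obtain ⟨g', hg'⟩ := h'
  refine ⟨biprod.desc g g', ?_⟩
  change biprod.desc x.r y.r = biprod.desc g g' ≫ z.r
  rw [hg, hg']
  apply biprod.hom_ext' <;> simp

lemma T11_le_sup_left {hR : RPkg C} (x y : T11_U hR) : x ≤ x.sup y :=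
  ⟨biprod.inl, by change x.r = biprod.inl ≫ biprod.desc x.r y.r; simp⟩

lemma T11_le_sup_right {hR : RPkg C} (x y : T11_U hR) : y ≤ x.sup y :=
  ⟨biprod.inr, by change y.r = biprod.inr ≫ biprod.desc x.r y.r; simp⟩

lemma T11_mul_comm_le {hR : RPkg C} (x y : T11_U hR) : x.mul y ≤ y.mul x := by
  refine ⟨(β_ x.w y.w).hom, ?_⟩
  change mulU x.r y.r = (β_ x.w y.w).hom ≫ mulU y.r x.r
  rw [T11_mulU_eq, T11_mulU_eq, ← BraidedCategory.braiding_naturality_assoc,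
    braiding_tensorUnit_left]
  simp [unitors_equal]

lemma T11_mul_assoc_le {hR : RPkg C} (x y z : T11_U hR) : (x.mul y).mul z ≤ x.mul (y.mul z) := by
  refine ⟨(α_ x.w y.w z.w).hom, ?_⟩
  change mulU (mulU x.r y.r) z.r = (α_ _ _ _).hom ≫ mulU x.r (mulU y.r z.r)
  rw [mulU, T11_act_mul, Category.assoc, Category.assoc]
  rfl

lemma T11_mul_assoc_le' {hR : RPkg C} (x y z : T11_U hR) : x.mul (y.mul z) ≤ (x.mul y).mul z := by
  refine ⟨(α_ x.w y.w z.w).inv, ?_⟩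
  change mulU x.r (mulU y.r z.r) = (α_ _ _ _).inv ≫ mulU (mulU x.r y.r) z.r
  rw [Iso.eq_inv_comp, mulU, mulU, mulU, T11_act_mul]
  simp [mulU]

/-- the unit -/
def T11_U.one (hR : RPkg C) : T11_U hR := ⟨𝟙_ C, hR.unit, 𝟙 _⟩

/-- zero -/
noncomputable def T11_U.bot (hR : RPkg C) : T11_U hR := ⟨0, T11_cpt_zero, 0⟩

lemma T11_one_mul_le {hR : RPkg C} (x : T11_U hR) : (T11_U.one hR).mul x ≤ x := by
  refine ⟨(λ_ x.w).hom, ?_⟩
  change mulU (𝟙 (𝟙_ C)) x.r = (λ_ x.w).hom ≫ x.r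
  rw [mulU, T11_act_one]

lemma T11_one_mul_le' {hR : RPkg C} (x : T11_U hR) : x ≤ (T11_U.one hR).mul x := by
  refine ⟨(λ_ x.w).inv, ?_⟩
  change _ = (λ_ x.w).inv ≫ mulU (𝟙 (𝟙_ C)) x.r
  rw [mulU, T11_act_one, Iso.inv_hom_id_assoc]

/-- the ordered monoid of maps to the unit -/
def T11_M (hR : RPkg C) : Type max u v := Antisymmetrization (T11_U hR) (· ≤ ·)

instance (hR : RPkg C) : PartialOrder (T11_M hR) :=
  inferInstanceAs (PartialOrder (Antisymmetrization (T11_U hR) (· ≤ ·)))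

/-- the class of a map -/
def T11_mk' {hR : RPkg C} (x : T11_U hR) : T11_M hR := toAntisymmetrization (· ≤ ·) x

lemma T11_mk'_le {hR : RPkg C} (x y : T11_U hR) : T11_mk' x ≤ T11_mk' y ↔ x ≤ y := Iff.rfl

lemma T11_mk'_surj {hR : RPkg C} (m : T11_M hR) : ∃ x, m = T11_mk' x := by
  obtain ⟨x, hx⟩ := Quotient.exists_rep m
  exact ⟨x, hx.symm⟩

lemma T11_mk'_eq {hR : RPkg C} {x y : T11_U hR} (h : x ≤ y) (h' : y ≤ x) : T11_mk' x = T11_mk' y :=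
  le_antisymm h h'

/-- multiplication -/
def T11_mulM {hR : RPkg C} : T11_M hR → T11_M hR → T11_M hR :=
  Quotient.map₂ T11_U.mul (fun _ _ h _ _ h' => ⟨T11_mul_mono h.1 h'.1, T11_mul_mono h.2 h'.2⟩)

/-- addition -/
noncomputable def T11_supM {hR : RPkg C} : T11_M hR → T11_M hR → T11_M hR :=
  Quotient.map₂ T11_U.sup (fun _ _ h _ _ h' =>
    ⟨T11_sup_le (h.1.trans (T11_le_sup_left _ _)) (h'.1.trans (T11_le_sup_right _ _)),
      T11_sup_le (h.2.trans (T11_le_sup_left _ _)) (h'.2.trans (T11_le_sup_right _ _))⟩)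

instance T11_comm (hR : RPkg C) : CommMonoid (T11_M hR) where
  mul := T11_mulM
  one := T11_mk' (T11_U.one hR)
  mul_assoc a b c := by
    obtain ⟨x, rfl⟩ := T11_mk'_surj a
    obtain ⟨y, rfl⟩ := T11_mk'_surj b
    obtain ⟨z, rfl⟩ := T11_mk'_surj c
    exact T11_mk'_eq (T11_mul_assoc_le x y z) (T11_mul_assoc_le' x y z)
  one_mul a := by
    obtain ⟨x, rfl⟩ := T11_mk'_surj a
    exact T11_mk'_eq (T11_one_mul_le x) (T11_one_mul_le' x)
  mul_one a := by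
    obtain ⟨x, rfl⟩ := T11_mk'_surj a
    exact T11_mk'_eq ((T11_mul_comm_le _ _).trans (T11_one_mul_le x))
      ((T11_one_mul_le' x).trans (T11_mul_comm_le _ _))
  mul_comm a b := by
    obtain ⟨x, rfl⟩ := T11_mk'_surj a
    obtain ⟨y, rfl⟩ := T11_mk'_surj b
    exact T11_mk'_eq (T11_mul_comm_le x y) (T11_mul_comm_le y x)

noncomputable instance T11_semi (hR : RPkg C) : SemilatticeSup (T11_M hR) where
  sup := T11_supM
  le_sup_left a b := by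
    obtain ⟨x, rfl⟩ := T11_mk'_surj a
    obtain ⟨y, rfl⟩ := T11_mk'_surj b
    exact T11_le_sup_left x y
  le_sup_right a b := by
    obtain ⟨x, rfl⟩ := T11_mk'_surj a
    obtain ⟨y, rfl⟩ := T11_mk'_surj b
    exact T11_le_sup_right x y
  sup_le a b c h h' := by
    obtain ⟨x, rfl⟩ := T11_mk'_surj a
    obtain ⟨y, rfl⟩ := T11_mk'_surj b
    obtain ⟨z, rfl⟩ := T11_mk'_surj c
    exact T11_sup_le (x := x) (y := y) (z := z) h h'

noncomputable instance T11_bot (hR : RPkg C) : OrderBot (T11_M hR) where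
  bot := T11_mk' (T11_U.bot hR)
  bot_le a := by
    obtain ⟨x, rfl⟩ := T11_mk'_surj a
    exact ⟨0, by rw [zero_comp]; rfl⟩

/-- the class of a map -/
def T11_mk (hR : RPkg C) {w : C} (hw : IsCpt w) (r : w ⟶ 𝟙_ C) : T11_M hR := T11_mk' ⟨w, hw, r⟩

lemma T11_surj {hR : RPkg C} (m : T11_M hR) :
    ∃ (w : C) (hw : IsCpt w) (r : w ⟶ 𝟙_ C), m = T11_mk hR hw r := by
  obtain ⟨x, hx⟩ := T11_mk'_surj m
  exact ⟨x.w, x.cpt, x.r, hx⟩

lemma T11_mk_le {hR : RPkg C} {w w' : C} (hw : IsCpt w) (hw' : IsCpt w') (r : w ⟶ 𝟙_ C)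
    (r' : w' ⟶ 𝟙_ C) : T11_mk hR hw r ≤ T11_mk hR hw' r' ↔ ∃ g : w ⟶ w', r = g ≫ r' := Iff.rfl

lemma T11_mk_mul {hR : RPkg C} {w w' : C} (hw : IsCpt w) (hw' : IsCpt w') (r : w ⟶ 𝟙_ C)
    (r' : w' ⟶ 𝟙_ C) : T11_mk hR hw r * T11_mk hR hw' r' =
      T11_mk hR (hR.cpt_tensor hw hw') (mulU r r') := rfl

lemma T11_mk_sup {hR : RPkg C} {w w' : C} (hw : IsCpt w) (hw' : IsCpt w') (r : w ⟶ 𝟙_ C)
    (r' : w' ⟶ 𝟙_ C) : T11_mk hR hw r ⊔ T11_mk hR hw' r' =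
      T11_mk hR (T11_cpt_biprod hw hw') (biprod.desc r r') := rfl

lemma T11_mk_one {hR : RPkg C} : (1 : T11_M hR) = T11_mk hR hR.unit (𝟙 (𝟙_ C)) := rfl

lemma T11_mk_bot {hR : RPkg C} : (⊥ : T11_M hR) = T11_mk hR T11_cpt_zero (0 : (0 : C) ⟶ 𝟙_ C) := rfl

lemma T11_m1 {hR : RPkg C} (a b c : T11_M hR) (h : a ≤ b) : a * c ≤ b * c := by
  obtain ⟨x, rfl⟩ := T11_mk'_surj a
  obtain ⟨y, rfl⟩ := T11_mk'_surj b
  obtain ⟨z, rfl⟩ := T11_mk'_surj c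
  exact T11_mul_mono (x := x) (x' := y) (y := z) (y' := z) h le_rfl

lemma T11_m2 {hR : RPkg C} (a : T11_M hR) : a ≤ 1 := by
  obtain ⟨w, hw, r, rfl⟩ := T11_surj a
  rw [T11_mk_one, T11_mk_le]
  exact ⟨r, by simp⟩

lemma T11_act_add {w : C} (r s : w ⟶ 𝟙_ C) (X : C) : act (r + s) X = act r X + act s X := by
  simp [act, MonoidalPreadditive.add_whiskerRight]

lemma T11_act_zero (w X : C) : act (0 : w ⟶ 𝟙_ C) X = 0 := by
  simp [act, MonoidalPreadditive.zero_whiskerRight]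

lemma T11_desc {w w' : C} (r : w ⟶ 𝟙_ C) (r' : w' ⟶ 𝟙_ C) :
    biprod.desc r r' = biprod.fst ≫ r + biprod.snd ≫ r' := by
  apply biprod.hom_ext' <;> simp

lemma T11_act_desc {w w' : C} (r : w ⟶ 𝟙_ C) (r' : w' ⟶ 𝟙_ C) (X : C) :
    act (biprod.desc r r') X = biprod.fst ▷ X ≫ act r X + biprod.snd ▷ X ≫ act r' X := by
  rw [T11_desc, T11_act_add, T11_act_comp, T11_act_comp]

lemma T11_m3 {hR : RPkg C} (a b c : T11_M hR) : (a ⊔ b) * c ≤ a * c ⊔ b * c := by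
  obtain ⟨w, hw, r, rfl⟩ := T11_surj a
  obtain ⟨w', hw', r', rfl⟩ := T11_surj b
  obtain ⟨v, hv, s, rfl⟩ := T11_surj c
  rw [T11_mk_sup, T11_mk_mul, T11_mk_mul, T11_mk_mul, T11_mk_sup, T11_mk_le]
  refine ⟨biprod.lift (biprod.fst ▷ v) (biprod.snd ▷ v), ?_⟩
  rw [mulU, T11_act_desc, biprod.lift_desc, mulU, mulU, Preadditive.add_comp, Category.assoc,
    Category.assoc]

lemma T11_m4 {hR : RPkg C} (a : T11_M hR) : ⊥ * a ≤ ⊥ := by
  obtain ⟨w, hw, r, rfl⟩ := T11_surj a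
  rw [T11_mk_bot, T11_mk_mul, T11_mk_le]
  refine ⟨0, ?_⟩
  rw [mulU, T11_act_zero, zero_comp, zero_comp]

/-! ### sets of classes -/

/-- the set of classes of the maps with a property -/
def T11_set (hR : RPkg C) (Q : MapCls C) : Set (T11_M hR) :=
  {m | ∃ (w : C) (hw : IsCpt w) (r : w ⟶ 𝟙_ C), m = T11_mk hR hw r ∧ Q w r}

lemma T11_mem_set {hR : RPkg C} {Q : MapCls C}
    (hQ : ∀ (w w' : C) (g : w ⟶ w') (r : w' ⟶ 𝟙_ C), Q w' r → Q w (g ≫ r))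
    {w : C} (hw : IsCpt w) (r : w ⟶ 𝟙_ C) : T11_mk hR hw r ∈ T11_set hR Q ↔ Q w r := by
  constructor
  · rintro ⟨w', hw', r', h, h'⟩
    obtain ⟨g, rfl⟩ := (T11_mk_le hw hw' r r').1 h.le
    exact hQ _ _ g r' h'
  · intro h
    exact ⟨w, hw, r, rfl, h⟩

lemma T11_idl_set {hR : RPkg C} {Q : MapCls C}
    (hQ : ∀ (w w' : C) (g : w ⟶ w') (r : w' ⟶ 𝟙_ C), Q w' r → Q w (g ≫ r))
    (h0 : ∀ w : C, Q w 0)
    (ha : ∀ (w w' : C) (r : w ⟶ 𝟙_ C) (r' : w' ⟶ 𝟙_ C), Q w r → Q w' r' → Q (w ⊞ w') (biprod.desc r r')) :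
    IsIdl (T11_set hR Q) where
  bot := by
    rw [T11_mk_bot, T11_mem_set hQ]
    exact h0 _
  lower a b h hb := by
    obtain ⟨w, hw, r, rfl⟩ := T11_surj a
    obtain ⟨w', hw', r', rfl⟩ := T11_surj b
    obtain ⟨g, rfl⟩ := (T11_mk_le hw hw' r r').1 h
    rw [T11_mem_set hQ] at hb ⊢
    exact hQ _ _ g r' hb
  sup a b ha' hb := by
    obtain ⟨w, hw, r, rfl⟩ := T11_surj a
    obtain ⟨w', hw', r', rfl⟩ := T11_surj b
    rw [T11_mem_set hQ] at ha' hb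
    rw [T11_mk_sup, T11_mem_set hQ]
    exact ha _ _ _ _ ha' hb

/-- maps killing `φ` -/
def T11_kill {c y : C} (φ : c ⟶ y) : MapCls C := fun _ r => act r c ≫ φ = 0

lemma T11_kill_comp {c y : C} (φ : c ⟶ y) (w w' : C) (g : w ⟶ w') (r : w' ⟶ 𝟙_ C)
    (h : T11_kill φ w' r) : T11_kill φ w (g ≫ r) := by
  change act (g ≫ r) c ≫ φ = 0
  replace h : act r c ≫ φ = 0 := h
  rw [T11_act_comp, Category.assoc, h, comp_zero]

/-- the annihilator ideal -/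
def T11_A (hR : RPkg C) {c y : C} (φ : c ⟶ y) : Set (T11_M hR) := T11_set hR (T11_kill φ)

lemma T11_mem_A {hR : RPkg C} {c y : C} (φ : c ⟶ y) {w : C} (hw : IsCpt w) (r : w ⟶ 𝟙_ C) :
    T11_mk hR hw r ∈ T11_A hR φ ↔ act r c ≫ φ = 0 := T11_mem_set (T11_kill_comp φ) hw r

lemma T11_idl_A {hR : RPkg C} {c y : C} (φ : c ⟶ y) : IsIdl (T11_A hR φ) := by
  refine T11_idl_set (T11_kill_comp φ) (fun w => ?_) (fun w w' r r' h h' => ?_)
  · change act _ c ≫ φ = 0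
    rw [T11_act_zero, zero_comp]
  · change act _ c ≫ φ = 0
    replace h : act r c ≫ φ = 0 := h
    replace h' : act r' c ≫ φ = 0 := h'
    rw [T11_act_desc, Preadditive.add_comp, Category.assoc, Category.assoc, h, h', comp_zero,
      comp_zero, add_zero]

lemma T11_A_colon {hR : RPkg C} {c y : C} (φ : c ⟶ y) {w : C} (hw : IsCpt w) (r : w ⟶ 𝟙_ C) :
    T11_A hR (act r c ≫ φ) = colon (T11_A hR φ) (T11_mk hR hw r) := by
  ext m
  obtain ⟨v, hv, s, rfl⟩ := T11_surj m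
  change _ ↔ T11_mk hR hv s * T11_mk hR hw r ∈ T11_A hR φ
  rw [T11_mk_mul, T11_mem_A, T11_mem_A, T11_act_mul, Category.assoc, Category.assoc]
  constructor
  · intro h
    rw [h, comp_zero]
  · intro h
    exact (cancel_epi (α_ v w c).hom).1 (h.trans comp_zero.symm)

lemma T11_A_comp {hR : RPkg C} {c y z : C} (φ : c ⟶ y) (g : y ⟶ z) :
    T11_A hR φ ⊆ T11_A hR (φ ≫ g) := by
  intro m
  obtain ⟨v, hv, s, rfl⟩ := T11_surj m
  rw [T11_mem_A, T11_mem_A]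
  intro h
  rw [← Category.assoc, h, zero_comp]

/-- the annihilator of an object -/
def T11_a (hR : RPkg C) (y : C) : Set (T11_M hR) := T11_set hR (annCls y)

lemma T11_ann_comp (y w w' : C) (g : w ⟶ w') (r : w' ⟶ 𝟙_ C) (h : annCls y w' r) :
    annCls y w (g ≫ r) := by
  change act (g ≫ r) y = 0
  replace h : act r y = 0 := h
  rw [T11_act_comp, h, comp_zero]

lemma T11_mem_a {hR : RPkg C} (y : C) {w : C} (hw : IsCpt w) (r : w ⟶ 𝟙_ C) :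
    T11_mk hR hw r ∈ T11_a hR y ↔ act r y = 0 := T11_mem_set (T11_ann_comp y) hw r

lemma T11_idl_a {hR : RPkg C} (y : C) : IsIdl (T11_a hR y) := by
  refine T11_idl_set (T11_ann_comp y) (fun w => ?_) (fun w w' r r' h h' => ?_)
  · exact T11_act_zero _ _
  · change act _ y = 0
    replace h : act r y = 0 := h
    replace h' : act r' y = 0 := h'
    rw [T11_act_desc, h, h', comp_zero, comp_zero, add_zero]

/-- the class of maps of an ideal -/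
def T11_cls {hR : RPkg C} (K : Set (T11_M hR)) : MapCls C :=
  fun _ r => ∃ hw, T11_mk hR hw r ∈ K

lemma T11_star_comp {hR : RPkg C} (K : Set (T11_M hR)) {c X : C} (φ : c ⟶ X) (w w' : C) (g : w ⟶ w')
    (r : w' ⟶ 𝟙_ C) (h : star (T11_cls K) φ w' r) : star (T11_cls K) φ w (g ≫ r) := by
  obtain ⟨d, k, ψ, hd, hk, h⟩ := h
  refine ⟨d, k, g ▷ c ≫ ψ, hd, hk, ?_⟩
  rw [T11_act_comp, Category.assoc, h, Category.assoc]

/-- `K ⋆ φ` -/
def T11_star {hR : RPkg C} (K : Set (T11_M hR)) {c X : C} (φ : c ⟶ X) : Set (T11_M hR) :=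
  T11_set hR (star (T11_cls K) φ)

lemma T11_mem_star {hR : RPkg C} (K : Set (T11_M hR)) {c X : C} (φ : c ⟶ X) {w : C} (hw : IsCpt w)
    (r : w ⟶ 𝟙_ C) : T11_mk hR hw r ∈ T11_star K φ ↔
      ∃ (d : C) (hd : IsCpt d) (k : d ⟶ 𝟙_ C) (ψ : w ⊗ c ⟶ d ⊗ X), T11_mk hR hd k ∈ K ∧
        act r c ≫ φ = ψ ≫ act k X := by
  rw [T11_star, T11_mem_set (T11_star_comp K φ)]
  constructor
  · rintro ⟨d, k, ψ, _, ⟨hd, hk⟩, h⟩
    exact ⟨d, hd, k, ψ, hk, h⟩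
  · rintro ⟨d, hd, k, ψ, hk, h⟩
    exact ⟨d, k, ψ, hd, ⟨hd, hk⟩, h⟩

lemma T11_idl_star {hR : RPkg C} {K : Set (T11_M hR)} (hK : IsIdl K) {c X : C} (φ : c ⟶ X) :
    IsIdl (T11_star K φ) := by
  refine T11_idl_set (T11_star_comp K φ) (fun w => ?_) (fun w w' r r' h h' => ?_)
  · refine ⟨0, 0, 0, T11_cpt_zero, ⟨T11_cpt_zero, hK.bot⟩, ?_⟩
    rw [T11_act_zero, zero_comp, zero_comp]
  · obtain ⟨d, k, ψ, _, ⟨hd, hk⟩, h⟩ := h
    obtain ⟨d', k', ψ', _, ⟨hd', hk'⟩, h'⟩ := h'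
    refine ⟨d ⊞ d', biprod.desc k k', biprod.fst ▷ c ≫ ψ ≫ biprod.inl ▷ X +
      biprod.snd ▷ c ≫ ψ' ≫ biprod.inr ▷ X, T11_cpt_biprod hd hd', ⟨T11_cpt_biprod hd hd', ?_⟩, ?_⟩
    · rw [← T11_mk_sup hd hd']
      exact hK.sup _ _ hk hk'
    · have e1 : biprod.inl ▷ X ≫ act (biprod.desc k k') X = act k X := by
        rw [← T11_act_comp, biprod.inl_desc]
      have e2 : biprod.inr ▷ X ≫ act (biprod.desc k k') X = act k' X := by
        rw [← T11_act_comp, biprod.inr_desc]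
      rw [T11_act_desc, Preadditive.add_comp, Preadditive.add_comp, Category.assoc, Category.assoc,
        Category.assoc, Category.assoc, Category.assoc, Category.assoc, e1, e2, h, h']

lemma T11_le_star {hR : RPkg C} (K : Set (T11_M hR)) {c X : C} (φ : c ⟶ X) : K ⊆ T11_star K φ := by
  intro m hm
  obtain ⟨v, hv, s, rfl⟩ := T11_surj m
  rw [T11_mem_star]
  exact ⟨v, hv, s, v ◁ φ, hm, (T11_act_nat s φ).symm⟩

lemma T11_star_mono {hR : RPkg C} {K K' : Set (T11_M hR)} (h : K ⊆ K') {c X : C} (φ : c ⟶ X) :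
    T11_star K φ ⊆ T11_star K' φ := by
  intro m hm
  obtain ⟨v, hv, s, rfl⟩ := T11_surj m
  rw [T11_mem_star] at hm ⊢
  obtain ⟨d, hd, k, ψ, hk, e⟩ := hm
  exact ⟨d, hd, k, ψ, h hk, e⟩

/-! ### Gabriel filters -/

lemma T11_idl_univ {hR : RPkg C} : IsIdl (Set.univ : Set (T11_M hR)) :=
  ⟨trivial, fun _ _ _ _ => trivial, fun _ _ _ _ => trivial⟩

lemma T11_idl_inter {hR : RPkg C} {K K' : Set (T11_M hR)} (h : IsIdl K) (h' : IsIdl K') :
    IsIdl (K ∩ K') :=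
  ⟨⟨h.bot, h'.bot⟩, fun a b hab hb => ⟨h.lower a b hab hb.1, h'.lower a b hab hb.2⟩,
    fun a b ha hb => ⟨h.sup a b ha.1 hb.1, h'.sup a b ha.2 hb.2⟩⟩

lemma T11_mul_mem {hR : RPkg C} {K : Set (T11_M hR)} (h : IsIdl K) (a b : T11_M hR) (hb : b ∈ K) :
    a * b ∈ K := by
  refine h.lower _ _ ?_ hb
  calc a * b ≤ 1 * b := T11_m1 _ _ _ (T11_m2 a)
    _ = b := one_mul b

lemma T11_idl_colon {hR : RPkg C} {K : Set (T11_M hR)} (h : IsIdl K) (r : T11_M hR) :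
    IsIdl (colon K r) where
  bot := h.lower _ _ (T11_m4 r) h.bot
  lower a b hab hb := h.lower _ _ (T11_m1 a b r hab) hb
  sup a b ha hb := h.lower _ _ (T11_m3 a b r) (h.sup _ _ ha hb)

lemma T11_gab_inter {hR : RPkg C} {G : Set (Set (T11_M hR))} (hG : IsGab G) {K K' : Set (T11_M hR)}
    (h : K ∈ G) (h' : K' ∈ G) : K ∩ K' ∈ G := by
  have hi := T11_idl_inter (hG.idl K h) (hG.idl K' h')
  refine hG.g3 K h _ hi fun r hr => ?_
  refine hG.up K' h' _ (T11_idl_colon hi r) fun s hs => ?_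
  exact ⟨T11_mul_mem (hG.idl K h) s r hr, by
    rw [mul_comm]
    exact T11_mul_mem (hG.idl K' h') r s hs⟩

/-- `Y_G` -/
def T11_Y {hR : RPkg C} (G : Set (Set (T11_M hR))) : ObjectProperty C :=
  fun y => ∀ (c : C) (φ : c ⟶ y), IsCpt c → T11_A hR φ ∈ G

lemma T11_A_zero {hR : RPkg C} {c y : C} : T11_A hR (0 : c ⟶ y) = Set.univ := by
  ext m
  obtain ⟨v, hv, s, rfl⟩ := T11_surj m
  simp [T11_mem_A]

lemma T11_A_sum {hR : RPkg C} {G : Set (Set (T11_M hR))} (hG : IsGab G) {c : C} {ι : Type v}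
    (X : ι → C) (g : ∀ i, c ⟶ X i) (hg : ∀ i, T11_A hR (g i) ∈ G) (s : Finset ι) :
    T11_A hR (∑ i ∈ s, g i ≫ Sigma.ι X i) ∈ G := by
  classical
  induction s using Finset.induction_on with
  | empty =>
    rw [Finset.sum_empty, T11_A_zero]
    exact hG.univ
  | insert i s hi ih =>
    refine hG.up _ (T11_gab_inter hG (hG.up _ (hg i) _ (T11_idl_A _) (T11_A_comp _ (Sigma.ι X i))) ih) _
      (T11_idl_A _) fun m hm => ?_
    obtain ⟨v, hv, t, rfl⟩ := T11_surj m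
    rw [Set.mem_inter_iff, T11_mem_A, T11_mem_A] at hm
    rw [T11_mem_A, Finset.sum_insert hi, Preadditive.comp_add, hm.1, hm.2, add_zero]

lemma T11_Y_tensor_cpt {hR : RPkg C} {G : Set (Set (T11_M hR))} (hG : IsGab G) {y : C}
    (hy : T11_Y G y) {b : C} (hb : IsCpt b) : T11_Y G (b ⊗ y) := by
  intro c φ hc
  obtain ⟨b', hb', -, ⟨hp⟩⟩ := hR.dual hb
  have h1 := hy (b' ⊗ c) ((tensorLeftHomEquiv c b b' y).symm φ) (hR.cpt_tensor hb' hc)
  refine hG.up _ h1 _ (T11_idl_A _) fun m hm => ?_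
  obtain ⟨v, hv, t, rfl⟩ := T11_surj m
  rw [T11_mem_A] at hm ⊢
  rw [T11_act_tensor, Category.assoc, Category.assoc, Category.assoc,
    ← tensorLeftHomEquiv_symm_naturality] at hm
  have h2 : (tensorLeftHomEquiv (v ⊗ c) b b' y).symm (act t c ≫ φ) = 0 := by
    have h3 := hm.trans (comp_zero (f := (α_ v b' c).inv)).symm
    have h4 := (cancel_epi (α_ v b' c).inv).1 h3
    have h5 := (cancel_epi ((β_ v b').hom ▷ c)).1 (h4.trans comp_zero.symm)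
    exact (cancel_epi (α_ b' v c).hom).1 (h5.trans comp_zero.symm)
  have h6 := congrArg (tensorLeftHomEquiv (v ⊗ c) b b' y) h2
  rw [Equiv.apply_symm_apply] at h6
  rw [h6]
  simp [tensorLeftHomEquiv]

lemma T11_Y_loc {hR : RPkg C} {G : Set (Set (T11_M hR))} (hG : IsGab G) : IsLoc (T11_Y G) := by
  have hiso : ∀ (x y : C), (x ≅ y) → T11_Y G x → T11_Y G y := by
    intro x y e hx c φ hc
    have h1 := hx c (φ ≫ e.inv) hc
    have h2 := hG.up _ h1 _ (T11_idl_A _) (T11_A_comp (φ ≫ e.inv) e.hom)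
    simpa using h2
  refine IsLoc.mk' hiso ?_ ?_ ?_ ?_
  · intro x hx c φ hc
    rw [hx.eq_of_tgt φ 0, T11_A_zero]
    exact hG.univ
  · intro x n hx
    obtain ⟨e⟩ := tensorShiftR (𝟙_ C) x n
    refine hiso _ _ (e ≪≫ (shiftFunctor C n).mapIso (λ_ x)) ?_
    exact T11_Y_tensor_cpt hG hx (T11_cpt_shift _ hR.unit n)
  · intro T hT h₁ h₃ c φ hc
    refine hG.g3 _ (h₃ c (φ ≫ T.mor₂) hc) _ (T11_idl_A _) fun m hm => ?_
    obtain ⟨w, hw, r, rfl⟩ := T11_surj m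
    rw [T11_mem_A, ← Category.assoc] at hm
    obtain ⟨ξ, hξ⟩ := Triangle.coyoneda_exact₂ T hT _ hm
    rw [← T11_A_colon, hξ]
    exact hG.up _ (h₁ _ ξ (hR.cpt_tensor hw hc)) _ (T11_idl_A _) (T11_A_comp ξ T.mor₁)
  · intro ι X hX c φ hc
    obtain ⟨s, g, rfl⟩ := hc ι X φ
    exact T11_A_sum hG X g (fun i => hX i c _ hc) s

lemma T11_Y_ideal [MonoidalClosed C] {hR : RPkg C} {G : Set (Set (T11_M hR))} (hG : IsGab G) :
    IsLocIdeal (T11_Y G) where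
  toIsLoc := T11_Y_loc hG
  tensor s x hx := by
    exact hR.all _ (isLoc_tensorR (T11_Y_loc hG) x) (fun b hb => T11_Y_tensor_cpt hG hx hb) s

/-! ### the object `κ` -/

section Kappa

variable [MonoidalClosed C] {D : ObjectProperty C} {f : C} {η : 𝟙_ C ⟶ f}

lemma T11_eta_iso (hL : LocAPI D η) : IsIso (f ◁ η) := by
  have h1 : IsLocal D f := hL.locIdeal.iso.of_iso (ρ_ f) (hL.loc (𝟙_ C))
  have h2 := hL.iso f h1
  have h3 : IsIso (η ▷ f) := by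
    have h4 : η ▷ f = (λ_ f).hom ≫ ((λ_ f).inv ≫ η ▷ f) := by simp
    rw [h4]
    infer_instance
  have h5 : f ◁ η = (β_ f (𝟙_ C)).hom ≫ η ▷ f ≫ (β_ f f).inv := by
    rw [← BraidedCategory.braiding_naturality_right_assoc, Iso.hom_inv_id, Category.comp_id]
  rw [h5]
  infer_instance

lemma T11_eta_cancel (hL : LocAPI D η) {Z k : C} (g : Z ⟶ k)
    (h : ((λ_ Z).inv ≫ η ▷ Z) ≫ f ◁ g = 0) : f ◁ g = 0 := by
  have i1 := T11_eta_iso hL
  have h1 : f ◁ (((λ_ Z).inv ≫ η ▷ Z) ≫ f ◁ g) = 0 := by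
    rw [h, MonoidalPreadditive.whiskerLeft_zero]
  have h2 : f ◁ ((λ_ Z).inv ≫ η ▷ Z) = f ◁ (λ_ Z).inv ≫ (α_ f (𝟙_ C) Z).inv ≫ (f ◁ η) ▷ Z ≫
      (α_ f f Z).hom := by simp
  have i2 : IsIso (f ◁ ((λ_ Z).inv ≫ η ▷ Z)) := by
    rw [h2]
    infer_instance
  have h3 : f ◁ f ◁ g = 0 := by
    rw [MonoidalCategory.whiskerLeft_comp] at h1
    exact (cancel_epi _).1 (h1.trans comp_zero.symm)
  have i3 := hL.iso (f ⊗ k) (hL.loc k)
  have h4 : f ◁ g ≫ ((λ_ (f ⊗ k)).inv ≫ η ▷ (f ⊗ k)) =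
      ((λ_ (f ⊗ Z)).inv ≫ η ▷ (f ⊗ Z)) ≫ f ◁ f ◁ g := by
    rw [Category.assoc, ← whisker_exchange, leftUnitor_inv_naturality_assoc]
  rw [h3, comp_zero] at h4
  exact (cancel_mono _).1 (h4.trans zero_comp.symm)

lemma T11_A_eta {hR : RPkg C} (hL : LocAPI D η) (k : C) :
    T11_A hR ((λ_ k).inv ≫ η ▷ k) ⊆ T11_a hR (f ⊗ k) := by
  intro m hm
  obtain ⟨w, hw, r, rfl⟩ := T11_surj m
  rw [T11_mem_A] at hm
  rw [T11_mem_a, T11_act_tensor]
  have h1 : ((λ_ (w ⊗ k)).inv ≫ η ▷ (w ⊗ k)) ≫ f ◁ act r k = 0 := by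
    rw [Category.assoc, ← whisker_exchange, ← leftUnitor_inv_naturality_assoc]
    exact hm
  rw [T11_eta_cancel hL _ h1, comp_zero]

end Kappa

/-! ### the filter `G'` -/

/-- the key computation for (G3) -/
lemma T11_star_colon {hR : RPkg C} {K' : Set (T11_M hR)} {c X : C} (φ : c ⟶ X)
    {w d d' : C} [ExactPairing d d'] (hw : IsCpt w) (hd : IsCpt d) (s : w ⟶ 𝟙_ C) (k : d ⟶ 𝟙_ C)
    (ψ : w ⊗ c ⟶ d ⊗ X) (h : act s c ≫ φ = ψ ≫ act k X) :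
    T11_star (colon K' (T11_mk hR hd k)) ((tensorLeftHomEquiv (w ⊗ c) d d' X).symm ψ) ⊆
      colon (T11_star K' φ) (T11_mk hR hw s) := by
  intro m hm
  obtain ⟨w', hw', r, rfl⟩ := T11_surj m
  rw [T11_mem_star] at hm
  obtain ⟨d₁, hd₁, k', ψ', hk', h'⟩ := hm
  change T11_mk hR hw' r * T11_mk hR hw s ∈ T11_star K' φ
  rw [T11_mk_mul, T11_mem_star]
  set σ := (α_ w' d' (w ⊗ c)).inv ≫ (β_ w' d').hom ▷ (w ⊗ c) ≫ (α_ d' w' (w ⊗ c)).hom with hσ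
  have iσ : IsIso σ := by
    rw [hσ]
    infer_instance
  have h1 : d' ◁ act r (w ⊗ c) ≫ (tensorLeftHomEquiv (w ⊗ c) d d' X).symm ψ =
      (inv σ ≫ ψ') ≫ act k' X := by
    rw [Category.assoc, ← h', T11_act_tensor r d' (w ⊗ c), ← hσ, Category.assoc,
      IsIso.inv_hom_id_assoc]
  rw [← tensorLeftHomEquiv_symm_naturality] at h1
  have h2 : act r (w ⊗ c) ≫ ψ =
      tensorLeftHomEquiv (w' ⊗ (w ⊗ c)) d d' (d₁ ⊗ X) (inv σ ≫ ψ') ≫ d ◁ act k' X := by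
    rw [← tensorLeftHomEquiv_naturality, ← h1, Equiv.apply_symm_apply]
  refine ⟨d ⊗ d₁, hR.cpt_tensor hd hd₁, mulU k k', (α_ w' w c).hom ≫
    tensorLeftHomEquiv (w' ⊗ (w ⊗ c)) d d' (d₁ ⊗ X) (inv σ ≫ ψ') ≫ (α_ d d₁ X).inv, ?_, ?_⟩
  · rw [← T11_mk_mul hd hd₁, mul_comm]
    exact hk'
  · rw [T11_act_mul, T11_act_mul]
    simp only [Category.assoc, Iso.inv_hom_id_assoc]
    rw [h, reassoc_of% h2, T11_act_nat]

/-- `G'` -/
def T11_G' {hR : RPkg C} (G : Set (Set (T11_M hR))) (X : C) : Set (Set (T11_M hR)) :=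
  {K | IsIdl K ∧ ∀ (c : C) (φ : c ⟶ X), IsCpt c → T11_star K φ ∈ G}

lemma T11_G'_gab {hR : RPkg C} {G : Set (Set (T11_M hR))} (hG : IsGab G) (X : C) :
    IsGab (T11_G' G X) where
  idl K hK := hK.1
  univ := ⟨T11_idl_univ, fun c φ _ =>
    hG.up _ hG.univ _ (T11_idl_star T11_idl_univ φ) (T11_le_star _ φ)⟩
  up K hK K' hK' h := ⟨hK', fun c φ hc =>
    hG.up _ (hK.2 c φ hc) _ (T11_idl_star hK' φ) (T11_star_mono h φ)⟩
  g3 K hK K' hK' h := ⟨hK', fun c φ hc => by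
    refine hG.g3 _ (hK.2 c φ hc) _ (T11_idl_star hK' φ) fun m hm => ?_
    obtain ⟨w, hw, s, rfl⟩ := T11_surj m
    rw [T11_mem_star] at hm
    obtain ⟨d, hd, k, ψ, hk, e⟩ := hm
    obtain ⟨d', hd', -, ⟨hp⟩⟩ := hR.dual hd
    exact hG.up _ ((h _ hk).2 _ ((tensorLeftHomEquiv (w ⊗ c) d d' X).symm ψ)
      (hR.cpt_tensor hd' (hR.cpt_tensor hw hc))) _ (T11_idl_colon (T11_idl_star hK' φ) _)
      (T11_star_colon φ hw hd s k ψ e)⟩

/-- (5.4), one step -/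
lemma T11_step [MonoidalClosed C] {hR : RPkg C} {D : ObjectProperty C} {f : C} {η : 𝟙_ C ⟶ f}
    (hL : LocAPI D η) {k : C} (hk : IsCpt k) {X : C}
    (hann : ∀ (w : C) (q : w ⟶ 𝟙_ C), IsCpt w → act q (f ⊗ k) = 0 → act q X = 0)
    (hgen : ∀ L : ObjectProperty C, IsLocIdeal L → L X → L (f ⊗ k))
    {G : Set (Set (T11_M hR))} (hG : IsGab G) (haG : T11_a hR (f ⊗ k) ∉ G)
    (hmax : ∀ G' : Set (Set (T11_M hR)), IsGab G' → G ⊆ G' → T11_a hR (f ⊗ k) ∉ G' → G' ⊆ G)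
    (K : Set (T11_M hR)) (hK : IsIdl K) (hKG : K ∉ G) :
    ∃ (c : C) (φ : c ⟶ X), IsCpt c ∧ T11_star K φ ∉ G := by
  by_contra hcon
  push Not at hcon
  have h1 : K ∈ T11_G' G X := ⟨hK, fun c φ hc => hcon c φ hc⟩
  have h2 : G ⊆ T11_G' G X := fun K₁ hK₁ => ⟨hG.idl _ hK₁, fun c φ _ =>
    hG.up _ hK₁ _ (T11_idl_star (hG.idl _ hK₁) φ) (T11_le_star _ φ)⟩
  have h3 : T11_a hR (f ⊗ k) ∉ T11_G' G X := by
    intro h
    have h4 : T11_Y G X := fun c φ hc => by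
      refine hG.up _ (h.2 c φ hc) _ (T11_idl_A φ) fun m hm => ?_
      obtain ⟨w, hw, s, rfl⟩ := T11_surj m
      rw [T11_mem_star] at hm
      obtain ⟨d, hd, q, ψ, hq, e⟩ := hm
      rw [T11_mem_a] at hq
      rw [T11_mem_A, e, hann d q hd hq, comp_zero]
    have h5 := hgen _ (T11_Y_ideal hG) h4
    exact haG (hG.up _ (h5 k ((λ_ k).inv ≫ η ▷ k) hk) _ (T11_idl_a _) (T11_A_eta hL k))
  exact hKG (hmax _ (T11_G'_gab hG X) h2 h3 h1)

end Mon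

section Final

variable {C : Type u} [Category.{v} C] [Preadditive C] [HasZeroObject C] [HasShift C ℤ]
  [∀ n : ℤ, (shiftFunctor C n).Additive] [Pretriangulated C] [IsTriangulated C]
  [MonoidalCategory C] [SymmetricCategory C] [MonoidalClosed C] [TensorExact C]
  [HasCoproducts.{v} C]

theorem seq (hR : RPkg C) (hg : S_agf.{max u v}) (hH : S_H C) (hl : S_local C) : S_seq C := by
  classical
  intro D e f ε η hF k hk hne X hann hgen
  have hL := hl D e f ε η hF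
  have h1 : (1 : T11_M hR) ∉ T11_a hR (f ⊗ k) := by
    rw [T11_mk_one, T11_mem_a, T11_act_one]
    intro h
    apply hne
    have h2 : 𝟙 (f ⊗ k) = 0 := by
      rw [← (λ_ (f ⊗ k)).inv_hom_id, h, comp_zero]
    exact (IsZero.iff_id_eq_zero _).2 h2
  obtain ⟨G, hG, haG, hmax⟩ := hg (T11_M hR) (fun a b c h => T11_m1 a b c h) T11_m2 T11_m3 T11_m4
    (T11_a hR (f ⊗ k)) (T11_idl_a _) h1 (by
      intro s
      obtain ⟨v, hv, s, rfl⟩ := T11_surj s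
      obtain ⟨v₀, q, hv₀, hq, h⟩ := hH D e f ε η hF k hk v s hv
      refine ⟨T11_mk hR hv₀ q, ?_, ?_⟩
      · rw [T11_mk_mul, T11_mem_a]
        exact hq
      · intro x hx
        obtain ⟨w, hw, x, rfl⟩ := T11_surj x
        rw [T11_mk_mul, T11_mem_a] at hx
        obtain ⟨v₁, t, hv₁, ht, g, hg'⟩ := h w x hw hx
        refine ⟨T11_mk hR hv₁ t, ?_, ?_⟩
        · intro b hb
          obtain ⟨w', hw', b, rfl⟩ := T11_surj b
          rw [T11_mk_mul, T11_mem_a] at hb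
          rw [T11_mem_a]
          exact ht w' b hw' hb
        · rw [T11_mk_mul, T11_mk_le]
          exact ⟨g, hg'⟩)
  have step := T11_step hL hk hann hgen hG haG hmax
  have : ∀ K : {K : Set (T11_M hR) // IsIdl K ∧ K ∉ G}, ∃ p : Σ c : C, (c ⟶ X),
      IsCpt p.1 ∧ T11_star K.1 p.2 ∉ G := fun K => by
    obtain ⟨c, φ, hc, h⟩ := step K.1 K.2.1 K.2.2
    exact ⟨⟨c, φ⟩, hc, h⟩
  choose p hp1 hp2 using this
  let nxt : {K : Set (T11_M hR) // IsIdl K ∧ K ∉ G} → {K : Set (T11_M hR) // IsIdl K ∧ K ∉ G} :=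
    fun K => ⟨T11_star K.1 (p K).2, T11_idl_star K.2.1 _, hp2 K⟩
  let sq : ℕ → {K : Set (T11_M hR) // IsIdl K ∧ K ∉ G} :=
    fun n => Nat.rec ⟨T11_a hR (f ⊗ k), T11_idl_a _, haG⟩ (fun _ K => nxt K) n
  refine ⟨fun n => (p (sq n)).1, fun n => (p (sq n)).2, fun n => hp1 _, fun n hn => ?_⟩
  have key : ∀ (n : ℕ) (w : C) (hw : IsCpt w) (r : w ⟶ 𝟙_ C),
      Kseq (annCls (f ⊗ k)) (fun n => (p (sq n)).2) n w r ↔ T11_mk hR hw r ∈ (sq n).1 := by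
    intro n
    induction n with
    | zero =>
      intro w hw r
      exact (T11_mem_a (f ⊗ k) hw r).symm
    | succ n ih =>
      intro w hw r
      change star (Kseq (annCls (f ⊗ k)) (fun n => (p (sq n)).2) n) (p (sq n)).2 w r ↔
        T11_mk hR hw r ∈ T11_star (sq n).1 (p (sq n)).2
      rw [T11_mem_star]
      constructor
      · rintro ⟨d, k', ψ, hd, hk', h⟩
        exact ⟨d, hd, k', ψ, (ih d hd k').1 hk', h⟩
      · rintro ⟨d, hd, k', ψ, hk', h⟩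
        exact ⟨d, k', ψ, hd, (ih d hd k').2 hk', h⟩
  rw [key n _ hR.unit, ← T11_mk_one] at hn
  have h2 : (sq n).1 = Set.univ := Set.eq_univ_of_forall fun a => (sq n).2.1.lower _ _ (T11_m2 a) hn
  exact (sq n).2.2 (h2 ▸ hG.univ)

end Final

end H948
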