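import Pool.Agent.H948_Strat.Stmts
import Pool.Agent.H948_Strat.Bous

/-!
T4: the compact objects of a compactly generated triangulated category are essentially small.
-/

open CategoryTheory Limits Pretriangulated ZeroObject

universe v u

namespace H948

section

variable {C : Type u} [Category.{v} C] [Preadditive C] [HasZeroObject C] [HasShift C ℤ]
  [∀ n : ℤ, (shiftFunctor C n).Additive] [Pretriangulated C]

variable (C) in
/-- a small family of objects -/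
structure T4_Fam : Type (max u (v + 1)) where
  /-- the index type -/
  J : Type v
  /-- the objects -/
  H : J → C

/-- a choice of a cone -/
noncomputable def T4_cone {X Y : C} (f : X ⟶ Y) : C := (distinguished_cocone_triangle f).choose

theorem T4_cone_spec {X Y : C} (f : X ⟶ Y) :
    ∃ (g : Y ⟶ T4_cone f) (h : T4_cone f ⟶ X⟦(1 : ℤ)⟧), Triangle.mk f g h ∈ distTriang C :=
  (distinguished_cocone_triangle f).choose_spec

/-- add all shifts of all cones -/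
noncomputable def T4_step (F : T4_Fam C) : T4_Fam C where
  J := F.J ⊕ ((Σ (a : F.J) (b : F.J), (F.H a ⟶ F.H b)) × ULift.{v} ℤ)
  H := Sum.elim F.H (fun x => (T4_cone x.1.2.2)⟦x.2.down⟧)

/-- iterate -/
noncomputable def T4_it (F : T4_Fam C) : ℕ → T4_Fam C
  | 0 => F
  | n + 1 => T4_step (T4_it F n)

/-- isomorphic to a member of the family -/
def T4_mem (F : T4_Fam C) (X : C) : Prop := ∃ a : F.J, Nonempty (X ≅ F.H a)

/-- isomorphic to an object of some iterate -/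
def T4_D (F : T4_Fam C) : ObjectProperty C := fun X => ∃ n, T4_mem (T4_it F n) X

omit [HasZeroObject C] [∀ n : ℤ, (shiftFunctor C n).Additive] [Pretriangulated C] in
theorem T4_mem_iso (F : T4_Fam C) {X Y : C} (e : X ≅ Y) (h : T4_mem F X) : T4_mem F Y := by
  obtain ⟨a, ⟨i⟩⟩ := h
  exact ⟨a, ⟨e.symm ≪≫ i⟩⟩

theorem T4_mem_step (F : T4_Fam C) {X : C} (h : T4_mem F X) : T4_mem (T4_step F) X := by
  obtain ⟨a, ⟨i⟩⟩ := h
  exact ⟨Sum.inl a, ⟨i⟩⟩

theorem T4_mem_le (F : T4_Fam C) {X : C} (n m : ℕ) (hnm : n ≤ m) (h : T4_mem (T4_it F n) X) :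
    T4_mem (T4_it F m) X := by
  induction m, hnm using Nat.le_induction with
  | base => exact h
  | succ m _ ih => exact T4_mem_step _ ih

theorem T4_cone_mem (F : T4_Fam C) (T : Triangle C) (hT : T ∈ distTriang C)
    (h₁ : T4_mem F T.obj₁) (h₂ : T4_mem F T.obj₂) : T4_mem (T4_step F) T.obj₃ := by
  obtain ⟨a, ⟨i⟩⟩ := h₁
  obtain ⟨b, ⟨j⟩⟩ := h₂
  obtain ⟨g, k, hk⟩ := T4_cone_spec (i.inv ≫ T.mor₁ ≫ j.hom)
  have e := isoTriangleOfIso₁₂ T _ hT hk i j (by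
    change T.mor₁ ≫ j.hom = i.hom ≫ i.inv ≫ T.mor₁ ≫ j.hom
    rw [Iso.hom_inv_id_assoc])
  refine ⟨Sum.inr (⟨a, b, i.inv ≫ T.mor₁ ≫ j.hom⟩, ⟨0⟩), ⟨?_⟩⟩
  exact (Triangle.π₃.mapIso e) ≪≫ ((shiftFunctorZero C ℤ).app _).symm

/-- stable under shifts -/
def T4_sh (F : T4_Fam C) : Prop := ∀ (X : C) (n : ℤ), T4_mem F X → T4_mem F (X⟦n⟧)

theorem T4_sh_step (F : T4_Fam C) (h : T4_sh F) : T4_sh (T4_step F) := by
  rintro X n ⟨a | ⟨x, m⟩, ⟨i⟩⟩
  · exact T4_mem_step F (h X n ⟨a, ⟨i⟩⟩)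
  · refine ⟨Sum.inr (x, ⟨m.down + n⟩), ⟨?_⟩⟩
    exact (shiftFunctor C n).mapIso i ≪≫ ((shiftFunctorAdd C m.down n).app _).symm

theorem T4_sh_it (F : T4_Fam C) (h : T4_sh F) (n : ℕ) : T4_sh (T4_it F n) := by
  induction n with
  | zero => exact h
  | succ n ih => exact T4_sh_step _ ih

theorem T4_D_iso (F : T4_Fam C) : (T4_D F).IsClosedUnderIsomorphisms where
  of_iso e h := by
    obtain ⟨n, hn⟩ := h
    exact ⟨n, T4_mem_iso _ e hn⟩

theorem T4_D_tri (F : T4_Fam C) (h : T4_sh F) (h0 : T4_mem F 0) : (T4_D F).IsTriangulated := by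
  have := T4_D_iso F
  have : (T4_D F).ContainsZero := ⟨0, isZero_zero C, 0, h0⟩
  have : (T4_D F).IsStableUnderShift ℤ :=
    { isStableUnderShiftBy := fun n => ⟨by
        rintro X ⟨k, hk⟩
        exact ⟨k, T4_sh_it F h k X n hk⟩⟩ }
  have : (T4_D F).IsTriangulatedClosed₃ := .mk' (by
    rintro T hT ⟨k, hk⟩ ⟨l, hl⟩
    exact ⟨max k l + 1, T4_cone_mem _ T hT (T4_mem_le F _ _ (le_max_left _ _) hk)
      (T4_mem_le F _ _ (le_max_right _ _) hl)⟩)
  have := ObjectProperty.IsTriangulatedClosed₂.of_isTriangulatedClosed₃ (P := T4_D F)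
  exact {}

/-- if the family consists of objects of a triangulated subcategory, so do the iterates -/
theorem T4_D_le (F : T4_Fam C) (P : ObjectProperty C) [P.IsClosedUnderIsomorphisms]
    [P.IsTriangulated] (h : ∀ a, P (F.H a)) (X : C) (hX : T4_D F X) : P X := by
  obtain ⟨n, a, ⟨i⟩⟩ := hX
  refine P.prop_of_iso i.symm ?_
  clear i
  induction n with
  | zero => exact h a
  | succ n ih =>
    rcases a with a | ⟨⟨a, b, f⟩, m⟩
    · exact ih a
    · obtain ⟨g, k, hk⟩ := T4_cone_spec f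
      exact P.le_shift _ _ (P.ext_of_isTriangulatedClosed₃ _ hk (ih a) (ih b))

omit [Preadditive C] [HasZeroObject C] [HasShift C ℤ] [∀ n : ℤ, (shiftFunctor C n).Additive]
  [Pretriangulated C] in
/-- retracts with the same idempotent are isomorphic -/
theorem T4_ret {c c' d : C} (a : c ⟶ d) (b : d ⟶ c) (a' : c' ⟶ d) (b' : d ⟶ c')
    (hab : a ≫ b = 𝟙 c) (h₁ : a' ≫ b' = 𝟙 c') (h₂ : b' ≫ a' = b ≫ a) : Nonempty (c ≅ c') := by
  refine ⟨⟨a ≫ b', a' ≫ b, ?_, ?_⟩⟩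
  · rw [Category.assoc, reassoc_of% h₂, hab, Category.comp_id, hab]
  · rw [Category.assoc, ← reassoc_of% h₂, h₁, Category.comp_id, h₁]

variable [HasCoproducts.{v} C]

theorem T4_aux (hct : S_cptTri C) (h : CptGen C) (hb : S_bous C) (hf : S_flz C) : S_small C := by
  obtain ⟨ι, G, hG, hgen⟩ := h
  obtain ⟨hiso, htri, hret⟩ := hct
  -- the base family
  let F : T4_Fam C := ⟨Option (ι × ULift.{v} ℤ), fun x => x.elim 0 (fun y => (G y.1)⟦y.2.down⟧)⟩
  have hcF : ∀ a, IsCpt (F.H a) := by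
    rintro (_ | ⟨i, n⟩)
    · obtain ⟨Z, hZ, hZ'⟩ := htri.toContainsZero.exists_zero
      exact hiso.of_iso (hZ.iso (isZero_zero C)) hZ'
    · exact htri.toIsStableUnderShift.isStableUnderShiftBy _ |>.le_shift _ (hG i)
  have hsF : T4_sh F := by
    rintro X n ⟨_ | ⟨i, m⟩, ⟨e⟩⟩
    · refine ⟨none, ⟨?_⟩⟩
      exact (shiftFunctor C n).mapIso e ≪≫ (Functor.map_isZero _ (isZero_zero C)).iso
        (isZero_zero C)
    · refine ⟨some (i, ⟨m.down + n⟩), ⟨?_⟩⟩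
      exact (shiftFunctor C n).mapIso e ≪≫ ((shiftFunctorAdd C m.down n).app _).symm
  have h0F : T4_mem F 0 := ⟨none, ⟨Iso.refl _⟩⟩
  have hDc : ∀ c, T4_D F c → IsCpt c := fun c hc =>
    have := hiso
    have := htri
    T4_D_le F IsCpt hcF c hc
  have hDiso := T4_D_iso F
  have hDtri := T4_D_tri F hsF h0F
  have hall : ∀ X : C, LocGen (T4_D F) X := by
    intro X
    obtain ⟨L, R, a, b, δ, hT, hL, hR⟩ := hb (ι × ULift.{v} ℤ) (fun y => (G y.1)⟦y.2.down⟧)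
      (fun y => hcF (some y)) (fun y n => ⟨(y.1, ⟨y.2.down + n⟩),
        ⟨((shiftFunctorAdd C y.2.down n).app _).symm⟩⟩) X
    have hRz : IsZero R := hgen R (fun i n f => hR (i, ⟨n⟩) f)
    have ha : IsIso a := (Triangle.isZero₃_iff_isIso₁ _ hT).mp hRz
    intro K hK hDK
    have := hK.iso
    refine K.prop_of_iso (asIso a) (hL K hK ?_)
    rintro s ⟨y, ⟨e⟩⟩
    exact hDK s ⟨0, some y, ⟨e⟩⟩
  -- every compact object is a retract
  have hretr : ∀ c : C, IsCpt c → ∃ (j : Σ n : ℕ, (T4_it F n).J)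
      (a : c ⟶ (T4_it F j.1).H j.2) (b : (T4_it F j.1).H j.2 ⟶ c), a ≫ b = 𝟙 c := by
    intro c hc
    obtain ⟨d, a, b, ⟨n, j, ⟨e⟩⟩, hab⟩ := hf (T4_D F) hDc hDiso hDtri c (hall c) c (𝟙 c) hc
    exact ⟨⟨n, j⟩, a ≫ e.hom, e.inv ≫ b, by simp [← hab]⟩
  classical
  let Good (x : Σ j : (Σ n : ℕ, (T4_it F n).J), ((T4_it F j.1).H j.2 ⟶ (T4_it F j.1).H j.2))
      (c : C) : Prop := IsCpt c ∧ ∃ (a : c ⟶ (T4_it F x.1.1).H x.1.2)
        (b : (T4_it F x.1.1).H x.1.2 ⟶ c), a ≫ b = 𝟙 c ∧ b ≫ a = x.2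
  refine ⟨{x : Σ j : (Σ n : ℕ, (T4_it F n).J), ((T4_it F j.1).H j.2 ⟶ (T4_it F j.1).H j.2) //
    ∃ c, Good x c}, fun x => x.2.choose, fun x => x.2.choose_spec.1, ?_⟩
  intro c hc
  obtain ⟨j, a, b, hab⟩ := hretr c hc
  have hx : ∃ c', Good ⟨j, b ≫ a⟩ c' := ⟨c, hc, a, b, hab, rfl⟩
  refine ⟨⟨⟨j, b ≫ a⟩, hx⟩, ?_⟩
  obtain ⟨a', b', h₁, h₂⟩ := hx.choose_spec.2
  exact T4_ret a b a' b' hab h₁ h₂

/-- T4; `S_cptTri C` is proved in T2. -/
theorem small' (h : CptGen C) (hb : S_bous C) (hf : S_flz C) (hct : S_cptTri C) : S_small C :=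
  T4_aux hct h hb hf

/-- T4 -/
theorem small (h : CptGen C) (hb : S_bous C) (hf : S_flz C) : S_small C :=
  T4_aux cptTri h hb hf

end

end H948
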