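import Pool.Agent.H948_Strat.Defs

/-!
Statements of the modules of the proof (each `S_xxx` is proved in its own file).
-/

open CategoryTheory Limits MonoidalCategory Pretriangulated

universe v u w

namespace H948

/-! ## Part A: triangulated categories with coproducts -/

section Tri

variable {C : Type u} [Category.{v} C] [Preadditive C] [HasZeroObject C] [HasShift C ℤ]
  [∀ n : ℤ, (shiftFunctor C n).Additive] [Pretriangulated C] [HasCoproducts.{v} C]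

/-- The map `1 - shift` of a telescope. -/
noncomputable def telMap (X : ℕ → C) (f : ∀ n, X n ⟶ X (n + 1)) :
    (∐ fun n : ULift.{v} ℕ => X n.down) ⟶ (∐ fun n : ULift.{v} ℕ => X n.down) :=
  Sigma.desc fun n => Sigma.ι (fun n : ULift.{v} ℕ => X n.down) n -
    f n.down ≫ Sigma.ι (fun n : ULift.{v} ℕ => X n.down) ⟨n.down + 1⟩

/-- `H` with the maps `i n : X n ⟶ H` is a homotopy colimit of `X 0 ⟶ X 1 ⟶ ...`. -/
def IsHocolim (X : ℕ → C) (f : ∀ n, X n ⟶ X (n + 1)) (H : C) (i : ∀ n, X n ⟶ H) : Prop :=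
  ∃ δ : H ⟶ (∐ fun n : ULift.{v} ℕ => X n.down)⟦(1 : ℤ)⟧,
    Triangle.mk (telMap X f) (Sigma.desc fun n : ULift.{v} ℕ => i n.down) δ ∈ distTriang C

/-- The composite `X n ⟶ X (n + m)`. -/
def seqMap (X : ℕ → C) (f : ∀ n, X n ⟶ X (n + 1)) (n : ℕ) : ∀ m : ℕ, X n ⟶ X (n + m)
  | 0 => 𝟙 (X n)
  | m + 1 => seqMap X f n m ≫ f (n + m)

variable (C)

/-- Coproducts of distinguished triangles are distinguished. -/
def S_coprodTri : Prop := ∀ (ι : Type v) (T : ι → Triangle C), (∀ i, T i ∈ distTriang C) →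
  ∃ δ : (∐ fun i => (T i).obj₃) ⟶ (∐ fun i => (T i).obj₁)⟦(1 : ℤ)⟧,
    Triangle.mk (Limits.Sigma.map fun i => (T i).mor₁) (Limits.Sigma.map fun i => (T i).mor₂) δ ∈
      distTriang C

/-- Basic facts on homotopy colimits. -/
structure HoAPI : Prop where
  ex : ∀ (X : ℕ → C) (f : ∀ n, X n ⟶ X (n + 1)), ∃ (H : C) (i : ∀ n, X n ⟶ H), IsHocolim X f H i
  comm : ∀ (X : ℕ → C) (f : ∀ n, X n ⟶ X (n + 1)) (H : C) (i : ∀ n, X n ⟶ H),
    IsHocolim X f H i → ∀ n, f n ≫ i (n + 1) = i n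
  desc : ∀ (X : ℕ → C) (f : ∀ n, X n ⟶ X (n + 1)) (H : C) (i : ∀ n, X n ⟶ H),
    IsHocolim X f H i → ∀ (Y : C) (g : ∀ n, X n ⟶ Y), (∀ n, f n ≫ g (n + 1) = g n) →
      ∃ h : H ⟶ Y, ∀ n, i n ≫ h = g n
  cpt : ∀ (X : ℕ → C) (f : ∀ n, X n ⟶ X (n + 1)) (H : C) (i : ∀ n, X n ⟶ H),
    IsHocolim X f H i → ∀ (c : C) (a : c ⟶ H), IsCpt c → ∃ (n : ℕ) (b : c ⟶ X n), a = b ≫ i n
  cpt0 : ∀ (X : ℕ → C) (f : ∀ n, X n ⟶ X (n + 1)) (H : C) (i : ∀ n, X n ⟶ H),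
    IsHocolim X f H i → ∀ (c : C) (n : ℕ) (b : c ⟶ X n), IsCpt c → b ≫ i n = 0 →
      ∃ m : ℕ, b ≫ seqMap X f n m = 0
  vanish : ∀ (X : ℕ → C) (f : ∀ n, X n ⟶ X (n + 1)) (H : C) (i : ∀ n, X n ⟶ H),
    IsHocolim X f H i → ∀ Y : C, (∀ (n : ℕ) (g : X (n + 1) ⟶ Y), f n ≫ g = 0) →
      (∀ (n : ℕ) (g : X (n + 1) ⟶ Y⟦(-1 : ℤ)⟧), f n ≫ g = 0) → ∀ g : H ⟶ Y, g = 0
  loc : ∀ (X : ℕ → C) (f : ∀ n, X n ⟶ X (n + 1)) (H : C) (i : ∀ n, X n ⟶ H),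
    IsHocolim X f H i → ∀ L : ObjectProperty C, IsLoc L → (∀ n, L (X n)) → L H

/-- Compact objects form a thick subcategory. -/
def S_cptTri : Prop := ObjectProperty.IsClosedUnderIsomorphisms (C := C) IsCpt ∧
  ObjectProperty.IsTriangulated (C := C) IsCpt ∧ ObjectProperty.IsStableUnderRetracts (C := C) IsCpt

/-- Bousfield localization at a set of compact objects closed under shifts. -/
def S_bous : Prop := ∀ (ι : Type v) (D : ι → C), (∀ i, IsCpt (D i)) →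
  (∀ (i : ι) (n : ℤ), ∃ j, Nonempty ((D i)⟦n⟧ ≅ D j)) →
  ∀ X : C, ∃ (L R : C) (a : L ⟶ X) (b : X ⟶ R) (δ : R ⟶ L⟦(1 : ℤ)⟧),
    Triangle.mk a b δ ∈ distTriang C ∧ LocGen (fun x => ∃ i, Nonempty (x ≅ D i)) L ∧
    ∀ (i : ι) (g : D i ⟶ R), g = 0

/-- Compact generation. -/
def CptGen : Prop := ∃ (ι : Type v) (G : ι → C), (∀ i, IsCpt (G i)) ∧
  ∀ X : C, (∀ (i : ι) (n : ℤ) (f : (G i)⟦n⟧ ⟶ X), f = 0) → IsZero X

/-- `C` is the localizing subcategory generated by the compact objects. -/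
def S_all : Prop := ∀ L : ObjectProperty C, IsLoc L → (∀ c, IsCpt c → L c) → ∀ x, L x

/-- The compact objects are essentially small. -/
def S_small : Prop := ∃ (ι : Type v) (G : ι → C), (∀ i, IsCpt (G i)) ∧
  ∀ c : C, IsCpt c → ∃ i, Nonempty (c ≅ G i)

/-- Consequences of compact generation. -/
structure Pkg : Prop where
  small : S_small C
  gen : ∀ X : C, (∀ (c : C) (f : c ⟶ X), IsCpt c → f = 0) → IsZero X
  all : S_all C
  prods : HasProducts.{v} C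

/-- Maps from compact objects to the localizing subcategory generated by a class `D` of compact objects
factor through objects of `D` (if `D` is a triangulated subcategory). -/
def S_flz : Prop := ∀ D : ObjectProperty C, (∀ c, D c → IsCpt c) → D.IsClosedUnderIsomorphisms →
  D.IsTriangulated → ∀ y : C, LocGen D y → ∀ (w : C) (g : w ⟶ y), IsCpt w →
    ∃ (d : C) (a : w ⟶ d) (b : d ⟶ y), D d ∧ g = a ≫ b

/-- Maps from compact objects to `F a`, `F` exact and coproduct preserving, come from compact objects over `a`. -/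
def S_fl : Prop := ∀ (F : C ⥤ C) [F.CommShift ℤ] [F.IsTriangulated]
  [∀ ι : Type v, PreservesColimitsOfShape (Discrete ι) F] (w a : C) (χ : w ⟶ F.obj a), IsCpt w →
    ∃ (a₀ : C) (h : a₀ ⟶ a) (χ₀ : w ⟶ F.obj a₀), IsCpt a₀ ∧ χ = χ₀ ≫ F.map h

/-! ### phantoms -/

variable {C}

/-- `K`-phantoms: maps killed by all maps to objects of `K`. -/
def IsPh (K : ObjectProperty C) {x z : C} (φ : x ⟶ z) : Prop :=
  ∀ (c : C) (g : z ⟶ c), K c → φ ≫ g = 0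

/-- The setting for the phantom arguments: `T` (local objects) and `K` (a colocalizing part of `T`). -/
structure PhSetting (T K : ObjectProperty C) : Prop where
  Tloc : IsLoc T
  Tprod : ∀ (ι : Type v) (X : ι → C) (F : Fan X), Nonempty (IsLimit F) → (∀ i, T (X i)) → T F.pt
  Kiso : K.IsClosedUnderIsomorphisms
  Ktri : K.IsTriangulated
  Kprod : ∀ (ι : Type v) (X : ι → C) (F : Fan X), Nonempty (IsLimit F) → (∀ i, K (X i)) → K F.pt
  KT : ∀ x, K x → T x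
  refl : ∀ x : C, ∃ (y : C) (j : x ⟶ y), T y ∧ ∀ (t : C) (g : x ⟶ t), T t → ∃ g' : y ⟶ t, g = j ≫ g'

/-- `ψ` is dominated by a `K`-phantom with target in `T`. -/
def Dom (T K : ObjectProperty C) {c x : C} (ψ : c ⟶ x) : Prop :=
  ∃ (z' : C) (ψ' : c ⟶ z'), T z' ∧ IsPh K ψ' ∧
    ∀ (d : C) (r : d ⟶ c), IsCpt d → r ≫ ψ' = 0 → r ≫ ψ = 0

variable (C)

/-- (3.3): the universal map whose image is the set of phantoms. -/
def S_z1 : Prop := ∀ T K : ObjectProperty C, PhSetting T K → ∀ z : C, T z →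
  ∃ (z' : C) (p : z' ⟶ z), T z' ∧ K.trW p ∧
    ∀ (c : C) (ψ : c ⟶ z), IsCpt c → (IsPh K ψ ↔ ∃ χ : c ⟶ z', ψ = χ ≫ p)

/-- (4.1), (4.2): the tree argument. -/
def S_tree : Prop := ∀ T K : ObjectProperty C, PhSetting T K →
  ∀ (k z : C) (φ : k ⟶ z), IsCpt k → T z → IsPh K φ → φ ≠ 0 →
    ∃ (x : C) (a : k ⟶ x), T x ∧ a ≠ 0 ∧ ∀ (c : C) (ψ : c ⟶ x), IsCpt c → Dom T K ψ

end Tri

/-! ## Part B: tensor triangulated categories -/

section Tensor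

variable {C : Type u} [Category.{v} C] [Preadditive C] [HasZeroObject C] [HasShift C ℤ]
  [∀ n : ℤ, (shiftFunctor C n).Additive] [Pretriangulated C] [MonoidalCategory C]
  [HasCoproducts.{v} C]

variable (C)

/-- Tensoring preserves homotopy colimits. -/
def S_hoTensor : Prop := ∀ (Z : C) (X : ℕ → C) (f : ∀ n, X n ⟶ X (n + 1)) (H : C) (i : ∀ n, X n ⟶ H),
    IsHocolim X f H i → IsHocolim (fun n => Z ⊗ X n) (fun n => Z ◁ f n) (Z ⊗ H) (fun n => Z ◁ i n)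

/-- (3.4): the tower argument. -/
def S_tower [MonoidalClosed C] : Prop := ∀ T K : ObjectProperty C, PhSetting T K → ∀ k : C, IsCpt k →
  (∀ x, K x → K ((ihom k).obj x)) →
  (∀ (c z : C) (φ : k ⊗ c ⟶ z), IsCpt c → T z → IsPh K φ → φ = 0) →
  ∀ z, T z → K ((ihom k).obj z)

variable {C}

/-- The action of a map `r : w ⟶ 𝟙` on an object `X`. -/
def act {w : C} (r : w ⟶ 𝟙_ C) (X : C) : w ⊗ X ⟶ X := r ▷ X ≫ (λ_ X).hom

/-- The product of two maps to the unit. -/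
def mulU {v w : C} (s : v ⟶ 𝟙_ C) (r : w ⟶ 𝟙_ C) : v ⊗ w ⟶ 𝟙_ C := act s w ≫ r

variable (C)

/-- Classes of maps to the unit (only their members with compact source matter). -/
abbrev MapCls := ∀ w : C, (w ⟶ 𝟙_ C) → Prop

variable {C}

/-- `χ ∈ K · X`. -/
def InMul (K : MapCls C) {w X : C} (χ : w ⟶ X) : Prop :=
  ∃ (d : C) (k : d ⟶ 𝟙_ C) (ψ : w ⟶ d ⊗ X), IsCpt d ∧ K d k ∧ χ = ψ ≫ act k X

/-- `K ⋆ φ = {r | r • φ ∈ K · X}` for `φ : c ⟶ X`. -/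
def star (K : MapCls C) {c X : C} (φ : c ⟶ X) : MapCls C := fun _ r => InMul K (act r c ≫ φ)

/-- The annihilator of an object. -/
def annCls (Y : C) : MapCls C := fun _ q => act q Y = 0

/-- The sequence of ideals `K_0 = K`, `K_{n+1} = K_n ⋆ φ_n`. -/
def Kseq (K : MapCls C) {c : ℕ → C} {X : C} (φ : ∀ n, c n ⟶ X) : ℕ → MapCls C
  | 0 => K
  | n + 1 => star (Kseq K φ n) (φ n)

/-- A thick ideal `D` of compact objects with its idempotent triangle `e → 𝟙 → f`. -/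
structure FinLoc (D : ObjectProperty C) {e f : C} (ε : e ⟶ 𝟙_ C) (η : 𝟙_ C ⟶ f) : Prop where
  ideal : IsThickIdeal D
  tri : ∃ δ : f ⟶ e⟦(1 : ℤ)⟧, Triangle.mk ε η δ ∈ distTriang C
  eloc : LocGen D e
  kill : ∀ d, D d → IsZero (d ⊗ f)

/-- `D`-local objects. -/
def IsLocal (D : ObjectProperty C) : ObjectProperty C := fun z => ∀ (d : C) (g : d ⟶ z), D d → g = 0

/-- Facts on local objects. -/
structure LocAPI [MonoidalClosed C] (D : ObjectProperty C) {f : C} (η : 𝟙_ C ⟶ f) : Prop where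
  locIdeal : IsLocIdeal (IsLocal D)
  prod : ∀ (ι : Type v) (X : ι → C) (F : Fan X), Nonempty (IsLimit F) → (∀ i, IsLocal D (X i)) →
    IsLocal D F.pt
  hom : ∀ s x : C, IsLocal D x → IsLocal D ((ihom s).obj x)
  loc : ∀ x : C, IsLocal D (f ⊗ x)
  iso : ∀ z : C, IsLocal D z → IsIso ((λ_ z).inv ≫ η ▷ z)
  fac : ∀ (x t : C) (g : x ⟶ t), IsLocal D t → ∃ g' : f ⊗ x ⟶ t, g = (λ_ x).inv ≫ η ▷ x ≫ g'

variable (C)

/-- Rigidity and compactness of the unit, together with the consequences of compact generation. -/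
structure RPkg : Prop extends Pkg C where
  unit : IsCpt (𝟙_ C)
  rigid : ∀ c : C, IsCpt c ↔ IsRigid c

def S_local [MonoidalClosed C] : Prop := ∀ (D : ObjectProperty C) (e f : C) (ε : e ⟶ 𝟙_ C)
  (η : 𝟙_ C ⟶ f), FinLoc D ε η → LocAPI D η

/-- Existence of idempotent triangles. -/
def S_finLocEx : Prop := ∀ D : ObjectProperty C, IsThickIdeal D →
  ∃ (e f : C) (ε : e ⟶ 𝟙_ C) (η : 𝟙_ C ⟶ f), FinLoc D ε η

/-- (0.6) -/
def S_ihomLoc [MonoidalClosed C] : Prop := ∀ K : ObjectProperty C, IsColocCoideal K → ∀ t : C,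
  IsLocIdeal (fun x => K ((ihom x).obj t))

/-- (0.5) -/
def S_fl05 : Prop := ∀ (W Z w : C) (γ : 𝟙_ C ⟶ W) (χ : w ⟶ Z), IsCpt w →
  χ ≫ (λ_ Z).inv ≫ γ ▷ Z = 0 →
  ∃ (d : C) (k : d ⟶ 𝟙_ C) (ψ : w ⟶ d ⊗ Z), IsCpt d ∧ k ≫ γ = 0 ∧ χ = ψ ≫ act k Z

/-- Property (H), the finite generation step of (5.1). -/
def S_H : Prop := ∀ (D : ObjectProperty C) (e f : C) (ε : e ⟶ 𝟙_ C) (η : 𝟙_ C ⟶ f), FinLoc D ε η →
  ∀ k : C, IsCpt k → ∀ (v : C) (s : v ⟶ 𝟙_ C), IsCpt v →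
    ∃ (v₀ : C) (q : v₀ ⟶ 𝟙_ C), IsCpt v₀ ∧ act (mulU s q) (f ⊗ k) = 0 ∧
      ∀ (w : C) (x : w ⟶ 𝟙_ C), IsCpt w → act (mulU x s) (f ⊗ k) = 0 →
        ∃ (v₁ : C) (t : v₁ ⟶ 𝟙_ C), IsCpt v₁ ∧
          (∀ (w' : C) (b : w' ⟶ 𝟙_ C), IsCpt w' → act (mulU t b) (f ⊗ k) = 0 →
            act b (f ⊗ k) = 0) ∧
          ∃ g : w ⊗ v₁ ⟶ v₀, mulU x t = g ≫ q

/-- (5.1)-(5.4): a sequence of maps to `X` for which the ideals `K_n` stay proper. -/
def S_seq : Prop := ∀ (D : ObjectProperty C) (e f : C) (ε : e ⟶ 𝟙_ C) (η : 𝟙_ C ⟶ f), FinLoc D ε η →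
  ∀ k : C, IsCpt k → ¬ IsZero (f ⊗ k) → ∀ X : C,
  (∀ (w : C) (q : w ⟶ 𝟙_ C), IsCpt w → act q (f ⊗ k) = 0 → act q X = 0) →
  (∀ L : ObjectProperty C, IsLocIdeal L → L X → L (f ⊗ k)) →
  ∃ (c : ℕ → C) (φ : ∀ n, c n ⟶ X), (∀ n, IsCpt (c n)) ∧
    ∀ n, ¬ Kseq (annCls (f ⊗ k)) φ n (𝟙_ C) (𝟙 (𝟙_ C))

/-- (4.3), (5.5): T-nilpotence, for every sequence of maps to `X = k^∨ ⊗ x` some `K_n` is everything. -/
def S_nil [MonoidalClosed C] : Prop := ∀ (D : ObjectProperty C) (e f : C) (ε : e ⟶ 𝟙_ C)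
  (η : 𝟙_ C ⟶ f), FinLoc D ε η →
  ∀ k kd : C, IsCpt k → Nonempty (ExactPairing kd k) →
  ∀ K : ObjectProperty C, IsColocCoideal K → (∀ x, K x → IsLocal D x) →
  (∀ y : C, IsLocal D y → (∀ (c' : C) (g : y ⟶ c'), K c' → g = 0) → IsZero (k ⊗ y)) →
  ∀ x : C, IsLocal D x → (∀ (c : C) (ψ : c ⟶ x), IsCpt c → Dom (IsLocal D) K ψ) →
  ∀ (c : ℕ → C) (φ : ∀ n, c n ⟶ kd ⊗ x), (∀ n, IsCpt (c n)) →
    ∃ n, Kseq (annCls (f ⊗ k)) φ n (𝟙_ C) (𝟙 (𝟙_ C))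

/-- (RT): the core of the proof (sections 3-5). -/
def S_core [MonoidalClosed C] : Prop := ∀ (D : ObjectProperty C) (e f : C) (ε : e ⟶ 𝟙_ C)
  (η : 𝟙_ C ⟶ f), FinLoc D ε η → ∀ k : C, IsCpt k →
  (∀ L : ObjectProperty C, IsLocIdeal L → ∀ y : C, L y → ¬ IsZero ((f ⊗ k) ⊗ y) → L (f ⊗ k)) →
  ∀ K : ObjectProperty C, IsColocCoideal K → (∀ x, K x → IsLocal D x) →
  (∃ c₀, K c₀ ∧ ¬ IsZero ((ihom k).obj c₀)) →
  ∀ z, IsLocal D z → K ((ihom k).obj z)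

/-! ### the Balmer spectrum -/

/-- Existence of primes. -/
def S_prime : Prop := ∀ J : ObjectProperty C, IsThickIdeal J → ∀ x : C, IsCpt x → ¬ J x →
  ∃ P : Spc C, (∀ a, J a → P.1 a) ∧ ¬ P.1 x

/-- Thomason subsets are unions of supports of compact objects. -/
def S_cover : Prop := ∀ Y : Set (Spc C), IsThomason Y → ∀ P ∈ Y, ∃ b : C, IsCpt b ∧ P ∈ supp b ∧
  supp b ⊆ Y

def S_cptIn : Prop := ∀ Y : Set (Spc C), IsThickIdeal (cptIn Y)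

/-- Idempotent triangles: the two descriptions. -/
def S_idem : Prop := ∀ (Y : Set (Spc C)) (e f : C),
  IsIdemTriangle Y e f ↔ ∃ (ε : e ⟶ 𝟙_ C) (η : 𝟙_ C ⟶ f), FinLoc (cptIn Y) ε η

/-- Orthogonality of the objects `g_P`. -/
def S_gorth : Prop := ∀ (P Q : Spc C) (g g' : C), IsG P g → IsG Q g' → P ≠ Q → IsZero (g ⊗ g')

end Tensor

/-! ## Part C: order theory for section 5 -/

section Order

variable {M : Type w} [CommMonoid M] [SemilatticeSup M] [OrderBot M]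

/-- Ideals of a join-semilattice-ordered monoid. -/
structure IsIdl (K : Set M) : Prop where
  bot : ⊥ ∈ K
  lower : ∀ a b : M, a ≤ b → b ∈ K → a ∈ K
  sup : ∀ a b : M, a ∈ K → b ∈ K → a ⊔ b ∈ K

/-- `(K : r)`. -/
def colon (K : Set M) (r : M) : Set M := {s | s * r ∈ K}

/-- Gabriel filters. -/
structure IsGab (G : Set (Set M)) : Prop where
  idl : ∀ K ∈ G, IsIdl K
  univ : Set.univ ∈ G
  up : ∀ K ∈ G, ∀ K', IsIdl K' → K ⊆ K' → K' ∈ G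
  g3 : ∀ K ∈ G, ∀ K', IsIdl K' → (∀ r ∈ K, colon K' r ∈ G) → K' ∈ G

/-- (5.1) -/
def S_agf : Prop := ∀ (M : Type w) [CommMonoid M] [SemilatticeSup M] [OrderBot M],
  (∀ a b c : M, a ≤ b → a * c ≤ b * c) → (∀ a : M, a ≤ 1) →
  (∀ a b c : M, (a ⊔ b) * c ≤ a * c ⊔ b * c) → (∀ a : M, ⊥ * a ≤ ⊥) →
  ∀ A : Set M, IsIdl A → (1 : M) ∉ A →
  (∀ s : M, ∃ q : M, s * q ∈ A ∧
    ∀ x : M, x * s ∈ A → ∃ t : M, (∀ b : M, t * b ∈ A → b ∈ A) ∧ x * t ≤ q) →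
  ∃ G : Set (Set M), IsGab G ∧ A ∉ G ∧ ∀ G' : Set (Set M), IsGab G' → G ⊆ G' → A ∉ G' → G' ⊆ G

end Order

end H948

namespace H948

/-- The final statement. -/
def S_main (C : Type u) [Category.{v} C] [Preadditive C] [HasZeroObject C] [HasShift C ℤ]
    [∀ n : ℤ, (shiftFunctor C n).Additive] [Pretriangulated C] [MonoidalCategory C]
    [MonoidalClosed C] [HasCoproducts.{v} C] : Prop :=
  WeaklyNoetherian C → Stratified C → Costratified C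

end H948
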