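import Pool.Agent.H948_Strat.Stmts

/-!
Task T3, auxiliary facts: partial sums of coproducts, compact objects form a triangulated subcategory.
-/

open CategoryTheory Limits MonoidalCategory Pretriangulated
open scoped ZeroObject

universe v u

set_option linter.unusedSectionVars false

namespace H948

section

variable {C : Type u} [Category.{v} C] [Preadditive C] [HasCoproducts.{v} C]

open Classical in
/-- The projection of a coproduct to a summand. -/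
noncomputable def T3_proj {ι : Type v} (X : ι → C) (i : ι) : (∐ X) ⟶ X i :=
  Sigma.desc fun j => if h : j = i then eqToHom (by rw [h]) else 0

theorem T3_ι_proj_self {ι : Type v} (X : ι → C) (i : ι) : Sigma.ι X i ≫ T3_proj X i = 𝟙 _ := by
  simp [T3_proj]

theorem T3_ι_proj_ne {ι : Type v} (X : ι → C) {i j : ι} (h : j ≠ i) :
    Sigma.ι X j ≫ T3_proj X i = 0 := by
  simp [T3_proj, h]

/-- The partial sums of the identity of a coproduct. -/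
noncomputable def T3_psum {ι : Type v} (X : ι → C) (s : Finset ι) : (∐ X) ⟶ ∐ X :=
  ∑ i ∈ s, T3_proj X i ≫ Sigma.ι X i

theorem T3_ι_psum_mem {ι : Type v} (X : ι → C) {s : Finset ι} {i : ι} (h : i ∈ s) :
    Sigma.ι X i ≫ T3_psum X s = Sigma.ι X i := by
  classical
  unfold T3_psum
  rw [Preadditive.comp_sum, Finset.sum_eq_single i]
  · rw [← Category.assoc, T3_ι_proj_self, Category.id_comp]
  · intro j _ hj
    rw [← Category.assoc, T3_ι_proj_ne X (Ne.symm hj), zero_comp]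
  · intro h'
    exact absurd h h'

theorem T3_ι_psum_notMem {ι : Type v} (X : ι → C) {s : Finset ι} {i : ι} (h : i ∉ s) :
    Sigma.ι X i ≫ T3_psum X s = 0 := by
  unfold T3_psum
  rw [Preadditive.comp_sum]
  refine Finset.sum_eq_zero fun j hj => ?_
  have hne : i ≠ j := fun h' => h (by rw [h']; exact hj)
  rw [← Category.assoc, T3_ι_proj_ne X hne, zero_comp]

theorem T3_psum_compl {ι : Type v} [DecidableEq ι] (X : ι → C) (s t : Finset ι) :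
    (𝟙 _ - T3_psum X s) ≫ (𝟙 _ - T3_psum X t) = 𝟙 _ - T3_psum X (s ∪ t) := by
  refine Sigma.hom_ext _ _ fun i => ?_
  by_cases hs : i ∈ s
  · rw [← Category.assoc, Preadditive.comp_sub (Sigma.ι X i) _ (T3_psum X s), T3_ι_psum_mem X hs,
      Category.comp_id, sub_self, zero_comp, Preadditive.comp_sub,
      T3_ι_psum_mem X (Finset.mem_union_left t hs), Category.comp_id, sub_self]
  · rw [← Category.assoc, Preadditive.comp_sub (Sigma.ι X i) _ (T3_psum X s),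
      T3_ι_psum_notMem X hs, sub_zero, Category.comp_id, Preadditive.comp_sub,
      Preadditive.comp_sub]
    by_cases ht : i ∈ t
    · rw [T3_ι_psum_mem X ht, T3_ι_psum_mem X (Finset.mem_union_right s ht)]
    · rw [T3_ι_psum_notMem X ht, T3_ι_psum_notMem X (by simp [hs, ht])]

theorem T3_isCpt_iff (c : C) : IsCpt c ↔ ∀ (ι : Type v) (X : ι → C) (f : c ⟶ ∐ X),
    ∃ s : Finset ι, f ≫ (𝟙 _ - T3_psum X s) = 0 := by
  constructor
  · intro h ι X f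
    obtain ⟨s, g, hg⟩ := h ι X f
    refine ⟨s, ?_⟩
    rw [Preadditive.comp_sub, Category.comp_id, sub_eq_zero, hg, Preadditive.sum_comp]
    refine Finset.sum_congr rfl fun i hi => ?_
    rw [Category.assoc, T3_ι_psum_mem X hi]
  · intro h ι X f
    obtain ⟨s, hs⟩ := h ι X f
    refine ⟨s, fun i => f ≫ T3_proj X i, ?_⟩
    rw [Preadditive.comp_sub, Category.comp_id, sub_eq_zero] at hs
    conv_lhs => rw [hs]
    unfold T3_psum
    rw [Preadditive.comp_sum]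
    exact Finset.sum_congr rfl fun i _ => (Category.assoc _ _ _).symm

end

section Tri

variable {C : Type u} [Category.{v} C] [Preadditive C] [HasZeroObject C] [HasShift C ℤ]
  [∀ n : ℤ, (shiftFunctor C n).Additive] [Pretriangulated C] [HasCoproducts.{v} C]

theorem T3_complete₂ {x y z x' y' z' : C} {f : x ⟶ y} {g : y ⟶ z} {h : z ⟶ x⟦(1 : ℤ)⟧}
    {f' : x' ⟶ y'} {g' : y' ⟶ z'} {h' : z' ⟶ x'⟦(1 : ℤ)⟧} (H : Triangle.mk f g h ∈ distTriang C)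
    (H' : Triangle.mk f' g' h' ∈ distTriang C) (a : x ⟶ x') (c : z ⟶ z')
    (comm : h ≫ a⟦(1 : ℤ)⟧' = c ≫ h') : ∃ b : y ⟶ y', f ≫ b = a ≫ f' ∧ g ≫ c = b ≫ g' :=
  complete_distinguished_triangle_morphism₂ _ _ H H' a c comm

theorem T3_complete₃ {x y z x' y' z' : C} {f : x ⟶ y} {g : y ⟶ z} {h : z ⟶ x⟦(1 : ℤ)⟧}
    {f' : x' ⟶ y'} {g' : y' ⟶ z'} {h' : z' ⟶ x'⟦(1 : ℤ)⟧} (H : Triangle.mk f g h ∈ distTriang C)
    (H' : Triangle.mk f' g' h' ∈ distTriang C) (a : x ⟶ x') (b : y ⟶ y')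
    (comm : f ≫ b = a ≫ f') : ∃ c : z ⟶ z', g ≫ c = b ≫ g' ∧ h ≫ a⟦(1 : ℤ)⟧' = c ≫ h' :=
  complete_distinguished_triangle_morphism _ _ H H' a b comm

theorem T3_yo₂ {x y z : C} {f : x ⟶ y} {g : y ⟶ z} {h : z ⟶ x⟦(1 : ℤ)⟧}
    (H : Triangle.mk f g h ∈ distTriang C) {t : C} (k : y ⟶ t) (hk : f ≫ k = 0) :
    ∃ l : z ⟶ t, k = g ≫ l :=
  Triangle.yoneda_exact₂ _ H k hk

theorem T3_yo₃ {x y z : C} {f : x ⟶ y} {g : y ⟶ z} {h : z ⟶ x⟦(1 : ℤ)⟧}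
    (H : Triangle.mk f g h ∈ distTriang C) {t : C} (k : z ⟶ t) (hk : g ≫ k = 0) :
    ∃ l : x⟦(1 : ℤ)⟧ ⟶ t, k = h ≫ l :=
  Triangle.yoneda_exact₃ _ H k hk

theorem T3_yo₁ {x y z : C} {f : x ⟶ y} {g : y ⟶ z} {h : z ⟶ x⟦(1 : ℤ)⟧}
    (H : Triangle.mk f g h ∈ distTriang C) {t : C} (k : x ⟶ t) (hk : h ≫ k⟦(1 : ℤ)⟧' = 0) :
    ∃ l : y ⟶ t, k = f ≫ l := by
  obtain ⟨l, hl, -⟩ := T3_complete₂ H (contractible_distinguished t) k 0
    (by rw [hk, zero_comp])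
  exact ⟨l, by rw [hl, Category.comp_id]⟩

theorem T3_co₂ {x y z : C} {f : x ⟶ y} {g : y ⟶ z} {h : z ⟶ x⟦(1 : ℤ)⟧}
    (H : Triangle.mk f g h ∈ distTriang C) {t : C} (k : t ⟶ y) (hk : k ≫ g = 0) :
    ∃ l : t ⟶ x, k = l ≫ f :=
  Triangle.coyoneda_exact₂ _ H k hk

theorem T3_co₃ {x y z : C} {f : x ⟶ y} {g : y ⟶ z} {h : z ⟶ x⟦(1 : ℤ)⟧}
    (H : Triangle.mk f g h ∈ distTriang C) {t : C} (k : t ⟶ z) (hk : k ≫ h = 0) :
    ∃ l : t ⟶ y, k = l ≫ g :=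
  Triangle.coyoneda_exact₃ _ H k hk

theorem T3_z₁₂ {x y z : C} {f : x ⟶ y} {g : y ⟶ z} {h : z ⟶ x⟦(1 : ℤ)⟧}
    (H : Triangle.mk f g h ∈ distTriang C) : f ≫ g = 0 :=
  comp_distTriang_mor_zero₁₂ _ H

theorem T3_z₂₃ {x y z : C} {f : x ⟶ y} {g : y ⟶ z} {h : z ⟶ x⟦(1 : ℤ)⟧}
    (H : Triangle.mk f g h ∈ distTriang C) : g ≫ h = 0 :=
  comp_distTriang_mor_zero₂₃ _ H

theorem T3_z₃₁ {x y z : C} {f : x ⟶ y} {g : y ⟶ z} {h : z ⟶ x⟦(1 : ℤ)⟧}
    (H : Triangle.mk f g h ∈ distTriang C) : h ≫ f⟦(1 : ℤ)⟧' = 0 :=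
  comp_distTriang_mor_zero₃₁ _ H

theorem T3_isoTri {x y z x' y' z' : C} {f : x ⟶ y} {g : y ⟶ z} {h : z ⟶ x⟦(1 : ℤ)⟧}
    {f' : x' ⟶ y'} {g' : y' ⟶ z'} {h' : z' ⟶ x'⟦(1 : ℤ)⟧} (H : Triangle.mk f g h ∈ distTriang C)
    (e₁ : x' ≅ x) (e₂ : y' ≅ y) (e₃ : z' ≅ z) (c₁ : f' ≫ e₂.hom = e₁.hom ≫ f)
    (c₂ : g' ≫ e₃.hom = e₂.hom ≫ g) (c₃ : h' ≫ e₁.hom⟦(1 : ℤ)⟧' = e₃.hom ≫ h) :
    Triangle.mk f' g' h' ∈ distTriang C :=
  isomorphic_distinguished _ H _ (Triangle.isoMk _ _ e₁ e₂ e₃ c₁ c₂ c₃)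

theorem T3_rot {x y z : C} {f : x ⟶ y} {g : y ⟶ z} {h : z ⟶ x⟦(1 : ℤ)⟧}
    (H : Triangle.mk f g h ∈ distTriang C) :
    Triangle.mk g h (-(f⟦(1 : ℤ)⟧')) ∈ distTriang C :=
  rot_of_distTriang _ H

theorem T3_unrot {x y z : C} {f : x ⟶ y} {g : y ⟶ z} {h : z ⟶ x⟦(1 : ℤ)⟧}
    (H : Triangle.mk g h (-(f⟦(1 : ℤ)⟧')) ∈ distTriang C) :
    Triangle.mk f g h ∈ distTriang C :=
  (rotate_distinguished_triangle _).2 H

theorem T3_cpt_iso : ObjectProperty.IsClosedUnderIsomorphisms (C := C) IsCpt where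
  of_iso := by
    intro X Y e hX ι Z f
    obtain ⟨s, g, hg⟩ := hX ι Z (e.hom ≫ f)
    refine ⟨s, fun i => e.inv ≫ g i, ?_⟩
    rw [← cancel_epi e.hom, hg, Preadditive.comp_sum]
    exact Finset.sum_congr rfl fun i _ => by simp

theorem T3_cpt_ext (T : Triangle C) (hT : T ∈ distTriang C) (h₁ : IsCpt T.obj₁)
    (h₃ : IsCpt T.obj₃) : IsCpt T.obj₂ := by
  classical
  rw [T3_isCpt_iff] at *
  intro ι X f
  obtain ⟨s, hs⟩ := h₁ ι X (T.mor₁ ≫ f)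
  obtain ⟨h, hh⟩ := Triangle.yoneda_exact₂ T hT (f ≫ (𝟙 _ - T3_psum X s))
    (by rw [← Category.assoc]; exact hs)
  obtain ⟨t, ht⟩ := h₃ ι X h
  refine ⟨s ∪ t, ?_⟩
  rw [← T3_psum_compl, ← Category.assoc, hh, Category.assoc, ht, comp_zero]

theorem T3_cpt_shift (c : C) (hc : IsCpt c) (n : ℤ) : IsCpt (c⟦n⟧) := by
  intro ι X f
  let G := shiftFunctor C (-n)
  let e : c⟦n⟧⟦-n⟧ ≅ c := shiftShiftNeg c n
  obtain ⟨s, g, hg⟩ := hc ι (fun i => G.obj (X i)) (e.inv ≫ G.map f ≫ (PreservesCoproduct.iso G X).hom)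
  have h1 : ∀ i, ∃ h : c⟦n⟧ ⟶ X i, G.map h = e.hom ≫ g i := fun i => G.map_surjective _
  choose h hh using h1
  refine ⟨s, h, G.map_injective ?_⟩
  rw [Functor.map_sum]
  have h2 : G.map f = e.hom ≫ (∑ i ∈ s, g i ≫ Sigma.ι (fun i => G.obj (X i)) i) ≫
      (PreservesCoproduct.iso G X).inv := by
    rw [← hg, Category.assoc, Category.assoc, Iso.hom_inv_id, Category.comp_id, Iso.hom_inv_id_assoc]
  rw [h2, Preadditive.sum_comp, Preadditive.comp_sum]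
  refine Finset.sum_congr rfl fun i _ => ?_
  rw [Functor.map_comp, hh, PreservesCoproduct.inv_hom]
  simp

theorem T3_cpt_zero : ObjectProperty.ContainsZero (C := C) IsCpt where
  exists_zero := ⟨0, isZero_zero C, fun ι X f => ⟨∅, fun _ => 0, by
    rw [Finset.sum_empty]; exact (isZero_zero C).eq_of_src _ _⟩⟩

theorem T3_cptTri : ObjectProperty.IsTriangulated (C := C) IsCpt := by
  have := T3_cpt_iso (C := C)
  exact
    { toContainsZero := T3_cpt_zero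
      toIsStableUnderShift := ⟨fun n => ⟨fun c hc => T3_cpt_shift c hc n⟩⟩
      toIsTriangulatedClosed₂ := .mk' T3_cpt_ext }

theorem T3_cpt_retract {c d : C} (i : c ⟶ d) (r : d ⟶ c) (h : i ≫ r = 𝟙 c) (hd : IsCpt d) :
    IsCpt c := by
  intro ι X f
  obtain ⟨s, g, hg⟩ := hd ι X (r ≫ f)
  refine ⟨s, fun j => i ≫ g j, ?_⟩
  have : f = i ≫ r ≫ f := by rw [← Category.assoc, h, Category.id_comp]
  rw [this, hg, Preadditive.comp_sum]
  exact Finset.sum_congr rfl fun i _ => (Category.assoc _ _ _).symm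

end Tri

end H948
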