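import Pool.Agent.H948_Strat.Stmts
import Mathlib.CategoryTheory.Triangulated.Subcategory

/-!
The tower argument (3.4).
-/

open CategoryTheory Limits MonoidalCategory Pretriangulated

universe v u

namespace H948

section Tri

variable {C : Type u} [Category.{v} C] [Preadditive C] [HasZeroObject C] [HasShift C ℤ]
  [∀ n : ℤ, (shiftFunctor C n).Additive] [Pretriangulated C]

/-- Left cancellation for `K.trW`. -/
lemma T7_trW_cancel [IsTriangulated C] {K : ObjectProperty C} [K.IsClosedUnderIsomorphisms]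
    [K.IsTriangulated] {X Y Z : C} (f : X ⟶ Y) (g : Y ⟶ Z) (hf : K.trW f) (hfg : K.trW (f ≫ g)) :
    K.trW g := by
  obtain ⟨Z12, v12, w12, H12, m12⟩ := hf
  obtain ⟨Z13, v13, w13, H13, m13⟩ := hfg
  obtain ⟨Z23, v23, w23, H23⟩ := distinguished_cocone_triangle g
  exact ⟨_, _, _, H23, K.ext_of_isTriangulatedClosed₃ _
    (Triangulated.someOctahedron rfl H12 H23 H13).mem m12 m13⟩

/-- A left adjoint whose right adjoint preserves coproducts preserves compact objects. -/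
lemma T7_cpt_of_adj [HasCoproducts.{v} C] {F G : C ⥤ C} (adj : F ⊣ G) [F.Additive]
    (hG : ∀ ι : Type v, PreservesColimitsOfShape (Discrete ι) G) {c : C} (hc : IsCpt c) :
    IsCpt (F.obj c) := by
  intro ι X f
  have := hG ι
  have : G.Additive := adj.right_adjoint_additive
  obtain ⟨s, g, hg⟩ := hc ι (fun i => G.obj (X i))
    (adj.homEquiv _ _ f ≫ (PreservesCoproduct.iso G X).hom)
  refine ⟨s, fun i => (adj.homEquiv _ _).symm (g i), ?_⟩
  have h1 : adj.homEquiv _ _ f = ∑ i ∈ s, g i ≫ G.map (Sigma.ι X i) := by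
    have := congrArg (fun t => t ≫ (PreservesCoproduct.iso G X).inv) hg
    simp only [Category.assoc, Iso.hom_inv_id, Category.comp_id, Preadditive.sum_comp] at this
    rw [this]
    refine Finset.sum_congr rfl fun i _ => ?_
    congr 1
    simp [PreservesCoproduct.inv_hom]
  have h2 : f = (adj.homEquiv _ _).symm (∑ i ∈ s, g i ≫ G.map (Sigma.ι X i)) := by
    rw [← h1, Equiv.symm_apply_apply]
  rw [h2, Adjunction.homEquiv_counit, Functor.map_sum, Preadditive.sum_comp]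
  refine Finset.sum_congr rfl fun i _ => ?_
  simp [Adjunction.homEquiv_counit]

/-- Shifts of compact objects are compact. -/
lemma T7_cpt_shift [HasCoproducts.{v} C] {c : C} (hc : IsCpt c) (n : ℤ) : IsCpt (c⟦n⟧) := by
  have : (shiftEquiv C n).functor.Additive := inferInstanceAs (shiftFunctor C n).Additive
  exact T7_cpt_of_adj (shiftEquiv C n).toAdjunction (fun _ => inferInstance) hc

/-- If `s` kills all maps from compact objects, then `1 - s` is an isomorphism. -/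
lemma T7_isIso_one_sub [HasCoproducts.{v} C]
    (hgen : ∀ X : C, (∀ (c : C) (f : c ⟶ X), IsCpt c → f = 0) → IsZero X)
    {A : C} (s : A ⟶ A) (hs : ∀ (c : C) (a : c ⟶ A), IsCpt c → a ≫ s = 0) :
    IsIso (𝟙 A - s) := by
  obtain ⟨Y, g, h, hT⟩ := distinguished_cocone_triangle (𝟙 A - s)
  refine (Triangle.isZero₃_iff_isIso₁ _ hT).1 (hgen Y fun c y hc => ?_)
  have h2 : (y ≫ h) ≫ s⟦(1 : ℤ)⟧' = 0 := by
    let e : (c⟦(-1 : ℤ)⟧)⟦(1 : ℤ)⟧ ≅ c := (shiftEquiv C (1 : ℤ)).counitIso.app c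
    obtain ⟨a, ha⟩ := (shiftFunctor C (1 : ℤ)).map_surjective (e.hom ≫ y ≫ h)
    rw [← cancel_epi e.hom]
    have : e.hom ≫ (y ≫ h) ≫ s⟦(1 : ℤ)⟧' = (a ≫ s)⟦(1 : ℤ)⟧' := by
      rw [Functor.map_comp, ha]; simp
    rw [this, hs _ a (T7_cpt_shift hc _)]
    simp
  have h1 : (y ≫ h) ≫ (𝟙 A - s)⟦(1 : ℤ)⟧' = 0 := by
    have := comp_distTriang_mor_zero₃₁ _ hT
    change h ≫ (𝟙 A - s)⟦(1 : ℤ)⟧' = 0 at this
    rw [Category.assoc, this, comp_zero]
  have h0 : y ≫ h = 0 := by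
    rw [Functor.map_sub, Preadditive.comp_sub, h2, sub_zero] at h1
    simpa using h1
  obtain ⟨a, ha⟩ : ∃ a : c ⟶ A, y = a ≫ g := Triangle.coyoneda_exact₃ _ hT y h0
  have h3 : a = a ≫ (𝟙 A - s) := by
    rw [Preadditive.comp_sub, hs _ a hc]; simp
  have h4 : (𝟙 A - s) ≫ g = 0 := comp_distTriang_mor_zero₁₂ _ hT
  rw [ha, h3, Category.assoc, h4, comp_zero]

/-- Products of maps of `K.trW` are in `K.trW`. -/
lemma T7_trW_pi [HasProducts.{v} C] {K : ObjectProperty C}
    (hprod : ∀ (ι : Type v) (X : ι → C) (F : Fan X), Nonempty (IsLimit F) → (∀ i, K (X i)) →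
      K F.pt) {J : Type v} {X Y : J → C} (f : ∀ j, X j ⟶ Y j) (hf : ∀ j, K.trW (f j)) :
    K.trW (Limits.Pi.map f) := by
  choose Z g h hT hZ using hf
  exact ⟨_, _, _, productTriangle_distinguished (fun j => Triangle.mk (f j) (g j) (h j)) hT,
    hprod J Z _ ⟨limit.isLimit _⟩ hZ⟩

/-- The shift map of a countable power. -/
noncomputable def T7_sh [HasProducts.{v} C] (W : C) :
    (∏ᶜ fun _ : ULift.{v} ℕ => W) ⟶ (∏ᶜ fun _ : ULift.{v} ℕ => W) :=
  Pi.lift fun n : ULift.{v} ℕ => Pi.π (fun _ : ULift.{v} ℕ => W) ⟨n.down + 1⟩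

/-- `K` contains `W` as soon as the cone of `1 - shift` on the countable power of `W` is in `K`. -/
lemma T7_of_trW_sh [HasProducts.{v} C] {K : ObjectProperty C} [K.IsClosedUnderIsomorphisms]
    [K.IsTriangulated] (W : C) (hK : K.trW (𝟙 _ - T7_sh W)) : K W := by
  set B := ∏ᶜ fun _ : ULift.{v} ℕ => W with hB
  let π : ULift.{v} ℕ → (B ⟶ W) := fun n => Pi.π (fun _ : ULift.{v} ℕ => W) n
  have hπ : ∀ n, (𝟙 B - T7_sh W) ≫ π n = π n - π ⟨n.down + 1⟩ := by
    intro n
    simp [π, T7_sh, Preadditive.sub_comp]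
  have hext : ∀ {X : C} (f g : X ⟶ B), (∀ n, f ≫ π n = g ≫ π n) → f = g := by
    intro X f g h
    exact Limits.Pi.hom_ext _ _ h
  -- the section of `1 - shift`
  let σ : B ⟶ B := Pi.lift fun n : ULift.{v} ℕ => -∑ i ∈ Finset.range n.down, π ⟨i⟩
  have hσπ : ∀ n, σ ≫ π n = -∑ i ∈ Finset.range n.down, π ⟨i⟩ := by
    intro n
    simp [σ, π]
  have hσ : σ ≫ (𝟙 B - T7_sh W) = 𝟙 B := by
    apply hext
    intro n
    rw [Category.assoc, hπ, Preadditive.comp_sub, hσπ, hσπ, Finset.sum_range_succ]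
    simp
  obtain ⟨F, i, w, hT⟩ := distinguished_cocone_triangle₁ (𝟙 B - T7_sh W)
  have hF : K F := (K.trW_iff_of_distinguished' _ hT).1 hK
  have : Epi (𝟙 B - T7_sh W) := ⟨fun f g h => by
    have := congrArg (fun t => σ ≫ t) h
    simpa only [← Category.assoc, hσ, Category.id_comp] using this⟩
  have : Mono i := Triangle.mono₁ _ hT (Triangle.mor₃_eq_zero_of_epi₂ _ hT ‹_›)
  let d : W ⟶ B := Pi.lift fun _ : ULift.{v} ℕ => 𝟙 W
  have hdπ : ∀ n, d ≫ π n = 𝟙 W := by
    intro n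
    simp [d, π]
  have hd : d ≫ (𝟙 B - T7_sh W) = 0 := by
    apply hext
    intro n
    rw [Category.assoc, hπ, Preadditive.comp_sub, hdπ, hdπ]
    simp
  obtain ⟨a, ha⟩ : ∃ a : W ⟶ F, d = a ≫ i := Triangle.coyoneda_exact₂ _ hT d hd
  have hi : i ≫ (𝟙 B - T7_sh W) = 0 := comp_distTriang_mor_zero₁₂ _ hT
  have hi' : ∀ n : ℕ, i ≫ π ⟨n⟩ = i ≫ π ⟨0⟩ := by
    intro n
    induction n with
    | zero => rfl
    | succ n ih =>
      have h1 := hπ ⟨n⟩
      have h2 : i ≫ (𝟙 B - T7_sh W) ≫ π ⟨n⟩ = 0 := by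
        rw [← Category.assoc, hi, zero_comp]
      rw [h1, Preadditive.comp_sub, sub_eq_zero] at h2
      rw [← ih, h2]
  have hid : i = (i ≫ π ⟨0⟩) ≫ d := by
    apply hext
    rintro ⟨n⟩
    rw [Category.assoc, hdπ, Category.comp_id, hi' n]
  let e : F ≅ W :=
    { hom := i ≫ π ⟨0⟩
      inv := a
      hom_inv_id := by
        rw [← cancel_mono i, Category.assoc, ← ha, ← hid, Category.id_comp]
      inv_hom_id := by
        rw [← Category.assoc, ← ha, hdπ] }
  exact K.prop_of_iso e hF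

end Tri

section Tensor

variable {C : Type u} [Category.{v} C] [Preadditive C] [HasZeroObject C] [HasShift C ℤ]
  [∀ n : ℤ, (shiftFunctor C n).Additive] [Pretriangulated C]
  [MonoidalCategory C] [MonoidalClosed C] [TensorExact C]

/-- `[k, -]` preserves `K.trW` if it preserves `K`. -/
lemma T7_ihom_trW {K : ObjectProperty C} (k : C) (hK : ∀ x, K x → K ((ihom k).obj x)) {X Y : C}
    (f : X ⟶ Y) (hf : K.trW f) : K.trW ((ihom k).map f) := by
  obtain ⟨h1, h2⟩ := TensorExact.exact (C := C) k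
  let := h1
  let : (ihom k).CommShift ℤ := (ihom.adjunction k).rightAdjointCommShift ℤ
  have : (ihom.adjunction k).CommShift ℤ := (ihom.adjunction k).commShift_of_leftAdjoint ℤ
  have : (ihom k).IsTriangulated := (ihom.adjunction k).isTriangulated_rightAdjoint
  obtain ⟨Z, g, h, hT, hZ⟩ := hf
  exact ⟨_, _, _, (ihom k).map_distinguished _ hT, hK Z hZ⟩

end Tensor

section Main

variable {C : Type u} [Category.{v} C] [Preadditive C] [HasZeroObject C] [HasShift C ℤ]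
  [∀ n : ℤ, (shiftFunctor C n).Additive] [Pretriangulated C] [IsTriangulated C]
  [HasCoproducts.{v} C] [MonoidalCategory C] [SymmetricCategory C] [MonoidalClosed C]
  [TensorExact C]

/-- The tensor product of compact objects is compact. -/
lemma T7_cpt_tensor (hR : RPkg C) {k c : C} (hk : IsCpt k) (hc : IsCpt c) : IsCpt (k ⊗ c) := by
  obtain ⟨k', ⟨i⟩⟩ := (hR.rigid k).1 hk
  obtain ⟨c', ⟨j⟩⟩ := (hR.rigid c).1 hc
  exact (hR.rigid _).2 ⟨c' ⊗ k', ⟨ExactPairing.tensor⟩⟩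

/-- The tower of (3.4), as a sequence of objects over `z`. -/
lemma T7_tower_ex (hz : S_z1 C) {T K : ObjectProperty C} (h : PhSetting T K) {z : C} (hTz : T z) :
    ∃ (Z : ℕ → C) (p : ∀ n, Z (n + 1) ⟶ Z n), Z 0 = z ∧ (∀ n, T (Z n)) ∧ (∀ n, K.trW (p n)) ∧
      ∀ (n : ℕ) (c : C) (χ : c ⟶ Z (n + 1)), IsCpt c → IsPh K (χ ≫ p n) := by
  choose f hf using fun x : {x : C // T x} => hz T K h x.1 x.2
  choose p hp using hf
  let S : ℕ → {x : C // T x} := fun n => Nat.rec ⟨z, hTz⟩ (fun _ x => ⟨f x, (hp x).1⟩) n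
  refine ⟨fun n => (S n).1, fun n => p (S n), rfl, fun n => (S n).2, fun n => (hp (S n)).2.1, ?_⟩
  intro n c χ hc
  exact ((hp (S n)).2.2 c _ hc).2 ⟨χ, rfl⟩

theorem tower [HasProducts.{v} C] (hR : RPkg C) (hz : S_z1 C) : S_tower C := by
  intro T K hS k hk hKk hph z hTz
  have := hS.Kiso
  have := hS.Ktri
  obtain ⟨Z, p, hZ0, hTZ, hp, hpp⟩ := T7_tower_ex hz hS hTz
  subst hZ0
  -- maps from compacts to `[k, Z (n+1)]` die in `[k, Z n]`
  have hkill : ∀ (n : ℕ) (c : C) (a : c ⟶ (ihom k).obj (Z (n + 1))), IsCpt c →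
      a ≫ (ihom k).map (p n) = 0 := by
    intro n c a hc
    have h1 : MonoidalClosed.uncurry (a ≫ (ihom k).map (p n)) = 0 := by
      rw [MonoidalClosed.uncurry_natural_right]
      exact hph c _ _ hc (hTZ n) (hpp n _ _ (T7_cpt_tensor hR hk hc))
    have : (tensorLeft k).PreservesZeroMorphisms := by
      have : (tensorLeft k).IsLeftAdjoint := (ihom.adjunction k).isLeftAdjoint
      infer_instance
    have h2 : MonoidalClosed.uncurry (0 : c ⟶ (ihom k).obj (Z n)) = 0 := by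
      rw [MonoidalClosed.uncurry_eq]
      have h3 : k ◁ (0 : c ⟶ (ihom k).obj (Z n)) = 0 := (tensorLeft k).map_zero _ _
      rw [h3, zero_comp]
    exact MonoidalClosed.uncurry_injective (h1.trans h2.symm)
  -- the composites `Z n ⟶ Z 0`
  let q : ∀ n, Z n ⟶ Z 0 := fun n => Nat.rec (𝟙 _) (fun n r => p n ≫ r) n
  have hq : ∀ n, K.trW (q n) := by
    intro n
    induction n with
    | zero => exact MorphismProperty.id_mem _ _
    | succ n ih => exact K.trW.comp_mem _ _ (hp n) ih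
  -- the products
  let XA : ULift.{v} ℕ → C := fun n => (ihom k).obj (Z n.down)
  let W : C := (ihom k).obj (Z 0)
  let A : C := ∏ᶜ XA
  let B : C := ∏ᶜ fun _ : ULift.{v} ℕ => W
  let s : A ⟶ A := Pi.lift fun n : ULift.{v} ℕ =>
    Pi.π XA ⟨n.down + 1⟩ ≫ (ihom k).map (p n.down)
  let α : A ⟶ B := Limits.Pi.map fun n : ULift.{v} ℕ => (ihom k).map (q n.down)
  have hs : IsIso (𝟙 A - s) := by
    refine T7_isIso_one_sub hR.gen s fun c a hc => ?_
    refine Limits.Pi.hom_ext _ _ fun n => ?_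
    simp only [s, Category.assoc, limit.lift_π, Fan.mk_π_app, zero_comp]
    rw [← Category.assoc]
    exact hkill _ _ _ hc
  have hα : K.trW α := T7_trW_pi hS.Kprod _ fun n => T7_ihom_trW k hKk _ (hq _)
  have hcomm : (𝟙 A - s) ≫ α = α ≫ (𝟙 B - T7_sh W) := by
    rw [Preadditive.sub_comp, Preadditive.comp_sub, Category.id_comp, Category.comp_id]
    congr 1
    refine Limits.Pi.hom_ext _ _ fun n => ?_
    simp [s, α, T7_sh, q]
  refine T7_of_trW_sh W (T7_trW_cancel α _ hα ?_)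
  rw [← hcomm]
  exact K.trW.comp_mem _ _ (K.trW_of_isIso _) hα

end Main

end H948
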