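import Pool.Agent.H948_Strat.Stmts

/-!
Task T6: the universal map whose image is the set of phantoms (3.3), and the tree argument (4.1), (4.2).
-/

open CategoryTheory Limits MonoidalCategory Pretriangulated

universe v u

namespace H948

section T6

variable {C : Type u} [Category.{v} C] [Preadditive C] [HasZeroObject C] [HasShift C ℤ]
  [∀ n : ℤ, (shiftFunctor C n).Additive] [Pretriangulated C] [HasCoproducts.{v} C]

omit [HasCoproducts.{v} C] in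
lemma T6_zero12 {T : Triangle C} (hT : T ∈ distTriang C) : T.mor₁ ≫ T.mor₂ = 0 :=
  comp_distTriang_mor_zero₁₂ _ hT

/-- The fibre of a map from `z` to a product of objects of `K`. -/
lemma T6_fib [HasProducts.{v} C] {T K : ObjectProperty C} (hS : PhSetting T K) {z : C} (hz : T z)
    {J : Type v} (c : J → C) (hc : ∀ j, K (c j)) (u : ∀ j, z ⟶ c j) :
    ∃ (z' : C) (p : z' ⟶ z), T z' ∧ K.trW p ∧ (∀ j, p ≫ u j = 0) ∧
      ∀ (w : C) (ψ : w ⟶ z), (∀ j, ψ ≫ u j = 0) → ∃ χ : w ⟶ z', ψ = χ ≫ p := by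
  have hK : K (∏ᶜ c) := hS.Kprod J c (limit.cone (Discrete.functor c)) ⟨limit.isLimit _⟩ hc
  obtain ⟨z', p, δ, hT⟩ := distinguished_cocone_triangle₁ (Pi.lift u)
  have h12 : p ≫ Pi.lift u = 0 := T6_zero12 hT
  have := hS.Tloc.iso
  have := hS.Tloc.tri
  refine ⟨z', p, ?_, ⟨_, _, _, hT, hK⟩, fun j => ?_, fun w ψ hψ => ?_⟩
  · exact T.ext_of_isTriangulatedClosed₁ _ hT hz (hS.KT _ hK)
  · have := h12 =≫ Pi.π c j
    simpa using this
  · have h0 : ψ ≫ Pi.lift u = 0 := by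
      refine Pi.hom_ext _ _ fun j => ?_
      simpa using hψ j
    obtain ⟨χ, hχ⟩ := Triangle.coyoneda_exact₂ _ hT ψ h0
    exact ⟨χ, hχ⟩

theorem z1 [HasProducts.{v} C] (hs : S_small C) : S_z1 C := by
  intro T K hS z hz
  obtain ⟨ι, G, hG, hsk⟩ := hs
  let J : Type v := Σ i : ι, {ψ : G i ⟶ z // ¬ IsPh K ψ}
  have hJ : ∀ j : J, ∃ (c : C) (u : z ⟶ c), K c ∧ j.2.1 ≫ u ≠ 0 := by
    intro j
    by_contra hcon
    push Not at hcon
    exact j.2.2 fun c g hc => hcon c g hc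
  choose c u hc hu using hJ
  obtain ⟨z', p, hz', hp, h0, hf⟩ := T6_fib hS hz c hc u
  refine ⟨z', p, hz', hp, fun w ψ hw => ⟨fun hψ => hf w ψ fun j => hψ _ _ (hc j), ?_⟩⟩
  rintro ⟨χ, rfl⟩
  obtain ⟨i, ⟨e⟩⟩ := hsk w hw
  have key : IsPh K (e.inv ≫ χ ≫ p) := by
    by_contra hcon
    refine hu ⟨i, e.inv ≫ χ ≫ p, hcon⟩ ?_
    change (e.inv ≫ χ ≫ p) ≫ u _ = 0
    rw [Category.assoc, Category.assoc, h0]
    simp
  intro d g hd
  have := key d g hd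
  rw [Category.assoc] at this
  have h2 := e.hom ≫= this
  simpa using h2

/-- Killing a set of maps from compact objects, in the category of `T`-objects. -/
lemma T6_quot {T K : ObjectProperty C} (hS : PhSetting T K) {ι : Type v} (G : ι → C) (x : C)
    (E : Set (Σ i : ι, (G i ⟶ x))) :
    ∃ (y : C) (j : x ⟶ y), T y ∧ (∀ e ∈ E, e.2 ≫ j = 0) ∧
      ∀ (t : C) (m : x ⟶ t), T t → (∀ e ∈ E, e.2 ≫ m = 0) → ∃ m' : y ⟶ t, m = j ≫ m' := by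
  obtain ⟨w, q, δ, hT⟩ := distinguished_cocone_triangle
    (Sigma.desc (fun e : E => e.1.2) : (∐ fun e : E => G e.1.1) ⟶ x)
  obtain ⟨y, j, hy, hj⟩ := hS.refl w
  have h12 : Sigma.desc (fun e : E => e.1.2) ≫ q = 0 := T6_zero12 hT
  refine ⟨y, q ≫ j, hy, fun e he => ?_, fun t m ht hm => ?_⟩
  · have := Sigma.ι (fun e : E => G e.1.1) ⟨e, he⟩ ≫= h12
    rw [← Category.assoc, colimit.ι_desc] at this
    have h3 : e.2 ≫ q = 0 := by simpa using this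
    rw [← Category.assoc, h3, zero_comp]
  · have h0 : Sigma.desc (fun e : E => e.1.2) ≫ m = 0 := by
      refine Sigma.hom_ext _ _ fun e => ?_
      simpa using hm e.1 e.2
    obtain ⟨g, hg⟩ := Triangle.yoneda_exact₂ _ hT m h0
    obtain ⟨g', hg'⟩ := hj t g ht
    refine ⟨g', ?_⟩
    rw [hg, Category.assoc, ← hg']
    rfl

/-- Nodes of the tree. -/
structure T6_Node (T : ObjectProperty C) (k : C) where
  x : C
  a : k ⟶ x
  hx : T x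

/-- The child relation of the tree. -/
def T6_Rel {T : ObjectProperty C} (K : ObjectProperty C) {k : C} {ι : Type v} (G : ι → C)
    (y : ∀ x : C, Set (Σ i : ι, (G i ⟶ x)) → C) (j : ∀ (x : C) (E : Set (Σ i : ι, (G i ⟶ x))), x ⟶ y x E)
    (hy : ∀ x E, T (y x E)) (n' n : T6_Node T k) : Prop :=
  ∃ E : Set (Σ i : ι, (G i ⟶ n.x)), n' = ⟨y n.x E, n.a ≫ j n.x E, hy n.x E⟩ ∧
    n.a ≫ j n.x E ≠ 0 ∧ ∀ (c : C) (ψ : c ⟶ n.x), IsCpt c → Dom T K (ψ ≫ j n.x E)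

omit [HasZeroObject C] [∀ n : ℤ, (shiftFunctor C n).Additive] [Pretriangulated C] in
lemma T6_rel_map {T K : ObjectProperty C} {k : C} {ι : Type v} {G : ι → C}
    {y : ∀ x : C, Set (Σ i : ι, (G i ⟶ x)) → C}
    {j : ∀ (x : C) (E : Set (Σ i : ι, (G i ⟶ x))), x ⟶ y x E}
    {hy : ∀ x E, T (y x E)} {n' n : T6_Node T k} (h : T6_Rel K G y j hy n' n) :
    ∃ f : n.x ⟶ n'.x, n.a ≫ f = n'.a ∧ n'.a ≠ 0 ∧
      ∀ (c : C) (ψ : c ⟶ n.x), IsCpt c → Dom T K (ψ ≫ f) := by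
  obtain ⟨E, rfl, h1, h2⟩ := h
  exact ⟨j n.x E, rfl, h1, h2⟩

theorem T6_step [IsTriangulated C] [HasProducts.{v} C] (hz1 : S_z1 C) {T K : ObjectProperty C}
    (hS : PhSetting T K) {k z : C} {φ : k ⟶ z} (hz : T z) (hφ : φ ≠ 0) {ι : Type v} {G : ι → C}
    (hsk : ∀ c : C, IsCpt c → ∃ i, Nonempty (c ≅ G i))
    {y : ∀ x : C, Set (Σ i : ι, (G i ⟶ x)) → C}
    {j : ∀ (x : C) (E : Set (Σ i : ι, (G i ⟶ x))), x ⟶ y x E}
    {hy : ∀ x E, T (y x E)} (hj0 : ∀ x E, ∀ e ∈ E, e.2 ≫ j x E = 0)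
    (hj : ∀ x E (t : C) (m : x ⟶ t), T t → (∀ e ∈ E, e.2 ≫ m = 0) →
      ∃ m' : y x E ⟶ t, m = j x E ≫ m')
    (n : T6_Node T k) (hacc : Acc (T6_Rel K G y j hy) n) :
    ∃ (z' : C) (p : z' ⟶ z), T z' ∧ K.trW p ∧ ¬ ∃ g : n.x ⟶ z', n.a ≫ g ≫ p = φ := by
  induction hacc with
  | intro n _ ih =>
    obtain ⟨x, a, hx⟩ := n
    have := hS.Ktri
    have := hS.Kiso
    -- the valid children
    let J : Type v := {E : Set (Σ i : ι, (G i ⟶ x)) // a ≫ j x E ≠ 0 ∧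
      ∀ (c : C) (ψ : c ⟶ x), IsCpt c → Dom T K (ψ ≫ j x E)}
    have ih' : ∀ E : J, ∃ (z' : C) (p : z' ⟶ z), T z' ∧ K.trW p ∧
        ¬ ∃ g : y x E.1 ⟶ z', (a ≫ j x E.1) ≫ g ≫ p = φ := by
      intro E
      exact ih ⟨y x E.1, a ≫ j x E.1, hy x E.1⟩ ⟨E.1, rfl, E.2.1, E.2.2⟩
    choose zE pE hzE hpE hnE using ih'
    have hpE' : ∀ E : J, ∃ (c : C) (u : z ⟶ c), K c ∧ ∀ (w : C) (ψ : w ⟶ z), ψ ≫ u = 0 →
        ∃ χ : w ⟶ zE E, ψ = χ ≫ pE E := by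
      intro E
      obtain ⟨c, u, δ, hT, hc⟩ := hpE E
      exact ⟨c, u, hc, fun w ψ h0 => Triangle.coyoneda_exact₂ _ hT ψ h0⟩
    choose c u hc hu using hpE'
    obtain ⟨z₂, p₂, hz₂, hp₂, h0, -⟩ := T6_fib hS hz c hc u
    obtain ⟨z₃, π, hz₃, hπ, hph⟩ := hz1 T K hS z₂ hz₂
    refine ⟨z₃, π ≫ p₂, hz₃, MorphismProperty.comp_mem _ _ _ hπ hp₂, ?_⟩
    rintro ⟨g, hg⟩
    change x ⟶ z₃ at g
    change a ≫ g ≫ π ≫ p₂ = φ at hg
    let E : Set (Σ i : ι, (G i ⟶ x)) := {e | e.2 ≫ g ≫ π = 0}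
    obtain ⟨m, hm⟩ := hj x E z₂ (g ≫ π) hz₂ fun e he => he
    have hne : a ≫ j x E ≠ 0 := by
      intro h
      apply hφ
      rw [← hg, ← Category.assoc g, hm, Category.assoc, ← Category.assoc a, h, zero_comp]
    have hdom : ∀ (c : C) (ψ : c ⟶ x), IsCpt c → Dom T K (ψ ≫ j x E) := by
      intro c ψ hc
      refine ⟨z₂, ψ ≫ g ≫ π, hz₂, (hph c _ hc).2 ⟨ψ ≫ g, by simp⟩, fun d r hd hr => ?_⟩
      obtain ⟨i, ⟨e⟩⟩ := hsk d hd
      have hmem : (⟨i, e.inv ≫ r ≫ ψ⟩ : Σ i : ι, (G i ⟶ x)) ∈ E := by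
        change (e.inv ≫ r ≫ ψ) ≫ g ≫ π = 0
        have := e.inv ≫= hr
        simpa using this
      have h1 : (e.inv ≫ r ≫ ψ) ≫ j x E = 0 := hj0 x E _ hmem
      have := e.hom ≫= h1
      simpa using this
    obtain ⟨l, hl⟩ := hu ⟨E, hne, hdom⟩ z₂ p₂ (h0 _)
    refine hnE ⟨E, hne, hdom⟩ ⟨m ≫ l, ?_⟩
    have e1 : (a ≫ j x E) ≫ (m ≫ l) ≫ pE ⟨E, hne, hdom⟩ =
        a ≫ (j x E ≫ m) ≫ (l ≫ pE ⟨E, hne, hdom⟩) := by simp only [Category.assoc]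
    refine e1.trans ?_
    rw [← hl, ← hm, Category.assoc]
    exact hg

theorem tree [IsTriangulated C] [HasProducts.{v} C] (ho : HoAPI C) (hs : S_small C)
    (hc : S_coprodTri C) (hz : S_z1 C) : S_tree C := by
  clear hc
  intro T K hS k z φ hk hTz hph hφ
  obtain ⟨ι, G, hG, hsk⟩ := hs
  choose y j hy hj0 hj using fun (x : C) (E : Set (Σ i : ι, (G i ⟶ x))) => T6_quot hS G x E
  obtain ⟨x₀, η, hx₀, hη⟩ := hS.refl k
  have := hS.Ktri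
  have := hS.Kiso
  have hroot : ¬ Acc (T6_Rel K G y j hy) (⟨x₀, η, hx₀⟩ : T6_Node T k) := by
    intro hacc
    obtain ⟨z', p, hz', hp, hn⟩ := T6_step hz hS hTz hφ hsk hj0 hj _ hacc
    obtain ⟨c, u, δ, hT, hc⟩ := hp
    obtain ⟨χ, hχ⟩ := Triangle.coyoneda_exact₂ _ hT φ (hph c u hc)
    obtain ⟨g, hg⟩ := hη z' χ hz'
    refine hn ⟨g, ?_⟩
    change η ≫ g ≫ p = φ
    rw [← Category.assoc, ← hg]
    exact hχ.symm
  obtain ⟨f, -, hf⟩ := not_acc_iff_exists_descending_chain.1 hroot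
  choose F hF1 hF2 hF3 using fun n => T6_rel_map (hf n)
  obtain ⟨H, i, hH⟩ := ho.ex (fun n => (f n).x) F
  have hTH : T H := ho.loc _ _ _ _ hH T hS.Tloc fun n => (f n).hx
  have hcomm := ho.comm _ _ _ _ hH
  have hne : ∀ n, (f n).a ≠ 0 := by
    intro n h0
    apply hF2 n
    rw [← hF1 n, h0, zero_comp]
  refine ⟨H, (f 0).a ≫ i 0, hTH, fun h0 => ?_, fun c ψ hc => ?_⟩
  · obtain ⟨m, hm⟩ := ho.cpt0 _ _ _ _ hH k 0 _ hk h0
    have hseq : ∀ m, (f 0).a ≫ seqMap (fun n => (f n).x) F 0 m = (f (0 + m)).a := by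
      intro m
      induction m with
      | zero => exact Category.comp_id _
      | succ m ih =>
        change (f 0).a ≫ seqMap (fun n => (f n).x) F 0 m ≫ F (0 + m) = _
        rw [← Category.assoc, ih]
        exact hF1 (0 + m)
    exact hne (0 + m) ((hseq m).symm.trans hm)
  · obtain ⟨n, b, hb⟩ := ho.cpt _ _ _ _ hH c ψ hc
    obtain ⟨z', ψ', hz', hph', hann⟩ := hF3 n c b hc
    refine ⟨z', ψ', hz', hph', fun d r hd hr => ?_⟩
    have h1 := hann d r hd hr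
    rw [hb, ← hcomm n]
    have h2 := h1 =≫ i (n + 1)
    simpa using h2

end T6

end H948
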