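import Pool.Agent.Results.MP_320227_al.StratImpliesCostrat

/-!
The objects `g_P` are well defined: they exist when the spectrum is weakly noetherian, and they do not depend on
the choices up to isomorphism. (These facts are not needed for the statement of the main theorem.)
-/

set_option linter.unusedSectionVars false

open CategoryTheory Limits MonoidalCategory Pretriangulated ZeroObject

universe v u

namespace H948

variable {C : Type u} [Category.{v} C] [Preadditive C] [HasZeroObject C] [HasShift C ℤ]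
  [∀ n : ℤ, (shiftFunctor C n).Additive] [Pretriangulated C] [IsTriangulated C]
  [MonoidalCategory C] [SymmetricCategory C] [MonoidalClosed C] [TensorExact C] [HasCoproducts.{v} C]

lemma WD_half (hC : RigCptGen C) (P : Spc C) (g g' : C) (h : IsG P g) (h' : IsG P g') :
    Nonempty (g ≅ g ⊗ g') := by
  have hR : RPkg C := rpkg_of hC
  have hct : S_cptTri C := cptTri
  have hcpt : S_cptIn C := cptIn_thick hR
  have hi : S_idem C := idem hR hcpt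
  have hp := prime hR
  have hc := cover hR
  obtain ⟨Y, Z, e, e', f, f', hY, hZ, hP, hI, hJ, rfl⟩ := h
  obtain ⟨Y₁, Z₁, e₁, e₁', f₁, f₁', hY₁, hZ₁, hQ, hI₁, hJ₁, rfl⟩ := h'
  obtain ⟨ε, η, hF⟩ := (hi Y e f').1 hI
  obtain ⟨ε', η', hF'⟩ := (hi Z e' f).1 hJ
  obtain ⟨ε₁, η₁, hF₁⟩ := (hi Y₁ e₁ f₁').1 hI₁
  obtain ⟨ε₁', η₁', hF₁'⟩ := (hi Z₁ e₁' f₁).1 hJ₁
  have hPY₁ : P ∈ Y₁ ∩ Z₁ᶜ := by rw [← hQ]; rfl
  -- `e ⊗ (f ⊗ f₁') = 0`
  have hA : IsZero (e ⊗ (f ⊗ f₁')) := by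
    refine hF.eloc _ (isLoc_tensorR isLoc_isZero (f ⊗ f₁')) (fun a ha => ?_)
    have hJ' := T15_thick_kill hR hct (f ⊗ f₁')
    refine (T15_union hp hc hY₁ hZ hJ' ?_ ?_ (a := a) ha.1 ?_).2
    · intro c hc'
      refine ⟨hc'.1, ?_⟩
      refine (isZero_tensor f (hF₁.kill c hc')).of_iso ?_
      exact (α_ c f f₁').symm ≪≫ whiskerRightIso (β_ c f) f₁' ≪≫ α_ f c f₁'
    · intro c hc'
      exact ⟨hc'.1, (isZero_tensorR f₁' (hF'.kill c hc')).of_iso (α_ c f f₁').symm⟩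
    · intro R hR'
      by_cases hRZ : R ∈ Z
      · exact Or.inr hRZ
      · have hR1 : R ∈ ({P} : Set (Spc C)) := by rw [hP]; exact ⟨ha.2 hR', hRZ⟩
        rw [Set.mem_singleton_iff] at hR1
        exact Or.inl (hR1 ▸ hPY₁.1)
  -- `(e ⊗ e₁') ⊗ f = 0`
  have hB : IsZero ((e ⊗ e₁') ⊗ f) := by
    have hk : ∀ a b : C, cptIn Y a → cptIn Z₁ b → IsZero ((a ⊗ b) ⊗ f) := by
      intro a b ha hb
      refine hF'.kill _ ⟨hR.cpt_tensor ha.1 hb.1, ?_⟩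
      intro R hR'
      have hRY : R ∈ Y := by
        by_contra hn
        have : ¬ ¬ R.1 a := fun h => hn (ha.2 h)
        exact hR' ((R.2.1.of_iso (β_ b a)) (R.2.1.tensor b a hb.1 (not_not.1 this)))
      have hRZ₁ : R ∈ Z₁ := by
        by_contra hn
        have : ¬ ¬ R.1 b := fun h => hn (hb.2 h)
        exact hR' (R.2.1.tensor a b ha.1 (not_not.1 this))
      by_contra hn
      have hR1 : R ∈ ({P} : Set (Spc C)) := by rw [hP]; exact ⟨hRY, hn⟩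
      rw [Set.mem_singleton_iff] at hR1
      exact hPY₁.2 (hR1 ▸ hRZ₁)
    have h1 : ∀ b : C, cptIn Z₁ b → IsZero ((e ⊗ b) ⊗ f) := by
      intro b hb
      exact hF.eloc _ (isLoc_tensorR (isLoc_tensorR isLoc_isZero f) b) (fun a ha => hk a b ha hb)
    exact hF₁'.eloc _ (isLoc_tensor (isLoc_tensorR isLoc_isZero f) e) (fun b hb => h1 b hb)
  obtain ⟨δ₁, hδ₁⟩ := hF₁.tri
  obtain ⟨δ₁', hδ₁'⟩ := hF₁'.tri
  -- `(e ⊗ f) ⊗ e₁ ≅ e ⊗ f`
  obtain ⟨δ₂, hδ₂⟩ := tensorTri (e ⊗ f) _ hδ₁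
  have h3 : IsZero ((e ⊗ f) ⊗ f₁') := hA.of_iso (α_ e f f₁')
  have h4 : IsIso ((e ⊗ f) ◁ ε₁) := (Triangle.isZero₃_iff_isIso₁ _ hδ₂).1 h3
  -- `((e ⊗ f) ⊗ e₁) ≅ ((e ⊗ f) ⊗ e₁) ⊗ f₁`
  obtain ⟨δ₃, hδ₃⟩ := tensorTri ((e ⊗ f) ⊗ e₁) _ hδ₁'
  have h5 : IsZero (((e ⊗ f) ⊗ e₁) ⊗ e₁') := by
    refine (isZero_tensorR e₁ hB).of_iso ?_
    exact α_ (e ⊗ f) e₁ e₁' ≪≫ whiskerLeftIso (e ⊗ f) (β_ e₁ e₁') ≪≫ (α_ (e ⊗ f) e₁' e₁).symm ≪≫
      whiskerRightIso (α_ e f e₁' ≪≫ whiskerLeftIso e (β_ f e₁') ≪≫ (α_ e e₁' f).symm) e₁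
  have h6 : IsIso (((e ⊗ f) ⊗ e₁) ◁ η₁') := (Triangle.isZero₁_iff_isIso₂ _ hδ₃).1 h5
  exact ⟨(ρ_ (e ⊗ f)).symm ≪≫ (asIso ((e ⊗ f) ◁ ε₁)).symm ≪≫ (ρ_ ((e ⊗ f) ⊗ e₁)).symm ≪≫
    asIso (((e ⊗ f) ⊗ e₁) ◁ η₁') ≪≫ α_ (e ⊗ f) e₁ f₁⟩

/-- The object `g_P` is unique up to isomorphism. -/
theorem isG_unique (hC : RigCptGen C) (P : Spc C) (g g' : C) (h : IsG P g) (h' : IsG P g') :
    Nonempty (g ≅ g') := by
  obtain ⟨i⟩ := WD_half hC P g g' h h'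
  obtain ⟨j⟩ := WD_half hC P g' g h' h
  exact ⟨i ≪≫ β_ g g' ≪≫ j.symm⟩

/-- If the spectrum is weakly noetherian, `gObj P` is of the form `e_Y ⊗ f_Z` with `{P} = Y ∩ Zᶜ`. -/
theorem gObj_spec (hC : RigCptGen C) (hw : WeaklyNoetherian C) (P : Spc C) : IsG P (gObj P) := by
  have hR : RPkg C := rpkg_of hC
  have hb : S_bous C := bous coprodTri (hoAPI C)
  have hcpt : S_cptIn C := cptIn_thick hR
  exact M_gspec (idem hR hcpt) (finLocEx hR hb) hcpt hw P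

/-- Every Thomason subset (indeed every subset) has an idempotent triangle. -/
theorem idemTriangle_exists (hC : RigCptGen C) (Y : Set (Spc C)) :
    ∃ e f : C, IsIdemTriangle Y e f := by
  have hR : RPkg C := rpkg_of hC
  have hb : S_bous C := bous coprodTri (hoAPI C)
  have hcpt : S_cptIn C := cptIn_thick hR
  obtain ⟨e, f, ε, η, hF⟩ := finLocEx hR hb (cptIn Y) (hcpt Y)
  exact ⟨e, f, (idem hR hcpt Y e f).2 ⟨ε, η, hF⟩⟩

end H948
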